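import Pool.Agent.Helper45.AecBase

/-! Free amalgams of families of structures over a common base. -/

open Cardinal

universe u

namespace Pool.Agent.Helper45.Aec

variable {τ : Voc.{u}}

section amalg

variable {B J : Type u} {D : J → Type u}

/-- the `j`-th copy in the amalgam -/
def inj (j : J) : B ⊕ D j → B ⊕ (Σ j, D j) := Sum.map id (Sigma.mk j)

theorem inj_inl (j : J) (b : B) : (inj j (Sum.inl b) : B ⊕ (Σ j, D j)) = Sum.inl b := rfl

theorem inj_inr (j : J) (d : D j) : (inj j (Sum.inr d) : B ⊕ (Σ j, D j)) = Sum.inr ⟨j, d⟩ := rfl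

theorem inj_injective (j : J) : Function.Injective (inj (B := B) (D := D) j) := by
  rintro (b | d) (b' | d') h
  · simpa [inj] using h
  · simp [inj] at h
  · simp [inj] at h
  · simpa [inj] using h

/-- the free amalgam of the structures `X j` over the common base `R0` -/
def amalg (R0 : Str τ B) (X : ∀ j, Str τ (B ⊕ D j)) : Str τ (B ⊕ (Σ j, D j)) := fun s v =>
  (∃ w, v = Sum.inl ∘ w ∧ R0 s w) ∨ ∃ j w, v = inj j ∘ w ∧ X j s w

variable {R0 : Str τ B} {X : ∀ j, Str τ (B ⊕ D j)}

theorem amalg_inl (hc : ∀ j s w, X j s (Sum.inl ∘ w) ↔ R0 s w) (s : τ.Sym)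
    (w : Fin (τ.ar s) → B) : amalg R0 X s (Sum.inl ∘ w) ↔ R0 s w := by
  constructor
  · rintro (⟨w', h1, h2⟩ | ⟨j, w', h1, h2⟩)
    · have : w = w' := by
        funext k
        exact Sum.inl_injective (congrFun h1 k)
      rw [this]; exact h2
    · have : w' = Sum.inl ∘ w := by
        funext k
        exact inj_injective (B := B) (D := D) j (congrFun h1 k).symm
      rw [this, hc] at h2
      exact h2
  · intro h
    exact Or.inl ⟨w, rfl, h⟩

theorem amalg_inj (hc : ∀ j s w, X j s (Sum.inl ∘ w) ↔ R0 s w) (j : J) (s : τ.Sym)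
    (w : Fin (τ.ar s) → B ⊕ D j) : amalg R0 X s (inj j ∘ w) ↔ X j s w := by
  constructor
  · rintro (⟨w', h1, h2⟩ | ⟨j', w', h1, h2⟩)
    · have : w = Sum.inl ∘ w' := by
        funext k
        exact inj_injective (B := B) (D := D) j (congrFun h1 k)
      rw [this, hc]; exact h2
    · by_cases hj : j = j'
      · subst hj
        have : w = w' := by
          funext k
          exact inj_injective (B := B) (D := D) j (congrFun h1 k)
        rw [this]; exact h2
      · have h3 : ∀ k, ∃ b, w k = Sum.inl b ∧ w' k = Sum.inl b := by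
          intro k
          have h4 := congrFun h1 k
          simp only [Function.comp] at h4
          rcases hw : w k with b | d
          · rcases hw' : w' k with b' | d'
            · rw [hw, hw'] at h4
              simp only [inj_inl, Sum.inl.injEq] at h4
              exact ⟨b, rfl, by rw [h4]⟩
            · rw [hw, hw'] at h4
              simp [inj] at h4
          · rcases hw' : w' k with b' | d'
            · rw [hw, hw'] at h4
              simp [inj] at h4
            · rw [hw, hw'] at h4
              simp only [inj_inr, Sum.inr.injEq, Sigma.mk.injEq] at h4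
              exact (hj h4.1).elim
        choose u hu1 hu2 using h3
        have e1 : w = Sum.inl ∘ u := funext hu1
        have e2 : w' = Sum.inl ∘ u := funext hu2
        rw [e1, hc]
        rw [e2, hc] at h2
        exact h2
  · intro h
    exact Or.inr ⟨j, w, rfl, h⟩

/-- the part of the amalgam over a set of indices -/
def part (B : Type u) (D : J → Type u) (T : Set J) : Set (B ⊕ (Σ j, D j)) :=
  {x | ∀ p : (Σ j, D j), x = Sum.inr p → p.1 ∈ T}

theorem inl_mem_part (T : Set J) (b : B) : (Sum.inl b : B ⊕ (Σ j, D j)) ∈ part B D T := by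
  intro p hp
  simp at hp

theorem inr_mem_part (T : Set J) (p : Σ j, D j) :
    (Sum.inr p : B ⊕ (Σ j, D j)) ∈ part B D T ↔ p.1 ∈ T := by
  constructor
  · intro h
    exact h p rfl
  · rintro h q hq
    simp only [Sum.inr.injEq] at hq
    rw [← hq]; exact h

theorem part_mono {T T' : Set J} (h : T ⊆ T') : part B D T ⊆ part B D T' :=
  fun _ hx p hp => h (hx p hp)

theorem part_empty : part B D (∅ : Set J) = Set.range Sum.inl := by
  ext x
  rcases x with b | p
  · simp [inl_mem_part]
  · rw [inr_mem_part]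
    simp

theorem part_univ : part B D (Set.univ : Set J) = Set.univ := by
  ext x
  simp only [Set.mem_univ, iff_true]
  intro p _
  trivial

theorem part_inter (T T' : Set J) : part B D T ∩ part B D T' = part B D (T ∩ T') := by
  ext x
  constructor
  · rintro ⟨h1, h2⟩ p hp
    exact ⟨h1 p hp, h2 p hp⟩
  · intro h
    exact ⟨fun p hp => (h p hp).1, fun p hp => (h p hp).2⟩

theorem part_union (T T' : Set J) : part B D T ∪ part B D T' = part B D (T ∪ T') := by
  ext x
  rcases x with b | p
  · simp [inl_mem_part]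
  · simp only [Set.mem_union, inr_mem_part]

/-- the tuples of the amalgam do not mix different copies -/
theorem amalg_sep (T T' : Set J) (s : τ.Sym) (v : Fin (τ.ar s) → B ⊕ (Σ j, D j))
    (hv : ∀ i, v i ∈ part B D T ∪ part B D T') (h : amalg R0 X s v) :
    (∀ i, v i ∈ part B D T) ∨ (∀ i, v i ∈ part B D T') := by
  rcases h with ⟨w, rfl, -⟩ | ⟨j, w, rfl, -⟩
  · left
    intro i
    exact inl_mem_part _ _
  · by_cases hex : ∃ i d, w i = Sum.inr d
    · obtain ⟨i, d, hi⟩ := hex
      have h1 := hv i
      rw [part_union] at h1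
      simp only [Function.comp, hi, inj_inr, inr_mem_part] at h1
      have h2 : ∀ (T : Set J), j ∈ T → ∀ i, (inj j ∘ w) i ∈ part B D T := by
        intro T hj i p hp
        rcases hw : w i with b | d'
        · simp only [Function.comp, hw, inj_inl] at hp
          simp at hp
        · simp only [Function.comp, hw, inj_inr, Sum.inr.injEq] at hp
          rw [← hp]; exact hj
      rcases h1 with h1 | h1
      · exact Or.inl (h2 _ h1)
      · exact Or.inr (h2 _ h1)
    · left
      intro i
      rcases hw : w i with b | d'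
      · simp only [Function.comp, hw, inj_inl]
        exact inl_mem_part _ _
      · exact (hex ⟨i, d', hw⟩).elim

/-- the base of the amalgam -/
noncomputable def baseEquiv (B : Type u) (D : J → Type u) : part B D (∅ : Set J) ≃ B :=
  ((Equiv.setCongr part_empty).trans (Equiv.ofInjective (Sum.inl : B → B ⊕ (Σ j, D j))
    Sum.inl_injective).symm)

theorem baseEquiv_symm (b : B) : ((baseEquiv B D).symm b : B ⊕ (Σ j, D j)) = Sum.inl b := by
  simp [baseEquiv]

theorem base_isIso (hc : ∀ j s w, X j s (Sum.inl ∘ w) ↔ R0 s w) :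
    IsIso R0 ((amalg R0 X).res (part B D ∅)) (baseEquiv B D).symm := by
  intro s v
  rw [← amalg_inl hc]
  unfold Str.res
  have : (fun i => (((baseEquiv B D).symm ∘ v) i : B ⊕ (Σ j, D j))) = Sum.inl ∘ v := by
    funext i
    exact baseEquiv_symm _
  rw [this]

/-- a single copy in the amalgam -/
noncomputable def copyEquiv (j : J) : B ⊕ D j ≃ part B D {j} :=
  Equiv.ofBijective (fun x => ⟨inj j x, by
    rcases x with b | d
    · exact inl_mem_part _ _
    · rw [inj_inr, inr_mem_part]; rfl⟩) (by
    constructor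
    · intro x y h
      exact inj_injective (B := B) (D := D) j (congrArg Subtype.val h)
    · rintro ⟨x, hx⟩
      rcases x with b | ⟨j', d⟩
      · exact ⟨Sum.inl b, rfl⟩
      · rw [inr_mem_part] at hx
        have : j' = j := hx
        subst this
        exact ⟨Sum.inr d, rfl⟩)

theorem copyEquiv_val (j : J) (x : B ⊕ D j) : (copyEquiv j x : B ⊕ (Σ j, D j)) = inj j x := rfl

theorem copy_isIso (hc : ∀ j s w, X j s (Sum.inl ∘ w) ↔ R0 s w) (j : J) :
    IsIso (X j) ((amalg R0 X).res (part B D {j})) (copyEquiv j) := by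
  intro s v
  rw [← amalg_inj hc]
  rfl

end amalg

namespace AEC

variable {K : AEC τ}

theorem FreeAmalgamation.le' {N : Type u} (hF : K.FreeAmalgamation) {R : Str τ N} {S T : Set N}
    (h : ∀ s v, (∀ i, v i ∈ S ∪ T) → R s v → (∀ i, v i ∈ S) ∨ (∀ i, v i ∈ T))
    (h1 : K.le R (S ∩ T) S) (h2 : K.le R (S ∩ T) T) :
    K.le R S (S ∪ T) ∧ K.le R T (S ∪ T) := by
  have h1' := ((le_res (K := K) (R := R) (U := S ∪ T) Set.subset_union_left h1.1).2 h1).2
  have h2' := ((le_res (K := K) (R := R) (U := S ∪ T) Set.subset_union_right h2.1).2 h2).2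
  have := hF (S ∪ T : Set N) (R.res (S ∪ T)) (Subtype.val ⁻¹' S) (Subtype.val ⁻¹' T) ⟨by
      ext ⟨x, hx⟩
      simpa using hx, fun s v hv => h s _ (fun i => (v i).2) hv⟩ (by
      convert h1' using 1
      ext ⟨x, hx⟩
      simp only [Set.mem_preimage, Set.mem_inter_iff]
      exact ⟨fun h => ⟨hx, h⟩, fun h => h.2⟩) (by
      convert h2' using 1
      ext ⟨x, hx⟩
      simp only [Set.mem_preimage, Set.mem_inter_iff]
      exact ⟨fun h => ⟨h, hx⟩, fun h => h.1⟩)
  exact ⟨⟨Set.subset_union_left, this.2.1⟩, ⟨Set.subset_union_right, this.2.2⟩⟩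

variable {B J : Type u} {D : J → Type u} {R0 : Str τ B} {X : ∀ j, Str τ (B ⊕ D j)}

theorem amalg_finite (hF : K.FreeAmalgamation) (hR0 : K.mem R0)
    (hc : ∀ j s w, X j s (Sum.inl ∘ w) ↔ R0 s w)
    (hX : ∀ j, K.strong (X j) (Set.range Sum.inl)) (T : Set J) (hT : T.Finite) :
    K.le (amalg R0 X) (part B D ∅) (part B D T) := by
  classical
  have hsing : ∀ j, K.le (amalg R0 X) (part B D ∅) (part B D {j}) := by
    intro j
    refine ⟨part_mono (Set.empty_subset _), ?_⟩
    have := K.strong_iso _ _ _ (copy_isIso hc j) _ (hX j)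
    convert this using 1
    ext ⟨x, hx⟩
    rw [part_empty]
    constructor
    · rintro ⟨b, hb⟩
      exact ⟨Sum.inl b, ⟨b, rfl⟩, Subtype.ext hb⟩
    · rintro ⟨_, ⟨b, rfl⟩, h2⟩
      exact ⟨b, congrArg Subtype.val h2⟩
  induction T, hT using Set.Finite.induction_on with
  | empty => exact le_refl ((mem_iff (base_isIso hc)).1 hR0)
  | @insert j T hj hT ih =>
    have e1 : part B D T ∩ part B D {j} = part B D ∅ := by
      rw [part_inter]
      congr 1
      ext x
      simp only [Set.mem_inter_iff, Set.mem_singleton_iff, Set.mem_empty_iff_false, iff_false,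
        not_and]
      rintro h1 rfl
      exact hj h1
    have e2 : part B D T ∪ part B D {j} = part B D (insert j T) := by
      rw [part_union]
      congr 1
      ext x
      simp
    have := hF.le' (R := amalg R0 X) (S := part B D T) (T := part B D {j})
      (fun s v hv h => amalg_sep T {j} s v hv h) (by rw [e1]; exact ih) (by rw [e1]; exact hsing j)
    rw [e2] at this
    exact ih.trans this.1

theorem amalg_part (hF : K.FreeAmalgamation) (hR0 : K.mem R0)
    (hc : ∀ j s w, X j s (Sum.inl ∘ w) ↔ R0 s w)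
    (hX : ∀ j, K.strong (X j) (Set.range Sum.inl)) (T : Set J) :
    K.le (amalg R0 X) (part B D ∅) (part B D T) := by
  classical
  have h1 := amalg_finite hF hR0 hc hX
  have h2 := le_sUnion (K := K) (R := amalg R0 X)
    {Y | ∃ F : Set J, F.Finite ∧ F ⊆ T ∧ Y = part B D F} ⟨_, ∅, Set.finite_empty,
      Set.empty_subset _, rfl⟩ (by
      rintro _ ⟨F, hF1, hF2, rfl⟩ _ ⟨G, hG1, hG2, rfl⟩
      exact ⟨_, ⟨F ∪ G, hF1.union hG1, Set.union_subset hF2 hG2, rfl⟩,
        part_mono Set.subset_union_left, part_mono Set.subset_union_right⟩) (by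
      rintro _ ⟨F, hF1, hF2, rfl⟩ _ ⟨G, hG1, hG2, rfl⟩ hsub
      -- enlarge `F` inside `F ∪ G`
      have e1 : part B D F ∩ part B D (G \ F) = part B D ∅ := by
        rw [part_inter]
        congr 1
        ext x
        simp
      have e2 : part B D F ∪ part B D (G \ F) = part B D (F ∪ G) := by
        rw [part_union, Set.union_sdiff_self]
      have h3 := hF.le' (R := amalg R0 X) (S := part B D F) (T := part B D (G \ F))
        (fun s v hv h => amalg_sep _ _ s v hv h) (by rw [e1]; exact h1 F hF1)
        (by rw [e1]; exact h1 _ (hG1.subset Set.sdiff_subset))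
      rw [e2] at h3
      have e3 : part B D (F ∪ G) = part B D G := by
        rw [← part_union]
        exact Set.union_eq_self_of_subset_left hsub
      rw [e3] at h3
      exact h3.1)
  have h3 : ⋃₀ {Y | ∃ F : Set J, F.Finite ∧ F ⊆ T ∧ Y = part B D F} = part B D T := by
    apply Set.Subset.antisymm
    · rintro x ⟨_, ⟨F, -, hF2, rfl⟩, hx⟩
      exact part_mono hF2 hx
    · intro x hx
      rcases x with b | p
      · exact ⟨_, ⟨∅, Set.finite_empty, Set.empty_subset _, rfl⟩, inl_mem_part _ _⟩
      · rw [inr_mem_part] at hx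
        exact ⟨_, ⟨{p.1}, Set.finite_singleton _, by simpa using hx, rfl⟩, by
          rw [inr_mem_part]; rfl⟩
  rw [h3] at h2
  exact h2.2 _ ⟨∅, Set.finite_empty, Set.empty_subset _, rfl⟩

theorem amalg_strong (hF : K.FreeAmalgamation) (hR0 : K.mem R0)
    (hc : ∀ j s w, X j s (Sum.inl ∘ w) ↔ R0 s w)
    (hX : ∀ j, K.strong (X j) (Set.range Sum.inl)) (T : Set J) :
    K.strong (amalg R0 X) (part B D T) := by
  have e1 : part B D T ∩ part B D Tᶜ = part B D ∅ := by
    rw [part_inter]
    simp
  have e2 : part B D T ∪ part B D Tᶜ = Set.univ := by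
    rw [part_union]
    simp [part_univ]
  have h3 := hF.le' (R := amalg R0 X) (S := part B D T) (T := part B D Tᶜ)
    (fun s v hv h => amalg_sep _ _ s v hv h) (by rw [e1]; exact amalg_part hF hR0 hc hX _)
    (by rw [e1]; exact amalg_part hF hR0 hc hX _)
  rw [e2] at h3
  exact strong_iff_le_univ.2 h3.1

theorem amalg_mem (hF : K.FreeAmalgamation) (hR0 : K.mem R0)
    (hc : ∀ j s w, X j s (Sum.inl ∘ w) ↔ R0 s w)
    (hX : ∀ j, K.strong (X j) (Set.range Sum.inl)) : K.mem (amalg R0 X) :=
  (K.strong_mem _ _ (amalg_strong hF hR0 hc hX ∅)).2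

end AEC

end Pool.Agent.Helper45.Aec
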