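import Pool.Agent.Helper45.AecHeavy

/-! Extraction of a large set of pairwise inseparable elements. -/

open Cardinal Pool.Agent.Helper45.ER

universe u

namespace Pool.Agent.Helper45.Aec

variable {τ : Voc.{u}} {K : AEC τ} {lam : Cardinal.{u}}

/-- adjacency by a tuple in `H`, between elements of `P` -/
def AdjIn {N : Type u} (R : Str τ N) (H P : Set N) (x y : N) : Prop :=
  x ∈ P ∧ y ∈ P ∧ ∃ s v, R s v ∧ (∀ m, v m ∈ H) ∧ (∃ k, v k = x) ∧ ∃ k, v k = y

/-- a sequence of disjoint finite sets -/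
theorem disjoint_seq {N Z : Type u} [LinearOrder Z] [WellFoundedLT Z] {θ : Cardinal.{u}}
    (hθ : ℵ₀ ≤ θ) (hZ : ∀ k : Z, #(Set.Iio k) ≤ θ) (Q : Finset N → Prop)
    (h : ∀ S : Set N, #S ≤ θ → ∃ F : Finset N, Q F ∧ ∀ x ∈ F, x ∉ S) :
    ∃ F : Z → Finset N, ∀ k, Q (F k) ∧ ∀ j < k, ∀ x ∈ F k, x ∉ F j := by
  classical
  have hcard : ∀ (k : Z) (ih : ∀ j < k, Finset N),
      #(↥(⋃ j : Set.Iio k, ((ih j.1 j.2 : Finset N) : Set N))) ≤ θ := by
    intro k ih
    refine (Cardinal.mk_iUnion_le _).trans ?_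
    refine le_trans (mul_le_mul' (hZ k) (ciSup_le' (a := θ) fun j : Set.Iio k => ?_)) ?_
    · exact (Cardinal.lt_aleph0_of_finite _).le.trans hθ
    · rw [Cardinal.mul_eq_self hθ]
  let rec1 : ∀ k : Z, (∀ j < k, Finset N) → Finset N := fun k ih => (h _ (hcard k ih)).choose
  let F : Z → Finset N := WellFounded.fix (wellFounded_lt (α := Z)) rec1
  have hF : ∀ k, F k = rec1 k fun j _ => F j := fun k =>
    WellFounded.fix_eq (wellFounded_lt (α := Z)) rec1 k
  refine ⟨F, fun k => ?_⟩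
  have h1 := (h _ (hcard k fun j _ => F j)).choose_spec
  have h2 : (h _ (hcard k fun j _ => F j)).choose = F k := (hF k).symm
  rw [h2] at h1
  refine ⟨h1.1, fun j hj x hx hxj => h1.2 x hx ?_⟩
  rw [Set.mem_iUnion]
  exact ⟨⟨j, hj⟩, hxj⟩

/-- a finite path -/
theorem exists_finite_path {N : Type u} (R : Str τ N) (S : Set N) (x y : N) (hx : x ∉ S)
    (h : y ∈ comp R S x) : ∃ F : Finset N, (∀ z ∈ F, z ∉ S) ∧ x ∈ F ∧ y ∈ F ∧
      y ∈ comp R ((F : Set N)ᶜ) x := by
  classical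
  induction h with
  | refl => exact ⟨{x}, by simpa using hx, by simp, by simp, mem_comp_self _ _ _⟩
  | @tail y z h1 h2 ih =>
    obtain ⟨F, h3, h4, h5, h6⟩ := ih
    refine ⟨insert z F, ?_, Finset.mem_insert_of_mem h4, Finset.mem_insert_self _ _, ?_⟩
    · intro a ha
      rcases Finset.mem_insert.1 ha with rfl | ha
      · exact h2.2.1
      · exact h3 a ha
    · have h7 : y ∈ comp R ((insert z F : Finset N) : Set N)ᶜ x := by
        refine comp_anti ?_ x h6
        intro a ha ha'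
        apply ha
        simp only [Finset.coe_insert, Set.mem_insert_iff]
        exact Or.inr ha'
      refine Relation.ReflTransGen.tail h7 ⟨?_, ?_, h2.2.2⟩
      · simp only [Finset.coe_insert, Set.mem_compl_iff, Set.mem_insert_iff, not_not]
        exact Or.inr h5
      · simp

/-- no small set separates `x` from `y` -/
def Insep {N : Type u} (R : Str τ N) (κ : Cardinal.{u}) (x y : N) : Prop :=
  ∀ S : Set N, #S ≤ κ → x ∉ S → y ∉ S → y ∈ comp R S x

/-- path data -/
theorem exists_paths {N Z : Type u} [LinearOrder Z] [WellFoundedLT Z] (R : Str τ N)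
    {θ : Cardinal.{u}} (hθ : ℵ₀ ≤ θ) (hZ : ∀ k : Z, #(Set.Iio k) ≤ θ) (x y : N)
    (h : Insep R θ x y) : ∃ D : Z → ULift.{u} ℕ → N,
      (∀ k, Relation.ReflTransGen (AdjIn R (Set.range (D k)) (Set.range fun m : ℕ => D k ⟨2 * m⟩))
        x y) ∧
      ∀ k k' m m', k ≠ k' → D k ⟨2 * m⟩ = D k' ⟨2 * m'⟩ → D k ⟨2 * m⟩ = x ∨ D k ⟨2 * m⟩ = y := by
  classical
  obtain ⟨F, hF⟩ := disjoint_seq (N := N) (Z := Z) hθ hZ
    (fun F => x ∉ F ∧ y ∉ F ∧ y ∈ comp R (((insert x (insert y F) : Finset N) : Set N)ᶜ) x) (by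
      intro S hS
      have h1 := h (S \ {x, y}) ((Cardinal.mk_le_mk_of_subset Set.diff_subset).trans hS)
        (by simp) (by simp)
      obtain ⟨F, h2, h3, h4, h5⟩ := exists_finite_path R (S \ {x, y}) x y (by simp) h1
      refine ⟨F \ {x, y}, ⟨by simp, by simp, ?_⟩, ?_⟩
      · have h6 : insert x (insert y (F \ {x, y})) = F := by
          ext a
          simp only [Finset.mem_insert, Finset.mem_sdiff, Finset.mem_singleton]
          constructor
          · rintro (rfl | rfl | ⟨h, -⟩)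
            · exact h3
            · exact h4
            · exact h
          · intro ha
            by_cases hax : a = x
            · exact Or.inl hax
            · by_cases hay : a = y
              · exact Or.inr (Or.inl hay)
              · right; right
                exact ⟨ha, by simp [hax, hay]⟩
        rw [h6]
        exact h5
      · intro a ha haS
        simp only [Finset.mem_sdiff, Finset.mem_insert, Finset.mem_singleton] at ha
        exact h2 a ha.1 ⟨haS, by simpa using ha.2⟩)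
  have h1 : ∀ k, ∃ D : ULift.{u} ℕ → N,
      Set.range (fun m : ℕ => D ⟨2 * m⟩) = ((insert x (insert y (F k)) : Finset N) : Set N) ∧
      Relation.ReflTransGen (AdjIn R (Set.range D)
        ((insert x (insert y (F k)) : Finset N) : Set N)) x y := by
    intro k
    set G : Finset N := insert x (insert y (F k)) with hG
    have hwit : ∀ a c : N, ∃ W : Finset N, Adj R a c → ∃ s v, R s v ∧ (∀ m, v m ∈ W) ∧
        (∃ k, v k = a) ∧ ∃ k, v k = c := by
      intro a c
      by_cases hac : Adj R a c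
      · obtain ⟨s, v, h1, h2, h3⟩ := hac
        exact ⟨Finset.univ.image v, fun _ => ⟨s, v, h1, fun m => Finset.mem_image_of_mem _
          (Finset.mem_univ _), h2, h3⟩⟩
      · exact ⟨∅, fun h => (hac h).elim⟩
    choose W hW using hwit
    set H : Finset N := insert x ((G ×ˢ G).biUnion fun p => W p.1 p.2) with hH
    obtain ⟨f1, hf1⟩ := (Set.Finite.countable (Finset.finite_toSet G)).exists_eq_range
      ⟨x, by simp [hG]⟩
    obtain ⟨f2, hf2⟩ := (Set.Finite.countable (Finset.finite_toSet H)).exists_eq_range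
      ⟨x, by simp [hH]⟩
    refine ⟨fun q => if q.down % 2 = 0 then f1 (q.down / 2) else f2 (q.down / 2), ?_, ?_⟩
    · rw [hf1]
      congr 1
      funext m
      simp
    · have h2 := (hF k).1.2.2
      refine Relation.ReflTransGen.mono (r := Adj' R _) ?_ _ _ h2
      rintro a c ⟨ha, hc, hac⟩
      simp only [Set.mem_compl_iff, not_not] at ha hc
      obtain ⟨s, v, h3, h4, h5, h6⟩ := hW a c hac
      refine ⟨ha, hc, s, v, h3, fun m => ?_, h5, h6⟩
      have h7 : v m ∈ (H : Set N) := by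
        simp only [hH, Finset.coe_insert, Set.mem_insert_iff, Finset.mem_coe, Finset.mem_biUnion]
        right
        exact ⟨(a, c), Finset.mem_product.2 ⟨ha, hc⟩, h4 m⟩
      rw [hf2] at h7
      obtain ⟨q, hq⟩ := h7
      refine ⟨⟨2 * q + 1⟩, ?_⟩
      have h8 : (2 * q + 1) % 2 ≠ 0 := by omega
      have h9 : (2 * q + 1) / 2 = q := by omega
      simp only [h8, if_false, h9]
      exact hq
  choose D hD1 hD2 using h1
  refine ⟨D, ?_, ?_⟩
  · intro k
    rw [hD1 k]
    exact hD2 k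
  · intro k k' m m' hkk heq
    have h2 : D k ⟨2 * m⟩ ∈ ((insert x (insert y (F k)) : Finset N) : Set N) := by
      rw [← hD1 k]
      exact ⟨m, rfl⟩
    have h3 : D k ⟨2 * m⟩ ∈ ((insert x (insert y (F k')) : Finset N) : Set N) := by
      rw [← hD1 k', heq]
      exact ⟨m', rfl⟩
    simp only [Finset.coe_insert, Set.mem_insert_iff, Finset.mem_coe] at h2 h3
    rcases h2 with h2 | h2 | h2
    · exact Or.inl h2
    · exact Or.inr h2
    · rcases h3 with h3 | h3 | h3
      · exact Or.inl h3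
      · exact Or.inr h3
      · rcases lt_or_gt_of_ne hkk with hlt | hlt
        · exact ((hF k').2 k hlt _ h3 h2).elim
        · exact ((hF k).2 k' hlt _ h2 h3).elim

/-- the generators are pairwise connected by many internally disjoint paths -/
def Good3 (d : Sk K (LabT lam)) : Prop :=
  Inj1 d ∧ (∀ z z' w w' : d.Z, ∀ m m' : ℕ, z < z' → z' < w → z' < w' → w ≠ w' →
    d.t {z, z', w} (Sum.inl ⟨2 * m⟩) = d.t {z, z', w'} (Sum.inl ⟨2 * m'⟩) →
    d.t {z, z', w} (Sum.inl ⟨2 * m⟩) = d.t {z} (Sum.inl ⟨0⟩) ∨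
    d.t {z, z', w} (Sum.inl ⟨2 * m⟩) = d.t {z'} (Sum.inl ⟨0⟩)) ∧
  ∀ z z' w : d.Z, z < z' → z' < w → Relation.ReflTransGen
    (AdjIn d.R (Set.range (d.t {z, z', w})) (Set.range fun m : ℕ => d.t {z, z', w}
      (Sum.inl ⟨2 * m⟩))) (d.t {z} (Sum.inl ⟨0⟩)) (d.t {z'} (Sum.inl ⟨0⟩))

theorem exists_good3 (hL : K.LST lam) {N : Type u} {R : Str τ N} (hR : K.mem R)
    {θ : Cardinal.{u}} (hθ : ℵ₀ ≤ θ) (V : Set N) (hV : θ < #V)
    (hV2 : ∀ x ∈ V, ∀ y ∈ V, x ≠ y → Insep R θ x y) :
    ∃ d : Sk K (LabT lam), θ < #d.Z ∧ Good3 d := by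
  classical
  have h1 : Order.succ θ ≤ #V := Order.succ_le_of_lt hV
  have hZc : #(Order.succ θ).ord.ToType = Order.succ θ := by simp
  rw [← hZc] at h1
  obtain ⟨e⟩ := h1
  set Z : Type u := (Order.succ θ).ord.ToType with hZdef
  have hIio : ∀ k : Z, #(Set.Iio k) ≤ θ := by
    intro k
    have := Cardinal.mk_Iio_lt (α := (Order.succ θ).ord.ToType) k (by simp)
    rw [hZc] at this
    exact Order.lt_succ_iff.1 this
  have hpaths : ∀ z z' : Z, ∃ D : Z → ULift.{u} ℕ → N, z ≠ z' →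
      (∀ k, Relation.ReflTransGen (AdjIn R (Set.range (D k)) (Set.range fun m : ℕ => D k ⟨2 * m⟩))
        (e z) (e z')) ∧
      ∀ k k' m m', k ≠ k' → D k ⟨2 * m⟩ = D k' ⟨2 * m'⟩ →
        D k ⟨2 * m⟩ = e z ∨ D k ⟨2 * m⟩ = e z' := by
    intro z z'
    by_cases h : z = z'
    · exact ⟨fun _ _ => e z, fun h' => (h' h).elim⟩
    · obtain ⟨D, hD⟩ := exists_paths (Z := Z) R hθ hIio (e z) (e z') (hV2 _ (e z).2 _ (e z').2
        (fun h' => h (e.injective (Subtype.ext h'))))
      exact ⟨D, fun _ => hD⟩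
  choose D hD using hpaths
  obtain ⟨z0⟩ : Nonempty Z := by
    rw [← Cardinal.mk_ne_zero_iff, hZc]
    exact (bot_le.trans_lt (Order.lt_succ _)).ne'
  let des : Finset Z → ULift.{u} ℕ → N := fun F g =>
    if h : F.card = 3 then
      D (F.orderEmbOfFin h 0) (F.orderEmbOfFin h 1) (F.orderEmbOfFin h 2) g
    else if h : F.Nonempty then e (F.min' h) else e z0
  have hdes1 : ∀ z g, des {z} g = e z := by
    intro z g
    simp [des]
  have hdes3 : ∀ z z' w g, z < z' → z' < w → des {z, z', w} g = D z z' w g := by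
    intro z z' w g h1 h2
    have hc : ({z, z', w} : Finset Z).card = 3 := by
      rw [Finset.card_eq_three]
      exact ⟨z, z', w, h1.ne, (h1.trans h2).ne, h2.ne, rfl⟩
    have hmono : StrictMono ![z, z', w] := by
      rw [Fin.strictMono_iff_lt_succ]
      intro i
      fin_cases i
      · exact h1
      · exact h2
    have hu : ![z, z', w] = ({z, z', w} : Finset Z).orderEmbOfFin hc := by
      apply Finset.orderEmbOfFin_unique hc _ hmono
      intro i
      fin_cases i <;> simp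
    simp only [des]
    rw [dif_pos hc, ← hu]
    rfl
  obtain ⟨t, ht1, ht2, ht3⟩ := exists_sk hL hR (Dg := ULift.{u} ℕ) (by
    simpa using hL.1) des
  refine ⟨⟨Z, inferInstance, N, R, t, ht1, ht2⟩, ?_, ?_, ?_, ?_⟩
  · rw [hZc]
    exact Order.lt_succ θ
  · intro z z' h
    have h1 : t {z} (Sum.inl ⟨0⟩) = t {z'} (Sum.inl ⟨0⟩) := h
    rw [ht3 {z} ⟨0⟩, ht3 {z'} ⟨0⟩, hdes1 z ⟨0⟩, hdes1 z' ⟨0⟩] at h1
    exact e.injective (Subtype.ext h1)
  · intro z z' w w' m m' h1 h2 h3 hne h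
    simp only at h ⊢
    rw [ht3, ht3, hdes3 z z' w _ h1 h2, hdes3 z z' w' _ h1 h3] at h
    rw [ht3, ht3, ht3, hdes3 z z' w _ h1 h2, hdes1, hdes1]
    exact (hD z z' h1.ne).2 w w' m m' hne h
  · intro z z' w h1 h2
    have h3 := (hD z z' h1.ne).1 w
    simp only
    rw [ht3 {z}, ht3 {z'}, hdes1, hdes1]
    have h4 : (fun m : ℕ => t {z, z', w} (Sum.inl ⟨2 * m⟩)) = fun m : ℕ => D z z' w ⟨2 * m⟩ := by
      funext m
      rw [ht3, hdes3 z z' w _ h1 h2]
    rw [h4]
    refine Relation.ReflTransGen.mono ?_ _ _ h3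
    rintro a c ⟨ha, hc, s, v, h5, h6, h7, h8⟩
    refine ⟨ha, hc, s, v, h5, fun m => ?_, h7, h8⟩
    obtain ⟨g, hg⟩ := h6 m
    refine ⟨Sum.inl g, ?_⟩
    rw [ht3, hdes3 z z' w _ h1 h2]
    exact hg

/-- lifting paths -/
theorem lift_path {N N' : Type u} {R : Str τ N} {R' : Str τ N'} {E : Set N} {H : Set N'}
    {g : N → N'} (hg : PIso R R' E H g) (P : Set N) (P' : Set N')
    (hP' : ∀ a ∈ E, g a ∈ P' → a ∈ P) (x y : N) (hx : x ∈ E) (hy : y ∈ E)
    (hPH : P' ⊆ H) (h : Relation.ReflTransGen (AdjIn R' H P') (g x) (g y)) :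
    Relation.ReflTransGen (AdjIn R Set.univ P) x y := by
  have key : ∀ c, Relation.ReflTransGen (AdjIn R' H P') (g x) c → ∀ y ∈ E, g y = c →
      Relation.ReflTransGen (AdjIn R Set.univ P) x y := by
    intro c hc
    induction hc with
    | refl =>
      intro y hy hyx
      rw [hg.1.injOn hy hx hyx]
    | @tail a c h1 h2 ih =>
      intro y hy hyc
      obtain ⟨ha, hc, s, v, h3, h4, ⟨k, hk⟩, ⟨l, hl⟩⟩ := h2
      obtain ⟨a', ha', rfl⟩ := hg.1.surjOn (hPH ha)
      have h5 := ih a' ha' rfl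
      have h6 : ∀ m, ∃ w ∈ E, g w = v m := fun m => hg.1.surjOn (h4 m)
      choose w hw hwv using h6
      have e1 : v = g ∘ w := funext fun m => (hwv m).symm
      rw [e1, ← hg.2 s w hw] at h3
      refine Relation.ReflTransGen.tail h5 ⟨hP' a' ha' ha, hP' y hy (hyc ▸ hc), s, w, h3,
        fun _ => trivial, ⟨k, ?_⟩, ⟨l, ?_⟩⟩
      · apply hg.1.injOn (hw k) ha'
        rw [hwv k, hk]
      · apply hg.1.injOn (hw l) hy
        rw [hwv l, hl, hyc]
  exact key _ h y hy rfl

theorem gen_insep (b : Blue K (LabT lam)) (hb : ∀ d ∈ b.𝒟, Good3 d) {I : Type u}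
    [LinearOrder I] (i j : I) (hij : i < j) (S : Set (EM b I)) (hS : #S < #(Set.Ioi j))
    (hiS : gen b i ∉ S) (hjS : gen b j ∉ S) : gen b j ∈ comp (emStr b I) S (gen b i) := by
  classical
  -- some path avoids `S`
  obtain ⟨k, hk⟩ : ∃ k : Set.Ioi j, ∀ m : ℕ, EM.mk b ({i, j, k.1}, Sum.inl ⟨2 * m⟩) ∉ S := by
    by_contra hcon
    push Not at hcon
    choose m hm using hcon
    have h1 : #(Set.Ioi j) ≤ #S := by
      refine Cardinal.mk_le_of_injective (f := fun k => (⟨_, hm k⟩ : S)) ?_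
      intro k k' heq
      by_contra hne
      have hne' : k.1 ≠ k'.1 := fun h => hne (Subtype.ext h)
      have h2 : EM.mk b ({i, j, k.1}, (Sum.inl ⟨2 * m k⟩ : LabT lam)) =
          EM.mk b ({i, j, k'.1}, Sum.inl ⟨2 * m k'⟩) := congrArg Subtype.val heq
      obtain ⟨d, hd, f, hf⟩ := b.exists_rz {i, j, k.1, k'.1}
      have e1 : ({i, j, k.1} : Finset I).image f = {f i, f j, f k.1} := by
        simp [Finset.image_insert]
      have e2 : ({i, j, k'.1} : Finset I).image f = {f i, f j, f k'.1} := by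
        simp [Finset.image_insert]
      have s1 : ({i, j, k.1} : Finset I) ⊆ {i, j, k.1, k'.1} := by
        intro x hx
        simp only [Finset.mem_insert, Finset.mem_singleton] at hx ⊢
        tauto
      have s2 : ({i, j, k'.1} : Finset I) ⊆ {i, j, k.1, k'.1} := by
        intro x hx
        simp only [Finset.mem_insert, Finset.mem_singleton] at hx ⊢
        tauto
      have s3 : ({i} : Finset I) ⊆ {i, j, k.1, k'.1} := by simp
      have s4 : ({j} : Finset I) ⊆ {i, j, k.1, k'.1} := by simp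
      have h3 := h2
      rw [EM.mk_eq, hf.eq _ _ s1 s2] at h3
      simp only [e1, e2] at h3
      have h4 := (hb d hd).2.1 (f i) (f j) (f k.1) (f k'.1) (m k) (m k')
        (hf.1 (by simp) (by simp) hij) (hf.1 (by simp) (by simp) k.2)
        (hf.1 (by simp) (by simp) k'.2)
        (fun h => hne' (hf.1.injOn (by simp) (by simp) h)) h3
      rcases h4 with h4 | h4
      · apply hiS
        have h5 : EM.mk b ({i, j, k.1}, (Sum.inl ⟨2 * m k⟩ : LabT lam)) = gen b i := by
          unfold gen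
          rw [EM.mk_eq, hf.eq _ _ s1 s3]
          simp only [e1, Finset.image_singleton]
          exact h4
        rw [← h5]
        exact hm k
      · apply hjS
        have h5 : EM.mk b ({i, j, k.1}, (Sum.inl ⟨2 * m k⟩ : LabT lam)) = gen b j := by
          unfold gen
          rw [EM.mk_eq, hf.eq _ _ s1 s4]
          simp only [e1, Finset.image_singleton]
          exact h4
        rw [← h5]
        exact hm k
    exact absurd (hS.trans_le h1) (lt_irrefl _)
  obtain ⟨d, hd, f, hf⟩ := b.exists_rz {i, j, k.1}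
  have : Nonempty (LabT lam) := ⟨Sum.inl ⟨0⟩⟩
  have := d.nonempty_N
  obtain ⟨g, hg1, hg2, -⟩ := hf.pIso b
  have e1 : ({i, j, k.1} : Finset I).image f = {f i, f j, f k.1} := by
    simp [Finset.image_insert]
  rw [e1] at hg2
  have hlt1 : f i < f j := hf.1 (by simp) (by simp) hij
  have hlt2 : f j < f k.1 := hf.1 (by simp) (by simp) k.2
  have h1 := (hb d hd).2.2 (f i) (f j) (f k.1) hlt1 hlt2
  have hgi : g (gen b i) = d.t {f i} (Sum.inl ⟨0⟩) := by
    unfold gen
    rw [hg1 _ (by simp)]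
    simp
  have hgj : g (gen b j) = d.t {f j} (Sum.inl ⟨0⟩) := by
    unfold gen
    rw [hg1 _ (by simp)]
    simp
  rw [← hgi, ← hgj] at h1
  have hgi' : gen b i ∈ emSet b (({i, j, k.1} : Finset I) : Set I) :=
    ⟨({i}, Sum.inl ⟨0⟩), by simp, rfl⟩
  have hgj' : gen b j ∈ emSet b (({i, j, k.1} : Finset I) : Set I) :=
    ⟨({j}, Sum.inl ⟨0⟩), by simp, rfl⟩
  have h2 := lift_path hg2 (Set.range fun m : ℕ => EM.mk b ({i, j, k.1}, Sum.inl ⟨2 * m⟩))
    (Set.range fun m : ℕ => d.t {f i, f j, f k.1} (Sum.inl ⟨2 * m⟩)) (by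
      rintro a ha ⟨m, hm⟩
      refine ⟨m, ?_⟩
      apply hg2.1.injOn ⟨_, subset_rfl, rfl⟩ ha
      rw [← hm, hg1 _ subset_rfl]
      simp only [e1]) (gen b i) (gen b j) hgi' hgj' (by
      rintro _ ⟨m, rfl⟩
      exact ⟨_, rfl⟩) h1
  refine Relation.ReflTransGen.mono (p := Adj' (emStr b I) S) ?_ _ _ h2
  rintro a c ⟨⟨m, rfl⟩, ⟨m', rfl⟩, s, v, h3, -, h4, h5⟩
  exact ⟨hk m, hk m', s, v, h3, h4, h5⟩

end Pool.Agent.Helper45.Aec
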