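import Pool.Agent.Helper45.AecAmalg
import Pool.Agent.Helper45.AecW
import Pool.Agent.Helper45.AecPath

/-! The model of the categoricity cardinal has many components over a set or contains a
subdivision of a large complete graph. -/

open Cardinal Pool.Agent.Helper45.ER

universe u

namespace Pool.Agent.Helper45.Aec

variable {τ : Voc.{u}} {K : AEC τ} {lam mu : Cardinal.{u}}

/-- `X` is a set of `κ` elements no two of which are separated by fewer than `κ` elements -/
def IsSubdiv {N : Type u} (R : Str τ N) (κ : Cardinal.{u}) (X : Set N) : Prop :=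
  #X = κ ∧ ∀ x ∈ X, ∀ y ∈ X, x ≠ y → ∀ S : Set N, #S < κ → x ∉ S → y ∉ S → y ∈ comp R S x

theorem IsSubdiv.of_iso {N N' : Type u} {R : Str τ N} {R' : Str τ N'} {e : N ≃ N'}
    (he : IsIso R R' e) {κ : Cardinal.{u}} {X : Set N} (h : IsSubdiv R κ X) :
    IsSubdiv R' κ (e '' X) := by
  refine ⟨(Cardinal.mk_image_eq e.injective).trans h.1, ?_⟩
  rintro _ ⟨x, hx, rfl⟩ _ ⟨y, hy, rfl⟩ hxy S hS hxS hyS
  have h1 : e '' (e ⁻¹' S) = S := Set.image_preimage_eq S e.surjective
  have h2 : #(e ⁻¹' S) < κ := by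
    rw [← Cardinal.mk_image_eq (s := e ⁻¹' S) e.injective, h1]
    exact hS
  have h3 := h.2 x hx y hy (fun h => hxy (congrArg e h)) (e ⁻¹' S) h2 hxS hyS
  have h4 := he.comp_image (e ⁻¹' S) x
  rw [h1] at h4
  rw [h4]
  exact ⟨y, h3, rfl⟩

theorem em_isSubdiv (b : Blue K (LabT lam)) (hb : ∀ d ∈ b.𝒟, Good3 d) (hmu : ℵ₀ ≤ mu) :
    IsSubdiv (emStr b mu.ord.ToType) (mu) (Set.range (gen b : mu.ord.ToType → _)) := by
  have hIoi : ∀ (j : mu.ord.ToType) (κ : Cardinal.{u}), κ < mu → κ < #(Set.Ioi j) := by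
    intro j κ hκ
    rcases hmu.eq_or_lt with h | h
    · -- `mu = ℵ₀`
      subst h
      have h1 : #(Set.Iio j) < ℵ₀ := by
        have := Cardinal.mk_Iio_lt (α := (ℵ₀ : Cardinal.{u}).ord.ToType) j (by simp)
        rwa [Cardinal.mk_toType, Cardinal.card_ord] at this
      by_contra hcon
      have h2 : #(Set.Ioi j) < ℵ₀ := (not_lt.1 hcon).trans_lt hκ
      have h3 : (Set.univ : Set (ℵ₀ : Cardinal.{u}).ord.ToType) ⊆
          (Set.Iio j ∪ {j}) ∪ Set.Ioi j := by
        intro i _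
        rcases lt_trichotomy i j with h | h | h
        · exact Or.inl (Or.inl h)
        · exact Or.inl (Or.inr h)
        · exact Or.inr h
      have h4 : ((Set.Iio j ∪ {j}) ∪ Set.Ioi j).Finite :=
        ((Cardinal.lt_aleph0_iff_set_finite.1 h1).union (Set.finite_singleton _)).union
          (Cardinal.lt_aleph0_iff_set_finite.1 h2)
      have h5 := Cardinal.lt_aleph0_iff_set_finite.2 (h4.subset h3)
      simp at h5
    · have h1 := AEC.lt_mk_Ioi (lam := max κ ℵ₀) (mu := mu) (le_max_right _ _)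
        (max_lt hκ h) j
      exact (le_max_left _ _).trans_lt h1
  refine ⟨?_, ?_⟩
  · rw [Cardinal.mk_range_eq _ (gen_injective b fun d hd => (hb d hd).1)]
    simp
  · rintro _ ⟨i, rfl⟩ _ ⟨j, rfl⟩ hij S hS hiS hjS
    have hne : i ≠ j := fun h => hij (congrArg _ h)
    rcases lt_or_gt_of_ne hne with h | h
    · exact gen_insep b hb i j h S (hIoi j _ hS) hiS hjS
    · exact comp_symm (gen_insep b hb j i h S (hIoi i _ hS) hjS hiS)

namespace AEC

/-- In the model of size `mu ≥ H₁` there are more components over some set than elements of the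
set, or there are `mu` elements pairwise not separated by fewer than `mu` elements. -/
theorem comps_or_subdiv (hgraph : ∀ (N : Type u) (R : Str τ N) (ν : Cardinal.{u}), ℵ₀ ≤ ν →
      (¬ ∃ V : Set N, ν < #V ∧ ∀ x ∈ V, ∀ y ∈ V, x ≠ y → Insep R ν x y) → 2 ^ ν < #N →
      ∃ C : Set N, #C ≤ ν ∧ 2 ^ ν < #{Q : Set N | ∃ x, x ∉ C ∧ Q = comp R C x})
    (hL : K.LST lam) (hmu : hanf lam ≤ mu) (hcat : K.CategoricalIn mu)
    {P : Type u} {R : Str τ P} (hR : K.mem R) (hP : #P = mu) :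
    (∃ C : Set P, #C + lam < #{Q : Set P | ∃ x, x ∉ C ∧ Q = comp R C x}) ∨
      ∃ X : Set P, IsSubdiv R mu X := by
  classical
  rw [or_iff_not_imp_left]
  intro hcon
  push Not at hcon
  have h0 := hL.1
  have hpos : (0 : Ordinal.{u}) < (Order.succ ((2 : Cardinal.{u}) ^ lam)).ord := by
    rw [← Cardinal.ord_zero, Cardinal.ord_lt_ord]
    exact bot_le.trans_lt (Order.lt_succ _)
  have hV : ∀ α < (Order.succ ((2 : Cardinal.{u}) ^ lam)).ord, ∃ V : Set P, bethOn lam α < #V ∧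
      ∀ x ∈ V, ∀ y ∈ V, x ≠ y → Insep R (bethOn lam α) x y := by
    intro α hα
    by_contra hno
    have hle : lam ≤ bethOn lam α := le_bethOn lam α
    obtain ⟨C, hC1, hC2⟩ := hgraph P R (bethOn lam α) (h0.trans hle) hno (by
      rw [hP]
      exact (two_power_lt_hanf h0 hα).trans_le hmu)
    have h1 : #C + lam ≤ bethOn lam α := by
      calc #C + lam ≤ bethOn lam α + bethOn lam α := add_le_add hC1 hle
        _ = bethOn lam α := Cardinal.add_eq_self (h0.trans hle)
    have h2 := (h1.trans_lt (Cardinal.cantor _)).trans hC2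
    exact absurd (h2.trans_le (hcon C)) (lt_irrefl _)
  have h1 : ∀ α : Ordinal.{u}, ∃ d : Sk K (LabT lam),
      (α < (Order.succ ((2 : Cardinal.{u}) ^ lam)).ord → bethOn lam α < #d.Z) ∧ Good3 d := by
    intro α
    by_cases hα : α < (Order.succ ((2 : Cardinal.{u}) ^ lam)).ord
    · obtain ⟨V, hV1, hV2⟩ := hV α hα
      obtain ⟨d, h1, h2⟩ := exists_good3 hL hR (h0.trans (le_bethOn lam α)) V hV1 hV2
      exact ⟨d, fun _ => h1, h2⟩
    · obtain ⟨V, hV1, hV2⟩ := hV 0 hpos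
      obtain ⟨d, h1, h2⟩ := exists_good3 hL hR (h0.trans (le_bethOn lam 0)) V hV1 hV2
      exact ⟨d, fun h => (hα h).elim, h2⟩
  choose D' hD1 hD2 using h1
  obtain ⟨b, hb⟩ := exists_blue hL (mk_labT h0) D' hD1
  have hb' : ∀ d ∈ b.𝒟, Good3 d := by
    intro d hd
    obtain ⟨α, -, rfl⟩ := hb d hd
    exact hD2 α
  have : Nonempty (LabT lam) := ⟨Sum.inl ⟨0⟩⟩
  have hlammu : lam ≤ mu := (lt_hanf h0).le.trans hmu
  have hem := (em_mem (I := mu.ord.ToType) b).1
  have hsize : #(EM b mu.ord.ToType) = mu :=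
    mk_em b (fun d hd => (hb' d hd).1) h0 hlammu _ (by simp)
  obtain ⟨g, hg⟩ := hcat.2 _ _ _ _ hem hR hsize hP
  exact ⟨_, (em_isSubdiv b hb' (h0.trans hlammu)).of_iso hg⟩

end AEC

end Pool.Agent.Helper45.Aec
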