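import Mathlib

open Polynomial

namespace Pool.Agent.Helper45.Disc

variable {n : ℕ}

theorem norm_pow_sub_le (R : ℝ) (hR : 1 ≤ R) (x y : ℂ) (hx : ‖x‖ ≤ R) (hy : ‖y‖ ≤ R) (l : ℕ) :
    ‖x ^ l - y ^ l‖ ≤ l * R ^ l * ‖x - y‖ := by
  induction l with
  | zero => simp
  | succ l ih =>
    have h1 : x ^ (l + 1) - y ^ (l + 1) = x * (x ^ l - y ^ l) + (x - y) * y ^ l := by ring
    rw [h1]
    have h2 : ‖y ^ l‖ ≤ R ^ l := by
      rw [norm_pow]
      exact pow_le_pow_left₀ (norm_nonneg _) hy l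
    have h3 : 0 ≤ ‖x - y‖ := norm_nonneg _
    have h4 : (0 : ℝ) < R ^ l := by positivity
    calc ‖x * (x ^ l - y ^ l) + (x - y) * y ^ l‖
        ≤ ‖x‖ * ‖x ^ l - y ^ l‖ + ‖x - y‖ * ‖y ^ l‖ := by
          refine (norm_add_le _ _).trans ?_
          rw [norm_mul, norm_mul]
      _ ≤ R * (l * R ^ l * ‖x - y‖) + ‖x - y‖ * R ^ l := by
          apply add_le_add
          · exact mul_le_mul hx ih (norm_nonneg _) (by linarith)
          · exact mul_le_mul_of_nonneg_left h2 h3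
      _ ≤ _ := by
          push_cast
          rw [pow_succ]
          have h5 : ‖x - y‖ * R ^ l ≤ ‖x - y‖ * R ^ l * R := by
            have : 0 ≤ ‖x - y‖ * R ^ l := by positivity
            nlinarith
          nlinarith

theorem cross_le (R : ℝ) (hR : 1 ≤ R) (x y : ℂ) (hx : ‖x‖ ≤ R) (hy : ‖y‖ ≤ R) (k l : ℕ) :
    ‖x ^ k * y ^ l - y ^ k * x ^ l‖ ≤ (k + l) * R ^ (k + l) * ‖x - y‖ := by
  have h1 : x ^ k * y ^ l - y ^ k * x ^ l = x ^ k * (y ^ l - x ^ l) + x ^ l * (x ^ k - y ^ k) := by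
    ring
  have h2 := norm_pow_sub_le R hR x y hx hy k
  have h3 := norm_pow_sub_le R hR y x hy hx l
  rw [norm_sub_rev y x] at h3
  have h4 : ‖x ^ k‖ ≤ R ^ k := by
    rw [norm_pow]
    exact pow_le_pow_left₀ (norm_nonneg _) hx k
  have h5 : ‖x ^ l‖ ≤ R ^ l := by
    rw [norm_pow]
    exact pow_le_pow_left₀ (norm_nonneg _) hx l
  rw [h1]
  calc _ ≤ ‖x ^ k‖ * ‖y ^ l - x ^ l‖ + ‖x ^ l‖ * ‖x ^ k - y ^ k‖ := by
        refine (norm_add_le _ _).trans ?_
        rw [norm_mul, norm_mul]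
    _ ≤ R ^ k * (l * R ^ l * ‖x - y‖) + R ^ l * (k * R ^ k * ‖x - y‖) := by
        apply add_le_add
        · exact mul_le_mul h4 h3 (norm_nonneg _) (by positivity)
        · exact mul_le_mul h5 h2 (norm_nonneg _) (by positivity)
    _ = _ := by rw [pow_add]; ring

/-- power sums with weights -/
noncomputable def SS (c z : Fin n → ℂ) (k : ℕ) : ℂ := ∑ i, c i * z i ^ k

theorem SS_minor (c z : Fin n → ℂ) (k l : ℕ) :
    SS c z k * SS c z (l + 1) - SS c z (k + 1) * SS c z l =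
      (1 / 2) * ∑ i, ∑ j, c i * c j * (z j - z i) * (z i ^ k * z j ^ l - z j ^ k * z i ^ l) := by
  have h1 : SS c z k * SS c z (l + 1) - SS c z (k + 1) * SS c z l =
      ∑ i, ∑ j, c i * c j * (z j - z i) * (z i ^ k * z j ^ l) := by
    unfold SS
    rw [Finset.sum_mul_sum, Finset.sum_mul_sum, ← Finset.sum_sub_distrib]
    apply Finset.sum_congr rfl
    intro i _
    rw [← Finset.sum_sub_distrib]
    apply Finset.sum_congr rfl
    intro j _
    ring
  have h2 : ∑ i, ∑ j, c i * c j * (z j - z i) * (z i ^ k * z j ^ l) =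
      - ∑ i, ∑ j, c i * c j * (z j - z i) * (z j ^ k * z i ^ l) := by
    rw [Finset.sum_comm, ← Finset.sum_neg_distrib]
    apply Finset.sum_congr rfl
    intro i _
    rw [← Finset.sum_neg_distrib]
    apply Finset.sum_congr rfl
    intro j _
    ring
  have h3 : ∑ i, ∑ j, c i * c j * (z j - z i) * (z i ^ k * z j ^ l - z j ^ k * z i ^ l) =
      ∑ i, ∑ j, c i * c j * (z j - z i) * (z i ^ k * z j ^ l) -
      ∑ i, ∑ j, c i * c j * (z j - z i) * (z j ^ k * z i ^ l) := by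
    rw [← Finset.sum_sub_distrib]
    apply Finset.sum_congr rfl
    intro i _
    rw [← Finset.sum_sub_distrib]
    apply Finset.sum_congr rfl
    intro j _
    ring
  rw [h1, h3]
  linear_combination (1 / 2 : ℂ) * h2

theorem SS_minor_le (R : ℝ) (hR : 1 ≤ R) (c z : Fin n → ℂ) (hz : ∀ i, ‖z i‖ ≤ R) (ε : ℝ)
    (hε : ∀ i j, ‖c i‖ * ‖c j‖ * ‖z i - z j‖ ^ 2 ≤ ε) (k l : ℕ) (hk : k ≤ n) (hl : l ≤ n) :
    ‖SS c z k * SS c z (l + 1) - SS c z (k + 1) * SS c z l‖ ≤ n ^ 3 * R ^ (2 * n) * ε := by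
  rw [SS_minor, norm_mul]
  have h1 : ∀ i j, ‖c i * c j * (z j - z i) * (z i ^ k * z j ^ l - z j ^ k * z i ^ l)‖ ≤
      2 * n * R ^ (2 * n) * ε := by
    intro i j
    rw [norm_mul, norm_mul, norm_mul, norm_sub_rev (z j) (z i)]
    have h2 := cross_le R hR (z i) (z j) (hz i) (hz j) k l
    have h3 : ((k : ℝ) + l) * R ^ (k + l) ≤ 2 * n * R ^ (2 * n) := by
      have h4 : (k : ℝ) ≤ n := by exact_mod_cast hk
      have h5 : (l : ℝ) ≤ n := by exact_mod_cast hl
      have h6 : R ^ (k + l) ≤ R ^ (2 * n) := pow_le_pow_right₀ hR (by omega)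
      exact mul_le_mul (by linarith) h6 (by positivity) (by positivity)
    have h7 : ‖z i ^ k * z j ^ l - z j ^ k * z i ^ l‖ ≤ 2 * n * R ^ (2 * n) * ‖z i - z j‖ :=
      h2.trans (mul_le_mul_of_nonneg_right h3 (norm_nonneg _))
    calc ‖c i‖ * ‖c j‖ * ‖z i - z j‖ * ‖z i ^ k * z j ^ l - z j ^ k * z i ^ l‖
        ≤ ‖c i‖ * ‖c j‖ * ‖z i - z j‖ * (2 * n * R ^ (2 * n) * ‖z i - z j‖) :=
          mul_le_mul_of_nonneg_left h7 (by positivity)
      _ = 2 * n * R ^ (2 * n) * (‖c i‖ * ‖c j‖ * ‖z i - z j‖ ^ 2) := by ring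
      _ ≤ _ := mul_le_mul_of_nonneg_left (hε i j) (by positivity)
  have h2 : ‖∑ i, ∑ j, c i * c j * (z j - z i) * (z i ^ k * z j ^ l - z j ^ k * z i ^ l)‖ ≤
      n * (n * (2 * n * R ^ (2 * n) * ε)) := by
    calc _ ≤ ∑ i : Fin n, ‖∑ j, c i * c j * (z j - z i) *
          (z i ^ k * z j ^ l - z j ^ k * z i ^ l)‖ := norm_sum_le _ _
      _ ≤ ∑ i : Fin n, (n * (2 * n * R ^ (2 * n) * ε)) := by
          apply Finset.sum_le_sum
          intro i _
          calc _ ≤ ∑ j : Fin n, ‖c i * c j * (z j - z i) *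
                (z i ^ k * z j ^ l - z j ^ k * z i ^ l)‖ := norm_sum_le _ _
            _ ≤ ∑ j : Fin n, (2 * n * R ^ (2 * n) * ε) :=
                Finset.sum_le_sum fun j _ => h1 i j
            _ = _ := by simp
      _ = _ := by simp
  have h3 : ‖(1 / 2 : ℂ)‖ = 1 / 2 := by simp
  rw [h3]
  calc (1 / 2 : ℝ) * _ ≤ (1 / 2) * (n * (n * (2 * n * R ^ (2 * n) * ε))) :=
        mul_le_mul_of_nonneg_left h2 (by norm_num)
    _ = _ := by ring

/-- integer Hankel minors vanish -/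
theorem hankel_minor (hn : 1 ≤ n) (R : ℝ) (hR : 1 ≤ R) (c z : Fin n → ℂ) (cinf : ℂ)
    (hz : ∀ i, ‖z i‖ ≤ R) (ε : ℝ) (hε0 : 0 ≤ ε)
    (hε : ∀ i j, ‖c i‖ * ‖c j‖ * ‖z i - z j‖ ^ 2 ≤ ε) (hε' : ∀ i, ‖cinf‖ * ‖c i‖ ≤ ε)
    (hsmall : 3 * n ^ 3 * R ^ (2 * n) * ε < 1)
    (b : ℕ → ℤ) (hb : ∀ k ≤ n, ((b k : ℤ) : ℂ) = SS c z k + if k = n then cinf else 0)
    (k l : ℕ) (hk : k < n) (hl : l < n) : b k * b (l + 1) = b (k + 1) * b l := by
  have hS : ∀ k < n, ‖cinf * SS c z k‖ ≤ n * (R ^ (2 * n) * ε) := by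
    intro k hk
    unfold SS
    rw [Finset.mul_sum]
    calc _ ≤ ∑ i : Fin n, ‖cinf * (c i * z i ^ k)‖ := norm_sum_le _ _
      _ ≤ ∑ i : Fin n, (R ^ (2 * n) * ε) := by
          apply Finset.sum_le_sum
          intro i _
          rw [norm_mul, norm_mul, norm_pow]
          have h1 : ‖z i‖ ^ k ≤ R ^ (2 * n) :=
            (pow_le_pow_left₀ (norm_nonneg _) (hz i) k).trans (pow_le_pow_right₀ hR (by omega))
          calc ‖cinf‖ * (‖c i‖ * ‖z i‖ ^ k) = ‖z i‖ ^ k * (‖cinf‖ * ‖c i‖) := by ring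
            _ ≤ R ^ (2 * n) * ε := mul_le_mul h1 (hε' i) (by positivity) (by positivity)
      _ = _ := by simp
  have h1 := SS_minor_le R hR c z hz ε hε k l hk.le hl.le
  have h2 : ((b k * b (l + 1) - b (k + 1) * b l : ℤ) : ℂ) =
      (SS c z k * SS c z (l + 1) - SS c z (k + 1) * SS c z l) +
      ((if l + 1 = n then cinf * SS c z k else 0) - (if k + 1 = n then cinf * SS c z l else 0)) := by
    push_cast
    rw [hb k hk.le, hb l hl.le, hb (k + 1) hk, hb (l + 1) hl, if_neg hk.ne, if_neg hl.ne]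
    split_ifs <;> ring
  have h3 : ‖(if l + 1 = n then cinf * SS c z k else 0)‖ ≤ n * (R ^ (2 * n) * ε) := by
    split_ifs
    · exact hS k hk
    · rw [norm_zero]; positivity
  have h4 : ‖(if k + 1 = n then cinf * SS c z l else 0)‖ ≤ n * (R ^ (2 * n) * ε) := by
    split_ifs
    · exact hS l hl
    · rw [norm_zero]; positivity
  have h5 : ‖((b k * b (l + 1) - b (k + 1) * b l : ℤ) : ℂ)‖ < 1 := by
    rw [h2]
    have hn1 : (1 : ℝ) ≤ n := by exact_mod_cast hn
    have hn3 : (n : ℝ) ≤ n ^ 3 := by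
      have : (1 : ℝ) ≤ n ^ 2 := one_le_pow₀ hn1
      calc (n : ℝ) = n * 1 := (mul_one _).symm
        _ ≤ n * n ^ 2 := mul_le_mul_of_nonneg_left this (by positivity)
        _ = _ := by ring
    calc _ ≤ n ^ 3 * R ^ (2 * n) * ε + (n * (R ^ (2 * n) * ε) + n * (R ^ (2 * n) * ε)) := by
          refine (norm_add_le _ _).trans (add_le_add h1 ?_)
          exact (norm_sub_le _ _).trans (add_le_add h3 h4)
      _ ≤ 3 * n ^ 3 * R ^ (2 * n) * ε := by
          have : 0 ≤ R ^ (2 * n) * ε := by positivity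
          nlinarith
      _ < 1 := hsmall
  rw [Complex.norm_intCast] at h5
  have h6 : |b k * b (l + 1) - b (k + 1) * b l| < 1 := by exact_mod_cast h5
  exact sub_eq_zero.1 (Int.abs_lt_one_iff.1 h6)

theorem hankel_zero (hn : 2 ≤ n) (b : ℕ → ℤ)
    (hm : ∀ k < n, ∀ l < n, b k * b (l + 1) = b (k + 1) * b l)
    (P : ℤ[X]) (hP : P.natDegree = n) (hirr : ∀ x : ℚ, aeval x P ≠ 0)
    (hsum : ∑ k ∈ Finset.range (n + 1), b k * P.coeff k = 0) : ∀ k ≤ n, b k = 0 := by
  have hP0 : P.coeff n ≠ 0 := by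
    have h : P.leadingCoeff ≠ 0 := by
      rw [leadingCoeff_ne_zero]
      rintro rfl
      simp at hP
      omega
    rwa [leadingCoeff, hP] at h
  by_cases h0 : b 0 = 0
  · have h1 : ∀ k < n, b k = 0 := by
      intro k
      induction k with
      | zero => intro _; exact h0
      | succ k ih =>
        intro hk
        have h2 := hm k (by omega) (k + 1) hk
        rw [ih (by omega), zero_mul] at h2
        have h3 : b (k + 1) * b (k + 1) = 0 := h2.symm
        exact mul_self_eq_zero.1 h3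
    rw [Finset.sum_range_succ, Finset.sum_eq_zero, zero_add] at hsum
    · intro k hk
      rcases lt_or_eq_of_le hk with h | h
      · exact h1 k h
      · rw [h]
        exact (mul_eq_zero.1 hsum).resolve_right hP0
    · intro k hk
      rw [h1 k (Finset.mem_range.1 hk), zero_mul]
  · exfalso
    have hb0 : (b 0 : ℚ) ≠ 0 := by exact_mod_cast h0
    set ξ : ℚ := (b 1 : ℚ) / b 0 with hξ
    have h1 : ∀ k ≤ n, (b k : ℚ) = b 0 * ξ ^ k := by
      intro k
      induction k with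
      | zero => intro _; simp
      | succ k ih =>
        intro hk
        have h2 := hm 0 (by omega) k (by omega)
        have h3 : (b 0 : ℚ) * b (k + 1) = b 1 * b k := by exact_mod_cast h2
        rw [ih (by omega)] at h3
        have h4 : (b 0 : ℚ) * b (k + 1) = b 0 * (b 1 * ξ ^ k) := by rw [h3]; ring
        have h5 := mul_left_cancel₀ hb0 h4
        have h6 : (b 1 : ℚ) = b 0 * ξ := by rw [hξ]; field_simp
        rw [h5, h6]
        ring
    have hroot : aeval ξ P = 0 := by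
      rw [aeval_eq_sum_range, hP]
      have h2 : (b 0 : ℚ) * ∑ i ∈ Finset.range (n + 1), P.coeff i • ξ ^ i = 0 := by
        have h3 : ((∑ k ∈ Finset.range (n + 1), b k * P.coeff k : ℤ) : ℚ) = 0 := by
          rw [hsum]; simp
        rw [← h3, Finset.mul_sum]
        push_cast
        apply Finset.sum_congr rfl
        intro k hk
        rw [h1 k (by have := Finset.mem_range.1 hk; omega), zsmul_eq_mul]
        ring
      exact (mul_eq_zero.1 h2).resolve_left hb0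
    exact hirr ξ hroot

end Pool.Agent.Helper45.Disc
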