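import Pool.Agent.Helper12.DiscRoots
import Mathlib

open Polynomial

namespace Pool.Agent.Helper45.Disc

open Pool.Agent.Helper12.Disc

variable {n : ℕ}

/-- product of the distances to the other points -/
noncomputable def pp (z : Fin n → ℂ) (i : Fin n) : ℝ := ∏ j ∈ Finset.univ.erase i, ‖z i - z j‖

/-- distance to the nearest other point -/
noncomputable def dd (z : Fin n → ℂ) (i : Fin n) : ℝ := ⨅ j : {j : Fin n // j ≠ i}, ‖z i - z j‖

noncomputable def ww (z : Fin n → ℂ) (i : Fin n) : ℝ := dd z i * pp z i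

theorem D2_eq (z : Fin n → ℂ) : D2 z = ∏ i, pp z i := rfl

theorem pp_nonneg (z : Fin n → ℂ) (i : Fin n) : 0 ≤ pp z i :=
  Finset.prod_nonneg fun _ _ => norm_nonneg _

theorem nonempty_ne (hn : 2 ≤ n) (i : Fin n) : Nonempty {j : Fin n // j ≠ i} := by
  have : ∃ j : Fin n, j ≠ i := by
    by_cases h : i = ⟨0, by omega⟩
    · exact ⟨⟨1, by omega⟩, by rw [h]; simp⟩
    · exact ⟨⟨0, by omega⟩, fun h' => h h'.symm⟩
  obtain ⟨j, hj⟩ := this
  exact ⟨⟨j, hj⟩⟩

theorem dd_nonneg (z : Fin n → ℂ) (i : Fin n) : 0 ≤ dd z i :=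
  Real.iInf_nonneg fun _ => norm_nonneg _

theorem dd_le (z : Fin n → ℂ) {i j : Fin n} (h : j ≠ i) : dd z i ≤ ‖z i - z j‖ :=
  ciInf_le (Set.finite_range fun j : {j : Fin n // j ≠ i} => ‖z i - z j‖).bddBelow ⟨j, h⟩

theorem dd_exists (hn : 2 ≤ n) (z : Fin n → ℂ) (i : Fin n) :
    ∃ j, j ≠ i ∧ dd z i = ‖z i - z j‖ := by
  have := nonempty_ne hn i
  obtain ⟨j, hj⟩ := exists_eq_ciInf_of_finite (f := fun j : {j : Fin n // j ≠ i} => ‖z i - z j‖)
  exact ⟨j, j.2, hj.symm⟩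

theorem prod_le_pow {ι : Type*} (s : Finset ι) (f : ι → ℝ) (M : ℝ) (hM : 1 ≤ M)
    (h0 : ∀ i ∈ s, 0 ≤ f i) (h1 : ∀ i ∈ s, f i ≤ M) (m : ℕ) (hm : s.card ≤ m) :
    ∏ i ∈ s, f i ≤ M ^ m := by
  calc ∏ i ∈ s, f i ≤ ∏ i ∈ s, M := Finset.prod_le_prod h0 h1
    _ = M ^ s.card := by rw [Finset.prod_const]
    _ ≤ M ^ m := pow_le_pow_right₀ hM hm

theorem pp_le_dd (hn : 2 ≤ n) (z : Fin n → ℂ) (M : ℝ) (hM : 1 ≤ M)
    (hz : ∀ i j, ‖z i - z j‖ ≤ M) (i : Fin n) : pp z i ≤ M ^ n * dd z i := by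
  obtain ⟨j, hj, hd⟩ := dd_exists hn z i
  unfold pp
  rw [← Finset.mul_prod_erase _ _ (Finset.mem_erase.2 ⟨hj, Finset.mem_univ j⟩), hd, mul_comm]
  apply mul_le_mul_of_nonneg_right _ (norm_nonneg _)
  apply prod_le_pow _ _ M hM (fun _ _ => norm_nonneg _) (fun _ _ => hz _ _)
  calc _ ≤ (Finset.univ : Finset (Fin n)).card := Finset.card_le_card (Finset.subset_univ _)
    _ = n := by simp

theorem pp_sq_le (hn : 2 ≤ n) (z : Fin n → ℂ) (M : ℝ) (hM : 1 ≤ M)
    (hz : ∀ i j, ‖z i - z j‖ ≤ M) (i : Fin n) : pp z i ^ 2 ≤ M ^ n * ww z i := by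
  have h1 := pp_le_dd hn z M hM hz i
  have h2 := pp_nonneg z i
  unfold ww
  nlinarith

/-- `pp k` is at most a constant times the distances to two given points -/
theorem pp_le_two (z : Fin n → ℂ) (M : ℝ) (hM : 1 ≤ M)
    (hz : ∀ i j, ‖z i - z j‖ ≤ M) {i j k : Fin n} (hki : k ≠ i) (hkj : k ≠ j) (hij : i ≠ j) :
    pp z k ≤ M ^ n * (‖z i - z k‖ * ‖z j - z k‖) := by
  unfold pp
  rw [← Finset.mul_prod_erase _ _ (Finset.mem_erase.2 ⟨hki.symm, Finset.mem_univ i⟩),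
    ← Finset.mul_prod_erase _ _ (Finset.mem_erase.2 ⟨hij.symm, Finset.mem_erase.2
      ⟨hkj.symm, Finset.mem_univ j⟩⟩), norm_sub_rev (z k) (z i), norm_sub_rev (z k) (z j),
    ← mul_assoc, mul_comm (M ^ n)]
  apply mul_le_mul_of_nonneg_left _ (by positivity)
  apply prod_le_pow _ _ M hM (fun _ _ => norm_nonneg _) (fun _ _ => hz _ _)
  calc _ ≤ (Finset.univ : Finset (Fin n)).card := Finset.card_le_card (Finset.subset_univ _)
    _ = n := by simp

theorem pp_le_one (z : Fin n → ℂ) (M : ℝ) (hM : 1 ≤ M)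
    (hz : ∀ i j, ‖z i - z j‖ ≤ M) {i k : Fin n} (hki : k ≠ i) :
    pp z k ≤ M ^ n * ‖z i - z k‖ := by
  unfold pp
  rw [← Finset.mul_prod_erase _ _ (Finset.mem_erase.2 ⟨hki.symm, Finset.mem_univ i⟩),
    norm_sub_rev (z k) (z i), mul_comm (M ^ n)]
  apply mul_le_mul_of_nonneg_left _ (by positivity)
  apply prod_le_pow _ _ M hM (fun _ _ => norm_nonneg _) (fun _ _ => hz _ _)
  calc _ ≤ (Finset.univ : Finset (Fin n)).card := Finset.card_le_card (Finset.subset_univ _)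
    _ = n := by simp

theorem D2_le_pp (z : Fin n → ℂ) (M : ℝ) (hM : 1 ≤ M)
    (hz : ∀ i j, ‖z i - z j‖ ≤ M) (i : Fin n) : D2 z ≤ M ^ (n * n) * pp z i ^ 2 := by
  rw [D2_eq, ← Finset.mul_prod_erase _ _ (Finset.mem_univ i)]
  have h1 : ∏ k ∈ Finset.univ.erase i, pp z k ≤
      ∏ k ∈ Finset.univ.erase i, (M ^ n * ‖z i - z k‖) := by
    apply Finset.prod_le_prod (fun k _ => pp_nonneg z k)
    intro k hk
    exact pp_le_one z M hM hz (Finset.ne_of_mem_erase hk)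
  rw [Finset.prod_mul_distrib, Finset.prod_const] at h1
  have h2 : (M ^ n) ^ (Finset.univ.erase i).card ≤ M ^ (n * n) := by
    rw [← pow_mul]
    apply pow_le_pow_right₀ hM
    apply Nat.mul_le_mul_left
    calc _ ≤ (Finset.univ : Finset (Fin n)).card := Finset.card_le_card (Finset.subset_univ _)
      _ = n := by simp
  have h3 : ∏ k ∈ Finset.univ.erase i, ‖z i - z k‖ = pp z i := rfl
  rw [h3] at h1
  calc pp z i * ∏ k ∈ Finset.univ.erase i, pp z k
      ≤ pp z i * ((M ^ n) ^ (Finset.univ.erase i).card * pp z i) :=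
        mul_le_mul_of_nonneg_left h1 (pp_nonneg z i)
    _ ≤ pp z i * (M ^ (n * n) * pp z i) :=
        mul_le_mul_of_nonneg_left (mul_le_mul_of_nonneg_right h2 (pp_nonneg z i)) (pp_nonneg z i)
    _ = _ := by ring

theorem D2_mul_le (z : Fin n → ℂ) (M : ℝ) (hM : 1 ≤ M)
    (hz : ∀ i j, ‖z i - z j‖ ≤ M) (i j : Fin n) (hij : i ≠ j) :
    D2 z * ‖z i - z j‖ ^ 2 ≤ M ^ (n * n) * (pp z i ^ 2 * pp z j ^ 2) := by
  have hji : j ∈ Finset.univ.erase i := Finset.mem_erase.2 ⟨hij.symm, Finset.mem_univ j⟩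
  rw [D2_eq, ← Finset.mul_prod_erase _ _ (Finset.mem_univ i), ← Finset.mul_prod_erase _ _ hji]
  set s := (Finset.univ.erase i).erase j with hs
  have hs1 : ∀ k ∈ s, k ≠ i ∧ k ≠ j := by
    intro k hk
    rw [hs, Finset.mem_erase, Finset.mem_erase] at hk
    exact ⟨hk.2.1, hk.1⟩
  have h1 : ∏ k ∈ s, pp z k ≤ ∏ k ∈ s, (M ^ n * (‖z i - z k‖ * ‖z j - z k‖)) := by
    apply Finset.prod_le_prod (fun k _ => pp_nonneg z k)
    intro k hk
    exact pp_le_two z M hM hz (hs1 k hk).1 (hs1 k hk).2 hij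
  rw [Finset.prod_mul_distrib, Finset.prod_const, Finset.prod_mul_distrib] at h1
  have h2 : (M ^ n) ^ s.card ≤ M ^ (n * n) := by
    rw [← pow_mul]
    apply pow_le_pow_right₀ hM
    apply Nat.mul_le_mul_left
    calc _ ≤ (Finset.univ : Finset (Fin n)).card := Finset.card_le_card (Finset.subset_univ _)
      _ = n := by simp
  have e1 : pp z i = ‖z i - z j‖ * ∏ k ∈ s, ‖z i - z k‖ := by
    unfold pp
    rw [← Finset.mul_prod_erase _ _ hji]
  have e2 : pp z j = ‖z i - z j‖ * ∏ k ∈ s, ‖z j - z k‖ := by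
    have hij' : i ∈ Finset.univ.erase j := Finset.mem_erase.2 ⟨hij, Finset.mem_univ i⟩
    have hs' : (Finset.univ.erase j).erase i = s := by rw [hs, Finset.erase_right_comm]
    unfold pp
    rw [← Finset.mul_prod_erase _ _ hij', hs', norm_sub_rev (z j) (z i)]
  set a := ∏ k ∈ s, ‖z i - z k‖ with ha
  set b := ∏ k ∈ s, ‖z j - z k‖ with hb
  have ha0 : 0 ≤ a := Finset.prod_nonneg fun _ _ => norm_nonneg _
  have hb0 : 0 ≤ b := Finset.prod_nonneg fun _ _ => norm_nonneg _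
  set r := ‖z i - z j‖ with hr
  have hr0 : 0 ≤ r := norm_nonneg _
  calc pp z i * (pp z j * ∏ k ∈ s, pp z k) * r ^ 2
      = (pp z i * pp z j * r ^ 2) * ∏ k ∈ s, pp z k := by ring
    _ ≤ (pp z i * pp z j * r ^ 2) * ((M ^ n) ^ s.card * (a * b)) :=
        mul_le_mul_of_nonneg_left h1 (by
          have := pp_nonneg z i
          have := pp_nonneg z j
          positivity)
    _ ≤ (pp z i * pp z j * r ^ 2) * (M ^ (n * n) * (a * b)) := by
        apply mul_le_mul_of_nonneg_left _ (by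
          have := pp_nonneg z i
          have := pp_nonneg z j
          positivity)
        exact mul_le_mul_of_nonneg_right h2 (by positivity)
    _ = _ := by rw [e1, e2]; ring

/-- the two inequalities used for the dual vectors -/
theorem D2_le_ww (hn : 2 ≤ n) (z : Fin n → ℂ) (M : ℝ) (hM : 1 ≤ M)
    (hz : ∀ i j, ‖z i - z j‖ ≤ M) (i : Fin n) : D2 z ≤ M ^ (n * n + 2 * n) * ww z i := by
  have h1 := D2_le_pp z M hM hz i
  have h2 := pp_sq_le hn z M hM hz i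
  have h3 : 0 ≤ ww z i := mul_nonneg (dd_nonneg z i) (pp_nonneg z i)
  calc D2 z ≤ M ^ (n * n) * pp z i ^ 2 := h1
    _ ≤ M ^ (n * n) * (M ^ n * ww z i) := mul_le_mul_of_nonneg_left h2 (by positivity)
    _ = M ^ (n * n + n) * ww z i := by rw [pow_add]; ring
    _ ≤ _ := mul_le_mul_of_nonneg_right (pow_le_pow_right₀ hM (by omega)) h3

theorem D2_mul_le_ww (hn : 2 ≤ n) (z : Fin n → ℂ) (M : ℝ) (hM : 1 ≤ M)
    (hz : ∀ i j, ‖z i - z j‖ ≤ M) (i j : Fin n) :
    D2 z * ‖z i - z j‖ ^ 2 ≤ M ^ (n * n + 2 * n) * (ww z i * ww z j) := by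
  have h3 : ∀ i, 0 ≤ ww z i := fun i => mul_nonneg (dd_nonneg z i) (pp_nonneg z i)
  by_cases hij : i = j
  · subst hij
    simp only [sub_self, norm_zero, ne_eq, OfNat.ofNat_ne_zero, not_false_eq_true, zero_pow,
      mul_zero]
    have := h3 i
    positivity
  · have h1 := D2_mul_le z M hM hz i j hij
    have h2 := pp_sq_le hn z M hM hz i
    have h4 := pp_sq_le hn z M hM hz j
    calc _ ≤ M ^ (n * n) * (pp z i ^ 2 * pp z j ^ 2) := h1
      _ ≤ M ^ (n * n) * ((M ^ n * ww z i) * (M ^ n * ww z j)) := by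
          apply mul_le_mul_of_nonneg_left _ (by positivity)
          exact mul_le_mul h2 h4 (by positivity) (by have := h3 i; positivity)
      _ = _ := by rw [pow_add, two_mul, pow_add]; ring

end Pool.Agent.Helper45.Disc
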