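import Pool.Agent.Helper12.DiscCover
import Pool.Agent.Helper45.DMin
import Pool.Agent.Helper45.DPts
import Mathlib

open Polynomial

namespace Pool.Agent.Helper45.Disc

open Pool.Agent.Helper12.Disc

variable {n : ℕ}

/-- real rows of the evaluation functionals -/
noncomputable def rowR (σ : Fin n → Fin n) (z : Fin n → ℂ) (l : Fin n) (k : ℕ) : ℝ :=
  if l ≤ σ l then (z l ^ k).re else (z (σ l) ^ k).im

theorem Zof_rowR (σ : Fin n → Fin n) (hσ : ∀ l, σ (σ l) = l) (z : Fin n → ℂ)
    (hz : ∀ l, z (σ l) = (starRingEnd ℂ) (z l)) (k : ℕ) (l : Fin n) :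
    Zof (Nmat σ) (fun l => rowR σ z l k) l = z l ^ k := by
  rw [Zof_Nmat]
  unfold rowR
  rcases lt_trichotomy (σ l) l with hl | hl | hl
  · rw [if_neg hl.ne, if_neg (not_lt.2 hl.le), hσ l, if_pos hl.le, if_neg (not_le.2 hl)]
    have h1 : (z (σ l) ^ k) = (starRingEnd ℂ) (z l ^ k) := by rw [hz, map_pow]
    rw [h1]
    generalize z l ^ k = w
    apply Complex.ext <;> simp
  · rw [if_pos hl, if_pos hl.ge]
    have h1 : (starRingEnd ℂ) (z l) = z l := by rw [← hz, hl]
    have h2 : (starRingEnd ℂ) (z l ^ k) = z l ^ k := by rw [map_pow, h1]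
    exact Complex.conj_eq_iff_re.1 h2
  · rw [if_neg hl.ne', if_pos hl, if_pos hl.le, hσ l, if_neg (not_le.2 hl)]
    apply Complex.ext <;> simp

theorem rowR_det (σ : Fin n → Fin n) (hσ : ∀ l, σ (σ l) = l) (z : Fin n → ℂ)
    (hz : ∀ l, z (σ l) = (starRingEnd ℂ) (z l)) :
    ‖(Nmat σ).det‖ * |(Matrix.of fun l k : Fin n => rowR σ z l k).det| = Real.sqrt (D2 z) := by
  have h1 : Nmat σ * ((Matrix.of fun l k : Fin n => rowR σ z l k).map (algebraMap ℝ ℂ)) =
      Matrix.vandermonde z := by
    ext l k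
    rw [Matrix.mul_apply, Matrix.vandermonde_apply, ← Zof_rowR σ hσ z hz k l, Zof_apply]
    rfl
  have h2 : ((Matrix.of fun l k : Fin n => rowR σ z l k).map (algebraMap ℝ ℂ)).det =
      (((Matrix.of fun l k : Fin n => rowR σ z l k).det : ℝ) : ℂ) := by
    rw [← RingHom.mapMatrix_apply, ← RingHom.map_det]
    rfl
  have h3 : ‖(Nmat σ).det‖ * |(Matrix.of fun l k : Fin n => rowR σ z l k).det| =
      ‖(Matrix.vandermonde z).det‖ := by
    rw [← h1, Matrix.det_mul, norm_mul, h2, Complex.norm_real, Real.norm_eq_abs]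
  rw [h3, ← norm_vand_sq, Real.sqrt_sq (norm_nonneg _)]

/-- rows of the evaluation functionals together with the leading coefficient -/
noncomputable def BB (σ : Fin n → Fin n) (z : Fin n → ℂ) : Matrix (Fin (n + 1)) (Fin (n + 1)) ℝ :=
  Matrix.of fun i k => Fin.lastCases (motive := fun _ => ℝ) (if k = Fin.last n then 1 else 0)
    (fun l => rowR σ z l k) i

theorem BB_last (σ : Fin n → Fin n) (z : Fin n → ℂ) (k : Fin (n + 1)) :
    BB σ z (Fin.last n) k = if k = Fin.last n then 1 else 0 := by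
  unfold BB
  simp

theorem BB_castSucc (σ : Fin n → Fin n) (z : Fin n → ℂ) (l : Fin n) (k : Fin (n + 1)) :
    BB σ z l.castSucc k = rowR σ z l k := by
  unfold BB
  simp

theorem BB_det (σ : Fin n → Fin n) (z : Fin n → ℂ) :
    (BB σ z).det = (Matrix.of fun l k : Fin n => rowR σ z l k).det := by
  rw [Matrix.det_succ_row _ (Fin.last n), Finset.sum_eq_single (Fin.last n)]
  · rw [BB_last, if_pos rfl]
    have h1 : (BB σ z).submatrix (Fin.last n).succAbove (Fin.last n).succAbove =
        (Matrix.of fun l k : Fin n => rowR σ z l k) := by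
      ext l k
      simp only [Matrix.submatrix_apply, Fin.succAbove_last, Matrix.of_apply]
      rw [BB_castSucc]
      rfl
    rw [h1, ← two_mul, pow_mul]
    simp
  · intro j _ hj
    rw [BB_last, if_neg hj]
    simp
  · intro h
    exact absurd (Finset.mem_univ _) h

/-- the complex coefficients of a real combination of the rows -/
theorem exists_complex_coeffs (σ : Fin n → Fin n) (hσ : ∀ l, σ (σ l) = l) (z : Fin n → ℂ)
    (hz : ∀ l, z (σ l) = (starRingEnd ℂ) (z l)) (s : Fin n → ℝ) (u : Fin n → ℝ)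
    (hu : ∀ l, u (σ l) = u l) (hs : ∀ l, |s l| ≤ u l) :
    ∃ c : Fin n → ℂ, (∀ l, ‖c l‖ ≤ u l) ∧
      ∀ k : ℕ, ((∑ l, s l * rowR σ z l k : ℝ) : ℂ) = SS c z k := by
  classical
  set a : Fin n → ℂ := fun l => if l ≤ σ l then (s l : ℂ) / 2 else Complex.I * (s l : ℂ) / 2
    with ha
  set b : Fin n → ℂ := fun l => if l ≤ σ l then (s l : ℂ) / 2 else -(Complex.I * (s l : ℂ) / 2)
    with hb
  have hna : ∀ l, ‖a l‖ = |s l| / 2 := by
    intro l
    rw [ha]
    simp only
    split_ifs
    · rw [norm_div, Complex.norm_real, Real.norm_eq_abs]; simp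
    · rw [norm_div, norm_mul, Complex.norm_I, Complex.norm_real, Real.norm_eq_abs]; simp
  have hnb : ∀ l, ‖b l‖ = |s l| / 2 := by
    intro l
    rw [hb]
    simp only
    split_ifs
    · rw [norm_div, Complex.norm_real, Real.norm_eq_abs]; simp
    · rw [norm_neg, norm_div, norm_mul, Complex.norm_I, Complex.norm_real, Real.norm_eq_abs]; simp
  refine ⟨fun l => a l + b (σ l), ?_, ?_⟩
  · intro l
    have h1 := hs l
    have h2 := hs (σ l)
    rw [hu] at h2
    calc ‖a l + b (σ l)‖ ≤ ‖a l‖ + ‖b (σ l)‖ := norm_add_le _ _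
      _ ≤ u l := by rw [hna, hnb]; linarith
  · intro k
    have h1 : ∀ l, ((s l * rowR σ z l k : ℝ) : ℂ) = a l * z l ^ k + b l * z (σ l) ^ k := by
      intro l
      have hconj : z (σ l) ^ k = (starRingEnd ℂ) (z l ^ k) := by rw [hz, map_pow]
      rw [ha, hb]
      unfold rowR
      simp only
      rw [hconj]
      by_cases hl : l ≤ σ l
      · rw [if_pos hl, if_pos hl, if_pos hl]
        have h2 := Complex.add_conj (z l ^ k)
        push_cast
        push_cast at h2
        linear_combination (-(s l : ℂ) / 2) * h2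
      · rw [if_neg hl, if_neg hl, if_neg hl]
        have h2 := Complex.sub_conj (z l ^ k)
        have h3 : (((starRingEnd ℂ) (z l ^ k)).im : ℂ) = -((z l ^ k).im : ℂ) := by
          rw [Complex.conj_im]; push_cast; rfl
        push_cast
        rw [h3]
        have h4 : Complex.I * Complex.I = -1 := Complex.I_mul_I
        push_cast at h2
        linear_combination (-(Complex.I * (s l : ℂ) / 2)) * h2 -
          ((s l : ℂ) * ((z l ^ k).im : ℂ)) * h4
    push_cast
    have h2 : ∑ l, ((s l : ℂ) * (rowR σ z l k : ℂ)) = ∑ l, (a l * z l ^ k + b l * z (σ l) ^ k) := by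
      apply Finset.sum_congr rfl
      intro l _
      rw [← h1 l]
      push_cast
      rfl
    rw [h2, Finset.sum_add_distrib]
    have h3 : ∑ l, b l * z (σ l) ^ k = ∑ l, b (σ l) * z l ^ k := by
      have hinv : Function.Involutive σ := hσ
      rw [← Equiv.sum_comp hinv.toPerm (fun l => b l * z (σ l) ^ k)]
      apply Finset.sum_congr rfl
      intro l _
      simp only [Function.Involutive.coe_toPerm]
      rw [hσ l]
    rw [h3, ← Finset.sum_add_distrib]
    unfold SS
    apply Finset.sum_congr rfl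
    intro l _
    ring

theorem dd_conj (σ : Fin n → Fin n) (hσ : ∀ l, σ (σ l) = l) (z : Fin n → ℂ)
    (hz : ∀ l, z (σ l) = (starRingEnd ℂ) (z l)) (l : Fin n) : dd z (σ l) = dd z l := by
  have hinv : Function.Involutive σ := hσ
  have h1 : ∀ i j, ‖z (σ i) - z (σ j)‖ = ‖z i - z j‖ := by
    intro i j
    rw [hz, hz, ← map_sub, RCLike.norm_conj]
  rcases Nat.lt_or_ge n 2 with hn | hn
  · have : σ l = l := by
      apply Fin.ext
      have := (σ l).2
      have := l.2
      omega
    rw [this]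
  · have key : ∀ l, dd z (σ l) ≤ dd z l := by
      intro l
      obtain ⟨j, hj, hd⟩ := dd_exists hn z l
      rw [hd, ← h1]
      exact dd_le z (fun h => hj (hinv.injective h))
    apply le_antisymm (key l)
    have := key (σ l)
    rwa [hσ] at this

theorem pp_conj (σ : Fin n → Fin n) (hσ : ∀ l, σ (σ l) = l) (z : Fin n → ℂ)
    (hz : ∀ l, z (σ l) = (starRingEnd ℂ) (z l)) (l : Fin n) : pp z (σ l) = pp z l := by
  classical
  have hinv : Function.Involutive σ := hσ
  unfold pp
  apply Finset.prod_nbij' σ σ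
  · intro j hj
    rw [Finset.mem_erase] at *
    refine ⟨fun h => hj.1 ?_, Finset.mem_univ _⟩
    rw [← h, hσ]
  · intro j hj
    rw [Finset.mem_erase] at *
    exact ⟨fun h => hj.1 (hinv.injective h), Finset.mem_univ _⟩
  · intro j _; exact hσ j
  · intro j _; exact hσ j
  · intro j _
    have h : z (σ j) = (starRingEnd ℂ) (z j) := hz j
    rw [h, hz l]
    rw [← RCLike.norm_conj (z l - (starRingEnd ℂ) (z j)), map_sub, Complex.conj_conj]

end Pool.Agent.Helper45.Disc
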