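import Mathlib

open MeasureTheory

namespace Pool.Agent.Helper45.Disc

variable {N : ℕ}

/-- the characters of the torus -/
noncomputable def ec (m : Fin N → ℤ) (x : Fin N → ℝ) : ℂ :=
  ∏ i, Complex.exp ((2 * Real.pi * ((m i : ℝ) * x i) : ℝ) * Complex.I)

/-- the half open unit cube -/
def cube (N : ℕ) : Set (Fin N → ℝ) := Set.pi Set.univ fun _ => Set.Ico (0 : ℝ) 1

theorem cube_measurable : MeasurableSet (cube N) :=
  MeasurableSet.pi Set.countable_univ fun _ _ => measurableSet_Ico

theorem ec_continuous (m : Fin N → ℤ) : Continuous (ec m) := by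
  unfold ec
  fun_prop

theorem one_dim (k : ℤ) :
    ∫ t in Set.Ico (0 : ℝ) 1, Complex.exp ((2 * Real.pi * ((k : ℝ) * t) : ℝ) * Complex.I) =
      if k = 0 then 1 else 0 := by
  rw [integral_Ico_eq_integral_Ioc, ← intervalIntegral.integral_of_le zero_le_one]
  by_cases hk : k = 0
  · subst hk
    simp
  · rw [if_neg hk]
    have hc : (2 * Real.pi * (k : ℝ) * Complex.I : ℂ) ≠ 0 := by
      have : (k : ℂ) ≠ 0 := by exact_mod_cast hk
      simp only [ne_eq, mul_eq_zero, Complex.ofReal_eq_zero, Complex.I_ne_zero, or_false,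
        OfNat.ofNat_ne_zero, false_or, Real.pi_ne_zero]
      push_cast
      exact_mod_cast hk
    have h1 : ∀ t : ℝ, Complex.exp ((2 * Real.pi * ((k : ℝ) * t) : ℝ) * Complex.I) =
        Complex.exp ((2 * Real.pi * (k : ℝ) * Complex.I : ℂ) * t) := by
      intro t
      congr 1
      push_cast
      ring
    simp_rw [h1]
    rw [integral_exp_mul_complex hc]
    have h2 : Complex.exp ((2 * Real.pi * (k : ℝ) * Complex.I : ℂ) * (1 : ℝ)) = 1 := by
      have := Complex.exp_int_mul_two_pi_mul_I k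
      rw [← this]
      congr 1
      push_cast
      ring
    rw [h2]
    simp

theorem int_ec (m : Fin N → ℤ) : ∫ x in cube N, ec m x = if m = 0 then 1 else 0 := by
  classical
  unfold cube
  rw [volume_pi, Measure.restrict_pi_pi]
  unfold ec
  rw [integral_fintype_prod_eq_prod (fun i t =>
    Complex.exp ((2 * Real.pi * ((m i : ℝ) * t) : ℝ) * Complex.I))]
  simp_rw [one_dim]
  by_cases hm : m = 0
  · subst hm
    simp
  · rw [if_neg hm]
    obtain ⟨i, hi⟩ := Function.ne_iff.1 hm
    exact Finset.prod_eq_zero (Finset.mem_univ i) (if_neg hi)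

theorem ec_mul_conj (m m' : Fin N → ℤ) (x : Fin N → ℝ) :
    ec m x * (starRingEnd ℂ) (ec m' x) = ec (m - m') x := by
  unfold ec
  rw [map_prod, ← Finset.prod_mul_distrib]
  apply Finset.prod_congr rfl
  intro i _
  rw [← Complex.exp_conj, ← Complex.exp_add]
  congr 1
  simp only [map_mul, Complex.conj_ofReal, Complex.conj_I, Pi.sub_apply]
  push_cast
  ring

theorem ec_eq (m : Fin N → ℤ) (x : Fin N → ℝ) :
    ec m x = Complex.exp ((2 * Real.pi * (∑ i, (m i : ℝ) * x i) : ℝ) * Complex.I) := by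
  unfold ec
  rw [← Complex.exp_sum]
  congr 1
  rw [Finset.mul_sum, ← Finset.sum_mul]
  push_cast
  rfl

/-- Parseval for trigonometric polynomials -/
theorem parseval (S : Finset (Fin N → ℤ)) :
    ∫ x in cube N, ‖∑ m ∈ S, ec m x‖ ^ 2 = (S.card : ℝ) := by
  classical
  have h1 : ∀ x, ((‖∑ m ∈ S, ec m x‖ ^ 2 : ℝ) : ℂ) = ∑ m ∈ S, ∑ m' ∈ S, ec (m - m') x := by
    intro x
    have : ((‖∑ m ∈ S, ec m x‖ ^ 2 : ℝ) : ℂ) =
        (∑ m ∈ S, ec m x) * (starRingEnd ℂ) (∑ m ∈ S, ec m x) := by
      rw [Complex.mul_conj, Complex.normSq_eq_norm_sq]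
    rw [this, map_sum, Finset.sum_mul_sum]
    apply Finset.sum_congr rfl
    intro m _
    apply Finset.sum_congr rfl
    intro m' _
    exact ec_mul_conj m m' x
  have hint : ∀ m : Fin N → ℤ, IntegrableOn (ec m) (cube N) := by
    intro m
    have hc : IsCompact (Set.Icc (0 : Fin N → ℝ) 1) := isCompact_Icc
    apply ((ec_continuous m).continuousOn.integrableOn_compact hc).mono_set
    intro x hx
    unfold cube at hx
    rw [Set.mem_pi] at hx
    exact ⟨fun i => (hx i (Set.mem_univ i)).1, fun i => (hx i (Set.mem_univ i)).2.le⟩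
  have h2 : ((∫ x in cube N, ‖∑ m ∈ S, ec m x‖ ^ 2 : ℝ) : ℂ) = (S.card : ℂ) := by
    rw [← integral_complex_ofReal]
    simp_rw [h1]
    rw [integral_finsetSum _ (fun m _ => integrable_finsetSum _ fun m' _ => hint _)]
    simp_rw [integral_finsetSum _ (fun m' _ => hint _)]
    simp_rw [int_ec]
    rw [← nsmul_one, ← Finset.sum_const]
    apply Finset.sum_congr rfl
    intro m hm
    rw [Finset.sum_eq_single m]
    · simp
    · intro m' _ hm'
      rw [if_neg]
      intro h
      exact hm' (sub_eq_zero.1 h).symm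
    · intro h; exact absurd hm h
  exact_mod_cast h2

end Pool.Agent.Helper45.Disc
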