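import Mathlib
import Pool.Agent.Helper45.DLat

open MeasureTheory
open scoped Pointwise

namespace Pool.Agent.Helper45.Disc

variable {N : ℕ}

/-- integer vectors as real vectors -/
def iv (b : Fin N → ℤ) : Fin N → ℝ := fun i => (b i : ℝ)

theorem unfold_le (E : Set (Fin N → ℝ)) (hE : MeasurableSet E)
    (hinj : ∀ x ∈ E, ∀ y ∈ E, ∀ b : Fin N → ℤ, iv b = x - y → b = 0)
    (h : (Fin N → ℝ) → ENNReal)
    (hper : ∀ (b : Fin N → ℤ) (x : Fin N → ℝ), h (iv b + x) = h x) :
    ∫⁻ x in E, h x ≤ ∫⁻ x in cube N, h x := by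
  classical
  have hF := ZSpan.isAddFundamentalDomain' (Pi.basisFun ℝ (Fin N)) (volume : Measure (Fin N → ℝ))
  have hcube : ZSpan.fundamentalDomain (Pi.basisFun ℝ (Fin N)) = cube N :=
    ZSpan.fundamentalDomain_pi_basisFun
  rw [hcube] at hF
  have hg : ∀ g : (Submodule.span ℤ (Set.range (Pi.basisFun ℝ (Fin N)))).toAddSubgroup,
      ∃ b : Fin N → ℤ, (g : Fin N → ℝ) = iv b := by
    intro g
    have h1 : (g : Fin N → ℝ) ∈ Submodule.span ℤ (Set.range (Pi.basisFun ℝ (Fin N))) := g.2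
    rw [(Pi.basisFun ℝ (Fin N)).mem_span_iff_repr_mem ℤ] at h1
    choose b hb using h1
    refine ⟨b, ?_⟩
    funext i
    have := hb i
    simp only [Pi.basisFun_repr, algebraMap_int_eq, eq_intCast] at this
    exact this.symm
  have hcount : Countable (Submodule.span ℤ (Set.range (Pi.basisFun ℝ (Fin N)))).toAddSubgroup :=
    inferInstanceAs (Countable (Submodule.span ℤ (Set.range (Pi.basisFun ℝ (Fin N)))))
  rw [hF.setLIntegral_eq_tsum' h E]
  have h1 : ∀ g : (Submodule.span ℤ (Set.range (Pi.basisFun ℝ (Fin N)))).toAddSubgroup,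
      ∫⁻ x in (g +ᵥ E) ∩ cube N, h (-g +ᵥ x) = ∫⁻ x in (g +ᵥ E) ∩ cube N, h x := by
    intro g
    apply lintegral_congr
    intro x
    obtain ⟨b, hb⟩ := hg (-g)
    have : -g +ᵥ x = iv b + x := by
      rw [← hb]
      rfl
    rw [this, hper]
  simp_rw [h1]
  rw [← lintegral_iUnion]
  · apply lintegral_mono_set
    exact Set.iUnion_subset fun g => Set.inter_subset_right
  · intro g
    apply MeasurableSet.inter _ cube_measurable
    exact hE.const_vadd g
  · intro g g' hgg'
    apply Set.disjoint_left.2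
    intro x hx hx'
    apply hgg'
    obtain ⟨⟨y, hy, hyx⟩, -⟩ := hx
    obtain ⟨⟨y', hy', hyx'⟩, -⟩ := hx'
    have e1 : (g : Fin N → ℝ) + y = x := hyx
    have e2 : (g' : Fin N → ℝ) + y' = x := hyx'
    obtain ⟨b, hb⟩ := hg (g' - g)
    have h3 : b = 0 := by
      apply hinj y hy y' hy'
      rw [← hb]
      have : ((g' - g : (Submodule.span ℤ (Set.range (Pi.basisFun ℝ (Fin N)))).toAddSubgroup) :
        Fin N → ℝ) = (g' : Fin N → ℝ) - g := rfl
      rw [this, sub_eq_sub_iff_add_eq_add]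
      rw [e2, add_comm, e1]
    have h4 : ((g' - g : (Submodule.span ℤ (Set.range (Pi.basisFun ℝ (Fin N)))).toAddSubgroup) :
        Fin N → ℝ) = 0 := by
      rw [hb, h3]
      funext i
      simp [iv]
    have h5 : g' - g = 0 := Subtype.ext h4
    exact (sub_eq_zero.1 h5).symm

end Pool.Agent.Helper45.Disc
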