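import Mathlib
import Pool.Agent.Helper45.DLatB

open MeasureTheory

namespace Pool.Agent.Helper45.Disc

variable {N : ℕ}

theorem ec_add (m b : Fin N → ℤ) (x : Fin N → ℝ) : ec m (iv b + x) = ec m x := by
  rw [ec_eq, ec_eq]
  have h1 : ((2 * Real.pi * (∑ i, (m i : ℝ) * (iv b + x) i) : ℝ) : ℂ) * Complex.I =
      ((∑ i, m i * b i : ℤ) : ℂ) * (2 * Real.pi * Complex.I) +
      ((2 * Real.pi * (∑ i, (m i : ℝ) * x i) : ℝ) : ℂ) * Complex.I := by
    simp only [Pi.add_apply, iv, mul_add, Finset.sum_add_distrib]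
    push_cast
    ring
  rw [h1, Complex.exp_add, Complex.exp_int_mul_two_pi_mul_I, one_mul]

/-- lattice points in a parallelotope whose polar contains no nonzero integer vector -/
theorem lattice_bound (L : Matrix (Fin N) (Fin N) ℝ) (hL : L.det ≠ 0) (μ : ℝ) (hμ : 0 < μ)
    (hμ' : 4 * N * μ ≤ 1) (S : Finset (Fin N → ℤ))
    (hS : ∀ m ∈ S, ∀ k, |(L.mulVec (iv m)) k| ≤ 1)
    (hE : ∀ (b : Fin N → ℤ) (t : Fin N → ℝ), (∀ k, |t k| ≤ μ) →
      L.transpose.mulVec t = iv b → b = 0) :
    (S.card : ℝ) ≤ 2 / (μ ^ N * |L.det|) := by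
  classical
  set B : Set (Fin N → ℝ) := Set.Icc (fun _ => -(μ / 2)) (fun _ => μ / 2) with hB
  set f := Matrix.toLin' L.transpose with hf
  set E : Set (Fin N → ℝ) := f '' B with hEdef
  have hBvol : volume B = ENNReal.ofReal (μ ^ N) := by
    rw [hB, Real.volume_Icc_pi]
    simp only [sub_neg_eq_add, add_halves, Finset.prod_const, Finset.card_univ, Fintype.card_fin]
    rw [ENNReal.ofReal_pow hμ.le]
  have hEvol : volume E = ENNReal.ofReal (|L.det| * μ ^ N) := by
    rw [hEdef, Measure.addHaar_image_linearMap, hBvol, hf, LinearMap.det_toLin',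
      Matrix.det_transpose, ENNReal.ofReal_mul (abs_nonneg _)]
  have hEm : MeasurableSet E := by
    apply IsCompact.measurableSet
    exact isCompact_Icc.image (LinearMap.continuous_of_finiteDimensional f)
  have hcard0 : (0 : ℝ) ≤ S.card := by positivity
  have hlow : ∀ x ∈ E, ((S.card : ℝ) ^ 2 / 2) ≤ ‖∑ m ∈ S, ec m x‖ ^ 2 := by
    intro x hx
    obtain ⟨t, ht, rfl⟩ := hx
    have hcos : ∀ m ∈ S, (√2 / 2 : ℝ) ≤ (ec m (f t)).re := by
      intro m hm
      rw [ec_eq, Complex.exp_ofReal_mul_I_re]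
      have h1 : ∑ i, (m i : ℝ) * f t i = ∑ k, t k * (L.mulVec (iv m)) k := by
        have e1 : ∑ i, (m i : ℝ) * f t i = iv m ⬝ᵥ (L.transpose.mulVec t) := rfl
        rw [e1, Matrix.mulVec_transpose, dotProduct_comm, ← Matrix.dotProduct_mulVec]
        rfl
      have h2 : |∑ i, (m i : ℝ) * f t i| ≤ 1 / 8 := by
        rw [h1]
        calc |∑ k, t k * (L.mulVec (iv m)) k| ≤ ∑ k, |t k * (L.mulVec (iv m)) k| :=
              Finset.abs_sum_le_sum_abs _ _
          _ ≤ ∑ k : Fin N, μ / 2 := by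
              apply Finset.sum_le_sum
              intro k _
              rw [abs_mul]
              have h3 : |t k| ≤ μ / 2 := abs_le.2 ⟨ht.1 k, ht.2 k⟩
              calc |t k| * |(L.mulVec (iv m)) k| ≤ (μ / 2) * 1 :=
                    mul_le_mul h3 (hS m hm k) (abs_nonneg _) (by positivity)
                _ = _ := mul_one _
          _ = N * (μ / 2) := by
              rw [Finset.sum_const, Finset.card_univ, Fintype.card_fin, nsmul_eq_mul]
          _ ≤ 1 / 8 := by linarith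
      rw [← Real.cos_pi_div_four, ← Real.cos_abs (2 * Real.pi * _)]
      apply Real.cos_le_cos_of_nonneg_of_le_pi (abs_nonneg _)
      · linarith [Real.pi_pos]
      · rw [abs_mul, abs_of_pos (by positivity : (0 : ℝ) < 2 * Real.pi)]
        have := Real.pi_pos
        nlinarith
    have h4 : (√2 / 2 : ℝ) * S.card ≤ ‖∑ m ∈ S, ec m (f t)‖ := by
      calc (√2 / 2 : ℝ) * S.card = ∑ m ∈ S, (√2 / 2 : ℝ) := by
            rw [Finset.sum_const, nsmul_eq_mul]; ring
        _ ≤ ∑ m ∈ S, (ec m (f t)).re := Finset.sum_le_sum hcos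
        _ = (∑ m ∈ S, ec m (f t)).re := by rw [Complex.re_sum]
        _ ≤ _ := Complex.re_le_norm _
    have h5 : 0 ≤ (√2 / 2 : ℝ) * S.card := by positivity
    calc (S.card : ℝ) ^ 2 / 2 = ((√2 / 2 : ℝ) * S.card) ^ 2 := by
          rw [mul_pow, div_pow, Real.sq_sqrt (by norm_num)]
          ring
      _ ≤ _ := pow_le_pow_left₀ h5 h4 2
  have hinj : ∀ x ∈ E, ∀ y ∈ E, ∀ b : Fin N → ℤ, iv b = x - y → b = 0 := by
    rintro x ⟨t, ht, rfl⟩ y ⟨u, hu, rfl⟩ b hb
    apply hE b (t - u)
    · intro k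
      have h1 := ht.1 k
      have h2 := ht.2 k
      have h3 := hu.1 k
      have h4 := hu.2 k
      simp only [Pi.sub_apply] at *
      rw [abs_le]
      constructor <;> linarith
    · rw [hb, Matrix.mulVec_sub]
      rfl
  have hcont : Continuous fun x : Fin N → ℝ => ‖∑ m ∈ S, ec m x‖ ^ 2 := by
    apply Continuous.pow
    apply Continuous.norm
    exact continuous_finsetSum _ fun m _ => ec_continuous m
  have hmain := unfold_le E hEm hinj (fun x => ENNReal.ofReal (‖∑ m ∈ S, ec m x‖ ^ 2)) (by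
    intro b x
    simp_rw [ec_add])
  have hint : IntegrableOn (fun x : Fin N → ℝ => ‖∑ m ∈ S, ec m x‖ ^ 2) (cube N) := by
    have hc : IsCompact (Set.Icc (0 : Fin N → ℝ) 1) := isCompact_Icc
    apply (hcont.continuousOn.integrableOn_compact hc).mono_set
    intro x hx
    unfold cube at hx
    rw [Set.mem_pi] at hx
    exact ⟨fun i => (hx i (Set.mem_univ i)).1, fun i => (hx i (Set.mem_univ i)).2.le⟩
  rw [← ofReal_integral_eq_lintegral_ofReal hint (Filter.Eventually.of_forall fun x => by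
    positivity), parseval] at hmain
  have hlow2 : ENNReal.ofReal ((S.card : ℝ) ^ 2 / 2) * volume E ≤
      ∫⁻ x in E, ENNReal.ofReal (‖∑ m ∈ S, ec m x‖ ^ 2) := by
    rw [← setLIntegral_const]
    apply setLIntegral_mono hcont.measurable.ennreal_ofReal
    intro x hx
    exact ENNReal.ofReal_le_ofReal (hlow x hx)
  have h6 := hlow2.trans hmain
  rw [hEvol, ← ENNReal.ofReal_mul (by positivity)] at h6
  have h7 := (ENNReal.ofReal_le_ofReal_iff hcard0).1 h6
  have hdet : 0 < |L.det| := abs_pos.2 hL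
  have hpos : 0 < μ ^ N * |L.det| := by positivity
  rw [le_div_iff₀ hpos]
  by_cases hc : S.card = 0
  · rw [hc]; simp
  · have hc' : (0 : ℝ) < S.card := by exact_mod_cast Nat.pos_of_ne_zero hc
    have h8 : (S.card : ℝ) * ((S.card : ℝ) * (μ ^ N * |L.det|)) ≤ (S.card : ℝ) * 2 := by
      nlinarith
    exact le_of_mul_le_mul_left h8 hc'

end Pool.Agent.Helper45.Disc
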