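import Pool.Agent.Helper45.DBody
import Pool.Agent.Helper45.DLatC
import Mathlib

open Polynomial

namespace Pool.Agent.Helper45.Disc

open Pool.Agent.Helper12.Disc

variable {n : ℕ}

theorem prod_ww (z : Fin n → ℂ) : ∏ l, ww z l = (∏ l, dd z l) * D2 z := by
  unfold ww
  rw [Finset.prod_mul_distrib, D2_eq]

theorem eval_sum (P : ℤ[X]) (hP : P.natDegree = n) (z : ℂ) :
    (P.map (Int.castRingHom ℂ)).eval z = ∑ k : Fin (n + 1), (P.coeff k : ℂ) * z ^ (k : ℕ) := by
  have hdeg : (P.map (Int.castRingHom ℂ)).natDegree = n := by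
    rw [natDegree_map_eq_of_injective (RingHom.injective_int _), hP]
  rw [eval_eq_sum_range, hdeg, Finset.sum_range]
  apply Finset.sum_congr rfl
  intro k _
  simp

/-- irreducible integer polynomials in a root-adapted body -/
theorem count_body (hn : 2 ≤ n) (R κ : ℝ) (hR : 1 ≤ R) (hκ : 0 < κ) (σ : Fin n → Fin n)
    (hσ : ∀ l, σ (σ l) = l) :
    ∃ C : ℝ, 0 < C ∧ ∀ z : Fin n → ℂ, (∀ l, z (σ l) = (starRingEnd ℂ) (z l)) →
      (∀ l, ‖z l‖ ≤ R) → 0 < D2 z → ∀ A : ℝ, 0 < A → 1 ≤ κ * A ^ 2 * D2 z →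
      ∀ T : Finset ℤ[X], (∀ P ∈ T, P.natDegree = n ∧
        (∀ x : ℚ, aeval x P ≠ 0) ∧
        (∀ l, ‖(P.map (Int.castRingHom ℂ)).eval (z l)‖ ≤ A * ww z l) ∧
        |(P.coeff n : ℝ)| ≤ A) →
      (T.card : ℝ) ≤ C * A ^ (n + 1) * (∏ l, dd z l) * Real.sqrt (D2 z) := by
  classical
  set M : ℝ := 2 * R with hM
  have hM1 : 1 ≤ M := by rw [hM]; linarith
  set K : ℝ := M ^ (n * n + 2 * n) with hK
  have hK0 : 0 < K := by positivity
  set X : ℝ := 3 * n ^ 3 * R ^ (2 * n) * (K * κ) with hX
  have hX0 : 0 ≤ X := by positivity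
  set μ : ℝ := 1 / ((4 * (n + 1)) * (X + 1)) with hμ
  have hμ0 : 0 < μ := by positivity
  have hμ1 : 4 * ((n + 1 : ℕ) : ℝ) * μ ≤ 1 := by
    rw [hμ, mul_one_div, div_le_one (by positivity)]
    push_cast
    nlinarith [show (0 : ℝ) ≤ n by positivity]
  have hμ2 : X * μ ^ 2 < 1 := by
    have h1 : μ ≤ 1 := by
      have : (0 : ℝ) ≤ n := by positivity
      push_cast at hμ1
      nlinarith
    have h2 : X * μ < 1 := by
      rw [hμ, mul_one_div, div_lt_one (by positivity)]
      nlinarith [show (0 : ℝ) ≤ n by positivity]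
    nlinarith
  have hdetN : (0 : ℝ) < ‖(Nmat σ).det‖ := norm_pos_iff.2 (Nmat_det σ hσ)
  refine ⟨2 * ‖(Nmat σ).det‖ / μ ^ (n + 1), by positivity, ?_⟩
  intro z hz hzR hD A hA hAD T hT
  have hzM : ∀ i j, ‖z i - z j‖ ≤ M := by
    intro i j
    calc ‖z i - z j‖ ≤ ‖z i‖ + ‖z j‖ := norm_sub_le _ _
      _ ≤ M := by rw [hM]; linarith [hzR i, hzR j]
  have hw0 : ∀ i, 0 < ww z i := by
    intro i
    have h1 := D2_le_ww hn z M hM1 hzM i
    by_contra h
    push Not at h
    have : M ^ (n * n + 2 * n) * ww z i ≤ 0 := mul_nonpos_of_nonneg_of_nonpos (by positivity) h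
    linarith
  have hd0 : ∀ i, 0 < dd z i := by
    intro i
    have h1 := hw0 i
    unfold ww at h1
    exact pos_of_mul_pos_left h1 (pp_nonneg z i)
  have hwσ : ∀ l, ww z (σ l) = ww z l := by
    intro l
    unfold ww
    rw [dd_conj σ hσ z hz, pp_conj σ hσ z hz]
  by_cases hTe : T = ∅
  · rw [hTe]
    simp only [Finset.card_empty, Nat.cast_zero]
    have : 0 ≤ ∏ l, dd z l := Finset.prod_nonneg fun l _ => (hd0 l).le
    positivity
  obtain ⟨P₀, hP₀⟩ := Finset.nonempty_iff_ne_empty.2 hTe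
  -- the matrix
  set g : Fin (n + 1) → ℝ := fun i => Fin.lastCases (motive := fun _ => ℝ) (1 / A)
    (fun l => 1 / (A * ww z l)) i with hg
  have hglast : g (Fin.last n) = 1 / A := by rw [hg]; simp
  have hgcast : ∀ l : Fin n, g l.castSucc = 1 / (A * ww z l) := by intro l; rw [hg]; simp
  set L : Matrix (Fin (n + 1)) (Fin (n + 1)) ℝ := Matrix.of fun i k => g i * BB σ z i k with hL
  have hgprod : ∏ i, g i = 1 / (A ^ (n + 1) * ∏ l, ww z l) := by
    rw [Fin.prod_univ_castSucc, hglast]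
    simp_rw [hgcast]
    rw [Finset.prod_div_distrib, Finset.prod_const_one, Finset.prod_mul_distrib, Finset.prod_const,
      Finset.card_univ, Fintype.card_fin]
    have hA' := hA.ne'
    have hp : ∏ l, ww z l ≠ 0 := Finset.prod_ne_zero_iff.2 fun l _ => (hw0 l).ne'
    field_simp
    ring
  have hwprod : 0 < ∏ l, ww z l := Finset.prod_pos fun l _ => hw0 l
  have hsqrt : 0 < Real.sqrt (D2 z) := Real.sqrt_pos.2 hD
  have hdet : |L.det| = (1 / (A ^ (n + 1) * ∏ l, ww z l)) * (Real.sqrt (D2 z) / ‖(Nmat σ).det‖) := by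
    rw [hL, Matrix.det_mul_column, BB_det, abs_mul, hgprod, ← rowR_det σ hσ z hz, abs_of_pos (by
      positivity), mul_div_cancel_left₀ _ hdetN.ne']
  have hdet0 : L.det ≠ 0 := by
    rw [← abs_pos, hdet]
    positivity
  -- the vectors
  set vec : ℤ[X] → (Fin (n + 1) → ℤ) := fun P k => P.coeff k with hvec
  have hinj : Set.InjOn vec (T : Set ℤ[X]) := by
    intro P hP Q hQ hPQ
    have h1 := (hT P hP).1
    have h2 := (hT Q hQ).1
    ext k
    by_cases hk : k < n + 1
    · exact congrFun hPQ ⟨k, hk⟩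
    · rw [coeff_eq_zero_of_natDegree_lt (by omega), coeff_eq_zero_of_natDegree_lt (by omega)]
  have hrow : ∀ P ∈ T, ∀ l : Fin n, (L.mulVec (iv (vec P))) l.castSucc =
      1 / (A * ww z l) * (if l ≤ σ l then ((P.map (Int.castRingHom ℂ)).eval (z l)).re
        else ((P.map (Int.castRingHom ℂ)).eval (z (σ l))).im) := by
    intro P hP l
    have h1 : (L.mulVec (iv (vec P))) l.castSucc =
        ∑ k, g l.castSucc * BB σ z l.castSucc k * (P.coeff k : ℝ) := rfl
    rw [h1, hgcast, eval_sum P (hT P hP).1, eval_sum P (hT P hP).1]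
    simp_rw [mul_assoc]
    rw [← Finset.mul_sum]
    congr 1
    simp_rw [BB_castSucc]
    unfold rowR
    split_ifs with h
    · rw [Complex.re_sum]
      apply Finset.sum_congr rfl
      intro k _
      rw [← Complex.ofReal_intCast, Complex.re_ofReal_mul, mul_comm]
    · rw [Complex.im_sum]
      apply Finset.sum_congr rfl
      intro k _
      rw [← Complex.ofReal_intCast, Complex.im_ofReal_mul, mul_comm]
  have hrowlast : ∀ P, (L.mulVec (iv (vec P))) (Fin.last n) = 1 / A * (P.coeff n : ℝ) := by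
    intro P
    have h1 : (L.mulVec (iv (vec P))) (Fin.last n) =
        ∑ k, g (Fin.last n) * BB σ z (Fin.last n) k * (P.coeff k : ℝ) := rfl
    rw [h1, hglast, Finset.sum_eq_single (Fin.last n)]
    · rw [BB_last, if_pos rfl]
      simp
    · intro k _ hk
      rw [BB_last, if_neg hk]
      simp
    · intro h; exact absurd (Finset.mem_univ _) h
  have hbound : ∀ P ∈ T, ∀ i, |(L.mulVec (iv (vec P))) i| ≤ 1 := by
    intro P hP i
    obtain ⟨h1, h2, h3, h4⟩ := hT P hP
    refine Fin.lastCases ?_ ?_ i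
    · rw [hrowlast, abs_mul, abs_of_pos (by positivity), one_div, inv_mul_le_iff₀ hA, mul_one]
      exact h4
    · intro l
      have hwl := hw0 l
      rw [hrow P hP l, abs_mul, abs_of_pos (by positivity), one_div, inv_mul_le_iff₀ (by
        positivity), mul_one]
      split_ifs
      · exact (Complex.abs_re_le_norm _).trans (h3 l)
      · have := h3 (σ l)
        rw [hwσ] at this
        exact (Complex.abs_im_le_norm _).trans this
  -- the polar body
  have hpolar : ∀ (b : Fin (n + 1) → ℤ) (t : Fin (n + 1) → ℝ), (∀ k, |t k| ≤ μ) →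
      L.transpose.mulVec t = iv b → b = 0 := by
    intro b t ht hbt
    have hbk : ∀ k : Fin (n + 1), (b k : ℝ) = ∑ l : Fin n, (t l.castSucc / (A * ww z l)) *
        rowR σ z l k + (if k = Fin.last n then t (Fin.last n) / A else 0) := by
      intro k
      have h1 : (b k : ℝ) = (L.transpose.mulVec t) k := by rw [hbt]; rfl
      have h2 : (L.transpose.mulVec t) k = ∑ i, g i * BB σ z i k * t i := rfl
      rw [h1, h2, Fin.sum_univ_castSucc, hglast, BB_last]
      congr 1
      · apply Finset.sum_congr rfl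
        intro l _
        rw [hgcast, BB_castSucc]
        ring
      · split_ifs <;> ring
    obtain ⟨c, hc1, hc2⟩ := exists_complex_coeffs σ hσ z hz
      (fun l => t l.castSucc / (A * ww z l)) (fun l => μ / (A * ww z l))
      (fun l => by rw [hwσ]) (fun l => by
        have hwl := hw0 l
        rw [abs_div, abs_of_pos (show 0 < A * ww z l by positivity)]
        exact div_le_div_of_nonneg_right (ht _) (by positivity))
    set b' : ℕ → ℤ := fun k => if h : k < n + 1 then b ⟨k, h⟩ else 0 with hb'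
    have hb'1 : ∀ k : Fin (n + 1), b' k = b k := by
      intro k
      have h1 : b' k = if h : (k : ℕ) < n + 1 then b ⟨k, h⟩ else 0 := rfl
      rw [h1, dif_pos k.2]
    set cinf : ℂ := ((t (Fin.last n) / A : ℝ) : ℂ) with hcinf
    have hcinf1 : ‖cinf‖ ≤ μ / A := by
      rw [hcinf, Complex.norm_real, Real.norm_eq_abs, abs_div, abs_of_pos hA]
      exact div_le_div_of_nonneg_right (ht _) hA.le
    have hb'2 : ∀ k ≤ n, ((b' k : ℤ) : ℂ) = SS c z k + if k = n then cinf else 0 := by
      intro k hk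
      have h1 := hbk ⟨k, by omega⟩
      have h2 := hb'1 ⟨k, by omega⟩
      simp only at h2
      rw [h2, ← hc2 k]
      have h3 : ((b ⟨k, by omega⟩ : ℤ) : ℂ) = (((b ⟨k, by omega⟩ : ℤ) : ℝ) : ℂ) := by push_cast; rfl
      rw [h3, h1]
      have h4 : (⟨k, by omega⟩ : Fin (n + 1)) = Fin.last n ↔ k = n := by
        rw [Fin.ext_iff]
        simp
      rw [Complex.ofReal_add]
      congr 1
      by_cases hkn : k = n
      · rw [if_pos (h4.2 hkn), if_pos hkn]
      · rw [if_neg (fun h => hkn (h4.1 h)), if_neg hkn]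
        simp
    -- epsilon
    have hAD' : (0 : ℝ) < A ^ 2 * D2 z := by positivity
    have hε1 : ∀ i j, ‖c i‖ * ‖c j‖ * ‖z i - z j‖ ^ 2 ≤ μ ^ 2 * (K * κ) := by
      intro i j
      have h1 := D2_mul_le_ww hn z M hM1 hzM i j
      have hwi := hw0 i
      have hwj := hw0 j
      calc ‖c i‖ * ‖c j‖ * ‖z i - z j‖ ^ 2
          ≤ (μ / (A * ww z i)) * (μ / (A * ww z j)) * ‖z i - z j‖ ^ 2 := by
            apply mul_le_mul_of_nonneg_right _ (by positivity)
            exact mul_le_mul (hc1 i) (hc1 j) (norm_nonneg _) (by positivity)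
        _ = μ ^ 2 * (D2 z * ‖z i - z j‖ ^ 2) / (A ^ 2 * D2 z * (ww z i * ww z j)) := by
            field_simp
        _ ≤ μ ^ 2 * (K * (ww z i * ww z j)) / (A ^ 2 * D2 z * (ww z i * ww z j)) := by
            apply div_le_div_of_nonneg_right _ (by positivity)
            exact mul_le_mul_of_nonneg_left h1 (by positivity)
        _ = μ ^ 2 * K * (1 / (A ^ 2 * D2 z)) := by
            field_simp
        _ ≤ μ ^ 2 * K * κ := by
            apply mul_le_mul_of_nonneg_left _ (by positivity)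
            rw [div_le_iff₀ hAD']
            linarith
        _ = _ := by ring
    have hε2 : ∀ i, ‖cinf‖ * ‖c i‖ ≤ μ ^ 2 * (K * κ) := by
      intro i
      have h1 := D2_le_ww hn z M hM1 hzM i
      have hwi := hw0 i
      calc ‖cinf‖ * ‖c i‖ ≤ (μ / A) * (μ / (A * ww z i)) :=
            mul_le_mul hcinf1 (hc1 i) (norm_nonneg _) (by positivity)
        _ = μ ^ 2 * D2 z / (A ^ 2 * D2 z * ww z i) := by field_simp
        _ ≤ μ ^ 2 * (K * ww z i) / (A ^ 2 * D2 z * ww z i) := by
            apply div_le_div_of_nonneg_right _ (by positivity)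
            exact mul_le_mul_of_nonneg_left h1 (by positivity)
        _ = μ ^ 2 * K * (1 / (A ^ 2 * D2 z)) := by field_simp
        _ ≤ μ ^ 2 * K * κ := by
            apply mul_le_mul_of_nonneg_left _ (by positivity)
            rw [div_le_iff₀ hAD']
            linarith
        _ = _ := by ring
    have hsmall : 3 * n ^ 3 * R ^ (2 * n) * (μ ^ 2 * (K * κ)) < 1 := by
      calc _ = X * μ ^ 2 := by rw [hX]; ring
        _ < 1 := hμ2
    have hmin := hankel_minor (by omega) R hR c z cinf hzR (μ ^ 2 * (K * κ)) (by positivity)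
      hε1 hε2 hsmall b' hb'2
    -- the pairing with `P₀`
    have hpair : ∑ k ∈ Finset.range (n + 1), b' k * P₀.coeff k = 0 := by
      have h1 : ((∑ k ∈ Finset.range (n + 1), b' k * P₀.coeff k : ℤ) : ℝ) =
          ∑ i, t i * (L.mulVec (iv (vec P₀))) i := by
        have e1 : ∑ i, t i * (L.mulVec (iv (vec P₀))) i = t ⬝ᵥ (L.mulVec (iv (vec P₀))) := rfl
        rw [e1, Matrix.dotProduct_mulVec, ← Matrix.mulVec_transpose, hbt, Finset.sum_range]
        push_cast
        apply Finset.sum_congr rfl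
        intro k _
        rw [hb'1 k]
        rfl
      have h2 : |((∑ k ∈ Finset.range (n + 1), b' k * P₀.coeff k : ℤ) : ℝ)| < 1 := by
        rw [h1]
        calc |∑ i, t i * (L.mulVec (iv (vec P₀))) i| ≤ ∑ i, |t i * (L.mulVec (iv (vec P₀))) i| :=
              Finset.abs_sum_le_sum_abs _ _
          _ ≤ ∑ i : Fin (n + 1), μ := by
              apply Finset.sum_le_sum
              intro i _
              rw [abs_mul]
              calc _ ≤ μ * 1 := mul_le_mul (ht i) (hbound P₀ hP₀ i) (abs_nonneg _) hμ0.le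
                _ = μ := mul_one _
          _ = ((n + 1 : ℕ) : ℝ) * μ := by simp
          _ < 1 := by linarith [show (0 : ℝ) < ((n + 1 : ℕ) : ℝ) * μ by positivity]
      have h3 : |∑ k ∈ Finset.range (n + 1), b' k * P₀.coeff k| < 1 := by exact_mod_cast h2
      exact Int.abs_lt_one_iff.1 h3
    have hzero := hankel_zero hn b' (fun k hk l hl => hmin k l hk hl) P₀ (hT P₀ hP₀).1 (hT P₀ hP₀).2.1 hpair
    funext k
    rw [← hb'1 k]
    exact hzero k (by have := k.2; omega)
  -- conclusion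
  have hfin := lattice_bound L hdet0 μ hμ0 hμ1 (T.image vec) (by
    intro m hm i
    obtain ⟨P, hP, rfl⟩ := Finset.mem_image.1 hm
    exact hbound P hP i) hpolar
  rw [Finset.card_image_of_injOn hinj, hdet] at hfin
  refine hfin.trans (le_of_eq ?_)
  rw [prod_ww]
  have hdp : 0 < ∏ l, dd z l := Finset.prod_pos fun l _ => hd0 l
  have hs2 : Real.sqrt (D2 z) * Real.sqrt (D2 z) = D2 z := Real.mul_self_sqrt hD.le
  have hsq := hsqrt.ne'
  have hNd := hdetN.ne'
  have hμn := hμ0.ne'
  have hAn := hA.ne'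
  have hdpn := hdp.ne'
  have hDn := hD.ne'
  rw [show D2 z = Real.sqrt (D2 z) ^ 2 by rw [sq, hs2]]
  rw [Real.sqrt_sq hsqrt.le]
  field_simp

end Pool.Agent.Helper45.Disc
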