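import Pool.Agent.Helper12.DiscVolA
import Mathlib

open Polynomial MeasureTheory

namespace Pool.Agent.Helper45.Disc

open Pool.Agent.Helper12.Disc

variable {n : ℕ}

theorem double_count {ι : Type*} (T : Finset ι) (lo hi : ι → Fin n → ℝ)
    (hlt : ∀ P ∈ T, ∀ l, lo P l < hi P l) (G : Set (Fin n → ℝ)) (Bd : ℝ)
    (hG : ∀ P ∈ T, Set.Icc (lo P) (hi P) ⊆ G)
    (hpt : ∀ y ∈ G, ∀ T' ⊆ T, (∀ P ∈ T', y ∈ Set.Icc (lo P) (hi P)) →
      ∑ P ∈ T', 1 / ∏ l, (hi P l - lo P l) ≤ Bd) :
    (T.card : ENNReal) ≤ ENNReal.ofReal Bd * volume G := by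
  classical
  have hv : ∀ P ∈ T, 0 < ∏ l, (hi P l - lo P l) := fun P hP =>
    Finset.prod_pos fun l _ => sub_pos.2 (hlt P hP l)
  have h1 : ∀ P ∈ T, ∫⁻ y, (Set.Icc (lo P) (hi P)).indicator
      (fun _ => ENNReal.ofReal (1 / ∏ l, (hi P l - lo P l))) y = 1 := by
    intro P hP
    rw [lintegral_indicator_const measurableSet_Icc, Real.volume_Icc_pi,
      ← ENNReal.ofReal_prod_of_nonneg (fun l _ => (sub_pos.2 (hlt P hP l)).le),
      ← ENNReal.ofReal_mul (by have := hv P hP; positivity), one_div, inv_mul_cancel₀ (hv P hP).ne',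
      ENNReal.ofReal_one]
  have h2 : (T.card : ENNReal) = ∫⁻ y, ∑ P ∈ T, (Set.Icc (lo P) (hi P)).indicator
      (fun _ => ENNReal.ofReal (1 / ∏ l, (hi P l - lo P l))) y := by
    rw [lintegral_finsetSum]
    · rw [Finset.sum_congr rfl h1]
      simp
    · intro P _
      exact measurable_const.indicator measurableSet_Icc
  rw [h2]
  refine le_trans ?_ (lintegral_indicator_const_le G (ENNReal.ofReal Bd))
  apply lintegral_mono
  intro y
  have h3 : ∑ P ∈ T, (Set.Icc (lo P) (hi P)).indicator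
      (fun _ => ENNReal.ofReal (1 / ∏ l, (hi P l - lo P l))) y =
      ENNReal.ofReal (∑ P ∈ T.filter (fun P => y ∈ Set.Icc (lo P) (hi P)),
        1 / ∏ l, (hi P l - lo P l)) := by
    rw [ENNReal.ofReal_sum_of_nonneg]
    · rw [Finset.sum_filter]
      apply Finset.sum_congr rfl
      intro P _
      rw [Set.indicator_apply]
    · intro P hP
      have := hv P (Finset.mem_filter.1 hP).1
      positivity
  simp only
  rw [h3]
  by_cases hy : y ∈ G
  · rw [Set.indicator_of_mem hy]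
    apply ENNReal.ofReal_le_ofReal
    exact hpt y hy _ (Finset.filter_subset _ _) (fun P hP => (Finset.mem_filter.1 hP).2)
  · rw [Set.indicator_of_notMem hy]
    have h4 : T.filter (fun P => y ∈ Set.Icc (lo P) (hi P)) = ∅ := by
      rw [Finset.filter_eq_empty_iff]
      intro P hP hyP
      exact hy (hG P hP hyP)
    rw [h4]
    simp

end Pool.Agent.Helper45.Disc
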