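import Pool.Agent.Helper12.DiscCover
import Mathlib

namespace Pool.Agent.Helper45.Disc

open Pool.Agent.Helper12.Disc

variable {n : ℕ}

/-- one more coordinate away from finitely many centres -/
theorem exists_away (s : ℝ) (hs : 0 < s) (C : Finset ℝ) (a : ℝ) :
    ∃ x, a ≤ x ∧ x ≤ a + 2 * s * C.card ∧ ∀ c ∈ C, s ≤ |x - c| := by
  classical
  by_contra hcon
  push Not at hcon
  have h1 : ∀ j : ℕ, j ∈ Finset.range (C.card + 1) → ∃ c ∈ C, |a + 2 * s * j - c| < s := by
    intro j hj
    have hj' : j ≤ C.card := by have := Finset.mem_range.1 hj; omega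
    have hj'' : (j : ℝ) ≤ C.card := by exact_mod_cast hj'
    apply hcon
    · have : 0 ≤ 2 * s * j := by positivity
      linarith
    · have : 2 * s * (j : ℝ) ≤ 2 * s * C.card := mul_le_mul_of_nonneg_left hj'' (by positivity)
      linarith
  choose! f hf using h1
  obtain ⟨j, hj, j', hj', hne, heq⟩ := Finset.exists_ne_map_eq_of_card_lt_of_maps_to
    (s := Finset.range (C.card + 1)) (t := C) (by simp) (f := f) (fun j hj => (hf j hj).1)
  have e1 := (hf j hj).2
  have e2 := (hf j' hj').2
  rw [← heq] at e2
  have e3 : |2 * s * ((j : ℝ) - j')| < 2 * s := by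
    calc |2 * s * ((j : ℝ) - j')| = |(a + 2 * s * j - f j) - (a + 2 * s * j' - f j)| := by
          congr 1; ring
      _ ≤ |a + 2 * s * j - f j| + |a + 2 * s * j' - f j| := abs_sub _ _
      _ < 2 * s := by linarith
  rw [abs_mul, abs_of_pos (by positivity : (0 : ℝ) < 2 * s)] at e3
  have e4 : |(j : ℝ) - j'| < 1 := by
    by_contra h
    push Not at h
    nlinarith
  have e5 : |((j : ℤ) - j' : ℤ)| < 1 := by exact_mod_cast e4
  have e6 := Int.abs_lt_one_iff.1 e5
  apply hne
  omega

/-- moving the coordinates apart -/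
theorem exists_separate (s : ℝ) (hs : 0 < s) (y : Fin n → ℝ) :
    ∃ y' : Fin n → ℝ, (∀ l, |y' l - y l| ≤ 2 * (n + 1) * s) ∧ (∀ l, s ≤ |y' l|) ∧
      ∀ l m, l ≠ m → s ≤ |y' l - y' m| := by
  classical
  have key : ∀ t : Finset (Fin n), ∃ y' : Fin n → ℝ, (∀ l, |y' l - y l| ≤ 2 * (n + 1) * s) ∧
      (∀ l ∈ t, s ≤ |y' l|) ∧ ∀ l ∈ t, ∀ m ∈ t, l ≠ m → s ≤ |y' l - y' m| := by
    intro t
    induction t using Finset.induction_on with
    | empty =>
      refine ⟨y, ?_, by simp, by simp⟩
      intro l
      rw [sub_self, abs_zero]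
      positivity
    | insert a t ha ih =>
      obtain ⟨y', h1, h2, h3⟩ := ih
      obtain ⟨x, hx1, hx2, hx3⟩ := exists_away s hs (insert 0 (t.image y')) (y a)
      have hcard : ((insert 0 (t.image y')).card : ℝ) ≤ n + 1 := by
        have e1 : (insert (0 : ℝ) (t.image y')).card ≤ t.card + 1 :=
          (Finset.card_insert_le _ _).trans (Nat.add_le_add_right Finset.card_image_le 1)
        have e2 : t.card ≤ n := by
          calc t.card ≤ (Finset.univ : Finset (Fin n)).card := Finset.card_le_card (Finset.subset_univ _)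
            _ = n := by simp
        exact_mod_cast e1.trans (by omega)
      have hxa : |x - y a| ≤ 2 * (n + 1) * s := by
        rw [abs_of_nonneg (by linarith)]
        have : 2 * s * ((insert 0 (t.image y')).card : ℝ) ≤ 2 * s * (n + 1) :=
          mul_le_mul_of_nonneg_left hcard (by positivity)
        linarith
      refine ⟨Function.update y' a x, ?_, ?_, ?_⟩
      · intro l
        by_cases hl : l = a
        · rw [hl, Function.update_self]; exact hxa
        · rw [Function.update_of_ne hl]; exact h1 l
      · intro l hl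
        by_cases hla : l = a
        · rw [hla, Function.update_self]
          have := hx3 0 (Finset.mem_insert_self _ _)
          rwa [sub_zero] at this
        · rw [Function.update_of_ne hla]
          exact h2 l ((Finset.mem_insert.1 hl).resolve_left hla)
      · intro l hl m hm hlm
        by_cases hla : l = a
        · have hma : m ≠ a := fun h => hlm (hla.trans h.symm)
          rw [hla, Function.update_self, Function.update_of_ne hma]
          exact hx3 _ (Finset.mem_insert_of_mem (Finset.mem_image_of_mem _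
            ((Finset.mem_insert.1 hm).resolve_left hma)))
        · rw [Function.update_of_ne hla]
          by_cases hma : m = a
          · rw [hma, Function.update_self, abs_sub_comm]
            exact hx3 _ (Finset.mem_insert_of_mem (Finset.mem_image_of_mem _
              ((Finset.mem_insert.1 hl).resolve_left hla)))
          · rw [Function.update_of_ne hma]
            exact h3 l ((Finset.mem_insert.1 hl).resolve_left hla) m
              ((Finset.mem_insert.1 hm).resolve_left hma) hlm
  obtain ⟨y', h1, h2, h3⟩ := key Finset.univ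
  exact ⟨y', h1, fun l => h2 l (Finset.mem_univ l), fun l m hlm =>
    h3 l (Finset.mem_univ l) m (Finset.mem_univ m) hlm⟩

theorem norm_Zof_le (σ : Fin n → Fin n) (u : Fin n → ℝ) (l : Fin n) :
    ‖Zof (Nmat σ) u l‖ ≤ |u l| + |u (σ l)| := by
  rw [Zof_Nmat]
  split_ifs with h1 h2
  · rw [Complex.norm_real, Real.norm_eq_abs]
    have := abs_nonneg (u (σ l))
    linarith
  · refine (norm_add_le _ _).trans ?_
    rw [norm_mul, Complex.norm_I, one_mul, Complex.norm_real, Complex.norm_real,
      Real.norm_eq_abs, Real.norm_eq_abs]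
  · refine (norm_sub_le _ _).trans ?_
    rw [norm_mul, Complex.norm_I, one_mul, Complex.norm_real, Complex.norm_real,
      Real.norm_eq_abs, Real.norm_eq_abs, add_comm]

theorem Zof_sub' (N : Matrix (Fin n) (Fin n) ℂ) (y y' : Fin n → ℝ) :
    Zof N (y - y') = Zof N y - Zof N y' := by
  have h := Zof_add N (y - y') y'
  rw [sub_add_cancel] at h
  rw [h]
  simp

theorem Zof_re (σ : Fin n → Fin n) (u : Fin n → ℝ) (l : Fin n) :
    (Zof (Nmat σ) u l).re = u (min l (σ l)) := by
  rw [Zof_Nmat]
  rcases lt_trichotomy (σ l) l with hl | hl | hl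
  · rw [if_neg hl.ne, if_neg (not_lt.2 hl.le), min_eq_right hl.le]
    simp
  · rw [if_pos hl, hl, min_self]
    simp
  · rw [if_neg hl.ne', if_pos hl, min_eq_left hl.le]
    simp

theorem Zof_im_abs (σ : Fin n → Fin n) (u : Fin n → ℝ) (l : Fin n) (h : σ l ≠ l) :
    |(Zof (Nmat σ) u l).im| = |u (max l (σ l))| := by
  rw [Zof_Nmat, if_neg h]
  rcases lt_or_gt_of_ne h with hl | hl
  · rw [if_neg (not_lt.2 hl.le), max_eq_left hl.le]
    simp
  · rw [if_pos hl, max_eq_right hl.le]
    simp

/-- separated coordinates give separated points -/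
theorem Zof_separated (σ : Fin n → Fin n) (hσ : ∀ l, σ (σ l) = l) (s : ℝ) (hs : 0 < s)
    (y : Fin n → ℝ) (h1 : ∀ l, s ≤ |y l|) (h2 : ∀ l m, l ≠ m → s ≤ |y l - y m|) (i j : Fin n)
    (hij : i ≠ j) : s ≤ ‖Zof (Nmat σ) y i - Zof (Nmat σ) y j‖ := by
  by_cases hc : j = σ i
  · have hne : σ i ≠ i := by rw [← hc]; exact hij.symm
    have e1 : Zof (Nmat σ) y j = (starRingEnd ℂ) (Zof (Nmat σ) y i) := by
      rw [hc]; exact Zof_Nmat_conj σ hσ y i
    have e2 : (Zof (Nmat σ) y i - Zof (Nmat σ) y j).im = 2 * (Zof (Nmat σ) y i).im := by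
      rw [e1, Complex.sub_im, Complex.conj_im]
      ring
    have e3 := Zof_im_abs σ y i hne
    have e4 := h1 (max i (σ i))
    calc s ≤ 2 * |y (max i (σ i))| := by linarith
      _ = |(Zof (Nmat σ) y i - Zof (Nmat σ) y j).im| := by
          rw [e2, abs_mul, e3]; norm_num
      _ ≤ _ := Complex.abs_im_le_norm _
  · have hne : min i (σ i) ≠ min j (σ j) := by
      intro h
      rcases min_choice i (σ i) with a1 | a1 <;> rcases min_choice j (σ j) with a2 | a2
      · exact hij (by rw [← a1, h, a2])
      · apply hc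
        rw [a1, a2] at h
        rw [h, hσ]
      · apply hc
        rw [a1, a2] at h
        exact h.symm
      · rw [a1, a2] at h
        apply hij
        rw [← hσ i, h, hσ]
    calc s ≤ |y (min i (σ i)) - y (min j (σ j))| := h2 _ _ hne
      _ = |(Zof (Nmat σ) y i - Zof (Nmat σ) y j).re| := by
          rw [Complex.sub_re, Zof_re, Zof_re]
      _ ≤ _ := Complex.abs_re_le_norm _

end Pool.Agent.Helper45.Disc
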