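import Pool.Agent.Helper45.DBody
import Pool.Agent.Helper45.DShift
import Mathlib

open Polynomial

namespace Pool.Agent.Helper45.Disc

open Pool.Agent.Helper12.Disc

variable {n : ℕ}

/-- closeness relation between two configurations -/
def Near (z' β : Fin n → ℂ) : Prop := ∀ l, ‖β l - z' l‖ ≤ dd z' l / 4

theorem near_of_coord (σ : Fin n → Fin n) (hσ : ∀ l, σ (σ l) = l) (y' y : Fin n → ℝ)
    (h : ∀ l, |y l - y' l| ≤ dd (Zof (Nmat σ) y') l / 8) :
    Near (Zof (Nmat σ) y') (Zof (Nmat σ) y) := by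
  intro l
  have e1 : Zof (Nmat σ) y l - Zof (Nmat σ) y' l = Zof (Nmat σ) (y - y') l := by
    rw [Zof_sub']
    rfl
  rw [e1]
  refine (norm_Zof_le σ _ l).trans ?_
  have e2 := h l
  have e3 := h (σ l)
  rw [dd_conj σ hσ _ (Zof_Nmat_conj σ hσ y')] at e3
  simp only [Pi.sub_apply]
  linarith

theorem near_low {z' β : Fin n → ℂ} (h : Near z' β) {i j : Fin n} (hij : i ≠ j) :
    ‖z' i - z' j‖ ≤ 2 * ‖β i - β j‖ := by
  have h1 := dd_le z' hij.symm
  have h2 := dd_le z' hij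
  rw [norm_sub_rev] at h2
  have h3 : ‖z' i - z' j‖ ≤ ‖β i - β j‖ + (dd z' i / 4 + dd z' j / 4) := by
    calc ‖z' i - z' j‖ = ‖(β i - β j) - (β i - z' i) + (β j - z' j)‖ := by congr 1; ring
      _ ≤ ‖(β i - β j) - (β i - z' i)‖ + ‖β j - z' j‖ := norm_add_le _ _
      _ ≤ ‖β i - β j‖ + ‖β i - z' i‖ + ‖β j - z' j‖ := add_le_add (norm_sub_le _ _) le_rfl
      _ ≤ _ := by linarith [h i, h j]
  linarith

theorem near_up {z' β : Fin n → ℂ} (h : Near z' β) {i j : Fin n} (hij : i ≠ j) :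
    ‖β i - β j‖ ≤ (3 / 2) * ‖z' i - z' j‖ := by
  have h1 := dd_le z' hij.symm
  have h2 := dd_le z' hij
  rw [norm_sub_rev] at h2
  have h3 : ‖β i - β j‖ ≤ ‖z' i - z' j‖ + (dd z' i / 4 + dd z' j / 4) := by
    calc ‖β i - β j‖ = ‖(z' i - z' j) + (β i - z' i) - (β j - z' j)‖ := by congr 1; ring
      _ ≤ ‖(z' i - z' j) + (β i - z' i)‖ + ‖β j - z' j‖ := norm_sub_le _ _
      _ ≤ ‖z' i - z' j‖ + ‖β i - z' i‖ + ‖β j - z' j‖ := add_le_add (norm_add_le _ _) le_rfl
      _ ≤ _ := by linarith [h i, h j]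
  linarith

theorem near_dd_low (hn : 2 ≤ n) {z' β : Fin n → ℂ} (h : Near z' β) (l : Fin n) :
    dd z' l ≤ 2 * dd β l := by
  obtain ⟨j, hj, hd⟩ := dd_exists hn β l
  rw [hd]
  exact (dd_le z' hj).trans (near_low h hj.symm)

theorem near_dd_up (hn : 2 ≤ n) {z' β : Fin n → ℂ} (h : Near z' β) (l : Fin n) :
    dd β l ≤ (3 / 2) * dd z' l := by
  obtain ⟨j, hj, hd⟩ := dd_exists hn z' l
  rw [hd]
  exact (dd_le β hj).trans (near_up h hj.symm)

theorem near_D2_low {z' β : Fin n → ℂ} (h : Near z' β) :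
    (∏ i : Fin n, ∏ j ∈ Finset.univ.erase i, (1 / 2 : ℝ)) * D2 z' ≤ D2 β := by
  unfold D2
  rw [← Finset.prod_mul_distrib]
  apply Finset.prod_le_prod
  · intro i _
    exact mul_nonneg (Finset.prod_nonneg fun _ _ => by positivity)
      (Finset.prod_nonneg fun _ _ => norm_nonneg _)
  · intro i _
    rw [← Finset.prod_mul_distrib]
    apply Finset.prod_le_prod
    · intro j _
      positivity
    · intro j hj
      have := near_low h (Finset.ne_of_mem_erase hj).symm
      linarith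

theorem near_D2_up {z' β : Fin n → ℂ} (h : Near z' β) :
    D2 β ≤ (∏ i : Fin n, ∏ j ∈ Finset.univ.erase i, (3 / 2 : ℝ)) * D2 z' := by
  unfold D2
  rw [← Finset.prod_mul_distrib]
  apply Finset.prod_le_prod
  · intro i _
    exact Finset.prod_nonneg fun _ _ => norm_nonneg _
  · intro i _
    rw [← Finset.prod_mul_distrib]
    apply Finset.prod_le_prod
    · intro j _
      positivity
    · intro j hj
      exact near_up h (Finset.ne_of_mem_erase hj).symm

theorem near_body (hn : 2 ≤ n) {z z' β : Fin n → ℂ} (h : Near z' β) (B s : ℝ) (hB : 1 ≤ B)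
    (h1 : ∀ l, ‖z' l - z l‖ ≤ B * s)
    (h2 : ∀ i j, i ≠ j → s ≤ B * ‖z' i - z' j‖) (l : Fin n) :
    ∏ i, ‖β l - z i‖ ≤ (2 + 4 * B ^ 2) ^ n * ww β l := by
  set c2 : ℝ := 2 + 4 * B ^ 2 with hc2
  have hc2' : 0 < c2 := by positivity
  rw [← Finset.mul_prod_erase _ _ (Finset.mem_univ l)]
  have e1 : ∀ i, i ≠ l → ‖β l - z i‖ ≤ c2 * ‖β l - β i‖ := by
    intro i hi
    have a1 : dd z' i ≤ 2 * ‖β l - β i‖ := by
      have := dd_le z' hi.symm
      have := near_low h hi
      rw [norm_sub_rev (β i)] at this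
      linarith
    have a2 : s ≤ B * (2 * ‖β l - β i‖) := by
      have := near_low h hi
      rw [norm_sub_rev (β i)] at this
      exact (h2 i l hi).trans (mul_le_mul_of_nonneg_left this (by linarith))
    have a3 : B * s ≤ B * (B * (2 * ‖β l - β i‖)) := mul_le_mul_of_nonneg_left a2 (by linarith)
    have a4 : 0 ≤ ‖β l - β i‖ := norm_nonneg _
    calc ‖β l - z i‖ = ‖(β l - β i) + (β i - z' i) + (z' i - z i)‖ := by congr 1; ring
      _ ≤ ‖β l - β i‖ + ‖β i - z' i‖ + ‖z' i - z i‖ := norm_add₃_le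
      _ ≤ ‖β l - β i‖ + (2 * ‖β l - β i‖) / 4 + B * (B * (2 * ‖β l - β i‖)) := by
          linarith [h i, h1 i]
      _ ≤ _ := by
          rw [hc2]
          nlinarith [mul_nonneg (sq_nonneg B) a4]
  have e2 : ‖β l - z l‖ ≤ c2 * dd β l := by
    have a1 := near_dd_low hn h l
    have a0 := dd_nonneg β l
    have a2 : s ≤ B * (2 * dd β l) := by
      obtain ⟨j, hj, hd⟩ := dd_exists hn z' l
      have := h2 l j hj.symm
      rw [← hd] at this
      exact this.trans (mul_le_mul_of_nonneg_left a1 (by linarith))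
    have a3 : B * s ≤ B * (B * (2 * dd β l)) := mul_le_mul_of_nonneg_left a2 (by linarith)
    calc ‖β l - z l‖ = ‖(β l - z' l) + (z' l - z l)‖ := by congr 1; ring
      _ ≤ ‖β l - z' l‖ + ‖z' l - z l‖ := norm_add_le _ _
      _ ≤ (2 * dd β l) / 4 + B * (B * (2 * dd β l)) := by
          linarith [h l, h1 l]
      _ ≤ _ := by
          rw [hc2]
          nlinarith [mul_nonneg (sq_nonneg B) a0]
  have e3 : ∏ i ∈ Finset.univ.erase l, ‖β l - z i‖ ≤
      c2 ^ (n - 1) * pp β l := by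
    calc _ ≤ ∏ i ∈ Finset.univ.erase l, (c2 * ‖β l - β i‖) := by
          apply Finset.prod_le_prod (fun _ _ => norm_nonneg _)
          intro i hi
          exact e1 i (Finset.ne_of_mem_erase hi)
      _ = _ := by
          rw [Finset.prod_mul_distrib, Finset.prod_const, Finset.card_erase_of_mem
            (Finset.mem_univ l), Finset.card_univ, Fintype.card_fin]
          rfl
  calc ‖β l - z l‖ * ∏ i ∈ Finset.univ.erase l, ‖β l - z i‖
      ≤ (c2 * dd β l) * (c2 ^ (n - 1) * pp β l) :=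
        mul_le_mul e2 e3 (Finset.prod_nonneg fun _ _ => norm_nonneg _)
          (mul_nonneg hc2'.le (dd_nonneg _ _))
    _ = c2 ^ (n - 1 + 1) * (dd β l * pp β l) := by rw [pow_succ]; ring
    _ = _ := by
        rw [Nat.sub_add_cancel (by omega)]
        rfl

end Pool.Agent.Helper45.Disc
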