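import Mathlib
import Pool.Agent.Helper45.DShift

namespace Pool.Agent.Helper45.Disc

open Pool.Agent.Helper12.Disc

variable {n : ℕ}

theorem one_le_prodR {ι : Type*} (s : Finset ι) (f : ι → ℝ) (h : ∀ i ∈ s, 1 ≤ f i) :
    1 ≤ ∏ i ∈ s, f i := by
  calc (1 : ℝ) = ∏ i ∈ s, (1 : ℝ) := by rw [Finset.prod_const_one]
    _ ≤ _ := Finset.prod_le_prod (fun _ _ => zero_le_one) h

/-- products of truncated distances -/
noncomputable def mm (z : Fin n → ℂ) (s : ℝ) : ℝ :=
  ∏ i, ∏ j ∈ Finset.univ.erase i, max ‖z i - z j‖ s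

theorem mm_zero (z : Fin n → ℂ) : mm z 0 = D2 z := by
  unfold mm D2
  apply Finset.prod_congr rfl
  intro i _
  apply Finset.prod_congr rfl
  intro j _
  exact max_eq_left (norm_nonneg _)

theorem one_le_mm (z : Fin n → ℂ) : 1 ≤ mm z 1 := by
  unfold mm
  have h : ∀ i : Fin n, (1 : ℝ) ≤ ∏ j ∈ Finset.univ.erase i, max ‖z i - z j‖ 1 := by
    intro i
    apply one_le_prodR
    intro j _
    exact le_max_right _ _
  apply one_le_prodR
  exact fun i _ => h i

theorem mm_continuous (z : Fin n → ℂ) : Continuous (mm z) := by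
  unfold mm
  fun_prop

theorem exists_s (z : Fin n → ℂ) (η : ℝ) (hη1 : η ≤ 1) :
    ∃ s, 0 ≤ s ∧ s ≤ 1 ∧ mm z s = max (D2 z) η := by
  rcases le_or_gt η (D2 z) with h | h
  · exact ⟨0, le_refl _, zero_le_one, by rw [mm_zero, max_eq_left h]⟩
  · have h1 := intermediate_value_Icc zero_le_one (mm_continuous z).continuousOn
    have h2 : η ∈ Set.Icc (mm z 0) (mm z 1) :=
      ⟨by rw [mm_zero]; exact h.le, hη1.trans (one_le_mm z)⟩
    obtain ⟨s, hs, hs'⟩ := h1 h2
    exact ⟨s, hs.1, hs.2, by rw [hs', max_eq_right h.le]⟩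

/-- the shift of a point configuration -/
theorem exists_shift (n : ℕ) : ∃ B : ℝ, 1 ≤ B ∧ ∃ c0 : ℝ, 0 < c0 ∧ ∃ C0 : ℝ, 0 < C0 ∧
    ∀ σ : Fin n → Fin n, (∀ l, σ (σ l) = l) → ∀ (y : Fin n → ℝ) (η : ℝ), 0 < η → η ≤ 1 →
    ∃ (y' : Fin n → ℝ) (s : ℝ), 0 ≤ s ∧ s ≤ 1 ∧ (∀ l, |y' l - y l| ≤ B * s) ∧
      (∀ l, ‖Zof (Nmat σ) y' l - Zof (Nmat σ) y l‖ ≤ B * s) ∧
      (∀ i j, i ≠ j → s ≤ B * ‖Zof (Nmat σ) y' i - Zof (Nmat σ) y' j‖) ∧
      c0 * η ≤ D2 (Zof (Nmat σ) y') ∧
      D2 (Zof (Nmat σ) y') ≤ C0 * max (D2 (Zof (Nmat σ) y)) η := by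
  classical
  set B0 : ℝ := 4 * (n + 1) with hB0
  have hB0' : 4 ≤ B0 := by rw [hB0]; nlinarith [show (0 : ℝ) ≤ n by positivity]
  have hB00 : 0 < B0 := by linarith
  set c0 : ℝ := ∏ i : Fin n, ∏ j ∈ Finset.univ.erase i, (1 / (4 * B0)) with hc0
  set C0 : ℝ := ∏ i : Fin n, ∏ j ∈ Finset.univ.erase i, (1 + 2 * B0) with hC0
  have hc0' : 0 < c0 := Finset.prod_pos fun _ _ => Finset.prod_pos fun _ _ => by positivity
  have hC0' : 0 < C0 := Finset.prod_pos fun _ _ => Finset.prod_pos fun _ _ => by positivity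
  have hc01 : c0 ≤ 1 := by
    rw [hc0]
    apply Finset.prod_le_one
    · intro i _
      exact Finset.prod_nonneg fun _ _ => by positivity
    · intro i _
      apply Finset.prod_le_one
      · intro j _; positivity
      · intro j _
        rw [div_le_one (by positivity)]
        linarith
  have hC01 : 1 ≤ C0 := by
    rw [hC0]
    apply one_le_prodR
    intro i _
    apply one_le_prodR
    intro j _
    linarith
  refine ⟨4 * B0, by linarith, c0, hc0', C0, hC0', ?_⟩
  intro σ hσ y η hη hη1
  set z := Zof (Nmat σ) y with hz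
  obtain ⟨s, hs0, hs1, hs⟩ := exists_s z η hη1
  rcases hs0.eq_or_lt with h0 | hspos
  · -- no shift
    refine ⟨y, s, hs0, hs1, ?_, ?_, ?_, ?_, ?_⟩
    · intro l
      rw [sub_self, abs_zero]
      positivity
    · intro l
      rw [← hz, sub_self, norm_zero]
      positivity
    · intro i j _
      rw [← h0]
      positivity
    · rw [← hz]
      rw [← h0, mm_zero] at hs
      rw [hs]
      calc c0 * η ≤ 1 * η := mul_le_mul_of_nonneg_right hc01 hη.le
        _ = η := one_mul _
        _ ≤ _ := le_max_right _ _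
    · rw [← hz]
      calc D2 z ≤ max (D2 z) η := le_max_left _ _
        _ = 1 * max (D2 z) η := (one_mul _).symm
        _ ≤ _ := mul_le_mul_of_nonneg_right hC01 (hη.le.trans (le_max_right _ _))
  · obtain ⟨y', h1, h2, h3⟩ := exists_separate s hspos y
    set z' := Zof (Nmat σ) y' with hz'
    have hclose : ∀ l, ‖z' l - z l‖ ≤ B0 * s := by
      intro l
      have e1 : z' l - z l = Zof (Nmat σ) (y' - y) l := by
        rw [Zof_sub']
        rfl
      rw [e1]
      refine (norm_Zof_le σ _ l).trans ?_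
      have e2 := h1 l
      have e3 := h1 (σ l)
      simp only [Pi.sub_apply]
      rw [hB0]
      linarith
    have hsep := Zof_separated σ hσ s hspos y' h2 h3
    rw [← hz'] at hsep
    have hlow : ∀ i j, i ≠ j → (1 / (4 * B0)) * max ‖z i - z j‖ s ≤ ‖z' i - z' j‖ := by
      intro i j hij
      rw [one_div, inv_mul_le_iff₀ (by positivity)]
      rcases le_or_gt (4 * B0 * s) ‖z i - z j‖ with h | h
      · have e1 : ‖z i - z j‖ ≤ ‖z' i - z' j‖ + 2 * (B0 * s) := by
          calc ‖z i - z j‖ = ‖(z' i - z' j) - (z' i - z i) + (z' j - z j)‖ := by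
                congr 1; ring
            _ ≤ ‖(z' i - z' j) - (z' i - z i)‖ + ‖z' j - z j‖ := norm_add_le _ _
            _ ≤ ‖z' i - z' j‖ + ‖z' i - z i‖ + ‖z' j - z j‖ :=
                add_le_add (norm_sub_le _ _) le_rfl
            _ ≤ _ := by linarith [hclose i, hclose j]
        have e2 : s ≤ ‖z i - z j‖ := by
          have : s ≤ 4 * B0 * s := by nlinarith
          linarith
        rw [max_eq_left e2]
        have e3 : ‖z i - z j‖ ≤ 2 * ‖z' i - z' j‖ := by linarith
        have e4 : 0 ≤ ‖z' i - z' j‖ := norm_nonneg _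
        nlinarith
      · have e1 : max ‖z i - z j‖ s ≤ 4 * B0 * s := by
          apply max_le h.le
          nlinarith
        have e2 := hsep i j hij
        calc _ ≤ 4 * B0 * s := e1
          _ ≤ _ := mul_le_mul_of_nonneg_left e2 (by positivity)
    have hup : ∀ i j, ‖z' i - z' j‖ ≤ (1 + 2 * B0) * max ‖z i - z j‖ s := by
      intro i j
      have e1 : ‖z' i - z' j‖ ≤ ‖z i - z j‖ + 2 * (B0 * s) := by
        calc ‖z' i - z' j‖ = ‖(z i - z j) + (z' i - z i) - (z' j - z j)‖ := by
              congr 1; ring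
          _ ≤ ‖(z i - z j) + (z' i - z i)‖ + ‖z' j - z j‖ := norm_sub_le _ _
          _ ≤ ‖z i - z j‖ + ‖z' i - z i‖ + ‖z' j - z j‖ :=
              add_le_add (norm_add_le _ _) le_rfl
          _ ≤ _ := by linarith [hclose i, hclose j]
      have e2 : ‖z i - z j‖ ≤ max ‖z i - z j‖ s := le_max_left _ _
      have e3 : s ≤ max ‖z i - z j‖ s := le_max_right _ _
      nlinarith
    refine ⟨y', s, hs0, hs1, ?_, ?_, ?_, ?_, ?_⟩
    · intro l
      refine (h1 l).trans ?_
      rw [hB0]
      nlinarith [show (0 : ℝ) ≤ n * s by positivity]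
    · intro l
      refine (hclose l).trans ?_
      nlinarith [show 0 ≤ B0 * s by positivity]
    · intro i j hij
      have e2 := hsep i j hij
      have e3 : 0 ≤ ‖z' i - z' j‖ := norm_nonneg _
      nlinarith
    · have e1 : c0 * mm z s ≤ D2 z' := by
        rw [hc0]
        unfold mm D2
        rw [← Finset.prod_mul_distrib]
        apply Finset.prod_le_prod
        · intro i _
          exact mul_nonneg (Finset.prod_nonneg fun _ _ => by positivity)
            (Finset.prod_nonneg fun _ _ => (norm_nonneg _).trans (le_max_left _ _))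
        · intro i _
          rw [← Finset.prod_mul_distrib]
          apply Finset.prod_le_prod
          · intro j _
            exact mul_nonneg (by positivity) ((norm_nonneg _).trans (le_max_left _ _))
          · intro j hj
            exact hlow i j (Finset.ne_of_mem_erase hj).symm
      rw [hs] at e1
      exact (mul_le_mul_of_nonneg_left (le_max_right _ _) hc0'.le).trans e1
    · have e1 : D2 z' ≤ C0 * mm z s := by
        rw [hC0]
        unfold mm D2
        rw [← Finset.prod_mul_distrib]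
        apply Finset.prod_le_prod
        · intro i _
          exact Finset.prod_nonneg fun _ _ => norm_nonneg _
        · intro i _
          rw [← Finset.prod_mul_distrib]
          apply Finset.prod_le_prod
          · intro j _
            exact norm_nonneg _
          · intro j _
            exact hup i j
      rwa [hs] at e1

end Pool.Agent.Helper45.Disc
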