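import Pool.Agent.Helper12.DiscTr
import Pool.Agent.Helper12.DiscVolC
import Pool.Agent.Helper45.DCount
import Pool.Agent.Helper45.DDouble
import Pool.Agent.Helper45.DNear
import Pool.Agent.Helper45.DShiftB
import Mathlib

open Polynomial MeasureTheory

namespace Pool.Agent.Helper45.Disc

open Pool.Agent.Helper12.Disc

variable {n : ℕ}

theorem vol_D2 (hn : 2 ≤ n) (σ : Fin n → Fin n) (hσ : ∀ l, σ (σ l) = l) (R : ℝ) :
    ∃ C : ℝ, 0 < C ∧ ∀ ε : ℝ, 0 < ε →
      volume {y : Fin n → ℝ | (∀ i, |y i| ≤ R) ∧ D2 (Zof (Nmat σ) y) ≤ ε} ≤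
        ENNReal.ofReal (C * ε ^ (1 / (n : ℝ))) := by
  obtain ⟨m, rfl⟩ : ∃ m, n = m + 1 := ⟨n - 1, by omega⟩
  obtain ⟨C, hC, h⟩ := volume_D2 (m := m) (by omega) (Nmat σ) (Nmat_det σ hσ) (evec σ)
    (evec_zero σ) (Zof_evec σ hσ) R
  refine ⟨C.toReal + 1, by positivity, ?_⟩
  intro ε hε
  refine (h ε hε).trans ?_
  rw [ENNReal.ofReal_mul (by positivity)]
  push_cast
  apply mul_le_mul_left
  rw [← ENNReal.ofReal_toReal hC]
  apply ENNReal.ofReal_le_ofReal
  rw [ENNReal.toReal_ofReal ENNReal.toReal_nonneg]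
  linarith

theorem count_sigma (hn : 2 ≤ n) (σ : Fin n → Fin n) (hσ : ∀ l, σ (σ l) = l) (R0 : ℝ)
    (hR0 : 1 ≤ R0) (κ : ℝ) (hκ : 0 < κ) :
    ∃ K : ℝ, 0 < K ∧ ∀ S Y : ℝ, 1 ≤ S → 0 < Y → κ * S ^ (2 * n - 2) ≤ Y * S ^ 2 →
      ∀ T : Finset ℤ[X], (∀ P ∈ T, P.natDegree = n ∧ (∀ x : ℚ, aeval x P ≠ 0) ∧
        S / 2 ≤ |(P.coeff n : ℝ)| ∧ |(P.coeff n : ℝ)| ≤ S ∧ |(P.discr : ℝ)| ≤ Y ∧
        ∃ y : Fin n → ℝ, (∀ i, |y i| ≤ R0) ∧
          P.map (Int.castRingHom ℂ) = C (P.coeff n : ℂ) * ofRoots (Zof (Nmat σ) y)) →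
      (T.card : ℝ) ≤ K * (S ^ (n + 1) * (Y / S ^ (2 * n - 2)) ^ (1 / 2 + 1 / (n : ℝ))) := by
  classical
  obtain ⟨B, hB, c0, hc0, C0, hC0, hshift⟩ := exists_shift n
  set c1 : ℝ := ∏ i : Fin n, ∏ j ∈ Finset.univ.erase i, (1 / 2 : ℝ) with hc1
  set C1 : ℝ := ∏ i : Fin n, ∏ j ∈ Finset.univ.erase i, (3 / 2 : ℝ) with hC1
  have hc1' : 0 < c1 := Finset.prod_pos fun _ _ => Finset.prod_pos fun _ _ => by norm_num
  have hC1' : 0 < C1 := Finset.prod_pos fun _ _ => Finset.prod_pos fun _ _ => by norm_num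
  set c2 : ℝ := (2 + 4 * B ^ 2) ^ n with hc2
  have hc2' : 1 ≤ c2 := by
    apply one_le_pow₀
    nlinarith [sq_nonneg B]
  set R1 : ℝ := 2 * (R0 + B) with hR1
  have hR1' : 1 ≤ R1 := by rw [hR1]; linarith
  obtain ⟨Cb, hCb, hbody⟩ := count_body hn (2 * R1) (1 / (c2 ^ 2 * (c1 * c0))) (by linarith)
    (by positivity) σ hσ
  obtain ⟨Cv, hCv, hvol⟩ := vol_D2 hn σ hσ R1
  set C3 : ℝ := C1 * (C0 * (2 ^ (2 * n - 2) + 1 / κ)) with hC3
  have hC3' : 0 < C3 := by positivity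
  refine ⟨Cb * 6 ^ n * c2 ^ (n + 1) * Cv * C3 ^ (1 / 2 + 1 / (n : ℝ)), by positivity, ?_⟩
  intro S Y hS hY hSY T hT
  have hS0 : 0 < S := by linarith
  set W : ℝ := Y / S ^ (2 * n - 2) with hW
  have hW0 : 0 < W := by positivity
  have hηW : 1 / S ^ 2 ≤ (1 / κ) * W := by
    rw [hW, div_mul_div_comm, one_mul, div_le_div_iff₀ (by positivity) (by positivity)]
    linarith
  have hη1 : 1 / S ^ 2 ≤ 1 := by
    rw [div_le_one (by positivity)]
    nlinarith
  -- choice of the shifted points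
  have hchoice : ∀ P ∈ T, ∃ y' : Fin n → ℝ, (∀ l, |y' l| ≤ R0 + B) ∧
      c0 * (1 / S ^ 2) ≤ D2 (Zof (Nmat σ) y') ∧
      D2 (Zof (Nmat σ) y') ≤ C0 * ((2 ^ (2 * n - 2) + 1 / κ) * W) ∧
      ∀ β : Fin n → ℂ, Near (Zof (Nmat σ) y') β → ∀ l,
        ‖(P.map (Int.castRingHom ℂ)).eval (β l)‖ ≤ (c2 * S) * ww β l := by
    intro P hP
    obtain ⟨hdeg, -, hlow, hup, hdisc, y, hy, hPy⟩ := hT P hP
    obtain ⟨y', s, hs0, hs1, h1, h2, h3, h4, h5⟩ := hshift σ hσ y (1 / S ^ 2) (by positivity) hη1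
    have ha0 : (P.coeff n : ℂ) ≠ 0 := by
      intro h
      have h' : (P.coeff n : ℝ) = 0 := by exact_mod_cast h
      rw [h', abs_zero] at hlow
      linarith
    have hnorm : ‖(P.coeff n : ℂ)‖ = |(P.coeff n : ℝ)| := Complex.norm_intCast _
    have hD := abs_discr (by omega : 1 ≤ n) ha0 hPy
    rw [hnorm] at hD
    have hD2 : D2 (Zof (Nmat σ) y) ≤ 2 ^ (2 * n - 2) * W := by
      have e1 : (S / 2) ^ (2 * n - 2) * D2 (Zof (Nmat σ) y) ≤ Y := by
        calc _ ≤ |(P.coeff n : ℝ)| ^ (2 * n - 2) * D2 (Zof (Nmat σ) y) :=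
              mul_le_mul_of_nonneg_right (pow_le_pow_left₀ (by positivity) hlow _) (D2_nonneg _)
          _ ≤ Y := by rw [← hD]; exact hdisc
      rw [hW, div_pow] at *
      rw [div_mul_eq_mul_div, div_le_iff₀ (by positivity)] at e1
      rw [mul_div_assoc', le_div_iff₀ (by positivity)]
      linarith
    refine ⟨y', ?_, h4, ?_, ?_⟩
    · intro l
      have e1 := h1 l
      have e2 := hy l
      have e3 : B * s ≤ B := by nlinarith
      calc |y' l| = |(y' l - y l) + y l| := by congr 1; ring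
        _ ≤ |y' l - y l| + |y l| := abs_add_le _ _
        _ ≤ _ := by linarith
    · refine h5.trans (mul_le_mul_of_nonneg_left ?_ hC0.le)
      apply max_le
      · refine hD2.trans (mul_le_mul_of_nonneg_right ?_ hW0.le)
        have : 0 < 1 / κ := by positivity
        linarith
      · refine hηW.trans (mul_le_mul_of_nonneg_right ?_ hW0.le)
        have : (0 : ℝ) < 2 ^ (2 * n - 2) := by positivity
        linarith
    · intro β hβ l
      have e1 := near_body hn hβ B s hB h2 h3 l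
      rw [hPy, eval_mul, eval_C, eval_ofRoots, norm_mul, hnorm, norm_prod]
      calc |(P.coeff n : ℝ)| * ∏ i, ‖β l - Zof (Nmat σ) y i‖ ≤ S * (c2 * ww β l) :=
            mul_le_mul hup e1 (Finset.prod_nonneg fun _ _ => norm_nonneg _) hS0.le
        _ = _ := by ring
  choose! y' hy'1 hy'2 hy'3 hy'4 using hchoice
  set z' : ℤ[X] → Fin n → ℂ := fun P => Zof (Nmat σ) (y' P) with hz'
  have hDpos : ∀ P ∈ T, 0 < D2 (z' P) := fun P hP =>
    lt_of_lt_of_le (by positivity) (hy'2 P hP)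
  have hddpos : ∀ P ∈ T, ∀ l, 0 < dd (z' P) l := by
    intro P hP l
    have h1 : z' P ∈ (Set.univ : Set (Fin n → ℂ)) := Set.mem_univ _
    obtain ⟨j, hj, hd⟩ := dd_exists hn (z' P) l
    rw [hd]
    apply lt_of_le_of_ne (norm_nonneg _)
    intro h0
    have h2 : D2 (z' P) = 0 := by
      unfold D2
      apply Finset.prod_eq_zero (Finset.mem_univ l)
      exact Finset.prod_eq_zero (Finset.mem_erase.2 ⟨hj, Finset.mem_univ j⟩) h0.symm
    have := hDpos P hP
    linarith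
  set lo : ℤ[X] → Fin n → ℝ := fun P l => y' P l - dd (z' P) l / 8 with hlo
  set hi : ℤ[X] → Fin n → ℝ := fun P l => y' P l + dd (z' P) l / 8 with hhi
  have hnear : ∀ P, ∀ y ∈ Set.Icc (lo P) (hi P), Near (z' P) (Zof (Nmat σ) y) := by
    intro P y hy
    apply near_of_coord σ hσ
    intro l
    have e1 := hy.1 l
    have e2 := hy.2 l
    rw [hlo] at e1
    rw [hhi] at e2
    simp only at e1 e2
    rw [abs_le]
    constructor <;> linarith
  set G : Set (Fin n → ℝ) := {y | (∀ i, |y i| ≤ R1) ∧ D2 (Zof (Nmat σ) y) ≤ C3 * W} with hG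
  set Bd : ℝ := Cb * 6 ^ n * (c2 * S) ^ (n + 1) * Real.sqrt (C3 * W) with hBd
  have hmain := double_count T lo hi (by
    intro P hP l
    have := hddpos P hP l
    rw [hlo, hhi]
    simp only
    linarith) G Bd (by
    intro P hP y hy
    have hN := hnear P y hy
    refine ⟨?_, ?_⟩
    · intro l
      have e1 := hy.1 l
      have e2 := hy.2 l
      rw [hlo] at e1
      rw [hhi] at e2
      simp only at e1 e2
      have e3 := hy'1 P hP
      have e4 : dd (z' P) l ≤ 4 * (R0 + B) := by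
        obtain ⟨j, hj, hd⟩ := dd_exists hn (z' P) l
        rw [hd]
        have a1 : ∀ i, ‖z' P i‖ ≤ 2 * (R0 + B) := by
          intro i
          refine (norm_Zof_le σ _ i).trans ?_
          linarith [e3 i, e3 (σ i)]
        calc _ ≤ ‖z' P l‖ + ‖z' P j‖ := norm_sub_le _ _
          _ ≤ _ := by linarith [a1 l, a1 j]
      have e5 := e3 l
      rw [abs_le] at e5 ⊢
      rw [hR1]
      constructor <;> linarith [e5.1, e5.2]
    · calc D2 (Zof (Nmat σ) y) ≤ C1 * D2 (z' P) := near_D2_up hN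
        _ ≤ C1 * (C0 * ((2 ^ (2 * n - 2) + 1 / κ) * W)) :=
            mul_le_mul_of_nonneg_left (hy'3 P hP) hC1'.le
        _ = _ := by rw [hC3]; ring) (by
    intro y hyG T' hT' hy
    set β := Zof (Nmat σ) y with hβ
    rcases T'.eq_empty_or_nonempty with he | ⟨P₀, hP₀⟩
    · rw [he, Finset.sum_empty]
      positivity
    have hβD : c1 * (c0 * (1 / S ^ 2)) ≤ D2 β :=
      (mul_le_mul_of_nonneg_left (hy'2 P₀ (hT' hP₀)) hc1'.le).trans
        (near_D2_low (hnear P₀ y (hy P₀ hP₀)))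
    have hβD0 : 0 < D2 β := lt_of_lt_of_le (by positivity) hβD
    have hc2S : (0 : ℝ) < c2 * S := by positivity
    have hcnt := hbody β (Zof_Nmat_conj σ hσ y) (by
      intro l
      refine (norm_Zof_le σ _ l).trans ?_
      linarith [hyG.1 l, hyG.1 (σ l)]) hβD0 (c2 * S) hc2S (by
      calc (1 : ℝ) = (1 / (c2 ^ 2 * (c1 * c0))) * (c2 * S) ^ 2 * (c1 * (c0 * (1 / S ^ 2))) := by
            field_simp
        _ ≤ _ := mul_le_mul_of_nonneg_left hβD (by positivity)) T' (by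
      intro P hP
      obtain ⟨h1, h2, h3, h4, -⟩ := hT P (hT' hP)
      refine ⟨h1, h2, ?_, ?_⟩
      · exact hy'4 P (hT' hP) β (hnear P y (hy P hP))
      · nlinarith)
    have hddβ : ∀ l, 0 < dd β l := by
      intro l
      have e1 := near_dd_low hn (hnear P₀ y (hy P₀ hP₀)) l
      have e2 := hddpos P₀ (hT' hP₀) l
      linarith
    have hpβ : 0 < ∏ l, dd β l := Finset.prod_pos fun l _ => hddβ l
    have hterm : ∀ P ∈ T', 1 / ∏ l, (hi P l - lo P l) ≤ 6 ^ n / ∏ l, dd β l := by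
      intro P hP
      have e1 : ∏ l, dd β l ≤ 6 ^ n * ∏ l, (hi P l - lo P l) := by
        calc ∏ l, dd β l ≤ ∏ l : Fin n, (6 * (hi P l - lo P l)) := by
              apply Finset.prod_le_prod (fun l _ => (hddβ l).le)
              intro l _
              have a1 := near_dd_up hn (hnear P y (hy P hP)) l
              rw [hlo, hhi]
              simp only
              linarith
          _ = _ := by
              rw [Finset.prod_mul_distrib, Finset.prod_const, Finset.card_univ, Fintype.card_fin]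
      have e2 : 0 < ∏ l, (hi P l - lo P l) := Finset.prod_pos fun l _ => by
        have := hddpos P (hT' hP) l
        rw [hlo, hhi]
        simp only
        linarith
      rw [div_le_div_iff₀ e2 hpβ]
      linarith
    calc ∑ P ∈ T', 1 / ∏ l, (hi P l - lo P l) ≤ ∑ P ∈ T', 6 ^ n / ∏ l, dd β l :=
          Finset.sum_le_sum hterm
      _ = (T'.card : ℝ) * (6 ^ n / ∏ l, dd β l) := by rw [Finset.sum_const, nsmul_eq_mul]
      _ ≤ (Cb * (c2 * S) ^ (n + 1) * (∏ l, dd β l) * Real.sqrt (D2 β)) *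
          (6 ^ n / ∏ l, dd β l) := mul_le_mul_of_nonneg_right hcnt (by positivity)
      _ = Cb * 6 ^ n * (c2 * S) ^ (n + 1) * Real.sqrt (D2 β) := by
          field_simp
      _ ≤ Bd := by
          rw [hBd]
          apply mul_le_mul_of_nonneg_left _ (by positivity)
          exact Real.sqrt_le_sqrt hyG.2)
  have hfin := hmain.trans (mul_le_mul_right (hvol (C3 * W) (by positivity)) _)
  rw [← ENNReal.ofReal_mul (by positivity)] at hfin
  have hcard : (T.card : ℝ) ≤ Bd * (Cv * (C3 * W) ^ (1 / (n : ℝ))) := by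
    have e1 : ENNReal.ofReal (T.card : ℝ) = (T.card : ENNReal) := ENNReal.ofReal_natCast _
    rw [← e1] at hfin
    exact (ENNReal.ofReal_le_ofReal_iff (by positivity)).1 hfin
  refine hcard.trans (le_of_eq ?_)
  have e1 : Real.sqrt (C3 * W) * (C3 * W) ^ (1 / (n : ℝ)) =
      C3 ^ (1 / 2 + 1 / (n : ℝ)) * W ^ (1 / 2 + 1 / (n : ℝ)) := by
    rw [Real.sqrt_eq_rpow, ← Real.rpow_add (by positivity), Real.mul_rpow hC3'.le hW0.le]
  rw [hBd]
  calc _ = Cb * 6 ^ n * (c2 * S) ^ (n + 1) * Cv *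
        (Real.sqrt (C3 * W) * (C3 * W) ^ (1 / (n : ℝ))) := by ring
    _ = _ := by rw [e1, mul_pow]; ring

end Pool.Agent.Helper45.Disc
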