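import Pool.Agent.Helper12.DiscCount
import Pool.Agent.Helper45.DSigma
import Mathlib

open Polynomial

namespace Pool.Agent.Helper45.Disc

open Pool.Agent.Helper12.Disc

variable {n : ℕ}

theorem tr_noroot (k : ℤ) (P : ℤ[X]) (hP : P.natDegree = n) (hP0 : P ≠ 0)
    (h : ∀ x : ℚ, aeval x P ≠ 0) : ∀ x : ℚ, aeval x (tr n k P) ≠ 0 := by
  intro x
  unfold tr
  have hdeg : (taylor k P).natDegree = n := by rw [natDegree_taylor, hP]
  by_cases hx : x = 0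
  · subst hx
    rw [← coeff_zero_eq_aeval_zero', coeff_reflect, revAt_le (Nat.zero_le _), Nat.sub_zero, ← hP,
      coeff_taylor_natDegree]
    simp only [algebraMap_int_eq, eq_intCast, ne_eq, Int.cast_eq_zero, leadingCoeff_eq_zero]
    exact hP0
  · have hx' : x⁻¹ ≠ 0 := inv_ne_zero hx
    let _ : Invertible (x⁻¹) := invertibleOfNonzero hx'
    have h1 := eval₂_reflect_mul_pow (algebraMap ℤ ℚ) (x⁻¹) n (taylor k P) hdeg.le
    have h2 : ⅟(x⁻¹) = x := by rw [invOf_eq_inv, inv_inv]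
    rw [h2] at h1
    intro h0
    have h3 : eval₂ (algebraMap ℤ ℚ) x (reflect n (taylor k P)) = 0 := h0
    rw [h3, zero_mul] at h1
    have h4 : aeval (x⁻¹) (taylor k P) = 0 := h1.symm
    rw [taylor_apply, aeval_comp] at h4
    exact h _ h4

/-- root parameters -/
theorem lead_param (hn : 1 ≤ n) (B : ℕ) (P : ℤ[X]) (hP : P.natDegree = n) (h0 : P.coeff n ≠ 0)
    (hB : ∀ i < n, |P.coeff i| ≤ B * |P.coeff n|) :
    ∃ σ : Fin n → Fin n, (∀ l, σ (σ l) = l) ∧ ∃ y : Fin n → ℝ, (∀ i, |y i| ≤ 1 + n * B) ∧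
      P.map (Int.castRingHom ℂ) = C (P.coeff n : ℂ) * ofRoots (Zof (Nmat σ) y) := by
  have hs0 : (0 : ℝ) < |(P.coeff n : ℝ)| := by
    rw [abs_pos]
    exact_mod_cast h0
  obtain ⟨z, hz1, hz2, σ, hσ1, hσ2⟩ := exists_roots hn
    (fun i : Fin n => (P.coeff i : ℝ) / (P.coeff n : ℤ)) B (by
      intro i
      rw [abs_div, div_le_iff₀ hs0]
      have := hB i i.2
      exact_mod_cast this)
  obtain ⟨y, hy1, hy2⟩ := exists_param z σ hσ1 hσ2 (1 + n * B) hz2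
  refine ⟨σ, hσ1, y, hy1, ?_⟩
  rw [hy2, ← hz1]
  have h1 := map_eq_pol P hP (P.coeff n) rfl h0
  have h2 : P.map (Int.castRingHom ℂ) = (P.map (Int.castRingHom ℝ)).map (algebraMap ℝ ℂ) := by
    rw [Polynomial.map_map]
    congr 1
  rw [h2, h1, Polynomial.map_mul, map_C]
  simp

/-- count with large leading coefficient -/
theorem count_lead (hn : 2 ≤ n) (B : ℕ) (κ : ℝ) (hκ : 0 < κ) :
    ∃ K : ℝ, 0 < K ∧ ∀ S Y : ℝ, 1 ≤ S → 0 < Y → κ * S ^ (2 * n - 2) ≤ Y * S ^ 2 →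
      ∀ T : Finset ℤ[X], (∀ P ∈ T, P.natDegree = n ∧ (∀ x : ℚ, aeval x P ≠ 0) ∧
        S / 2 ≤ |(P.coeff n : ℝ)| ∧ |(P.coeff n : ℝ)| ≤ S ∧ |(P.discr : ℝ)| ≤ Y ∧
        (∀ i < n, |P.coeff i| ≤ B * |P.coeff n|)) →
      (T.card : ℝ) ≤ K * (S ^ (n + 1) * (Y / S ^ (2 * n - 2)) ^ (1 / 2 + 1 / (n : ℝ))) := by
  classical
  have hR : (1 : ℝ) ≤ 1 + n * B := by
    have : (0 : ℝ) ≤ n * B := by positivity
    linarith
  have hch : ∀ σ : Fin n → Fin n, ∃ K : ℝ, 0 < K ∧ ((∀ l, σ (σ l) = l) →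
      ∀ S Y : ℝ, 1 ≤ S → 0 < Y → κ * S ^ (2 * n - 2) ≤ Y * S ^ 2 →
      ∀ T : Finset ℤ[X], (∀ P ∈ T, P.natDegree = n ∧ (∀ x : ℚ, aeval x P ≠ 0) ∧
        S / 2 ≤ |(P.coeff n : ℝ)| ∧ |(P.coeff n : ℝ)| ≤ S ∧ |(P.discr : ℝ)| ≤ Y ∧
        ∃ y : Fin n → ℝ, (∀ i, |y i| ≤ 1 + n * B) ∧
          P.map (Int.castRingHom ℂ) = C (P.coeff n : ℂ) * ofRoots (Zof (Nmat σ) y)) →
      (T.card : ℝ) ≤ K * (S ^ (n + 1) * (Y / S ^ (2 * n - 2)) ^ (1 / 2 + 1 / (n : ℝ)))) := by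
    intro σ
    by_cases hσ : ∀ l, σ (σ l) = l
    · obtain ⟨K, hK, h⟩ := count_sigma hn σ hσ (1 + n * B) hR κ hκ
      exact ⟨K, hK, fun _ => h⟩
    · exact ⟨1, one_pos, fun h => absurd h hσ⟩
  choose K hK hcount using hch
  refine ⟨∑ σ, K σ, Finset.sum_pos (fun σ _ => hK σ) ⟨id, Finset.mem_univ _⟩, ?_⟩
  intro S Y hS hY hSY T hT
  have hpar : ∀ P : ℤ[X], ∃ σ : Fin n → Fin n, P ∈ T → ((∀ l, σ (σ l) = l) ∧
      ∃ y : Fin n → ℝ, (∀ i, |y i| ≤ 1 + n * B) ∧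
      P.map (Int.castRingHom ℂ) = C (P.coeff n : ℂ) * ofRoots (Zof (Nmat σ) y)) := by
    intro P
    by_cases hP : P ∈ T
    · obtain ⟨h1, h2, h3, h4, h5, h6⟩ := hT P hP
      have h0 : P.coeff n ≠ 0 := by
        intro h
        rw [h] at h3
        simp only [Int.cast_zero, abs_zero] at h3
        linarith
      obtain ⟨σ, hσ, y, hy⟩ := lead_param (by omega) B P h1 h0 h6
      exact ⟨σ, fun _ => ⟨hσ, y, hy⟩⟩
    · exact ⟨id, fun h => absurd h hP⟩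
  choose f hf using hpar
  have hcard : (T.card : ℝ) = ∑ σ, ((T.filter fun P => f P = σ).card : ℝ) := by
    rw [Finset.card_eq_sum_card_fiberwise (f := f) (t := Finset.univ)
      (fun _ _ => Finset.mem_coe.2 (Finset.mem_univ _))]
    push_cast
    rfl
  rw [hcard, Finset.sum_mul]
  apply Finset.sum_le_sum
  intro σ _
  rcases (T.filter fun P => f P = σ).eq_empty_or_nonempty with he | ⟨P₀, hP₀⟩
  · rw [he, Finset.card_empty, Nat.cast_zero]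
    have := hK σ
    positivity
  · rw [Finset.mem_filter] at hP₀
    have hσ : ∀ l, σ (σ l) = l := by
      have := (hf P₀ hP₀.1).1
      rwa [hP₀.2] at this
    apply hcount σ hσ S Y hS hY hSY
    intro P hP
    rw [Finset.mem_filter] at hP
    obtain ⟨h1, h2, h3, h4, h5, h6⟩ := hT P hP.1
    refine ⟨h1, h2, h3, h4, h5, ?_⟩
    have := (hf P hP.1).2
    rwa [hP.2] at this

end Pool.Agent.Helper45.Disc
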