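import Pool.Agent.Helper12.DiscMain
import Pool.Agent.Helper45.DFinal
import Mathlib

open Polynomial

namespace Pool.Agent.Helper45.Disc

open Pool.Agent.Helper12.Disc

variable {n : ℕ}

theorem pow_id (hn : 2 ≤ n) (S Y : ℝ) (hS : 0 < S) (hY : 0 < Y) :
    S ^ (n + 1) * (Y / S ^ (2 * n - 2)) ^ (1 / 2 + 1 / (n : ℝ)) =
      Y ^ (1 / 2 + 1 / (n : ℝ)) * S ^ (2 / (n : ℝ)) := by
  have hn0 : (n : ℝ) ≠ 0 := by
    have : n ≠ 0 := by omega
    exact_mod_cast this
  have h1 : ((2 * n - 2 : ℕ) : ℝ) = 2 * n - 2 := by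
    rw [Nat.cast_sub (by omega)]
    push_cast
    ring
  rw [Real.div_rpow hY.le (by positivity), ← Real.rpow_natCast S (2 * n - 2),
    ← Real.rpow_mul hS.le, h1, ← Real.rpow_natCast S (n + 1)]
  have h2 : S ^ (2 / (n : ℝ)) = S ^ (((n + 1 : ℕ) : ℝ)) /
      S ^ ((2 * (n : ℝ) - 2) * (1 / 2 + 1 / (n : ℝ))) := by
    rw [← Real.rpow_sub hS]
    congr 1
    push_cast
    field_simp
    ring
  rw [h2]
  ring

theorem main_count (hn : 2 ≤ n) : ∃ K : ℝ, 0 < K ∧ ∀ Y Q : ℝ, 1 ≤ Q →
    Q ^ (2 * n - 2) ≤ Y * Q ^ 2 →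
    ∀ T : Finset ℤ[X], (∀ P ∈ T, P.natDegree = n ∧ (∀ x : ℚ, aeval x P ≠ 0) ∧
      (∀ i, |(P.coeff i : ℝ)| ≤ Q) ∧ |(P.discr : ℝ)| ≤ Y) →
    (T.card : ℝ) ≤ K * (Y ^ (1 / 2 + 1 / (n : ℝ)) * Q ^ (2 / (n : ℝ))) := by
  classical
  obtain ⟨K1, hK1, hlarge⟩ := exists_large_value n
  obtain ⟨M, hM, htr⟩ := tr_coeff_bound n
  set B : ℕ := ⌈M * K1⌉₊ with hB
  set M' : ℝ := max 1 (2 * M) with hM'
  have hM'1 : 1 ≤ M' := le_max_left _ _
  obtain ⟨K, hK, hcount⟩ := count_lead hn B (1 / M' ^ (2 * n - 4)) (by positivity)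
  have hn0 : (0 : ℝ) < n := by
    have : 0 < n := by omega
    exact_mod_cast this
  set r : ℝ := (2 : ℝ) ^ (2 / (n : ℝ)) with hr
  have hr1 : 1 < r := Real.one_lt_rpow (by norm_num) (by positivity)
  refine ⟨((n : ℝ) + 1) * (K * ((r / (r - 1)) * (2 * M) ^ (2 / (n : ℝ)))), by
    have : 0 < r - 1 := by linarith
    positivity, ?_⟩
  intro Y Q hQ hYQ T hT
  have hQ0 : 0 < Q := by linarith
  have hQ4 : Q ^ (2 * n - 4) ≤ Y := by
    have h1 : Q ^ (2 * n - 2) = Q ^ (2 * n - 4) * Q ^ 2 := by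
      rw [← pow_add]; congr 1; omega
    rw [h1] at hYQ
    exact le_of_mul_le_mul_right hYQ (by positivity)
  have hY : 0 < Y := lt_of_lt_of_le (by positivity) hQ4
  set m : ℕ := ⌊M * Q⌋₊ with hm
  have hmle : (m : ℝ) ≤ M * Q := Nat.floor_le (by positivity)
  set J : ℕ := Nat.clog 2 m with hJ
  -- choose the large value
  have hch : ∀ P : ℤ[X], ∃ k : Fin (n + 1), P.natDegree ≤ n →
      ∀ i, |(P.coeff i : ℝ)| ≤ K1 * |((P.eval ((k : ℕ) : ℤ) : ℤ) : ℝ)| := by
    intro P
    by_cases h : P.natDegree ≤ n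
    · obtain ⟨k, hk⟩ := hlarge P h
      exact ⟨k, fun _ => hk⟩
    · exact ⟨0, fun h' => absurd h' h⟩
  choose kf hkf using hch
  have hcard : (T.card : ℝ) = ∑ k : Fin (n + 1), ((T.filter fun P => kf P = k).card : ℝ) := by
    rw [Finset.card_eq_sum_card_fiberwise (f := kf) (t := Finset.univ)
      (fun _ _ => Finset.mem_coe.2 (Finset.mem_univ _))]
    push_cast
    rfl
  have hbound : ∀ k : Fin (n + 1), ((T.filter fun P => kf P = k).card : ℝ) ≤
      K * ((r / (r - 1)) * (2 * M) ^ (2 / (n : ℝ))) *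
        (Y ^ (1 / 2 + 1 / (n : ℝ)) * Q ^ (2 / (n : ℝ))) := by
    intro k
    rw [← Finset.card_image_of_injective (T.filter fun P => kf P = k)
      (tr_injective n ((k : ℕ) : ℤ))]
    set T' := (T.filter fun P => kf P = k).image (tr n ((k : ℕ) : ℤ)) with hT'
    -- properties
    have hprop : ∀ P ∈ T', P.natDegree = n ∧ (∀ x : ℚ, aeval x P ≠ 0) ∧ P.coeff n ≠ 0 ∧
        (P.coeff n).natAbs ≤ m ∧ |(P.discr : ℝ)| ≤ Y ∧
        (∀ i < n, |P.coeff i| ≤ B * |P.coeff n|) := by
      intro P' hP'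
      obtain ⟨P, hP, rfl⟩ := Finset.mem_image.1 hP'
      rw [Finset.mem_filter] at hP
      obtain ⟨hP, hPk⟩ := hP
      obtain ⟨hdeg, hroot, hcoef, hdisc⟩ := hT P hP
      have hP0 : P ≠ 0 := by
        rintro rfl
        simp at hdeg
        omega
      have hlar := hkf P hdeg.le
      rw [hPk] at hlar
      have hne : P.eval ((k : ℕ) : ℤ) ≠ 0 := by
        intro h0
        apply hroot ((k : ℕ) : ℚ)
        have h1 : aeval (((k : ℕ) : ℤ) : ℚ) P = ((P.eval ((k : ℕ) : ℤ) : ℤ) : ℚ) := by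
          have := aeval_algebraMap_apply ℚ ((k : ℕ) : ℤ) P
          simpa using this
        rw [h0] at h1
        simpa using h1
      obtain ⟨h1, h2, h3⟩ := tr_discr (by omega) ((k : ℕ) : ℤ) hdeg hne
      have h4 : (tr n ((k : ℕ) : ℤ) P).coeff n = P.eval ((k : ℕ) : ℤ) := by
        rw [← h2, leadingCoeff, h1]
      refine ⟨h1, tr_noroot _ P hdeg hP0 hroot, ?_, ?_, ?_, ?_⟩
      · rw [h4]; exact hne
      · rw [h4]
        have h5 := (htr P k Q hdeg.le hcoef).2
        rw [hm, Nat.le_floor_iff (by positivity), Nat.cast_natAbs]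
        push_cast
        exact h5
      · rw [h3]; exact hdisc
      · intro i _
        rw [h4]
        have h5 := (htr P k _ hdeg.le hlar).1 i
        have h6 : |((tr n ((k : ℕ) : ℤ) P).coeff i : ℝ)| ≤
            B * |((P.eval ((k : ℕ) : ℤ) : ℤ) : ℝ)| := by
          refine h5.trans ?_
          rw [← mul_assoc]
          apply mul_le_mul_of_nonneg_right _ (abs_nonneg _)
          exact Nat.le_ceil _
        exact_mod_cast h6
    rcases T'.eq_empty_or_nonempty with he | ⟨P₀, hP₀⟩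
    · rw [he, Finset.card_empty, Nat.cast_zero]
      have : 0 < r - 1 := by linarith
      positivity
    have hm1 : 1 ≤ m := by
      obtain ⟨-, -, h3, h4, -⟩ := hprop P₀ hP₀
      have := Int.natAbs_pos.2 h3
      omega
    have h2J : ((2 : ℝ)) ^ J ≤ 2 * M * Q := by
      have h1 : 2 ^ J ≤ 2 * m := by
        by_cases h : m = 1
        · rw [hJ, h]; simp
        · have h2 : 1 < m := by omega
          have h3 := Nat.pow_pred_clog_lt_self (by norm_num : 1 < 2) h2
          have h4 : 0 < Nat.clog 2 m := Nat.clog_pos (by norm_num) h2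
          have h5 : 2 ^ J = 2 * 2 ^ (Nat.clog 2 m).pred := by
            rw [hJ, ← pow_succ']
            congr 1
            exact (Nat.succ_pred_eq_of_pos h4).symm
          rw [h5]
          omega
      have h2 : ((2 : ℝ)) ^ J ≤ 2 * m := by exact_mod_cast h1
      linarith
    -- dyadic decomposition
    set f : ℤ[X] → ℕ := fun P => Nat.clog 2 (P.coeff n).natAbs with hf
    have hmaps : ∀ P ∈ T', f P ∈ Finset.range (J + 1) := by
      intro P hP
      obtain ⟨-, -, -, h4, -⟩ := hprop P hP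
      rw [Finset.mem_range, Nat.lt_succ_iff]
      exact Nat.clog_mono_right 2 h4
    have hfib : ∀ j ∈ Finset.range (J + 1), ((T'.filter fun P => f P = j).card : ℝ) ≤
        K * (Y ^ (1 / 2 + 1 / (n : ℝ)) * r ^ j) := by
      intro j hj
      have hjJ : j ≤ J := by have := Finset.mem_range.1 hj; omega
      have hS1 : (1 : ℝ) ≤ 2 ^ j := one_le_pow₀ (by norm_num)
      have hS0 : (0 : ℝ) < 2 ^ j := by positivity
      have hSM : (2 : ℝ) ^ j ≤ M' * Q := by
        calc (2 : ℝ) ^ j ≤ 2 ^ J := pow_le_pow_right₀ (by norm_num) hjJ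
          _ ≤ 2 * M * Q := h2J
          _ ≤ _ := mul_le_mul_of_nonneg_right (le_max_right _ _) hQ0.le
      have hcond : (1 / M' ^ (2 * n - 4)) * ((2 : ℝ) ^ j) ^ (2 * n - 2) ≤
          Y * ((2 : ℝ) ^ j) ^ 2 := by
        have e1 : ((2 : ℝ) ^ j) ^ (2 * n - 2) = ((2 : ℝ) ^ j) ^ (2 * n - 4) * ((2 : ℝ) ^ j) ^ 2 := by
          rw [← pow_add]; congr 1; omega
        rw [e1, ← mul_assoc]
        apply mul_le_mul_of_nonneg_right _ (by positivity)
        rw [one_div, inv_mul_le_iff₀ (by positivity)]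
        calc ((2 : ℝ) ^ j) ^ (2 * n - 4) ≤ (M' * Q) ^ (2 * n - 4) :=
              pow_le_pow_left₀ hS0.le hSM _
          _ = M' ^ (2 * n - 4) * Q ^ (2 * n - 4) := by rw [mul_pow]
          _ ≤ _ := mul_le_mul_of_nonneg_left hQ4 (by positivity)
      have h1 := hcount ((2 : ℝ) ^ j) Y hS1 hY hcond (T'.filter fun P => f P = j) (by
        intro P hP
        rw [Finset.mem_filter] at hP
        obtain ⟨h1, h2, h3, h4, h5, h6⟩ := hprop P hP.1
        have hPj : Nat.clog 2 (P.coeff n).natAbs = j := hP.2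
        have hpos : 0 < (P.coeff n).natAbs := Int.natAbs_pos.2 h3
        have habs : |(P.coeff n : ℝ)| = ((P.coeff n).natAbs : ℝ) := by
          rw [Nat.cast_natAbs]
          push_cast
          rfl
        refine ⟨h1, h2, ?_, ?_, h5, h6⟩
        · rw [habs]
          by_cases h : (P.coeff n).natAbs = 1
          · rw [h] at hPj ⊢
            rw [← hPj]
            norm_num
          · have h7 : 1 < (P.coeff n).natAbs := by omega
            have h8 := Nat.pow_pred_clog_lt_self (by norm_num : 1 < 2) h7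
            have h9 : 0 < Nat.clog 2 (P.coeff n).natAbs := Nat.clog_pos (by norm_num) h7
            rw [hPj] at h8 h9
            have h10 : ((2 : ℝ)) ^ j.pred ≤ ((P.coeff n).natAbs : ℝ) := by exact_mod_cast h8.le
            have h11 : (2 : ℝ) ^ j / 2 = 2 ^ j.pred := by
              have : (2 : ℝ) ^ j = 2 ^ j.pred * 2 := by
                rw [← pow_succ]
                congr 1
                exact (Nat.succ_pred_eq_of_pos h9).symm
              rw [this]
              ring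
            rw [h11]
            exact h10
        · rw [habs]
          have h8 := Nat.le_pow_clog (by norm_num : 1 < 2) (P.coeff n).natAbs
          rw [hPj] at h8
          exact_mod_cast h8)
      rw [pow_id hn _ _ hS0 hY] at h1
      have h2 : ((2 : ℝ) ^ j) ^ (2 / (n : ℝ)) = r ^ j := by
        rw [hr, ← Real.rpow_natCast, ← Real.rpow_natCast, ← Real.rpow_mul (by norm_num),
          ← Real.rpow_mul (by norm_num), mul_comm]
      rw [h2] at h1
      exact h1
    rw [Finset.card_eq_sum_card_fiberwise hmaps]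
    push_cast
    refine (Finset.sum_le_sum hfib).trans ?_
    rw [← Finset.mul_sum, ← Finset.mul_sum, geom_sum_eq hr1.ne']
    have hr0 : 0 < r - 1 := by linarith
    have h3 : (r ^ (J + 1) - 1) / (r - 1) ≤ (r / (r - 1)) * ((2 * M) ^ (2 / (n : ℝ)) *
        Q ^ (2 / (n : ℝ))) := by
      have e1 : r ^ J ≤ (2 * M) ^ (2 / (n : ℝ)) * Q ^ (2 / (n : ℝ)) := by
        rw [← Real.mul_rpow (by positivity) hQ0.le]
        have e2 : r ^ J = ((2 : ℝ) ^ J) ^ (2 / (n : ℝ)) := by
          rw [hr, ← Real.rpow_natCast, ← Real.rpow_natCast, ← Real.rpow_mul (by norm_num),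
            ← Real.rpow_mul (by norm_num), mul_comm]
        rw [e2]
        exact Real.rpow_le_rpow (by positivity) h2J (by positivity)
      rw [div_mul_eq_mul_div]
      apply div_le_div_of_nonneg_right _ hr0.le
      rw [pow_succ']
      nlinarith
    have hYθ : 0 < Y ^ (1 / 2 + 1 / (n : ℝ)) := by positivity
    calc K * (Y ^ (1 / 2 + 1 / (n : ℝ)) * ((r ^ (J + 1) - 1) / (r - 1)))
        ≤ K * (Y ^ (1 / 2 + 1 / (n : ℝ)) * ((r / (r - 1)) * ((2 * M) ^ (2 / (n : ℝ)) *
          Q ^ (2 / (n : ℝ))))) := by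
          apply mul_le_mul_of_nonneg_left _ hK.le
          exact mul_le_mul_of_nonneg_left h3 hYθ.le
      _ = _ := by ring
  rw [hcard]
  calc _ ≤ ∑ k : Fin (n + 1), K * ((r / (r - 1)) * (2 * M) ^ (2 / (n : ℝ))) *
        (Y ^ (1 / 2 + 1 / (n : ℝ)) * Q ^ (2 / (n : ℝ))) :=
        Finset.sum_le_sum fun k _ => hbound k
    _ = _ := by
        rw [Finset.sum_const, Finset.card_univ, Fintype.card_fin, nsmul_eq_mul]
        push_cast
        ring

end Pool.Agent.Helper45.Disc
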