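import Pool.Agent.Helper45.GoldenMain

set_option autoImplicit false

namespace Pool.Agent.Helper45.Golden

open Filter

theorem T_sum (n : ℕ) : ∀ (F : ℝ → ℝ) (y : ℝ), (T ^ n) F y =
    ∑ p : (Fin n → Fin 2) × (Fin n → Fin 2),
      F (gold ^ n * y + ∑ i : Fin n, (((p.1 i : ℕ):ℝ) - ((p.2 i : ℕ):ℝ)) * gold ^ (n - 1 - (i:ℕ))) := by
  induction n with
  | zero =>
    intro F y
    rw [Tpow_zero]
    simp
  | succ n ih =>
    intro F y
    rw [Tpow_succ, T_apply, Fintype.sum_prod_type]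
    have e1 : ∀ G : (Fin (n+1) → Fin 2) → ℝ, ∑ a, G a = ∑ a0 : Fin 2, ∑ a' : Fin n → Fin 2, G (Fin.cons a0 a') := by
      intro G
      rw [← (Fin.consEquiv (fun _ : Fin (n+1) => Fin 2)).sum_comp, Fintype.sum_prod_type]
      rfl
    rw [e1]
    simp only [e1]
    have e2 : ∀ (a0 b0 : Fin 2) (a' b' : Fin n → Fin 2),
        gold ^ (n+1) * y + ∑ i : Fin (n+1), ((((Fin.cons a0 a' : Fin (n+1) → Fin 2) i : ℕ):ℝ)
          - (((Fin.cons b0 b' : Fin (n+1) → Fin 2) i : ℕ):ℝ)) * gold ^ (n + 1 - 1 - (i:ℕ)) =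
        gold ^ n * (gold * y + (((a0:ℕ):ℝ) - ((b0:ℕ):ℝ))) +
          ∑ i : Fin n, (((a' i : ℕ):ℝ) - ((b' i : ℕ):ℝ)) * gold ^ (n - 1 - (i:ℕ)) := by
      intro a0 b0 a' b'
      rw [Fin.sum_univ_succ]
      simp only [Fin.cons_zero, Fin.cons_succ, Fin.val_zero, Fin.val_succ]
      have e3 : ∀ i : Fin n, n + 1 - 1 - ((i:ℕ) + 1) = n - 1 - (i:ℕ) := by intro i; omega
      simp only [e3]
      have e4 : n + 1 - 1 - 0 = n := by omega
      rw [e4]
      ring
    simp only [e2]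
    have e5 : ∀ z : ℝ, (T ^ n) F z = ∑ a' : Fin n → Fin 2, ∑ b' : Fin n → Fin 2,
        F (gold ^ n * z + ∑ i : Fin n, (((a' i : ℕ):ℝ) - ((b' i : ℕ):ℝ)) * gold ^ (n - 1 - (i:ℕ))) := by
      intro z
      rw [ih F z, Fintype.sum_prod_type]
    rw [e5, e5, e5]
    simp only [Fin.sum_univ_two, Fin.val_zero, Fin.val_one, Nat.cast_zero, Nat.cast_one, sub_zero, sub_self, add_zero,
      zero_sub, ← sub_eq_add_neg, Finset.sum_add_distrib]
    ring

theorem N_eq_card (n : ℕ) (x : ℝ) : N n x =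
    (Nat.card {p : (Fin n → Fin 2) × (Fin n → Fin 2) //
      ∑ i : Fin n, (((p.1 i : ℕ):ℝ) - ((p.2 i : ℕ):ℝ)) * gold ^ (n - 1 - (i:ℕ)) = x} : ℝ) := by
  classical
  unfold N
  rw [T_sum, Nat.card_eq_fintype_card, Fintype.card_subtype, Finset.card_filter]
  push_cast
  apply Finset.sum_congr rfl
  intro p _
  unfold dl
  rw [mul_zero, zero_add]

theorem N_zero_of_no_rep {x : ℝ} (h : ∀ n : ℕ, ∀ c : Fin n → ℤ, (∀ i, c i = -1 ∨ c i = 0 ∨ c i = 1) →
    ∑ i : Fin n, (c i : ℝ) * gold ^ (n - 1 - (i:ℕ)) ≠ x) (n : ℕ) : N n x = 0 := by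
  rw [N_eq_card]
  rw [Nat.card_eq_zero.mpr]
  · simp
  · left
    constructor
    rintro ⟨p, hp⟩
    refine h n (fun i => ((p.1 i : ℕ):ℤ) - ((p.2 i : ℕ):ℤ)) ?_ ?_
    · intro i
      have h1 := (p.1 i).isLt
      have h2 := (p.2 i).isLt
      omega
    · rw [← hp]
      apply Finset.sum_congr rfl
      intro i _
      push_cast
      rfl

/-- elements with digits in `{-1,0,1}` are in the strip -/
theorem mem_Z_of_rep (n : ℕ) : ∀ (y : ℝ), y ∈ Z → ∀ c : Fin n → ℤ, (∀ i, c i = -1 ∨ c i = 0 ∨ c i = 1) →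
    gold ^ n * y + ∑ i : Fin n, (c i : ℝ) * gold ^ (n - 1 - (i:ℕ)) ∈ Z := by
  induction n with
  | zero => intro y hy c _; simpa using hy
  | succ n ih =>
    intro y hy c hc
    rw [Fin.sum_univ_succ]
    simp only [Fin.val_zero, Fin.val_succ]
    have e3 : ∀ i : Fin n, n + 1 - 1 - ((i:ℕ) + 1) = n - 1 - (i:ℕ) := by intro i; omega
    simp only [e3]
    have e4 : n + 1 - 1 - 0 = n := by omega
    rw [e4]
    have h1 : gold * y + (c 0 : ℤ) ∈ Z := by
      apply Z_step hy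
      rcases hc 0 with h | h | h <;> rw [h] <;> simp
    have h2 := ih _ h1 (fun i => c i.succ) (fun i => hc i.succ)
    have e : gold ^ (n+1) * y + ((c 0 : ℝ) * gold ^ n + ∑ i : Fin n, (c i.succ : ℝ) * gold ^ (n - 1 - (i:ℕ))) =
        gold ^ n * (gold * y + (c 0 : ℤ)) + ∑ i : Fin n, (c i.succ : ℝ) * gold ^ (n - 1 - (i:ℕ)) := by ring
    rw [e]
    exact h2

theorem rep_mem_Z (n : ℕ) (c : Fin n → ℤ) (hc : ∀ i, c i = -1 ∨ c i = 0 ∨ c i = 1) :
    ∑ i : Fin n, (c i : ℝ) * gold ^ (n - 1 - (i:ℕ)) ∈ Z := by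
  have := mem_Z_of_rep n 0 Z_zero c hc
  rwa [mul_zero, zero_add] at this

/-- the exponential growth rate -/
theorem growth : Tendsto (fun n : ℕ => (N n 0) ^ (1 / (n:ℝ))) atTop (nhds lam) := by
  have h1 : Tendsto (fun n : ℕ => (R n 0) ^ (1 / (n:ℝ))) atTop (nhds (mu 0 ^ (0:ℝ))) := by
    apply Tendsto.rpow (mu_lim 0) tendsto_one_div_atTop_nhds_zero_nat
    left
    exact mu_zero_pos.ne'
  rw [Real.rpow_zero] at h1
  have h2 := h1.mul_const lam
  rw [one_mul] at h2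
  refine h2.congr' ?_
  filter_upwards [eventually_ge_atTop 1] with n hn
  have hl := lam_pos
  have hn0 : (n:ℝ) ≠ 0 := by positivity
  have e : N n 0 = R n 0 * lam ^ n := by
    unfold R
    have : 0 < lam ^ n := pow_pos hl n
    field_simp
  rw [e, Real.mul_rpow _ (pow_pos hl n).le, ← Real.rpow_natCast lam n, ← Real.rpow_mul hl.le,
    mul_one_div_cancel hn0, Real.rpow_one]
  unfold R
  exact div_nonneg (N_nonneg n 0) (pow_pos hl n).le

/-- sums over nonnegative points -/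
theorem half_sum (r : ℝ) (g : ℝ → ℝ) (hg : ∀ x, g (-x) = g x) (h0 : 0 ≤ r) :
    2 * (∑ x ∈ (B r).filter (fun x => 0 ≤ x), mu x * g x) = (∑ x ∈ B r, mu x * g x) + mu 0 * g 0 := by
  classical
  have hneg : ∀ x, x ∈ B r → -x ∈ B r := by
    intro x hx
    rw [mem_B] at hx ⊢
    refine ⟨?_, by rw [abs_neg]; exact hx.2⟩
    obtain ⟨a, b, rfl, h⟩ := hx.1
    refine ⟨-a, -b, by push_cast; ring, ?_⟩
    push_cast
    rw [show -(a:ℝ) + -b * (1 - gold) = -((a:ℝ) + b * (1 - gold)) by ring, abs_neg]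
    exact h
  have h1 : ∑ x ∈ (B r).filter (fun x => 0 ≤ x), mu x * g x =
      mu 0 * g 0 + ∑ x ∈ (B r).filter (fun x => 0 < x), mu x * g x := by
    have e : (B r).filter (fun x => 0 ≤ x) = insert 0 ((B r).filter (fun x => 0 < x)) := by
      ext x
      simp only [Finset.mem_filter, Finset.mem_insert]
      constructor
      · rintro ⟨hx, hx0⟩
        rcases hx0.eq_or_lt with h | h
        · left; exact h.symm
        · right; exact ⟨hx, h⟩
      · rintro (rfl | ⟨hx, hx0⟩)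
        · exact ⟨mem_B.mpr ⟨Z_zero, by simpa using h0⟩, le_refl _⟩
        · exact ⟨hx, hx0.le⟩
    rw [e, Finset.sum_insert]
    simp
  have h2 : ∑ x ∈ (B r).filter (fun x => ¬ 0 ≤ x), mu x * g x =
      ∑ x ∈ (B r).filter (fun x => 0 < x), mu x * g x := by
    apply Finset.sum_nbij' (fun x => -x) (fun x => -x)
    · intro x hx
      rw [Finset.mem_filter] at hx ⊢
      exact ⟨hneg x hx.1, by have := hx.2; linarith [not_le.mp this]⟩
    · intro x hx
      rw [Finset.mem_filter] at hx ⊢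
      refine ⟨hneg x hx.1, ?_⟩
      have := hx.2
      intro h
      linarith
    · intro x _; ring
    · intro x _; ring
    · intro x _
      rw [hg, mu_neg]
  have h3 := Finset.sum_filter_add_sum_filter_not (B r) (fun x => 0 ≤ x) (fun x => mu x * g x)
  rw [h2] at h3
  linarith

theorem cos_fract (x : ℝ) : Real.cos (2 * Real.pi * Int.fract x) = cs x := by
  unfold cs
  have : 2 * Real.pi * Int.fract x = 2 * Real.pi * x - (⌊x⌋ : ℤ) * (2 * Real.pi) := by
    rw [Int.fract]; ring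
  rw [this, Real.cos_sub_int_mul_two_pi]

theorem cs_neg (x : ℝ) : cs (-x) = cs x := by
  unfold cs
  rw [mul_neg, Real.cos_neg]

/-- the one-sided averages -/
theorem one_sided : ∃ᶠ n : ℕ in atTop, c0 / 4 * (∑ x ∈ (B n).filter (fun x => 0 ≤ x), mu x * 1) ≤
    ∑ x ∈ (B n).filter (fun x => 0 ≤ x), mu x * cs x := by
  refine main_ineq.mono ?_
  intro n hn
  have h0 : (0:ℝ) ≤ n := by positivity
  have h1 := half_sum n (fun _ => 1) (fun _ => rfl) h0
  have h2 := half_sum n cs cs_neg h0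
  have e1 : ∑ x ∈ B n, mu x * 1 = W n := by unfold W; simp
  have e2 : ∑ x ∈ B n, mu x * cs x = S n := by
    unfold S
    apply Finset.sum_congr rfl
    intro x _
    ring
  have e3 : cs 0 = 1 := by unfold cs; simp
  rw [e1] at h1
  rw [e2, e3] at h2
  have := mu_zero_pos
  have hc := c0_pos
  have hc1 := c0_le
  nlinarith

theorem one_sided_pos (n : ℕ) : 0 < ∑ x ∈ (B n).filter (fun x => 0 ≤ x), mu x * 1 := by
  have h0 : (0:ℝ) ≤ n := by positivity
  have h1 := half_sum n (fun _ => 1) (fun _ => rfl) h0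
  have e1 : ∑ x ∈ B n, mu x * 1 = W n := by unfold W; simp
  rw [e1] at h1
  have := mu_zero_pos
  have := W_pos h0
  linarith

theorem integral_cos : ∫ t in (0:ℝ)..1, Real.cos (2 * Real.pi * t) = 0 := by
  have h : (2 * Real.pi) ≠ 0 := by positivity
  rw [intervalIntegral.integral_comp_mul_left (fun x => Real.cos x) h]
  simp

end Pool.Agent.Helper45.Golden
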