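import Pool.Agent.Helper45.GoldenOp

set_option autoImplicit false

namespace Pool.Agent.Helper45.Golden

open Filter

theorem gold_inv : 1 / gold = gold - 1 := by
  rw [div_eq_iff gold_pos.ne']
  have := gold_sq
  linarith

theorem one_sub_gold_abs : |1 - gold| = gold - 1 := by
  rw [abs_sub_comm, abs_of_pos]
  have := gold_gt
  linarith

/-- the points of the strip near the origin -/
theorem Z_near {x : ℝ} (hx : x ∈ Z) (h : |x| ≤ gold + 1/5) :
    x = 0 ∨ x = 1 ∨ x = -1 ∨ x = gold - 1 ∨ x = -(gold - 1) ∨ x = gold ∨ x = -gold := by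
  obtain ⟨a, b, rfl, hc⟩ := hx
  have hg1 := gold_gt
  have hg2 := gold_lt
  have hgs := gold_sq
  rw [hgs] at hc
  rw [abs_lt] at hc
  rw [abs_le] at h
  have hb : b = -1 ∨ b = 0 ∨ b = 1 := by
    have h1 : (b:ℝ) * (2 * gold - 1) < 2 * (2 * gold - 1) := by nlinarith
    have h2 : (-2) * (2 * gold - 1) < (b:ℝ) * (2 * gold - 1) := by nlinarith
    have hp : 0 < 2 * gold - 1 := by linarith
    have h3 : (b:ℝ) < 2 := lt_of_mul_lt_mul_right h1 hp.le
    have h4 : (-2:ℝ) < b := lt_of_mul_lt_mul_right h2 hp.le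
    have h5 : b < 2 := by exact_mod_cast h3
    have h6 : -2 < b := by exact_mod_cast h4
    omega
  rcases hb with rfl | rfl | rfl
  · push_cast at h hc ⊢
    have h1 : (a:ℝ) < 2 := by
      have : (a:ℝ) < 3.9 := by linarith
      have h' : a < 4 := by exact_mod_cast (lt_trans this (by norm_num : (3.9:ℝ) < 4))
      by_contra hcon
      push Not at hcon
      have h2 : 2 ≤ a := by exact_mod_cast hcon
      have h3 : (2:ℝ) ≤ a := by exact_mod_cast h2
      linarith [hc.2]
    have h2 : (-1:ℝ) < a := by linarith [h.1]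
    have h3 : a < 2 := by exact_mod_cast h1
    have h4 : -1 < a := by exact_mod_cast h2
    have h5 : a = 0 ∨ a = 1 := by omega
    rcases h5 with rfl | rfl
    · right; right; right; right; right; right; push_cast; ring
    · right; right; right; right; left; push_cast; ring
  · push_cast at h hc ⊢
    have h1 : (a:ℝ) < 2 := by linarith [h.2]
    have h2 : (-2:ℝ) < a := by linarith [h.1]
    have h3 : a < 2 := by exact_mod_cast h1
    have h4 : -2 < a := by exact_mod_cast h2
    have h5 : a = 0 ∨ a = 1 ∨ a = -1 := by omega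
    rcases h5 with rfl | rfl | rfl
    · left; push_cast; ring
    · right; left; push_cast; ring
    · right; right; left; push_cast; ring
  · push_cast at h hc ⊢
    have h1 : (a:ℝ) < 1 := by linarith [h.2]
    have h2 : (-2:ℝ) < a := by linarith [hc.1]
    have h3 : a < 1 := by exact_mod_cast h1
    have h4 : -2 < a := by exact_mod_cast h2
    have h5 : a = 0 ∨ a = -1 := by omega
    rcases h5 with rfl | rfl
    · right; right; right; right; right; left; push_cast; ring
    · right; right; right; left; push_cast; ring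

theorem Z_not (a b : ℤ) (h : gold * gold ≤ |(a:ℝ) + b * (1 - gold)|) : ((a:ℝ) + b * gold) ∉ Z := by
  rintro ⟨c, d, h1, h2⟩
  obtain ⟨rfl, rfl⟩ := gold_uniq h1
  linarith

theorem N_A (n : ℕ) : N (n+1) 0 = 2 * N n 0 + 2 * N n (gold - 1) := by
  rw [N_succ]
  have e1 : (0:ℝ) / gold = 0 := by simp
  have e2 : (0 - 1) / gold = -(gold - 1) := by rw [← gold_inv]; ring
  have e3 : (0 + 1) / gold = gold - 1 := by rw [← gold_inv]; ring
  rw [e1, e2, e3, N_neg]
  ring

theorem N_B (n : ℕ) : N (n+1) 1 = N n 0 + 2 * N n (gold - 1) := by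
  rw [N_succ]
  have e2 : ((1:ℝ) - 1) / gold = 0 := by simp
  have e3 : ((1:ℝ) + 1) / gold = ((-2:ℤ):ℝ) + (2:ℤ) * gold := by
    have : ((1:ℝ) + 1) / gold = 2 * (1 / gold) := by ring
    rw [this, gold_inv]; push_cast; ring
  have h0 : N n (((1:ℝ) + 1) / gold) = 0 := by
    rw [e3]
    apply N_off
    apply Z_not
    rw [gold_sq]
    push_cast
    have := gold_gt
    rw [abs_of_neg (by linarith)]
    linarith
  rw [h0, e2, gold_inv]
  ring

theorem N_D (n : ℕ) : N (n+1) (gold - 1) = N n 1 := by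
  rw [N_succ]
  have hgs := gold_sq
  have hg1 := gold_gt
  have hg2 := gold_lt
  have hgp := gold_pos
  have e1 : (gold - 1) / gold = ((2:ℤ):ℝ) + (-1:ℤ) * gold := by
    rw [div_eq_iff hgp.ne']
    push_cast
    have : (2 + -1 * gold) * gold = 2 * gold - gold * gold := by ring
    rw [this, hgs]; ring
  have e2 : (gold - 1 - 1) / gold = ((3:ℤ):ℝ) + (-2:ℤ) * gold := by
    rw [div_eq_iff hgp.ne']
    push_cast
    have : (3 + -2 * gold) * gold = 3 * gold - 2 * (gold * gold) := by ring
    rw [this, hgs]; ring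
  have e3 : (gold - 1 + 1) / gold = 1 := by
    rw [div_eq_iff hgp.ne']; ring
  have h1 : N n ((gold - 1) / gold) = 0 := by
    rw [e1]
    apply N_off
    apply Z_not
    rw [hgs]
    push_cast
    rw [abs_of_pos (by linarith)]
    linarith
  have h2 : N n ((gold - 1 - 1) / gold) = 0 := by
    rw [e2]
    apply N_off
    apply Z_not
    rw [hgs]
    push_cast
    rw [abs_of_pos (by linarith)]
    linarith
  rw [h1, h2, e3]
  ring

theorem N_E (n : ℕ) : N (n+1) gold = 2 * N n 1 + N n gold := by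
  rw [N_succ]
  have hgs := gold_sq
  have hg1 := gold_gt
  have hgp := gold_pos
  have e1 : gold / gold = 1 := div_self hgp.ne'
  have e2 : (gold - 1) / gold = ((2:ℤ):ℝ) + (-1:ℤ) * gold := by
    rw [div_eq_iff hgp.ne']
    push_cast
    have : (2 + -1 * gold) * gold = 2 * gold - gold * gold := by ring
    rw [this, hgs]; ring
  have e3 : (gold + 1) / gold = gold := by
    rw [div_eq_iff hgp.ne', hgs]
  have h1 : N n ((gold - 1) / gold) = 0 := by
    rw [e2]
    apply N_off
    apply Z_not
    rw [hgs]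
    push_cast
    rw [abs_of_pos (by linarith)]
    linarith
  rw [h1, e1, e3]
  ring

/-- the growth rate -/
theorem exists_lam : ∃ l : ℝ, 2.48 < l ∧ l < 2.482 ∧ l^3 - 2*l^2 - 2*l + 2 = 0 := by
  have hc : ContinuousOn (fun l : ℝ => l^3 - 2*l^2 - 2*l + 2) (Set.Icc 2.48 2.482) := by
    apply Continuous.continuousOn; fun_prop
  have h := intermediate_value_Ioo (by norm_num : (2.48:ℝ) ≤ 2.482) hc
  have h0 : (0:ℝ) ∈ Set.Ioo ((fun l : ℝ => l^3 - 2*l^2 - 2*l + 2) 2.48) ((fun l : ℝ => l^3 - 2*l^2 - 2*l + 2) 2.482) := by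
    constructor <;> norm_num
  obtain ⟨l, hl, h1⟩ := h h0
  exact ⟨l, hl.1, hl.2, h1⟩

noncomputable def lam : ℝ := Classical.choose exists_lam

theorem lam_gt : 2.48 < lam := (Classical.choose_spec exists_lam).1
theorem lam_lt : lam < 2.482 := (Classical.choose_spec exists_lam).2.1
theorem lam_eq : lam^3 - 2*lam^2 - 2*lam + 2 = 0 := (Classical.choose_spec exists_lam).2.2
theorem lam_pos : 0 < lam := by have := lam_gt; linarith

/-- normalised count -/
noncomputable def R (n : ℕ) (x : ℝ) : ℝ := N n x / lam ^ n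

theorem e_rec (n : ℕ) : N (n+2) 0 - (2 - lam) * N (n+1) 0 - (2 / lam) * N n 0 = lam ^ n * (2 * lam - 2 / lam) := by
  have hl := lam_pos
  have hle := lam_eq
  induction n with
  | zero =>
    have hne : ¬ ((0:ℝ) = gold - 1) := by have := gold_gt; intro h; linarith
    have z0 : N 0 0 = 1 := by rw [N_zero]; simp
    have z1 : N 0 1 = 0 := by rw [N_zero]; norm_num
    have zd : N 0 (gold - 1) = 0 := by rw [N_zero, if_neg hne]
    have a0 := N_A 0
    have a1 := N_A 1
    have d0 := N_D 0
    simp only [zero_add] at a0 d0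
    norm_num at a1
    have h1 : N 1 0 = 2 := by rw [a0, z0, zd]; norm_num
    have h2 : N 2 0 = 4 := by rw [a1, d0, h1, z1]; norm_num
    simp only [zero_add]
    rw [h2, h1, N_zero]
    norm_num
    ring
  | succ n ih =>
    have h3 : N (n+1+2) 0 = 2 * N (n+2) 0 + 2 * N (n+1) 0 - 2 * N n 0 := by
      have a1 := N_A (n+2)
      have a2 := N_D (n+1)
      have a3 := N_B n
      have a4 := N_A n
      have e1 : n + 1 + 2 = n + 2 + 1 := by ring
      rw [e1, a1, show n + 2 = n + 1 + 1 by ring, a2, a3, show n + 1 + 1 = n + 2 by ring]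
      linarith
    have key : N (n+1+2) 0 - (2 - lam) * N (n+1+1) 0 - (2 / lam) * N (n+1) 0 =
        lam * (N (n+2) 0 - (2 - lam) * N (n+1) 0 - (2 / lam) * N n 0) := by
      rw [h3, show n + 1 + 1 = n + 2 by ring]
      field_simp
      linear_combination (N (n+1) 0) * (-hle)
    rw [key, ih, pow_succ]
    ring

noncomputable def al : ℝ := (2 - lam) / lam
noncomputable def be : ℝ := 2 / lam ^ 3
noncomputable def ga : ℝ := (2 * lam - 2 / lam) / lam ^ 2
noncomputable def muA : ℝ := ga / (1 - al - be)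

theorem lam3_gt : 15.25 < lam ^ 3 := by
  have h := lam_gt
  have : (2.48:ℝ)^3 < lam^3 := pow_lt_pow_left₀ h (by norm_num) (by norm_num)
  have h2 : (15.25:ℝ) < (2.48:ℝ)^3 := by norm_num
  linarith

theorem be_lt : be < 0.1312 := by
  unfold be
  rw [div_lt_iff₀ (pow_pos lam_pos 3)]
  have := lam3_gt
  linarith

theorem be_pos : 0 < be := by unfold be; exact div_pos (by norm_num) (pow_pos lam_pos 3)

theorem al_gt : -0.1943 < al := by
  unfold al
  rw [lt_div_iff₀ lam_pos]
  have := lam_lt
  linarith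

theorem al_neg : al < 0 := by
  unfold al
  rw [div_lt_iff₀ lam_pos]
  have := lam_gt
  linarith

theorem R_rec (n : ℕ) : R (n+2) 0 = al * R (n+1) 0 + be * R n 0 + ga := by
  have h := e_rec n
  have hl := lam_pos
  unfold R al be ga
  have h1 : N (n+2) 0 = (2 - lam) * N (n+1) 0 + (2 / lam) * N n 0 + lam ^ n * (2 * lam - 2 / lam) := by linarith
  rw [h1]
  have e2 : lam ^ (n+2) = lam ^ n * lam ^ 2 := pow_add _ _ _
  have e1 : lam ^ (n+1) = lam ^ n * lam := pow_succ _ _
  rw [e2, e1]
  have hn : 0 < lam ^ n := pow_pos hl n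
  field_simp

theorem den_pos : 0 < 1 - al - be := by
  have := al_neg
  have := be_lt
  linarith

theorem R_dev : ∃ K : ℝ, 0 ≤ K ∧ ∀ n, |R n 0 - muA| ≤ K / 2 ^ n ∧ |R (n+1) 0 - muA| ≤ K / 2 ^ (n+1) := by
  refine ⟨max |R 0 0 - muA| (2 * |R 1 0 - muA|), le_max_of_le_left (abs_nonneg _), ?_⟩
  set K := max |R 0 0 - muA| (2 * |R 1 0 - muA|) with hK
  intro n
  induction n with
  | zero =>
    constructor
    · simp only [pow_zero, div_one]; exact le_max_left _ _
    · have := le_max_right |R 0 0 - muA| (2 * |R 1 0 - muA|)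
      simp only [zero_add, pow_one]
      rw [← hK] at this
      linarith
  | succ n ih =>
    refine ⟨ih.2, ?_⟩
    have e : R (n+1+1) 0 - muA = al * (R (n+1) 0 - muA) + be * (R n 0 - muA) := by
      rw [show n+1+1 = n+2 by ring, R_rec n]
      have h1 : muA * (1 - al - be) = ga := by unfold muA; exact div_mul_cancel₀ _ den_pos.ne'
      linear_combination (-1) * h1
    rw [e]
    have h1 := abs_add_le (al * (R (n+1) 0 - muA)) (be * (R n 0 - muA))
    rw [abs_mul, abs_mul, abs_of_neg al_neg, abs_of_pos be_pos] at h1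
    have ha : -al ≤ 0.1943 := by have := al_gt; linarith
    have hb := be_lt.le
    have hK0 : 0 ≤ K := le_max_of_le_left (abs_nonneg _)
    have h2 : -al * |R (n+1) 0 - muA| ≤ 0.1943 * (K / 2^(n+1)) :=
      mul_le_mul ha ih.2 (abs_nonneg _) (by norm_num)
    have h3 : be * |R n 0 - muA| ≤ 0.1312 * (K / 2^n) :=
      mul_le_mul hb ih.1 (abs_nonneg _) (by norm_num)
    have e1 : K / 2^(n+1) = K / 2^n / 2 := by rw [pow_succ]; field_simp
    have e2 : K / 2^(n+1+1) = K / 2^n / 4 := by rw [pow_succ, pow_succ]; field_simp; norm_num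
    rw [e1] at h2
    rw [e2]
    have h4 : 0 ≤ K / 2^n := by positivity
    linarith

theorem lim_A : Tendsto (fun n => R n 0) atTop (nhds muA) := by
  obtain ⟨K, hK, h⟩ := R_dev
  rw [tendsto_iff_norm_sub_tendsto_zero]
  refine squeeze_zero (fun n => norm_nonneg _) (fun n => (h n).1) ?_
  have : Tendsto (fun n : ℕ => K * (1/2:ℝ)^n) atTop (nhds (K * 0)) :=
    (tendsto_pow_atTop_nhds_zero_of_lt_one (by norm_num) (by norm_num)).const_mul K
  rw [mul_zero] at this
  refine this.congr ?_
  intro n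
  rw [one_div, inv_pow, div_eq_mul_inv]

theorem muA_pos : 0 < muA := by
  unfold muA
  apply div_pos _ den_pos
  unfold ga
  apply div_pos _ (pow_pos lam_pos 2)
  have h := lam_gt
  have h1 : 2 / lam < 1 := by
    rw [div_lt_iff₀ lam_pos]; linarith
  linarith

/-- having a limit -/
def HasLim (x : ℝ) : Prop := ∃ l, Tendsto (fun n => R n x) atTop (nhds l)

theorem R_succ (n : ℕ) (x : ℝ) :
    R (n+1) x = (2 * R n (x / gold) + R n ((x - 1) / gold) + R n ((x + 1) / gold)) / lam := by
  unfold R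
  rw [N_succ, pow_succ]
  have := lam_pos
  have hn : 0 < lam ^ n := pow_pos this n
  field_simp

theorem HasLim_step {x : ℝ} (h1 : HasLim (x / gold)) (h2 : HasLim ((x - 1) / gold))
    (h3 : HasLim ((x + 1) / gold)) : HasLim x := by
  obtain ⟨l1, h1⟩ := h1
  obtain ⟨l2, h2⟩ := h2
  obtain ⟨l3, h3⟩ := h3
  refine ⟨(2 * l1 + l2 + l3) / lam, ?_⟩
  rw [← tendsto_add_atTop_iff_nat 1]
  simp only [R_succ]
  exact (((h1.const_mul 2).add h2).add h3).div_const lam

theorem HasLim_off {x : ℝ} (h : x ∉ Z) : HasLim x := by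
  refine ⟨0, ?_⟩
  have : (fun n => R n x) = fun _ => 0 := by
    funext n; unfold R; rw [N_off n h]; simp
  rw [this]
  exact tendsto_const_nhds

theorem HasLim_neg {x : ℝ} (h : HasLim x) : HasLim (-x) := by
  obtain ⟨l, h⟩ := h
  refine ⟨l, ?_⟩
  have : (fun n => R n (-x)) = fun n => R n x := by funext n; unfold R; rw [N_neg]
  rw [this]; exact h

theorem HasLim_0 : HasLim 0 := ⟨muA, lim_A⟩

theorem HasLim_D : HasLim (gold - 1) := by
  have e : ∀ n, R n (gold - 1) = (lam * R (n+1) 0 - 2 * R n 0) / 2 := by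
    intro n
    unfold R
    rw [N_A, pow_succ]
    have := lam_pos
    have hn : 0 < lam ^ n := pow_pos this n
    field_simp
    ring
  refine ⟨(lam * muA - 2 * muA) / 2, ?_⟩
  simp only [e]
  have h1 := (tendsto_add_atTop_iff_nat 1).mpr lim_A
  exact ((h1.const_mul lam).sub (lim_A.const_mul 2)).div_const 2

theorem HasLim_B : HasLim 1 := by
  obtain ⟨l, h⟩ := HasLim_D
  have e : ∀ n, R n 1 = lam * R (n+1) (gold - 1) := by
    intro n
    unfold R
    rw [N_D, pow_succ]
    have := lam_pos
    have hn : 0 < lam ^ n := pow_pos this n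
    field_simp
  refine ⟨lam * l, ?_⟩
  simp only [e]
  exact ((tendsto_add_atTop_iff_nat 1).mpr h).const_mul lam

theorem E_form (n : ℕ) : N n gold = 2 * N n 0 - 2 * N n 1 - 2 := by
  induction n with
  | zero =>
    rw [N_zero, N_zero, N_zero, if_neg, if_pos rfl, if_neg (by norm_num)]
    · norm_num
    · have := gold_pos; intro h; linarith
  | succ n ih =>
    rw [N_E, N_A, N_B, ih]
    ring

theorem HasLim_E : HasLim gold := by
  obtain ⟨l, h⟩ := HasLim_B
  have e : ∀ n, R n gold = 2 * R n 0 - 2 * R n 1 - 2 * (lam⁻¹)^n := by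
    intro n
    unfold R
    rw [E_form, inv_pow]
    have := lam_pos
    have hn : 0 < lam ^ n := pow_pos this n
    field_simp
  refine ⟨2 * muA - 2 * l - 2 * 0, ?_⟩
  simp only [e]
  refine ((lim_A.const_mul 2).sub (h.const_mul 2)).sub (Tendsto.const_mul 2 ?_)
  apply tendsto_pow_atTop_nhds_zero_of_lt_one
  · exact (inv_pos.mpr lam_pos).le
  · rw [inv_lt_one₀ lam_pos]
    have := lam_gt
    linarith

theorem HasLim_near {x : ℝ} (h : |x| ≤ gold + 1/5) : HasLim x := by
  by_cases hx : x ∈ Z
  · rcases Z_near hx h with rfl | rfl | rfl | rfl | rfl | rfl | rfl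
    · exact HasLim_0
    · exact HasLim_B
    · exact HasLim_neg HasLim_B
    · exact HasLim_D
    · exact HasLim_neg HasLim_D
    · exact HasLim_E
    · exact HasLim_neg HasLim_E
  · exact HasLim_off hx

theorem HasLim_level (k : ℕ) : ∀ x : ℝ, |x| ≤ gold + gold ^ k / 5 → HasLim x := by
  induction k with
  | zero =>
    intro x h
    apply HasLim_near
    simpa using h
  | succ k ih =>
    intro x h
    have hg := gold_pos
    have key : ∀ d : ℝ, |d| ≤ 1 → |(x + d) / gold| ≤ gold + gold ^ k / 5 := by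
      intro d hd
      rw [abs_div, abs_of_pos hg, div_le_iff₀ hg]
      have h1 := abs_add_le x d
      have e : (gold + gold ^ k / 5) * gold = gold + 1 + gold ^ (k+1) / 5 := by
        have : (gold + gold ^ k / 5) * gold = gold * gold + gold ^ (k+1) / 5 := by ring
        rw [this, gold_sq]
      rw [e]
      linarith
    apply HasLim_step
    · apply ih; have := key 0 (by simp); rwa [add_zero] at this
    · apply ih; have := key (-1) (by simp); rwa [← sub_eq_add_neg] at this
    · apply ih; exact key 1 (by simp)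

theorem HasLim_all (x : ℝ) : HasLim x := by
  have h : Tendsto (fun k : ℕ => gold ^ k) atTop atTop :=
    tendsto_pow_atTop_atTop_of_one_lt (by have := gold_gt; linarith)
  obtain ⟨k, hk⟩ := (h.eventually (eventually_ge_atTop (5 * |x|))).exists
  apply HasLim_level k
  have := gold_pos
  linarith

/-- the weight -/
noncomputable def mu (x : ℝ) : ℝ := Classical.choose (HasLim_all x)

theorem mu_lim (x : ℝ) : Tendsto (fun n => R n x) atTop (nhds (mu x)) := Classical.choose_spec (HasLim_all x)

theorem mu_zero : mu 0 = muA := tendsto_nhds_unique (mu_lim 0) lim_A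

theorem mu_zero_pos : 0 < mu 0 := by rw [mu_zero]; exact muA_pos

theorem mu_nonneg (x : ℝ) : 0 ≤ mu x := by
  apply ge_of_tendsto' (mu_lim x)
  intro n
  unfold R
  exact div_nonneg (N_nonneg n x) (pow_pos lam_pos n).le

theorem mu_neg (x : ℝ) : mu (-x) = mu x := by
  have h := mu_lim (-x)
  have : (fun n => R n (-x)) = fun n => R n x := by funext n; unfold R; rw [N_neg]
  rw [this] at h
  exact tendsto_nhds_unique h (mu_lim x)

theorem mu_of_N_zero {x : ℝ} (h : ∀ n, N n x = 0) : mu x = 0 := by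
  have h1 := mu_lim x
  have : (fun n => R n x) = fun _ => 0 := by
    funext n; unfold R; rw [h n]; simp
  rw [this] at h1
  exact tendsto_nhds_unique h1 tendsto_const_nhds

theorem mu_off {x : ℝ} (h : x ∉ Z) : mu x = 0 := mu_of_N_zero (fun n => N_off n h)

/-- the limit functional -/
theorem lim_func (F : ℝ → ℝ) (s : Finset ℝ) (h : ∀ z ∈ Z, z ∉ s → F z = 0) :
    Tendsto (fun n => (T ^ n) F 0 / lam ^ n) atTop (nhds (∑ x ∈ s, F x * mu x)) := by
  have e : (fun n => (T ^ n) F 0 / lam ^ n) = fun n => ∑ x ∈ s, F x * R n x := by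
    funext n
    rw [T_finset n F s h, Finset.sum_div]
    apply Finset.sum_congr rfl
    intro x _
    unfold R
    ring
  rw [e]
  apply tendsto_finsetSum
  intro x _
  exact (mu_lim x).const_mul (F x)

/-- self-similarity -/
theorem self_sim (m : ℕ) (F : ℝ → ℝ) (s s' : Finset ℝ) (h : ∀ z ∈ Z, z ∉ s → F z = 0)
    (h' : ∀ z ∈ Z, z ∉ s' → (T ^ m) F z = 0) :
    lam ^ m * (∑ x ∈ s, F x * mu x) = ∑ x ∈ s', (T ^ m) F x * mu x := by
  have h1 := lim_func F s h
  have h2 := lim_func ((T ^ m) F) s' h'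
  have h3 := ((tendsto_add_atTop_iff_nat m).mpr h1).const_mul (lam ^ m)
  have e : (fun n => lam ^ m * ((T ^ (n+m)) F 0 / lam ^ (n+m))) = fun n => (T ^ n) ((T ^ m) F) 0 / lam ^ n := by
    funext n
    rw [Tpow_add, pow_add]
    have := lam_pos
    have hn : 0 < lam ^ n := pow_pos this n
    have hm : 0 < lam ^ m := pow_pos this m
    field_simp
  rw [e] at h3
  exact tendsto_nhds_unique h3 h2

end Pool.Agent.Helper45.Golden
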