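import Pool.Agent.Helper45.GoldenLim

set_option autoImplicit false

namespace Pool.Agent.Helper45.Golden

open Filter

theorem Z_fin (r : ℝ) : (Z ∩ Set.Icc (-r) r).Finite := by
  set K : ℤ := ⌈|r| + 3⌉ * 3 with hK
  have hK1 : |r| + 3 ≤ (⌈|r| + 3⌉ : ℝ) := Int.le_ceil _
  have hK2 : (K:ℝ) = (⌈|r| + 3⌉ : ℝ) * 3 := by rw [hK]; push_cast; ring
  have hr0 := abs_nonneg r
  apply Set.Finite.subset (((Set.finite_Icc (-K) K).prod (Set.finite_Icc (-K) K)).image
    (fun p : ℤ × ℤ => (p.1:ℝ) + p.2 * gold))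
  rintro x ⟨⟨a, b, rfl, hc⟩, hx1, hx2⟩
  have hg1 := gold_gt
  have hg2 := gold_lt
  rw [gold_sq, abs_lt] at hc
  have hra := le_abs_self r
  have hb1 : (b:ℝ) * (2 * gold - 1) < |r| + 3 := by nlinarith
  have hb2 : -(|r| + 3) < (b:ℝ) * (2 * gold - 1) := by nlinarith
  have hp : 0 < 2 * gold - 1 := by linarith
  have hb3 : (b:ℝ) ≤ |r| + 3 := by
    by_contra hcon
    push Not at hcon
    nlinarith
  have hb4 : -(|r| + 3) ≤ (b:ℝ) := by
    by_contra hcon
    push Not at hcon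
    nlinarith
  have ha1 : (a:ℝ) ≤ (|r| + 3) * 3 := by nlinarith
  have ha2 : -((|r| + 3) * 3) ≤ (a:ℝ) := by nlinarith
  refine ⟨(a, b), ⟨⟨?_, ?_⟩, ⟨?_, ?_⟩⟩, rfl⟩
  · have : ((-K:ℤ):ℝ) ≤ a := by push_cast; rw [hK2]; linarith
    exact_mod_cast this
  · have : (a:ℝ) ≤ K := by rw [hK2]; linarith
    exact_mod_cast this
  · have : ((-K:ℤ):ℝ) ≤ b := by push_cast; rw [hK2]; linarith
    exact_mod_cast this
  · have : (b:ℝ) ≤ K := by rw [hK2]; linarith
    exact_mod_cast this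

/-- the points of the strip of absolute value at most `r` -/
noncomputable def B (r : ℝ) : Finset ℝ := (Z_fin r).toFinset

theorem mem_B {r x : ℝ} : x ∈ B r ↔ x ∈ Z ∧ |x| ≤ r := by
  unfold B
  rw [Set.Finite.mem_toFinset, Set.mem_inter_iff, Set.mem_Icc, abs_le]

theorem B_mono {r s : ℝ} (h : r ≤ s) : B r ⊆ B s := by
  intro x hx
  rw [mem_B] at hx ⊢
  exact ⟨hx.1, hx.2.trans h⟩

noncomputable def W (r : ℝ) : ℝ := ∑ x ∈ B r, mu x

theorem W_mono {r s : ℝ} (h : r ≤ s) : W r ≤ W s := by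
  unfold W
  exact Finset.sum_le_sum_of_subset_of_nonneg (B_mono h) (fun x _ _ => mu_nonneg x)

theorem W_pos {r : ℝ} (h : 0 ≤ r) : mu 0 ≤ W r := by
  unfold W
  apply Finset.single_le_sum (f := mu) (fun x _ => mu_nonneg x)
  rw [mem_B]
  exact ⟨Z_zero, by simpa using h⟩

/-- truncations -/
noncomputable def tr (r : ℝ) (F : ℝ → ℝ) : ℝ → ℝ := fun y => if |y| ≤ r then F y else 0

theorem tr_off {r : ℝ} (F : ℝ → ℝ) {z : ℝ} (hz : z ∈ Z) (h : z ∉ B r) : tr r F z = 0 := by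
  unfold tr
  rw [if_neg]
  intro h1
  exact h (mem_B.mpr ⟨hz, h1⟩)

theorem T_tr_off (m : ℕ) {r C : ℝ} (hr : r ≤ C * gold ^ m) (F : ℝ → ℝ) {z : ℝ} (hz : z ∈ Z)
    (h : z ∉ B (C + 2)) : (T ^ m) (tr r F) z = 0 := by
  have h1 : C + 2 < |z| := by
    by_contra hcon
    push Not at hcon
    exact h (mem_B.mpr ⟨hz, hcon⟩)
  have hg := gold_pos
  have hg2 := gold_lt
  have hm := pow_pos hg m
  rw [T_local m (tr r F) 0 z]
  · simp
  · intro w hw
    unfold tr
    rw [if_neg, Pi.zero_apply]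
    intro hwr
    have h2 : |gold ^ m * z| ≤ |w| + |w - gold ^ m * z| := by
      have := abs_sub_abs_le_abs_sub (gold ^ m * z) w
      rw [abs_sub_comm (gold ^ m * z) w] at this
      linarith
    rw [abs_mul, abs_of_pos hm] at h2
    have h3 : gold ^ (m+1) = gold ^ m * gold := pow_succ _ _
    have h4 : gold ^ m * (C + 2) < gold ^ m * |z| := mul_lt_mul_of_pos_left h1 hm
    nlinarith

theorem T_tr_in (m : ℕ) {r C : ℝ} (hr : C * gold ^ m - 1 ≤ r) (F : ℝ → ℝ) {z : ℝ}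
    (h : |z| ≤ C - 3) : (T ^ m) (tr r F) z = (T ^ m) F z := by
  have hg := gold_pos
  have hg2 := gold_lt
  have hg1 := gold_gt
  have hm := pow_pos hg m
  have hm1 : 1 ≤ gold ^ m := one_le_pow₀ (by linarith)
  apply T_local m
  intro w hw
  unfold tr
  rw [if_pos]
  have h2 : |w| ≤ |gold ^ m * z| + |w - gold ^ m * z| := by
    have := abs_sub_abs_le_abs_sub w (gold ^ m * z)
    linarith
  rw [abs_mul, abs_of_pos hm] at h2
  have h3 : gold ^ (m+1) = gold ^ m * gold := pow_succ _ _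
  have h4 : gold ^ m * |z| ≤ gold ^ m * (C - 3) := mul_le_mul_of_nonneg_left h hm.le
  nlinarith

theorem W_tr (r : ℝ) : ∑ x ∈ B r, tr r (fun _ => (1:ℝ)) x * mu x = W r := by
  unfold W
  apply Finset.sum_congr rfl
  intro x hx
  unfold tr
  rw [if_pos (mem_B.mp hx).2, one_mul]

theorem W_upper (m : ℕ) {r C : ℝ} (hr : r ≤ C * gold ^ m) : lam ^ m * W r ≤ 4 ^ m * W (C + 2) := by
  rw [← W_tr r, self_sim m (tr r (fun _ => (1:ℝ))) (B r) (B (C+2)) (fun z hz h => tr_off _ hz h)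
    (fun z hz h => T_tr_off m hr _ hz h)]
  unfold W
  rw [Finset.mul_sum]
  apply Finset.sum_le_sum
  intro x _
  apply mul_le_mul_of_nonneg_right _ (mu_nonneg x)
  apply T_le
  intro z
  unfold tr
  split_ifs <;> norm_num

/-- trace: powers of the golden mean times points of the strip are nearly integers -/
theorem near_int (m : ℕ) (a b : ℤ) : ∃ k : ℤ, gold ^ m * ((a:ℝ) + b * gold) + (1 - gold) ^ m * ((a:ℝ) + b * (1 - gold)) = k := by
  induction m generalizing a b with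
  | zero => exact ⟨2 * a + b, by push_cast; ring⟩
  | succ m ih =>
    obtain ⟨k, hk⟩ := ih b (a + b)
    refine ⟨k, ?_⟩
    rw [← hk, pow_succ, pow_succ]
    push_cast
    have h := gold_sq
    linear_combination (gold ^ m * b + (1 - gold) ^ m * b) * h

theorem cos_near (m : ℕ) {y : ℝ} (hy : y ∈ Z) :
    1 - (2 * Real.pi * ((gold - 1) ^ m * (gold * gold))) ^ 2 / 2 ≤ Real.cos (2 * Real.pi * gold ^ m * y) := by
  obtain ⟨a, b, rfl, hc⟩ := hy
  obtain ⟨k, hk⟩ := near_int m a b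
  have hg1 := gold_gt
  have e : 2 * Real.pi * gold ^ m * ((a:ℝ) + b * gold) =
      -(2 * Real.pi * ((1 - gold) ^ m * ((a:ℝ) + b * (1 - gold)))) + k * (2 * Real.pi) := by
    rw [← hk]; ring
  rw [e, Real.cos_add_int_mul_two_pi, Real.cos_neg]
  have h1 := Real.one_sub_sq_div_two_le_cos (x := 2 * Real.pi * ((1 - gold) ^ m * ((a:ℝ) + b * (1 - gold))))
  have h2 : (2 * Real.pi * ((1 - gold) ^ m * ((a:ℝ) + b * (1 - gold)))) ^ 2 ≤
      (2 * Real.pi * ((gold - 1) ^ m * (gold * gold))) ^ 2 := by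
    rw [sq_le_sq, abs_mul, abs_mul (2 * Real.pi), abs_mul ((1 - gold) ^ m), abs_pow, one_sub_gold_abs]
    apply mul_le_mul_of_nonneg_left _ (abs_nonneg _)
    rw [abs_mul ((gold - 1)^m), abs_of_nonneg (pow_nonneg (by linarith : 0 ≤ gold - 1) m),
      abs_of_pos (mul_pos gold_pos gold_pos)]
    exact mul_le_mul_of_nonneg_left hc.le (pow_nonneg (by linarith) m)
  linarith

/-- the factors of the product -/
noncomputable def fac (j : ℕ) : ℝ := (1 + Real.cos (2 * Real.pi * gold ^ j)) / 2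

theorem fac_le (j : ℕ) : fac j ≤ 1 := by
  unfold fac
  have := Real.cos_le_one (2 * Real.pi * gold ^ j)
  linarith

theorem fac_nonneg (j : ℕ) : 0 ≤ fac j := by
  unfold fac
  have := Real.neg_one_le_cos (2 * Real.pi * gold ^ j)
  linarith

theorem gold_pow_rep (j : ℕ) : ∃ a b : ℤ, gold ^ j = a + b * gold := by
  induction j with
  | zero => exact ⟨1, 0, by simp⟩
  | succ j ih =>
    obtain ⟨a, b, h⟩ := ih
    refine ⟨b, a + b, ?_⟩
    rw [pow_succ, h]
    push_cast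
    linear_combination (b:ℝ) * gold_sq

theorem fac_pos (j : ℕ) : 0 < fac j := by
  rcases (fac_nonneg j).lt_or_eq with h | h
  · exact h
  · exfalso
    have h1 : Real.cos (2 * Real.pi * gold ^ j) = -1 := by unfold fac at h; linarith
    rw [Real.cos_eq_neg_one_iff] at h1
    obtain ⟨k, hk⟩ := h1
    obtain ⟨a, b, hab⟩ := gold_pow_rep j
    have hpi := Real.pi_pos
    have h2 : (1:ℝ) + 2 * k = 2 * (a + b * gold) := by
      rw [← hab]
      have : Real.pi * (1 + 2 * k) = Real.pi * (2 * gold ^ j) := by linarith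
      exact mul_left_cancel₀ hpi.ne' this
    have h3 : (((1 + 2 * k : ℤ)) : ℝ) + (0:ℤ) * gold = ((2 * a : ℤ):ℝ) + (2 * b : ℤ) * gold := by
      push_cast; linarith
    have h4 := gold_uniq h3
    omega

theorem gold_sub_sq : (gold - 1) * (gold - 1) ≤ 0.39 := by
  have h1 := gold_gt
  have h2 := gold_lt
  nlinarith

theorem fac_ge (j : ℕ) : 1 - 10 * 0.39 ^ j ≤ fac j := by
  unfold fac
  obtain ⟨k, hk⟩ := near_int j 1 0
  have hg1 := gold_gt
  have e : 2 * Real.pi * gold ^ j = -(2 * Real.pi * (1 - gold) ^ j) + k * (2 * Real.pi) := by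
    rw [← hk]; push_cast; ring
  rw [e, Real.cos_add_int_mul_two_pi, Real.cos_neg]
  have h1 := Real.one_sub_sq_div_two_le_cos (x := 2 * Real.pi * (1 - gold) ^ j)
  have h2 : (2 * Real.pi * (1 - gold) ^ j) ^ 2 = 4 * Real.pi ^ 2 * ((gold - 1) * (gold - 1)) ^ j := by
    have : ((gold - 1) * (gold - 1)) ^ j = (1 - gold) ^ j * (1 - gold) ^ j := by
      rw [← mul_pow]; congr 1; ring
    rw [this]; ring
  have h3 : ((gold - 1) * (gold - 1)) ^ j ≤ 0.39 ^ j :=
    pow_le_pow_left₀ (mul_self_nonneg _) gold_sub_sq j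
  have hpi : Real.pi ^ 2 ≤ 10 := by
    have h := Real.pi_lt_d2
    have h0 := Real.pi_pos
    nlinarith
  have h4 : Real.pi ^ 2 * ((gold - 1) * (gold - 1)) ^ j ≤ 10 * 0.39 ^ j :=
    mul_le_mul hpi h3 (pow_nonneg (mul_self_nonneg _) j) (by norm_num)
  rw [h2] at h1
  linarith

noncomputable def P (m : ℕ) : ℝ := ∏ j ∈ Finset.range m, fac j

theorem P_tail (m : ℕ) : 1/2 + 1/2 * 0.39 ^ m ≤ ∏ j ∈ Finset.range m, fac (6 + j) := by
  induction m with
  | zero => norm_num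
  | succ m ih =>
    rw [Finset.prod_range_succ]
    have h1 := fac_ge (6 + m)
    have hq : (0:ℝ) < 0.39 ^ m := by positivity
    have hq1 : (0.39:ℝ) ^ m ≤ 1 := pow_le_one₀ (by norm_num) (by norm_num)
    have e1 : (0.39:ℝ) ^ (6 + m) = 0.39 ^ 6 * 0.39 ^ m := pow_add _ _ _
    have e2 : (0.39:ℝ) ^ (m+1) = 0.39 ^ m * 0.39 := pow_succ _ _
    have e3 : (0.39:ℝ)^6 ≤ 0.0036 := by norm_num
    rw [e1] at h1
    rw [e2]
    set q := (0.39:ℝ) ^ m with hqd
    have h2 : 1 - 0.036 * q ≤ fac (6 + m) := by nlinarith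
    have h3 : 0 ≤ 1 - 0.036 * q := by nlinarith
    calc 1/2 + 1/2 * (q * 0.39) ≤ (1/2 + 1/2 * q) * (1 - 0.036 * q) := by nlinarith
      _ ≤ (∏ j ∈ Finset.range m, fac (6 + j)) * fac (6 + m) :=
        mul_le_mul ih h2 h3 (Finset.prod_nonneg (fun j _ => fac_nonneg _))

theorem P_pos (m : ℕ) : 0 < P m := Finset.prod_pos (fun j _ => fac_pos j)

theorem P_anti (m k : ℕ) : P (m + k) ≤ P m := by
  unfold P
  rw [Finset.prod_range_add]
  apply mul_le_of_le_one_right (Finset.prod_nonneg (fun j _ => fac_nonneg j))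
  exact Finset.prod_le_one (fun j _ => fac_nonneg _) (fun j _ => fac_le _)

noncomputable def c0 : ℝ := P 6 / 2

theorem c0_pos : 0 < c0 := by unfold c0; linarith [P_pos 6]

theorem c0_le : c0 ≤ 1 / 2 := by
  unfold c0
  have : P 6 ≤ P 0 := by have := P_anti 0 6; simpa using this
  have h0 : P 0 = 1 := by unfold P; simp
  linarith

theorem c0_le_P (m : ℕ) : c0 ≤ P m := by
  have h1 : P (m + 6) ≤ P m := P_anti m 6
  have h2 : P (6 + m) = P 6 * ∏ j ∈ Finset.range m, fac (6 + j) := by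
    unfold P; rw [Finset.prod_range_add]
  have h3 := P_tail m
  have h4 : (0:ℝ) ≤ 0.39 ^ m := by positivity
  rw [add_comm] at h1
  rw [h2] at h1
  unfold c0
  have := P_pos 6
  nlinarith

theorem prod_eq (m : ℕ) : (∏ j ∈ Finset.range m, (2 + 2 * Real.cos (2 * Real.pi * 1 * gold ^ j))) = 4 ^ m * P m := by
  unfold P fac
  rw [← Finset.card_range m, ← Finset.prod_const, Finset.card_range, ← Finset.prod_mul_distrib]
  apply Finset.prod_congr rfl
  intro j _
  rw [mul_one]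
  ring

noncomputable def cs : ℝ → ℝ := fun z => Real.cos (2 * Real.pi * z)

theorem T_cs (m : ℕ) (y : ℝ) : (T ^ m) cs y = 4 ^ m * P m * Real.cos (2 * Real.pi * gold ^ m * y) := by
  have h := T_cos m 1 y
  rw [prod_eq] at h
  simp only [mul_one] at h
  exact h

/-- the cosine sum -/
noncomputable def S (r : ℝ) : ℝ := ∑ x ∈ B r, cs x * mu x

theorem S_tr (r : ℝ) : ∑ x ∈ B r, tr r cs x * mu x = S r := by
  unfold S
  apply Finset.sum_congr rfl
  intro x hx
  unfold tr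
  rw [if_pos (mem_B.mp hx).2]

theorem S_lower (m : ℕ) {r C : ℝ} (hr : r ≤ C * gold ^ m) (hr' : C * gold ^ m - 1 ≤ r)
    (hm : (2 * Real.pi * ((gold - 1) ^ m * (gold * gold))) ^ 2 / 2 ≤ 1/4)
    (hW : W (C + 2) ≤ (1 + c0 / 4) * W (C - 3)) (hC : 3 ≤ C) :
    c0 / 4 * W r ≤ S r := by
  have hlm : 0 < lam ^ m := pow_pos lam_pos m
  have key : 4 ^ m * (c0 / 4 * W (C + 2)) ≤ lam ^ m * S r := by
    rw [← S_tr r, self_sim m (tr r cs) (B r) (B (C+2)) (fun z hz h => tr_off _ hz h)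
      (fun z hz h => T_tr_off m hr _ hz h)]
    have hsub : B (C - 3) ⊆ B (C + 2) := B_mono (by linarith)
    rw [← Finset.sum_sdiff hsub]
    have h1 : -(4 ^ m * (W (C + 2) - W (C - 3))) ≤ ∑ x ∈ B (C+2) \ B (C - 3), (T ^ m) (tr r cs) x * mu x := by
      have e : W (C + 2) - W (C - 3) = ∑ x ∈ B (C+2) \ B (C-3), mu x := by
        unfold W
        rw [← Finset.sum_sdiff hsub]; ring
      rw [e, Finset.mul_sum, ← Finset.sum_neg_distrib]
      apply Finset.sum_le_sum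
      intro x _
      rw [← neg_mul]
      apply mul_le_mul_of_nonneg_right _ (mu_nonneg x)
      apply T_ge
      intro z
      unfold tr cs
      split_ifs
      · exact Real.neg_one_le_cos _
      · norm_num
    have h2 : 4 ^ m * (c0 * (3/4) * W (C - 3)) ≤ ∑ x ∈ B (C - 3), (T ^ m) (tr r cs) x * mu x := by
      unfold W
      rw [Finset.mul_sum, Finset.mul_sum]
      apply Finset.sum_le_sum
      intro x hx
      rw [mem_B] at hx
      rw [T_tr_in m hr' cs hx.2, T_cs]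
      have h3 := cos_near m hx.1
      have h4 := c0_le_P m
      have h5 := mu_nonneg x
      have h6 : (3/4 : ℝ) ≤ Real.cos (2 * Real.pi * gold ^ m * x) := by linarith
      have h7 : c0 * (3/4) ≤ P m * Real.cos (2 * Real.pi * gold ^ m * x) :=
        mul_le_mul h4 h6 (by norm_num) (P_pos m).le
      have h8 : (0:ℝ) < 4 ^ m := by positivity
      have h9 := mul_le_mul_of_nonneg_right h7 h5
      have h10 := mul_le_mul_of_nonneg_left h9 h8.le
      linarith
    have h4 : (0:ℝ) < 4 ^ m := by positivity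
    have hc := c0_pos
    have hc1 := c0_le
    have hWp : 0 ≤ W (C - 3) := by
      have := W_pos (r := C - 3) (by linarith)
      have := mu_zero_pos
      linarith
    have h5 : c0 / 4 * W (C + 2) ≤ c0 * (3/4) * W (C - 3) - (W (C + 2) - W (C - 3)) := by
      have h6 : (1 + c0 / 4) * W (C + 2) ≤ (1 + c0 / 4) * ((1 + c0 / 4) * W (C - 3)) :=
        mul_le_mul_of_nonneg_left hW (by linarith)
      have h7 : 0 ≤ c0 * W (C - 3) := mul_nonneg hc.le hWp
      have h8 : c0 * (c0 * W (C - 3)) ≤ 1 / 2 * (c0 * W (C - 3)) := mul_le_mul_of_nonneg_right hc1 h7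
      nlinarith
    have h6 := mul_le_mul_of_nonneg_left h5 h4.le
    linarith
  have hup := W_upper m hr
  have h2 : lam ^ m * (c0 / 4 * W r) ≤ lam ^ m * S r := by
    have h3 := mul_le_mul_of_nonneg_left hup (by linarith [c0_pos] : 0 ≤ c0 / 4)
    linarith
  exact le_of_mul_le_mul_left h2 hlm

/-- polynomial growth of `W` excludes uniform multiplicative growth -/
theorem exists_C : ∃ C : ℝ, 3 ≤ C ∧ W (C + 2) ≤ (1 + c0 / 4) * W (C - 3) := by
  by_contra hcon
  push Not at hcon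
  have hc := c0_pos
  have hmu := mu_zero_pos
  have h1 : ∀ k : ℕ, (1 + c0 / 4) ^ k * mu 0 ≤ W (5 * k) := by
    intro k
    induction k with
    | zero => simpa using W_pos (le_refl (0:ℝ))
    | succ k ih =>
      have hk : (0:ℝ) ≤ 5 * k := by positivity
      have h2 := hcon (5 * k + 3) (by linarith)
      have e1 : (5 * (k:ℝ) + 3 - 3) = 5 * k := by ring
      have e2 : (5 * (k:ℝ) + 3 + 2) = 5 * ((k+1 : ℕ):ℝ) := by push_cast; ring
      rw [e1, e2] at h2
      rw [pow_succ]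
      have h3 := mul_le_mul_of_nonneg_left ih (by linarith : 0 ≤ 1 + c0 / 4)
      linarith
  obtain ⟨K, hK⟩ := pow_unbounded_of_one_lt 8 (by linarith : 1 < 1 + c0 / 4)
  have hg := gold_gt
  have t1 : Tendsto (fun m : ℕ => (m:ℝ) ^ 1 / gold ^ m) atTop (nhds 0) :=
    tendsto_pow_const_div_const_pow_of_one_lt 1 (by linarith)
  have hK0 : (0:ℝ) < 1 / (5 * (K + 1)) := by positivity
  have ev1 := t1.eventually (eventually_lt_nhds hK0)
  obtain ⟨M, hM⟩ := pow_unbounded_of_one_lt (W 3 / mu 0) (by norm_num : (1:ℝ) < 2)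
  obtain ⟨m, hm1, hm2⟩ := (ev1.and (eventually_ge_atTop M)).exists
  rw [pow_one, div_lt_div_iff₀ (pow_pos gold_pos m) (by positivity)] at hm1
  have hmm : (5 * ((K * m : ℕ):ℝ)) ≤ 1 * gold ^ m := by
    push_cast
    have : (0:ℝ) ≤ m := by positivity
    linarith
  have h2 := h1 (K * m)
  have h3 := W_mono hmm
  have h4 := W_upper m (le_refl (1 * gold ^ m))
  have h5 : (1:ℝ) ≤ lam ^ m := one_le_pow₀ (by linarith [lam_gt])
  have h6 : W (1 * gold ^ m) ≤ 4 ^ m * W (1 + 2) := by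
    have h0 : 0 ≤ W (1 * gold ^ m) := by
      have := W_pos (r := 1 * gold ^ m) (by have := pow_pos gold_pos m; linarith)
      linarith
    nlinarith
  have e3 : (1:ℝ) + 2 = 3 := by norm_num
  rw [e3] at h6
  have h7 : (8:ℝ) ^ m ≤ (1 + c0 / 4) ^ (K * m) := by
    rw [pow_mul]
    exact pow_le_pow_left₀ (by norm_num) hK.le m
  have h8 : (2:ℝ) ^ M ≤ 2 ^ m := pow_le_pow_right₀ (by norm_num) hm2
  have h9 : W 3 < 2 ^ m * mu 0 := by
    have : W 3 / mu 0 < 2 ^ m := lt_of_lt_of_le hM h8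
    rwa [div_lt_iff₀ hmu] at this
  have h10 : (8:ℝ)^m = 4^m * 2^m := by rw [← mul_pow]; norm_num
  have h11 : (8:ℝ) ^ m * mu 0 ≤ (1 + c0 / 4) ^ (K * m) * mu 0 := mul_le_mul_of_nonneg_right h7 hmu.le
  have h12 : (0:ℝ) < 4^m := by positivity
  have h13 := mul_lt_mul_of_pos_left h9 h12
  rw [h10] at h11
  linarith

/-- the main inequality, along infinitely many lengths -/
theorem main_ineq : ∃ᶠ n : ℕ in atTop, c0 / 4 * W n ≤ S n := by
  obtain ⟨C, hC, hW⟩ := exists_C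
  have hg := gold_gt
  have hg2 := gold_lt
  rw [frequently_atTop]
  intro N0
  have t1 : Tendsto (fun m : ℕ => gold ^ m) atTop atTop :=
    tendsto_pow_atTop_atTop_of_one_lt (by linarith)
  have ev1 := t1.eventually (eventually_ge_atTop ((N0:ℝ) + 1))
  have t2 : Tendsto (fun m : ℕ => (2 * Real.pi * ((gold - 1) ^ m * (gold * gold))) ^ 2 / 2) atTop (nhds ((2 * Real.pi * (0 * (gold * gold))) ^ 2 / 2)) := by
    refine (((Tendsto.mul_const _ ?_).const_mul _).pow 2).div_const 2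
    exact tendsto_pow_atTop_nhds_zero_of_lt_one (by linarith) (by linarith)
  have e0 : (2 * Real.pi * (0 * (gold * gold))) ^ 2 / 2 = 0 := by ring
  rw [e0] at t2
  have ev2 := t2.eventually (eventually_le_nhds (by norm_num : (0:ℝ) < 1/4))
  obtain ⟨m, hm1, hm2⟩ := (ev1.and ev2).exists
  have hpos : 0 ≤ C * gold ^ m := mul_nonneg (by linarith) (pow_pos gold_pos m).le
  refine ⟨⌊C * gold ^ m⌋₊, ?_, ?_⟩
  · apply Nat.le_floor
    have : gold ^ m ≤ C * gold ^ m := le_mul_of_one_le_left (pow_pos gold_pos m).le (by linarith)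
    linarith
  · have h1 : (⌊C * gold ^ m⌋₊ : ℝ) ≤ C * gold ^ m := Nat.floor_le hpos
    have h2 : C * gold ^ m < (⌊C * gold ^ m⌋₊ : ℝ) + 1 := Nat.lt_floor_add_one _
    exact S_lower m h1 (by linarith) hm2 hW hC

end Pool.Agent.Helper45.Golden
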