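import Mathlib

set_option autoImplicit false

namespace Pool.Agent.Helper45.Golden

open Filter

/-- the golden mean -/
noncomputable def gold : ℝ := (1 + Real.sqrt 5) / 2

theorem gold_sq : gold * gold = gold + 1 := by
  have h := Real.goldenRatio_sq
  rw [sq] at h
  exact h

theorem gold_irr : Irrational gold := Real.goldenRatio_irrational

theorem gold_gt : 1.618 < gold := by
  have h : (2.236 : ℝ) < Real.sqrt 5 := by
    rw [show (2.236:ℝ) = Real.sqrt (2.236^2) by rw [Real.sqrt_sq]; norm_num]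
    apply Real.sqrt_lt_sqrt <;> norm_num
  unfold gold
  linarith

theorem gold_lt : gold < 1.6185 := by
  have h : Real.sqrt 5 < (2.237 : ℝ) := by
    rw [show (2.237:ℝ) = Real.sqrt (2.237^2) by rw [Real.sqrt_sq]; norm_num]
    apply Real.sqrt_lt_sqrt <;> norm_num
  unfold gold
  linarith

theorem gold_pos : 0 < gold := by have := gold_gt; linarith

theorem gold_uniq {a b c d : ℤ} (h : (a:ℝ) + b * gold = c + d * gold) : a = c ∧ b = d := by
  by_cases hb : b = d
  · refine ⟨?_, hb⟩
    rw [hb] at h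
    have : (a:ℝ) = c := by linarith
    exact_mod_cast this
  · exfalso
    have hne : ((b:ℝ) - d) ≠ 0 := by
      intro h0
      apply hb
      have : (b:ℝ) = d := by linarith
      exact_mod_cast this
    have h1 : gold = ((c:ℝ) - a) / (b - d) := by
      rw [eq_div_iff hne]; linarith
    have h2 := gold_irr
    apply h2
    refine ⟨((c:ℚ) - a) / (b - d), ?_⟩
    rw [h1]
    push_cast
    rfl

/-- the transfer operator of the digit differences -/
noncomputable def T : (ℝ → ℝ) →ₗ[ℝ] (ℝ → ℝ) where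
  toFun F := fun y => 2 * F (gold * y) + F (gold * y + 1) + F (gold * y - 1)
  map_add' F G := by funext y; simp only [Pi.add_apply]; ring
  map_smul' c F := by funext y; simp only [Pi.smul_apply, smul_eq_mul, RingHom.id_apply]; ring

theorem T_apply (F : ℝ → ℝ) (y : ℝ) :
    T F y = 2 * F (gold * y) + F (gold * y + 1) + F (gold * y - 1) := rfl

theorem Tpow_zero (F : ℝ → ℝ) : (T ^ 0) F = F := by simp

theorem Tpow_succ (m : ℕ) (F : ℝ → ℝ) : (T ^ (m+1)) F = T ((T ^ m) F) := by
  rw [pow_succ']; rfl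

theorem Tpow_succ' (m : ℕ) (F : ℝ → ℝ) : (T ^ (m+1)) F = (T ^ m) (T F) := by
  rw [pow_succ]; rfl

theorem Tpow_add (n m : ℕ) (F : ℝ → ℝ) : (T ^ (n+m)) F = (T ^ n) ((T ^ m) F) := by
  rw [pow_add]; rfl

/-- locality in distance -/
theorem T_local (m : ℕ) : ∀ (F G : ℝ → ℝ) (y : ℝ),
    (∀ z, |z - gold ^ m * y| ≤ gold ^ (m+1) - gold → F z = G z) → (T ^ m) F y = (T ^ m) G y := by
  induction m with
  | zero =>
    intro F G y h
    rw [Tpow_zero, Tpow_zero]
    apply h
    simp
  | succ m ih =>
    intro F G y h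
    have hg := gold_pos
    have hgs := gold_sq
    have key : ∀ d : ℝ, |d| ≤ 1 → (T ^ m) F (gold * y + d) = (T ^ m) G (gold * y + d) := by
      intro d hd
      apply ih
      intro z hz
      apply h
      have e : z - gold ^ (m+1) * y = (z - gold ^ m * (gold * y + d)) + gold ^ m * d := by ring
      rw [e]
      have h1 := abs_add_le (z - gold ^ m * (gold * y + d)) (gold ^ m * d)
      have h2 : |gold ^ m * d| ≤ gold ^ m := by
        rw [abs_mul, abs_of_pos (pow_pos hg m)]
        exact mul_le_of_le_one_right (pow_pos hg m).le hd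
      have h3 : gold ^ (m+1+1) = gold ^ (m+1) + gold ^ m := by
        have : gold ^ (m+1+1) = gold ^ m * (gold * gold) := by ring
        rw [this, hgs]; ring
      rw [h3]
      linarith
    rw [Tpow_succ, Tpow_succ, T_apply, T_apply]
    have k0 := key 0 (by simp)
    have k1 := key 1 (by simp)
    have k2 := key (-1) (by simp)
    rw [add_zero] at k0
    rw [← sub_eq_add_neg] at k2
    rw [k0, k1, k2]

theorem T_mono (m : ℕ) : ∀ (F G : ℝ → ℝ), (∀ z, F z ≤ G z) → ∀ y, (T ^ m) F y ≤ (T ^ m) G y := by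
  induction m with
  | zero => intro F G h y; rw [Tpow_zero, Tpow_zero]; exact h y
  | succ m ih =>
    intro F G h y
    rw [Tpow_succ, Tpow_succ, T_apply, T_apply]
    have h1 := ih F G h (gold * y)
    have h2 := ih F G h (gold * y + 1)
    have h3 := ih F G h (gold * y - 1)
    linarith

theorem T_one (m : ℕ) : ∀ y, (T ^ m) (fun _ => (1:ℝ)) y = 4 ^ m := by
  induction m with
  | zero => intro y; rw [Tpow_zero]; simp
  | succ m ih =>
    intro y
    rw [Tpow_succ, T_apply, ih, ih, ih]
    ring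

theorem T_le (m : ℕ) (F : ℝ → ℝ) (h : ∀ z, F z ≤ 1) (y : ℝ) : (T ^ m) F y ≤ 4 ^ m := by
  rw [← T_one m y]
  exact T_mono m F _ h y

theorem T_ge (m : ℕ) (F : ℝ → ℝ) (h : ∀ z, -1 ≤ F z) (y : ℝ) : -4 ^ m ≤ (T ^ m) F y := by
  have h1 := T_le m (-F) (fun z => by simp only [Pi.neg_apply]; linarith [h z]) y
  rw [map_neg, Pi.neg_apply] at h1
  linarith

theorem T_nonneg (m : ℕ) (F : ℝ → ℝ) (h : ∀ z, 0 ≤ F z) (y : ℝ) : 0 ≤ (T ^ m) F y := by
  have h1 := T_mono m 0 F (fun z => by simpa using h z) y
  rw [map_zero, Pi.zero_apply] at h1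
  exact h1

/-- the action on cosines -/
theorem T_cos (m : ℕ) : ∀ (t y : ℝ), (T ^ m) (fun z => Real.cos (2 * Real.pi * t * z)) y
    = (∏ j ∈ Finset.range m, (2 + 2 * Real.cos (2 * Real.pi * t * gold ^ j))) *
        Real.cos (2 * Real.pi * t * gold ^ m * y) := by
  induction m with
  | zero => intro t y; rw [Tpow_zero]; simp
  | succ m ih =>
    intro t y
    rw [Tpow_succ']
    have e : T (fun z => Real.cos (2 * Real.pi * t * z)) =
        (2 + 2 * Real.cos (2 * Real.pi * t)) • (fun z => Real.cos (2 * Real.pi * (t * gold) * z)) := by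
      funext z
      rw [T_apply, Pi.smul_apply, smul_eq_mul]
      have e1 : 2 * Real.pi * t * (gold * z + 1) = 2 * Real.pi * (t * gold) * z + 2 * Real.pi * t := by ring
      have e2 : 2 * Real.pi * t * (gold * z - 1) = 2 * Real.pi * (t * gold) * z - 2 * Real.pi * t := by ring
      have e3 : 2 * Real.pi * t * (gold * z) = 2 * Real.pi * (t * gold) * z := by ring
      rw [e1, e2, e3, Real.cos_add, Real.cos_sub]
      ring
    rw [e, map_smul, Pi.smul_apply, smul_eq_mul, ih, Finset.prod_range_succ']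
    have e4 : ∀ j : ℕ, 2 * Real.pi * (t * gold) * gold ^ j = 2 * Real.pi * t * gold ^ (j+1) := by
      intro j; ring
    have e5 : 2 * Real.pi * (t * gold) * gold ^ m * y = 2 * Real.pi * t * gold ^ (m+1) * y := by ring
    rw [e5, Finset.prod_congr rfl (fun j _ => by rw [e4 j])]
    simp only [pow_zero, mul_one]
    ring

/-- the conjugate strip -/
def Z : Set ℝ := {x | ∃ a b : ℤ, x = a + b * gold ∧ |(a:ℝ) + b * (1 - gold)| < gold * gold}

theorem Z_zero : (0:ℝ) ∈ Z := by
  refine ⟨0, 0, by simp, ?_⟩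
  simp only [Int.cast_zero, zero_mul, add_zero, abs_zero]
  exact mul_pos gold_pos gold_pos

theorem Z_step {y : ℝ} (hy : y ∈ Z) (d : ℤ) (hd : |(d:ℝ)| ≤ 1) : gold * y + d ∈ Z := by
  obtain ⟨a, b, rfl, h⟩ := hy
  have hgs := gold_sq
  have hg1 := gold_gt
  refine ⟨b + d, a + b, ?_, ?_⟩
  · push_cast
    have : gold * ((a:ℝ) + b * gold) + d = a * gold + b * (gold * gold) + d := by ring
    rw [this, hgs]; ring
  · push_cast
    have e : (b:ℝ) + d + (a + b) * (1 - gold) = (1 - gold) * (a + b * (1 - gold)) + d := by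
      have : (1 - gold) * ((a:ℝ) + b * (1 - gold)) = a * (1 - gold) + b * (1 - 2 * gold + gold * gold) := by ring
      rw [this, hgs]; ring
    rw [e]
    have h1 := abs_add_le ((1 - gold) * ((a:ℝ) + b * (1 - gold))) d
    have h2 : |(1 - gold) * ((a:ℝ) + b * (1 - gold))| < (gold - 1) * (gold * gold) := by
      rw [abs_mul, show |1 - gold| = gold - 1 by rw [abs_sub_comm, abs_of_pos]; linarith]
      exact mul_lt_mul_of_pos_left h (by linarith)
    have h3 : (gold - 1) * (gold * gold) = gold * gold - 1 := by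
      have : (gold - 1) * (gold * gold) = gold * (gold * gold) - gold * gold := by ring
      rw [this, hgs]
      have : gold * (gold + 1) = gold * gold + gold := by ring
      rw [this, hgs]; ring
    linarith

theorem Z_local (m : ℕ) : ∀ (F G : ℝ → ℝ), (∀ z ∈ Z, F z = G z) → ∀ y ∈ Z, (T ^ m) F y = (T ^ m) G y := by
  induction m with
  | zero => intro F G h y hy; rw [Tpow_zero, Tpow_zero]; exact h y hy
  | succ m ih =>
    intro F G h y hy
    rw [Tpow_succ, Tpow_succ, T_apply, T_apply]
    have k0 := ih F G h _ (Z_step hy 0 (by simp))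
    have k1 := ih F G h _ (Z_step hy 1 (by simp))
    have k2 := ih F G h _ (Z_step hy (-1) (by simp))
    rw [Int.cast_zero, add_zero] at k0
    rw [Int.cast_one] at k1
    rw [Int.cast_neg, Int.cast_one, ← sub_eq_add_neg] at k2
    rw [k0, k1, k2]

/-- the delta function -/
noncomputable def dl (x : ℝ) : ℝ → ℝ := fun y => if y = x then 1 else 0

/-- the number of digit pairs, as a value of the operator -/
noncomputable def N (n : ℕ) (x : ℝ) : ℝ := (T ^ n) (dl x) 0

theorem T_dl (x : ℝ) : T (dl x) = (2:ℝ) • dl (x / gold) + dl ((x - 1) / gold) + dl ((x + 1) / gold) := by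
  have hg := gold_pos
  funext y
  rw [T_apply]
  simp only [dl, Pi.add_apply, Pi.smul_apply, smul_eq_mul]
  have e1 : (gold * y = x) ↔ (y = x / gold) := by rw [eq_div_iff hg.ne', mul_comm]
  have e2 : (gold * y + 1 = x) ↔ (y = (x - 1) / gold) := by
    rw [eq_div_iff hg.ne', mul_comm]; constructor <;> intro h <;> linarith
  have e3 : (gold * y - 1 = x) ↔ (y = (x + 1) / gold) := by
    rw [eq_div_iff hg.ne', mul_comm]; constructor <;> intro h <;> linarith
  simp only [e1, e2, e3]

theorem N_zero (x : ℝ) : N 0 x = if 0 = x then 1 else 0 := by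
  unfold N; rw [Tpow_zero]; rfl

theorem N_succ (n : ℕ) (x : ℝ) :
    N (n+1) x = 2 * N n (x / gold) + N n ((x - 1) / gold) + N n ((x + 1) / gold) := by
  unfold N
  rw [Tpow_succ', T_dl, map_add, map_add, map_smul]
  simp only [Pi.add_apply, Pi.smul_apply, smul_eq_mul]

theorem N_nonneg (n : ℕ) (x : ℝ) : 0 ≤ N n x := by
  unfold N
  apply T_nonneg
  intro z
  unfold dl
  split_ifs <;> norm_num

theorem N_off (n : ℕ) {x : ℝ} (hx : x ∉ Z) : N n x = 0 := by
  unfold N
  rw [Z_local n (dl x) 0 _ 0 Z_zero]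
  · simp
  · intro z hz
    unfold dl
    rw [if_neg]
    · rfl
    · rintro rfl; exact hx hz

theorem N_neg (n : ℕ) : ∀ x, N n (-x) = N n x := by
  induction n with
  | zero =>
    intro x
    rw [N_zero, N_zero]
    have : (0 = -x) ↔ (0 = x) := by constructor <;> intro h <;> linarith
    simp only [this]
  | succ n ih =>
    intro x
    rw [N_succ, N_succ]
    have e1 : -x / gold = -(x / gold) := by ring
    have e2 : (-x - 1) / gold = -((x + 1) / gold) := by ring
    have e3 : (-x + 1) / gold = -((x - 1) / gold) := by ring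
    rw [e1, e2, e3, ih, ih, ih]
    ring

/-- sums over a finite set -/
theorem T_finset (n : ℕ) (F : ℝ → ℝ) (s : Finset ℝ) (h : ∀ z ∈ Z, z ∉ s → F z = 0) :
    (T ^ n) F 0 = ∑ x ∈ s, F x * N n x := by
  have e : (T ^ n) F 0 = (T ^ n) (∑ x ∈ s, F x • dl x) 0 := by
    apply Z_local n _ _ _ 0 Z_zero
    intro z hz
    rw [Finset.sum_apply]
    simp only [Pi.smul_apply, dl, smul_eq_mul, mul_ite, mul_one, mul_zero]
    rw [Finset.sum_ite_eq]
    split_ifs with hs
    · rfl
    · exact h z hz hs
  rw [e, map_sum, Finset.sum_apply]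
  apply Finset.sum_congr rfl
  intro x _
  rw [map_smul, Pi.smul_apply, smul_eq_mul]
  rfl

end Pool.Agent.Helper45.Golden
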