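import Mathlib

open Filter Topology Set
open scoped RealInnerProductSpace

namespace Pool.Agent.Helper45.Kirchhoff

/-- Young-type domination of powers. -/
lemma rpow_le_eps_mul_add {q r : ℝ} (hq : 0 ≤ q) (hqr : q < r) {ε : ℝ} (hε : 0 < ε) :
    ∃ M : ℝ, 0 ≤ M ∧ ∀ x : ℝ, 0 ≤ x → x ^ q ≤ ε * x ^ r + M := by
  have h := tendsto_rpow_neg_atTop (y := r - q) (by linarith)
  have h2 : ∀ᶠ x : ℝ in atTop, x ^ (-(r - q)) < ε := h.eventually (gt_mem_nhds hε)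
  obtain ⟨X, hX⟩ := (h2.and (eventually_gt_atTop (0:ℝ))).exists_forall_of_atTop
  have hXpos : 0 < X := (hX X le_rfl).2
  refine ⟨X ^ q, by positivity, fun x hx => ?_⟩
  rcases le_total x X with h1 | h1
  · have : x ^ q ≤ X ^ q := Real.rpow_le_rpow hx h1 hq
    have h3 : 0 ≤ ε * x ^ r := by positivity
    linarith
  · obtain ⟨h4, h5⟩ := hX x h1
    have h6 : x ^ q = x ^ (-(r - q)) * x ^ r := by
      rw [← Real.rpow_add h5]; ring_nf
    have h7 : 0 ≤ X ^ q := by positivity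
    have h8 : 0 ≤ x ^ r := by positivity
    rw [h6]
    nlinarith

/-- The abstract data of a Kirchhoff type problem with a lower order superquadratic term. -/
structure Setup (H L : Type*) [NormedAddCommGroup H] [InnerProductSpace ℝ H] [CompleteSpace H]
    [NormedAddCommGroup L] [InnerProductSpace ℝ L] [CompleteSpace L] where
  ι : H →L[ℝ] L
  Φ : H → ℝ
  D : H → H
  p : ℝ
  c : ℝ
  a : ℝ
  b : ℝ
  hp2 : 2 < p
  hp4 : p < 4
  hc : 0 ≤ c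
  ha : 0 ≤ a
  hb : 0 < b
  Φ_nonneg : ∀ u, 0 ≤ Φ u
  Φ_le : ∀ u, Φ u ≤ c * ‖u‖ ^ p
  Φ_even : ∀ u, Φ (-u) = Φ u
  Φ_convex : ∀ u h, Φ u + ⟪D u, h⟫ ≤ Φ (u + h)
  D_lip : ∀ u w, ‖D u - D w‖ ≤ c * (‖u‖ ^ (p - 2) + ‖w‖ ^ (p - 2)) * ‖u - w‖
  compact' : ∀ R : ℝ, IsCompact (closure (ι '' Metric.closedBall 0 R))
  ψ₁ : H
  ψ₂ : H
  hψ₁ : ι ψ₁ ≠ 0
  hψ₂ : ι ψ₂ ≠ 0
  hψ : ⟪ι ψ₁, ι ψ₂⟫ = 0

variable {H L : Type*} [NormedAddCommGroup H] [InnerProductSpace ℝ H] [CompleteSpace H]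
    [NormedAddCommGroup L] [InnerProductSpace ℝ L] [CompleteSpace L]

namespace Setup

variable (S : Setup H L)

/-- The functional without the constant term. -/
noncomputable def F (lam : ℝ) (v : L) (u : H) : ℝ :=
  S.a / 2 * ‖u‖ ^ 2 + S.b / 4 * ‖u‖ ^ 4 - S.Φ u - lam / 2 * ‖S.ι u‖ ^ 2 + lam * ⟪S.ι u, v⟫

/-- The gradient of the functional. -/
noncomputable def G (lam : ℝ) (v : L) (u : H) : H :=
  (S.a + S.b * ‖u‖ ^ 2) • u - S.D u - lam • (ContinuousLinearMap.adjoint S.ι (S.ι u - v))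

lemma compact (u : ℕ → H) (R : ℝ) (hu : ∀ n, ‖u n‖ ≤ R) :
    ∃ (x : L) (φ : ℕ → ℕ), StrictMono φ ∧ Tendsto (fun n => S.ι (u (φ n))) atTop (𝓝 x) := by
  have h1 : ∀ n, S.ι (u n) ∈ closure (S.ι '' Metric.closedBall 0 R) := fun n =>
    subset_closure ⟨u n, by simpa using hu n, rfl⟩
  obtain ⟨x, -, φ, hφ, hx⟩ := (S.compact' R).tendsto_subseq h1
  exact ⟨x, φ, hφ, hx⟩

lemma continuous_D : Continuous S.D := by
  rw [continuous_iff_continuousAt]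
  intro u
  rw [ContinuousAt, tendsto_iff_norm_sub_tendsto_zero]
  have h1 : Tendsto (fun w => S.c * (‖w‖ ^ (S.p - 2) + ‖u‖ ^ (S.p - 2)) * ‖w - u‖) (𝓝 u) (𝓝 0) := by
    have : Continuous (fun w : H => S.c * (‖w‖ ^ (S.p - 2) + ‖u‖ ^ (S.p - 2)) * ‖w - u‖) := by
      have hp := S.hp2
      have h2 : Continuous (fun w : H => ‖w‖ ^ (S.p - 2)) :=
        continuous_norm.rpow_const (fun w => Or.inr (by linarith))
      fun_prop
    have h3 := this.tendsto u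
    simpa using h3
  exact squeeze_zero (fun w => norm_nonneg _) (fun w => S.D_lip w u) h1

lemma continuous_Φ : Continuous S.Φ := by
  rw [continuous_iff_continuousAt]
  intro u
  rw [ContinuousAt, tendsto_iff_norm_sub_tendsto_zero]
  have h1 : Tendsto (fun w => (‖S.D w‖ + ‖S.D u‖) * ‖w - u‖) (𝓝 u) (𝓝 0) := by
    have : Continuous (fun w => (‖S.D w‖ + ‖S.D u‖) * ‖w - u‖) := by
      have := S.continuous_D
      fun_prop
    have h3 := this.tendsto u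
    simpa using h3
  refine squeeze_zero (fun w => norm_nonneg _) (fun w => ?_) h1
  have h2 := S.Φ_convex u (w - u)
  have h3 := S.Φ_convex w (u - w)
  have e1 : u + (w - u) = w := by abel
  have e2 : w + (u - w) = u := by abel
  rw [e1] at h2
  rw [e2] at h3
  have h4 := abs_real_inner_le_norm (S.D u) (w - u)
  have h5 := abs_real_inner_le_norm (S.D w) (u - w)
  rw [norm_sub_rev u w] at h5
  rw [Real.norm_eq_abs, abs_le]
  have h6 := abs_le.1 h4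
  have h7 := abs_le.1 h5
  have h8 : 0 ≤ ‖S.D w‖ * ‖w - u‖ := by positivity
  have h9 : 0 ≤ ‖S.D u‖ * ‖w - u‖ := by positivity
  constructor <;> nlinarith

lemma continuous_F (lam : ℝ) (v : L) : Continuous (S.F lam v) := by
  unfold F
  have := S.continuous_Φ
  fun_prop

lemma continuous_F_right (lam : ℝ) (u : H) : Continuous (fun v => S.F lam v u) := by
  unfold F
  fun_prop

lemma continuous_G (lam : ℝ) (v : L) : Continuous (S.G lam v) := by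
  unfold G
  have := S.continuous_D
  fun_prop

lemma inner_G (lam : ℝ) (v : L) (u h : H) :
    ⟪S.G lam v u, h⟫ = (S.a + S.b * ‖u‖ ^ 2) * ⟪u, h⟫ - ⟪S.D u, h⟫ - lam * ⟪S.ι u - v, S.ι h⟫ := by
  unfold G
  rw [inner_sub_left, inner_sub_left, real_inner_smul_left, real_inner_smul_left,
    ContinuousLinearMap.adjoint_inner_left]

/-- Descent inequality. -/
lemma descent {lam : ℝ} (hlam : 0 ≤ lam) (v : L) (u h : H) :
    S.F lam v (u + h) ≤ S.F lam v u + ⟪S.G lam v u, h⟫ + S.a / 2 * ‖h‖ ^ 2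
      + S.b / 4 * (‖u + h‖ ^ 4 - ‖u‖ ^ 4 - 4 * ‖u‖ ^ 2 * ⟪u, h⟫) := by
  rw [inner_G]
  unfold F
  have h1 := S.Φ_convex u h
  have h2 : ‖u + h‖ ^ 2 = ‖u‖ ^ 2 + 2 * ⟪u, h⟫ + ‖h‖ ^ 2 := norm_add_sq_real u h
  have h3 : ‖S.ι (u + h)‖ ^ 2 = ‖S.ι u‖ ^ 2 + 2 * ⟪S.ι u, S.ι h⟫ + ‖S.ι h‖ ^ 2 := by
    rw [map_add]; exact norm_add_sq_real _ _
  have h4 : ⟪S.ι (u + h), v⟫ = ⟪S.ι u, v⟫ + ⟪S.ι h, v⟫ := by
    rw [map_add, inner_add_left]
  have h5 : ⟪S.ι u - v, S.ι h⟫ = ⟪S.ι u, S.ι h⟫ - ⟪S.ι h, v⟫ := by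
    rw [inner_sub_left, real_inner_comm v (S.ι h)]
  rw [h2, h3, h4, h5]
  have h6 : 0 ≤ lam * ‖S.ι h‖ ^ 2 := by positivity
  nlinarith

lemma norm_ι_le (u : H) : ‖S.ι u‖ ≤ ‖S.ι‖ * ‖u‖ := S.ι.le_opNorm u

lemma exists_R₀ : ∃ R₀ : ℝ, 1 ≤ R₀ ∧ ∀ x : ℝ, R₀ ≤ x →
    1 ≤ S.a + S.b * x ^ 2 - 2 * S.c * (x + 1) ^ (S.p - 2) := by
  have hb := S.hb
  have hc := S.hc
  have ha := S.ha
  have hε : 0 < S.b / (8 * (S.c + 1)) := by positivity
  obtain ⟨M, hM0, hM⟩ := rpow_le_eps_mul_add (q := S.p - 2) (r := 2) (by linarith [S.hp2])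
    (by linarith [S.hp4]) hε
  refine ⟨1 + (1 + S.b + 2 * S.c * M) * 2 / S.b, ?_, fun x hx => ?_⟩
  · have : 0 ≤ (1 + S.b + 2 * S.c * M) * 2 / S.b := by positivity
    linarith
  · have hx1 : 1 ≤ x := by
      have : 0 ≤ (1 + S.b + 2 * S.c * M) * 2 / S.b := by positivity
      linarith
    have h1 := hM (x + 1) (by linarith)
    rw [Real.rpow_two] at h1
    have h2 : 2 * S.c * (x + 1) ^ (S.p - 2) ≤
        2 * S.c * (S.b / (8 * (S.c + 1)) * (x + 1) ^ 2 + M) := by gcongr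
    have h3 : 2 * S.c * (S.b / (8 * (S.c + 1)) * (x + 1) ^ 2) ≤ S.b / 4 * (x + 1) ^ 2 := by
      have h4 : S.c / (S.c + 1) ≤ 1 := by
        rw [div_le_one (by linarith)]; linarith
      have h5 : 2 * S.c * (S.b / (8 * (S.c + 1)) * (x + 1) ^ 2)
          = (S.c / (S.c + 1)) * (S.b / 4 * (x + 1) ^ 2) := by
        field_simp; ring
      rw [h5]
      have : 0 ≤ S.b / 4 * (x + 1) ^ 2 := by positivity
      nlinarith
    have h6 : (1 + S.b + 2 * S.c * M) * 2 / S.b ≤ x := by linarith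
    rw [div_le_iff₀ hb] at h6
    have h7 : (x + 1) ^ 2 ≤ 2 * x ^ 2 + 2 := by nlinarith [sq_nonneg (x - 1)]
    have h8 : x * S.b ≤ x ^ 2 * S.b := by nlinarith
    nlinarith

/-- The key compactness lemma: outside a large ball, Palais-Smale sequences are compact. -/
lemma ps {R₀ : ℝ} (hR₀ : ∀ x : ℝ, R₀ ≤ x →
    1 ≤ S.a + S.b * x ^ 2 - 2 * S.c * (x + 1) ^ (S.p - 2)) (lam : ℝ) (v : L)
    (u : ℕ → H) (hlow : ∀ n, R₀ ≤ ‖u n‖) {R₁ : ℝ} (hup : ∀ n, ‖u n‖ ≤ R₁)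
    (hG : Tendsto (fun n => S.G lam v (u n)) atTop (𝓝 0)) :
    ∃ (x : H) (φ : ℕ → ℕ), StrictMono φ ∧ Tendsto (fun n => u (φ n)) atTop (𝓝 x) := by
  obtain ⟨y, φ₁, hφ₁, hy⟩ := S.compact u R₁ hup
  have hbd : ∀ n, (fun n => ‖u (φ₁ n)‖) n ∈ Icc 0 R₁ := fun n => ⟨norm_nonneg _, hup _⟩
  obtain ⟨r, -, φ₂, hφ₂, hr⟩ := isCompact_Icc.tendsto_subseq hbd
  set φ : ℕ → ℕ := fun n => φ₁ (φ₂ n) with hφdef
  have hφ : StrictMono φ := hφ₁.comp hφ₂
  set w : ℕ → H := fun n => u (φ n) with hw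
  have hnw : Tendsto (fun n => ‖w n‖) atTop (𝓝 r) := hr
  have hιw : Tendsto (fun n => S.ι (w n)) atTop (𝓝 y) := hy.comp hφ₂.tendsto_atTop
  have hGw : Tendsto (fun n => S.G lam v (w n)) atTop (𝓝 0) := hG.comp hφ.tendsto_atTop
  have hR₁ : 0 ≤ R₁ := le_trans (norm_nonneg _) (hup 0)
  have hcau : CauchySeq w := by
    rw [cauchySeq_iff_tendsto_dist_atTop_0]
    have e1 : Tendsto (fun n : ℕ × ℕ => dist (S.ι (w n.1)) (S.ι (w n.2))) atTop (𝓝 0) :=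
      cauchySeq_iff_tendsto_dist_atTop_0.1 hιw.cauchySeq
    have e2 : Tendsto (fun n : ℕ × ℕ => dist (‖w n.1‖ ^ 2) (‖w n.2‖ ^ 2)) atTop (𝓝 0) :=
      cauchySeq_iff_tendsto_dist_atTop_0.1 (hnw.pow 2).cauchySeq
    have e2' : Tendsto (fun n : ℕ × ℕ => dist (‖w n.1‖) (‖w n.2‖)) atTop (𝓝 0) :=
      cauchySeq_iff_tendsto_dist_atTop_0.1 hnw.cauchySeq
    have e3 : Tendsto (fun n : ℕ × ℕ => ‖S.G lam v (w n.1)‖) atTop (𝓝 0) := by
      have := hGw.norm.comp (tendsto_fst (f := (atTop : Filter ℕ)) (g := (atTop : Filter ℕ)))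
      rw [norm_zero] at this
      rw [← prod_atTop_atTop_eq]
      exact this
    have e4 : Tendsto (fun n : ℕ × ℕ => ‖S.G lam v (w n.2)‖) atTop (𝓝 0) := by
      have := hGw.norm.comp (tendsto_snd (f := (atTop : Filter ℕ)) (g := (atTop : Filter ℕ)))
      rw [norm_zero] at this
      rw [← prod_atTop_atTop_eq]
      exact this
    have e5 : Tendsto (fun n : ℕ × ℕ => 2 * R₁ * (‖S.G lam v (w n.1)‖ + ‖S.G lam v (w n.2)‖)
        + 2 * S.b * R₁ ^ 2 * dist (‖w n.1‖ ^ 2) (‖w n.2‖ ^ 2)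
        + |lam| * (dist (S.ι (w n.1)) (S.ι (w n.2))) ^ 2) atTop (𝓝 0) := by
      have h1 := ((e3.add e4).const_mul (2 * R₁)).add (e2.const_mul (2 * S.b * R₁ ^ 2))
      have h2 := h1.add ((e1.pow 2).const_mul |lam|)
      simpa using h2
    have e6 : ∀ᶠ n : ℕ × ℕ in atTop, dist (‖w n.1‖) (‖w n.2‖) < 1 :=
      e2'.eventually (gt_mem_nhds one_pos)
    have e7 : ∀ᶠ n : ℕ × ℕ in atTop, (dist (w n.1) (w n.2)) ^ 2 ≤
        2 * R₁ * (‖S.G lam v (w n.1)‖ + ‖S.G lam v (w n.2)‖)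
        + 2 * S.b * R₁ ^ 2 * dist (‖w n.1‖ ^ 2) (‖w n.2‖ ^ 2)
        + |lam| * (dist (S.ι (w n.1)) (S.ι (w n.2))) ^ 2 := by
      filter_upwards [e6] with n hn
      set x := w n.1 with hx
      set z := w n.2 with hz
      have hxl : R₀ ≤ ‖x‖ := hlow _
      have hxu : ‖x‖ ≤ R₁ := hup _
      have hzu : ‖z‖ ≤ R₁ := hup _
      have hzx : ‖z‖ ≤ ‖x‖ + 1 := by
        rw [Real.dist_eq, abs_lt] at hn
        linarith
      have k1 : ⟪S.G lam v x - S.G lam v z, x - z⟫ =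
          (S.a + S.b * ‖x‖ ^ 2) * ‖x - z‖ ^ 2 + S.b * (‖x‖ ^ 2 - ‖z‖ ^ 2) * ⟪z, x - z⟫
          - ⟪S.D x - S.D z, x - z⟫ - lam * ‖S.ι x - S.ι z‖ ^ 2 := by
        rw [inner_sub_left, inner_G, inner_G, ← real_inner_self_eq_norm_sq (x - z),
          ← real_inner_self_eq_norm_sq (S.ι x - S.ι z), map_sub]
        simp only [inner_sub_left, inner_sub_right]
        ring
      have k2 : ⟪S.G lam v x - S.G lam v z, x - z⟫ ≤
          2 * R₁ * (‖S.G lam v x‖ + ‖S.G lam v z‖) := by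
        have := real_inner_le_norm (S.G lam v x - S.G lam v z) (x - z)
        have h1 := norm_sub_le (S.G lam v x) (S.G lam v z)
        have h2 : ‖x - z‖ ≤ 2 * R₁ := by
          have := norm_sub_le x z
          linarith
        calc _ ≤ _ := this
          _ ≤ (‖S.G lam v x‖ + ‖S.G lam v z‖) * (2 * R₁) := by gcongr
          _ = _ := by ring
      have k3 : ⟪S.D x - S.D z, x - z⟫ ≤ 2 * S.c * (‖x‖ + 1) ^ (S.p - 2) * ‖x - z‖ ^ 2 := by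
        have h1 := real_inner_le_norm (S.D x - S.D z) (x - z)
        have h2 := S.D_lip x z
        have hp := S.hp2
        have h3 : ‖x‖ ^ (S.p - 2) ≤ (‖x‖ + 1) ^ (S.p - 2) :=
          Real.rpow_le_rpow (norm_nonneg _) (by linarith) (by linarith)
        have h4 : ‖z‖ ^ (S.p - 2) ≤ (‖x‖ + 1) ^ (S.p - 2) :=
          Real.rpow_le_rpow (norm_nonneg _) hzx (by linarith)
        have hc := S.hc
        calc _ ≤ _ := h1
          _ ≤ (S.c * (‖x‖ ^ (S.p - 2) + ‖z‖ ^ (S.p - 2)) * ‖x - z‖) * ‖x - z‖ := by gcongr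
          _ ≤ (S.c * ((‖x‖ + 1) ^ (S.p - 2) + (‖x‖ + 1) ^ (S.p - 2)) * ‖x - z‖) * ‖x - z‖ := by
              gcongr
          _ = _ := by ring
      have k4 : |S.b * (‖x‖ ^ 2 - ‖z‖ ^ 2) * ⟪z, x - z⟫| ≤
          2 * S.b * R₁ ^ 2 * |‖x‖ ^ 2 - ‖z‖ ^ 2| := by
        rw [abs_mul, abs_mul, abs_of_pos S.hb]
        have h1 := abs_real_inner_le_norm z (x - z)
        have h2 : ‖x - z‖ ≤ 2 * R₁ := by
          have := norm_sub_le x z
          linarith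
        have hb := S.hb
        calc _ ≤ S.b * |‖x‖ ^ 2 - ‖z‖ ^ 2| * (R₁ * (2 * R₁)) := by
              gcongr
              exact h1.trans (by gcongr)
          _ = _ := by ring
      have k5 : lam * ‖S.ι x - S.ι z‖ ^ 2 ≤ |lam| * ‖S.ι x - S.ι z‖ ^ 2 := by
        gcongr
        exact le_abs_self lam
      have k6 := hR₀ ‖x‖ hxl
      have k7 := (abs_le.1 k4).1
      rw [dist_eq_norm, Real.dist_eq, dist_eq_norm]
      have k8 : 0 ≤ ‖x - z‖ ^ 2 := by positivity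
      nlinarith
    have e8 : Tendsto (fun n : ℕ × ℕ => (dist (w n.1) (w n.2)) ^ 2) atTop (𝓝 0) :=
      squeeze_zero' (Eventually.of_forall fun n => by positivity) e7 e5
    have e9 := (Real.continuous_sqrt.tendsto 0).comp e8
    rw [Real.sqrt_zero] at e9
    refine e9.congr (fun n => ?_)
    simp [Real.sqrt_sq dist_nonneg]
  obtain ⟨x, hx⟩ := cauchySeq_tendsto_of_complete hcau
  exact ⟨x, φ, hφ, hx⟩

lemma G_bdd (lam : ℝ) (v : L) (R₁ : ℝ) : ∃ G₁ : ℝ, 0 < G₁ ∧ ∀ u : H, ‖u‖ ≤ R₁ →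
    ‖S.G lam v u‖ ≤ G₁ := by
  have hb := S.hb
  have hc := S.hc
  have ha := S.ha
  have hp := S.hp2
  refine ⟨(S.a + S.b * |R₁| ^ 2) * |R₁| + (‖S.D 0‖ + S.c * (|R₁| ^ (S.p - 2) + |R₁| ^ (S.p - 2)) * |R₁|)
    + |lam| * (‖ContinuousLinearMap.adjoint S.ι‖ * (‖S.ι‖ * |R₁| + ‖v‖)) + 1, by positivity,
    fun u hu => ?_⟩
  have hu' : ‖u‖ ≤ |R₁| := hu.trans (le_abs_self _)
  unfold G
  have h1 : ‖(S.a + S.b * ‖u‖ ^ 2) • u‖ ≤ (S.a + S.b * |R₁| ^ 2) * |R₁| := by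
    rw [norm_smul, Real.norm_eq_abs, abs_of_nonneg (by positivity)]
    gcongr
  have h2 : ‖S.D u‖ ≤ ‖S.D 0‖ + S.c * (|R₁| ^ (S.p - 2) + |R₁| ^ (S.p - 2)) * |R₁| := by
    have h3 := S.D_lip u 0
    have h4 : ‖S.D u‖ ≤ ‖S.D 0‖ + ‖S.D u - S.D 0‖ := by
      have := norm_add_le (S.D 0) (S.D u - S.D 0)
      simpa using this
    have h5 : ‖u‖ ^ (S.p - 2) ≤ |R₁| ^ (S.p - 2) :=
      Real.rpow_le_rpow (norm_nonneg _) hu' (by linarith)
    have h6 : ‖(0:H)‖ ^ (S.p - 2) ≤ |R₁| ^ (S.p - 2) :=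
      Real.rpow_le_rpow (norm_nonneg _) (by simp) (by linarith)
    have h7 : ‖S.D u - S.D 0‖ ≤ S.c * (|R₁| ^ (S.p - 2) + |R₁| ^ (S.p - 2)) * |R₁| := by
      refine h3.trans ?_
      rw [sub_zero]
      gcongr
    linarith
  have h3 : ‖lam • (ContinuousLinearMap.adjoint S.ι (S.ι u - v))‖ ≤
      |lam| * (‖ContinuousLinearMap.adjoint S.ι‖ * (‖S.ι‖ * |R₁| + ‖v‖)) := by
    rw [norm_smul, Real.norm_eq_abs]
    have h4 := (ContinuousLinearMap.adjoint S.ι).le_opNorm (S.ι u - v)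
    have h5 := norm_sub_le (S.ι u) v
    have h6 := S.norm_ι_le u
    gcongr
    refine h4.trans ?_
    gcongr
    refine h5.trans ?_
    gcongr
    exact h6.trans (by gcongr)
  calc _ ≤ ‖(S.a + S.b * ‖u‖ ^ 2) • u - S.D u‖ + ‖lam • (ContinuousLinearMap.adjoint S.ι (S.ι u - v))‖ :=
        norm_sub_le _ _
    _ ≤ ‖(S.a + S.b * ‖u‖ ^ 2) • u‖ + ‖S.D u‖ + ‖lam • (ContinuousLinearMap.adjoint S.ι (S.ι u - v))‖ := by
        gcongr; exact norm_sub_le _ _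
    _ ≤ _ := by linarith

/-- One gradient step decreases the functional. -/
lemma step {lam : ℝ} (hlam : 0 ≤ lam) (v : L) (R₁ : ℝ) : ∃ τ₀ : ℝ, 0 < τ₀ ∧
    ∀ τ : ℝ, 0 ≤ τ → τ ≤ τ₀ → ∀ u : H, ‖u‖ ≤ R₁ →
    S.F lam v (u - τ • S.G lam v u) ≤ S.F lam v u - τ / 2 * ‖S.G lam v u‖ ^ 2 := by
  obtain ⟨G₁, hG₁, hG⟩ := S.G_bdd lam v R₁
  have hb := S.hb
  have ha := S.ha
  set Lc : ℝ := S.a / 2 + S.b / 4 * (8 * R₁ ^ 2 + 3) with hLc
  have hLc0 : 0 < Lc := by positivity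
  refine ⟨min (1 / (2 * Lc)) (1 / G₁), by positivity, fun τ hτ0 hτ u hu => ?_⟩
  have hτ1 : τ ≤ 1 / (2 * Lc) := hτ.trans (min_le_left _ _)
  have hτ2 : τ ≤ 1 / G₁ := hτ.trans (min_le_right _ _)
  rw [le_div_iff₀ (by positivity)] at hτ1 hτ2
  set g := S.G lam v u with hg
  set h : H := -(τ • g) with hh
  have e0 : u - τ • g = u + h := by rw [hh]; abel
  have e1 : ‖h‖ = τ * ‖g‖ := by
    rw [hh, norm_neg, norm_smul, Real.norm_eq_abs, abs_of_nonneg hτ0]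
  have e2 : ‖h‖ ≤ 1 := by
    rw [e1]
    have := hG u hu
    nlinarith
  have e3 : ⟪g, h⟫ = - τ * ‖g‖ ^ 2 := by
    rw [hh, inner_neg_right, real_inner_smul_right, real_inner_self_eq_norm_sq]; ring
  have e4 := S.descent hlam v u h
  have e5 : ‖u + h‖ ^ 4 - ‖u‖ ^ 4 - 4 * ‖u‖ ^ 2 * ⟪u, h⟫ ≤ (8 * R₁ ^ 2 + 3) * ‖h‖ ^ 2 := by
    have h2 : ‖u + h‖ ^ 2 = ‖u‖ ^ 2 + 2 * ⟪u, h⟫ + ‖h‖ ^ 2 := norm_add_sq_real u h
    have h3 : ‖u + h‖ ^ 4 = (‖u + h‖ ^ 2) ^ 2 := by ring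
    rw [h3, h2]
    have h4 := abs_le.1 (abs_real_inner_le_norm u h)
    have h5 : ⟪u, h⟫ ^ 2 ≤ ‖u‖ ^ 2 * ‖h‖ ^ 2 := by
      have := sq_le_sq' (by linarith [h4.1]) h4.2
      calc _ ≤ _ := this
        _ = _ := by ring
    have h6 : ‖u‖ ^ 2 ≤ R₁ ^ 2 := by
      have := norm_nonneg u
      nlinarith
    have h7 : ‖h‖ ^ 2 ≤ 1 := by
      have := norm_nonneg h
      nlinarith
    have h8 : 4 * ⟪u, h⟫ * ‖h‖ ^ 2 ≤ 2 * (⟪u, h⟫ ^ 2 + (‖h‖ ^ 2) ^ 2) := by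
      nlinarith [sq_nonneg (⟪u, h⟫ - ‖h‖ ^ 2)]
    have h9 : (‖h‖ ^ 2) ^ 2 ≤ ‖h‖ ^ 2 := by
      have : 0 ≤ ‖h‖ ^ 2 := by positivity
      nlinarith
    have h10 : ‖u‖ ^ 2 * ‖h‖ ^ 2 ≤ R₁ ^ 2 * ‖h‖ ^ 2 := by gcongr
    have h11 : (‖u‖ ^ 2 + 2 * ⟪u, h⟫ + ‖h‖ ^ 2) ^ 2 - ‖u‖ ^ 4 - 4 * ‖u‖ ^ 2 * ⟪u, h⟫
        = 4 * ⟪u, h⟫ ^ 2 + (‖h‖ ^ 2) ^ 2 + 2 * (‖u‖ ^ 2 * ‖h‖ ^ 2) + 4 * ⟪u, h⟫ * ‖h‖ ^ 2 := by
      ring
    rw [h11]
    linarith
  rw [e0]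
  have e6 : S.b / 4 * (‖u + h‖ ^ 4 - ‖u‖ ^ 4 - 4 * ‖u‖ ^ 2 * ⟪u, h⟫) ≤
      S.b / 4 * ((8 * R₁ ^ 2 + 3) * ‖h‖ ^ 2) := by gcongr
  have e7 : S.F lam v (u + h) ≤ S.F lam v u - τ * ‖g‖ ^ 2 + Lc * ‖h‖ ^ 2 := by
    rw [hLc]
    rw [← hg, e3] at e4
    linarith
  rw [e1] at e7
  have e8 : Lc * (τ * ‖g‖) ^ 2 ≤ τ / 2 * ‖g‖ ^ 2 := by
    have h1 : Lc * (τ * ‖g‖) ^ 2 = (τ * (2 * Lc)) * (τ / 2 * ‖g‖ ^ 2) := by ring
    rw [h1]
    have h2 : 0 ≤ τ / 2 * ‖g‖ ^ 2 := by positivity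
    nlinarith
  linarith

/-- Quantitative lower bound. -/
lemma exists_M : ∃ M : ℝ, 0 ≤ M ∧ ∀ (lam : ℝ) (v : L) (u : H), 0 ≤ lam → ‖v‖ ≤ 1 →
    S.b / 8 * ‖u‖ ^ 4 - M - lam / 2 * ‖S.ι u‖ ^ 2 - lam * ‖S.ι u‖ ≤ S.F lam v u := by
  have hb := S.hb
  have hc := S.hc
  have ha := S.ha
  have hε : 0 < S.b / (8 * (S.c + 1)) := by positivity
  obtain ⟨M, hM0, hM⟩ := rpow_le_eps_mul_add (q := S.p) (r := 4) (by linarith [S.hp2])
    (S.hp4) hε
  refine ⟨S.c * M, by positivity, fun lam v u hlam hv => ?_⟩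
  unfold F
  have h1 := hM ‖u‖ (norm_nonneg _)
  have h1' : ‖u‖ ^ (4:ℝ) = ‖u‖ ^ 4 := by norm_cast
  rw [h1'] at h1
  have h2 := S.Φ_le u
  have h3 : S.c * ‖u‖ ^ S.p ≤ S.c * (S.b / (8 * (S.c + 1)) * ‖u‖ ^ 4 + M) := by gcongr
  have h4 : S.c * (S.b / (8 * (S.c + 1)) * ‖u‖ ^ 4) ≤ S.b / 8 * ‖u‖ ^ 4 := by
    have h4 : S.c / (S.c + 1) ≤ 1 := by
      rw [div_le_one (by linarith)]; linarith
    have h5 : S.c * (S.b / (8 * (S.c + 1)) * ‖u‖ ^ 4)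
        = (S.c / (S.c + 1)) * (S.b / 8 * ‖u‖ ^ 4) := by
      field_simp
    rw [h5]
    have : 0 ≤ S.b / 8 * ‖u‖ ^ 4 := by positivity
    nlinarith
  have h5 : lam * ⟪S.ι u, v⟫ ≥ - (lam * ‖S.ι u‖) := by
    have h6 := (abs_le.1 (abs_real_inner_le_norm (S.ι u) v)).1
    have h7 : ‖S.ι u‖ * ‖v‖ ≤ ‖S.ι u‖ := mul_le_of_le_one_right (norm_nonneg _) hv
    have h8 : -‖S.ι u‖ ≤ ⟪S.ι u, v⟫ := by linarith
    have := mul_le_mul_of_nonneg_left h8 hlam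
    linarith
  have h6 : 0 ≤ S.a / 2 * ‖u‖ ^ 2 := by positivity
  linarith

lemma coercive {lam : ℝ} (hlam : 0 ≤ lam) : ∃ R₁ : ℝ, 0 < R₁ ∧ ∀ (v : L) (u : H), ‖v‖ ≤ 1 →
    S.F lam v u ≤ 0 → ‖u‖ ≤ R₁ := by
  obtain ⟨M, hM0, hM⟩ := S.exists_M
  have hb := S.hb
  set k := ‖S.ι‖ with hk
  have hk0 : 0 ≤ k := norm_nonneg _
  refine ⟨1 + 8 * (M + lam / 2 * k ^ 2 + lam * k) / S.b, by positivity, fun v u hv hF => ?_⟩
  have h1 := hM lam v u hlam hv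
  have h2 := S.norm_ι_le u
  by_contra hcon
  push Not at hcon
  set x := ‖u‖ with hx
  have hT : 0 ≤ 8 * (M + lam / 2 * k ^ 2 + lam * k) / S.b := by positivity
  have hx1 : 1 ≤ x := by linarith
  have h3 : 8 * (M + lam / 2 * k ^ 2 + lam * k) / S.b < x := by linarith
  rw [div_lt_iff₀ hb] at h3
  have h4 : lam / 2 * ‖S.ι u‖ ^ 2 ≤ lam / 2 * (k * x) ^ 2 := by gcongr
  have h5 : lam * ‖S.ι u‖ ≤ lam * (k * x) := by gcongr
  have h6 : x ≤ x ^ 2 := by nlinarith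
  have h7 : lam * (k * x) ≤ lam * (k * x ^ 2) := by gcongr
  have h8 : M ≤ M * x ^ 2 := by nlinarith
  have h9 : S.b / 8 * x ^ 4 ≤ (M + lam / 2 * k ^ 2 + lam * k) * x ^ 2 := by nlinarith
  have h10 : 0 < x ^ 2 := by positivity
  have h11 : x * S.b * x ^ 2 ≤ S.b * x ^ 4 := by
    have : x * S.b * x ^ 2 = S.b * (x * x ^ 2) := by ring
    rw [this]
    have h12 : x * x ^ 2 ≤ x ^ 4 := by nlinarith
    gcongr
  nlinarith

lemma bddBelow_F {lam : ℝ} (hlam : 0 ≤ lam) (v : L) (hv : ‖v‖ ≤ 1) :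
    ∃ B : ℝ, ∀ u, B ≤ S.F lam v u := by
  obtain ⟨R₁, hR₁, h⟩ := S.coercive hlam
  obtain ⟨M, hM0, hM⟩ := S.exists_M
  refine ⟨-(M + lam / 2 * (‖S.ι‖ * R₁) ^ 2 + lam * (‖S.ι‖ * R₁)), fun u => ?_⟩
  have hb := S.hb
  by_cases hF : S.F lam v u ≤ 0
  · have h1 := h v u hv hF
    have h2 := hM lam v u hlam hv
    have h3 : ‖S.ι u‖ ≤ ‖S.ι‖ * R₁ := (S.norm_ι_le u).trans (by gcongr)
    have h4 : lam / 2 * ‖S.ι u‖ ^ 2 ≤ lam / 2 * (‖S.ι‖ * R₁) ^ 2 := by gcongr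
    have h5 : lam * ‖S.ι u‖ ≤ lam * (‖S.ι‖ * R₁) := by gcongr
    have h6 : 0 ≤ S.b / 8 * ‖u‖ ^ 4 := by positivity
    linarith
  · push Not at hF
    have : 0 ≤ M + lam / 2 * (‖S.ι‖ * R₁) ^ 2 + lam * (‖S.ι‖ * R₁) := by positivity
    linarith

/-- The regime of large parameter: the deep sublevel set is outside the ball of radius `R₀`. -/
structure Deep (lam l R₀ : ℝ) : Prop where
  hR₀ : ∀ x : ℝ, R₀ ≤ x → 1 ≤ S.a + S.b * x ^ 2 - 2 * S.c * (x + 1) ^ (S.p - 2)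
  hlam : 0 < lam
  hl : l < 0
  inner : ∀ (v : L) (u : H), ‖v‖ ≤ 1 → ‖u‖ ≤ R₀ → l < S.F lam v u
  low : ∀ v : L, ‖v‖ ≤ 1 → ∃ u, S.F lam v u < l
  big : ∀ (v : L) (u : H), ‖v‖ ≤ 1 → S.F lam v u < l → 1 ≤ lam / 2 * ‖S.ι u‖ ^ 2 + lam * ‖S.ι u‖
  conn : ∀ (v : L) (u₁ u₂ : H), ‖v‖ ≤ 1 → (∀ w, S.F lam v u₁ ≤ S.F lam v w) →
    (∀ w, S.F lam v u₂ ≤ S.F lam v w) →
    ∃ A : Set H, IsPreconnected A ∧ u₁ ∈ A ∧ u₂ ∈ A ∧ ∀ x ∈ A, S.F lam v x < l - 1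

/-- The infimum. -/
noncomputable def m (lam : ℝ) (v : L) : ℝ := ⨅ u, S.F lam v u

lemma m_le {lam : ℝ} (hlam : 0 ≤ lam) {v : L} (hv : ‖v‖ ≤ 1) (u : H) :
    S.m lam v ≤ S.F lam v u := by
  obtain ⟨B, hB⟩ := S.bddBelow_F hlam v hv
  exact ciInf_le ⟨B, by rintro _ ⟨w, rfl⟩; exact hB w⟩ u

lemma le_m {lam : ℝ} {v : L} {B : ℝ} (h : ∀ u, B ≤ S.F lam v u) : B ≤ S.m lam v :=
  le_ciInf h

variable {S}

lemma Deep.psdeep {lam l R₀ : ℝ} (hD : S.Deep lam l R₀) {v : L} (hv : ‖v‖ ≤ 1)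
    (u : ℕ → H) {c : ℝ} (hc : c < l) (hF : Tendsto (fun n => S.F lam v (u n)) atTop (𝓝 c))
    (hG : Tendsto (fun n => S.G lam v (u n)) atTop (𝓝 0)) :
    ∃ (x : H) (φ : ℕ → ℕ), StrictMono φ ∧ Tendsto (fun n => u (φ n)) atTop (𝓝 x) := by
  obtain ⟨N, hN⟩ := eventually_atTop.1 (hF.eventually (gt_mem_nhds hc))
  obtain ⟨R₁, hR₁, hco⟩ := S.coercive hD.hlam.le
  set w : ℕ → H := fun n => u (n + N) with hw
  have h1 : ∀ n, S.F lam v (w n) < l := fun n => hN _ (Nat.le_add_left _ _)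
  have h2 : ∀ n, R₀ ≤ ‖w n‖ := by
    intro n
    by_contra hcon
    push Not at hcon
    have := hD.inner v (w n) hv hcon.le
    linarith [h1 n]
  have h3 : ∀ n, ‖w n‖ ≤ R₁ := fun n => hco v (w n) hv (by linarith [h1 n, hD.hl])
  have h4 : Tendsto (fun n => S.G lam v (w n)) atTop (𝓝 0) :=
    hG.comp (tendsto_add_atTop_nat N)
  obtain ⟨x, φ, hφ, hx⟩ := S.ps hD.hR₀ lam v w h2 h3 h4
  exact ⟨x, fun n => φ n + N, fun a b hab => Nat.add_lt_add_right (hφ hab) N, hx⟩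

/-- Compactness of minimizing sequences. -/
lemma Deep.minseq {lam l R₀ : ℝ} (hD : S.Deep lam l R₀) {v : L} (hv : ‖v‖ ≤ 1)
    (u : ℕ → H) (hu : Tendsto (fun n => S.F lam v (u n)) atTop (𝓝 (S.m lam v))) :
    ∃ (x : H) (φ : ℕ → ℕ), StrictMono φ ∧ Tendsto (fun n => u (φ n)) atTop (𝓝 x) ∧
      ∀ w, S.F lam v x ≤ S.F lam v w := by
  obtain ⟨u₀, hu₀⟩ := hD.low v hv
  have hml : S.m lam v < l := (S.m_le hD.hlam.le hv u₀).trans_lt hu₀
  obtain ⟨R₁, hR₁, hco⟩ := S.coercive hD.hlam.le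
  obtain ⟨τ₀, hτ₀, hstep⟩ := S.step hD.hlam.le v R₁
  have hG2 : Tendsto (fun n => ‖S.G lam v (u n)‖ ^ 2) atTop (𝓝 0) := by
    have e1 : Tendsto (fun n => 2 / τ₀ * (S.F lam v (u n) - S.m lam v)) atTop (𝓝 0) := by
      have := (hu.sub_const (S.m lam v)).const_mul (2 / τ₀)
      simpa using this
    refine squeeze_zero' (Eventually.of_forall fun n => by positivity) ?_ e1
    filter_upwards [hu.eventually (gt_mem_nhds hml)] with n hn
    have h1 : ‖u n‖ ≤ R₁ := hco v (u n) hv (by linarith [hD.hl])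
    have h2 := hstep τ₀ hτ₀.le le_rfl (u n) h1
    have h3 := S.m_le hD.hlam.le hv (u n - τ₀ • S.G lam v (u n))
    have h4 : τ₀ / 2 * ‖S.G lam v (u n)‖ ^ 2 ≤ S.F lam v (u n) - S.m lam v := by linarith
    calc ‖S.G lam v (u n)‖ ^ 2 = 2 / τ₀ * (τ₀ / 2 * ‖S.G lam v (u n)‖ ^ 2) := by
          field_simp
      _ ≤ _ := by gcongr
  have hG : Tendsto (fun n => S.G lam v (u n)) atTop (𝓝 0) := by
    rw [tendsto_zero_iff_norm_tendsto_zero]
    have e9 := (Real.continuous_sqrt.tendsto 0).comp hG2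
    rw [Real.sqrt_zero] at e9
    refine e9.congr (fun n => ?_)
    simp [Real.sqrt_sq (norm_nonneg _)]
  obtain ⟨x, φ, hφ, hx⟩ := hD.psdeep hv u hml hu hG
  refine ⟨x, φ, hφ, hx, fun w => ?_⟩
  have h1 : Tendsto (fun n => S.F lam v (u (φ n))) atTop (𝓝 (S.F lam v x)) :=
    ((S.continuous_F lam v).tendsto x).comp hx
  have h2 : Tendsto (fun n => S.F lam v (u (φ n))) atTop (𝓝 (S.m lam v)) :=
    hu.comp hφ.tendsto_atTop
  rw [tendsto_nhds_unique h1 h2]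
  exact S.m_le hD.hlam.le hv w

lemma Deep.exists_min {lam l R₀ : ℝ} (hD : S.Deep lam l R₀) {v : L} (hv : ‖v‖ ≤ 1) :
    ∃ x, ∀ w, S.F lam v x ≤ S.F lam v w := by
  have h1 : ∀ n : ℕ, ∃ u, S.F lam v u < S.m lam v + 1 / ((n : ℝ) + 1) := fun n =>
    exists_lt_of_ciInf_lt (lt_add_of_pos_right _ (by positivity))
  choose u hu using h1
  have h2 : Tendsto (fun n => S.F lam v (u n)) atTop (𝓝 (S.m lam v)) := by
    have h3 : Tendsto (fun n : ℕ => S.m lam v + 1 / ((n : ℝ) + 1)) atTop (𝓝 (S.m lam v + 0)) :=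
      tendsto_const_nhds.add tendsto_one_div_add_atTop_nhds_zero_nat
    rw [add_zero] at h3
    exact tendsto_of_tendsto_of_tendsto_of_le_of_le tendsto_const_nhds h3
      (fun n => S.m_le hD.hlam.le hv _) (fun n => (hu n).le)
  obtain ⟨x, φ, -, -, hx⟩ := hD.minseq hv u h2
  exact ⟨x, hx⟩

variable (S)

lemma F_sum (lam : ℝ) (v : L) (u : H) : S.F lam v u + S.F lam v (-u) = 2 * S.F lam 0 u := by
  unfold F
  rw [S.Φ_even, map_neg, norm_neg, norm_neg, inner_neg_left, inner_zero_right]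
  ring

lemma F_eq_add (lam : ℝ) (v w : L) (u : H) :
    S.F lam v u = S.F lam w u + lam * ⟪S.ι u, v - w⟫ := by
  unfold F
  rw [inner_sub_right]
  ring

variable {S}

/-- Existence of two global minimizers for some `v` in a prescribed convex dense set. -/
lemma Deep.two_minimizers {lam l R₀ : ℝ} (hD : S.Deep lam l R₀) (C : Set L) (hC : Convex ℝ C)
    (hdense : ∀ u, S.ι u ∈ closure C) :
    ∃ v ∈ C, ‖v‖ ≤ 1 ∧ ∃ u₁ u₂ : H, u₁ ≠ u₂ ∧ (∀ w, S.F lam v u₁ ≤ S.F lam v w) ∧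
      (∀ w, S.F lam v u₂ ≤ S.F lam v w) := by
  obtain ⟨R₁, hR₁, hco⟩ := S.coercive hD.hlam.le
  have hlam := hD.hlam
  set k := ‖S.ι‖ with hk
  have hk0 : 0 ≤ k := norm_nonneg _
  set δ : ℝ := min (1 / 2) (1 / (2 * lam)) with hδ
  have hδ0 : 0 < δ := by positivity
  have hδ1 : δ ≤ 1 / 2 := min_le_left _ _
  have hδ2 : δ ≤ 1 / (2 * lam) := min_le_right _ _
  set η : ℝ := min (δ / 2) ((δ / 2) ^ 2 / (2 * k * R₁ + 1)) with hη
  have hη0 : 0 < η := by positivity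
  have hη1 : η ≤ δ / 2 := min_le_left _ _
  have hη2 : η ≤ (δ / 2) ^ 2 / (2 * k * R₁ + 1) := min_le_right _ _
  rw [le_div_iff₀ (by positivity)] at hδ2 hη2
  -- the finite net
  set K : Set L := closure (S.ι '' Metric.closedBall 0 R₁) with hK
  have hKc : IsCompact K := S.compact' R₁
  have hKC : K ⊆ closure C := by
    apply closure_minimal _ isClosed_closure
    rintro _ ⟨u, -, rfl⟩
    exact hdense u
  have hcover : K ⊆ ⋃ c ∈ C, Metric.ball c η := by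
    intro y hy
    obtain ⟨c, hc, hyc⟩ := Metric.mem_closure_iff.1 (hKC hy) η hη0
    exact mem_biUnion hc hyc
  obtain ⟨T, hTC, hTfin, hT⟩ := hKc.elim_finite_subcover_image
    (fun c _ => Metric.isOpen_ball) hcover
  have hnet : ∀ u : H, ‖u‖ ≤ R₁ → ∃ f ∈ T, ‖S.ι u - f‖ < η := by
    intro u hu
    have h1 : S.ι u ∈ K := subset_closure ⟨u, by simpa using hu, rfl⟩
    obtain ⟨f, hf, h2⟩ := mem_iUnion₂.1 (hT h1)
    exact ⟨f, hf, by rwa [Metric.mem_ball, dist_eq_norm] at h2⟩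
  set Q : Set L := convexHull ℝ T with hQ
  have hQC : Q ⊆ C := convexHull_min hTC hC
  have hQconv : Convex ℝ Q := convex_convexHull ℝ T
  have hTQ : T ⊆ Q := subset_convexHull ℝ T
  have hScomp : IsCompact (Q ∩ Metric.closedBall 0 1) :=
    (hTfin.isCompact_convexHull ℝ).inter_right Metric.isClosed_closedBall
  obtain ⟨s₀, hs₀T, hs₀⟩ := hnet 0 (by simpa using hR₁.le)
  rw [map_zero, zero_sub, norm_neg] at hs₀
  have hs₀1 : ‖s₀‖ ≤ 1 := by linarith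
  have hSne : (Q ∩ Metric.closedBall (0:L) 1).Nonempty :=
    ⟨s₀, hTQ hs₀T, by simpa using hs₀1⟩
  -- the concave function
  have husc : UpperSemicontinuousOn (fun v => S.m lam v - lam / 2 * ‖v‖ ^ 2)
      (Q ∩ Metric.closedBall (0:L) 1) := by
    intro v hv y hy
    have h1 : S.m lam v < y + lam / 2 * ‖v‖ ^ 2 := by linarith
    obtain ⟨u, hu⟩ := exists_lt_of_ciInf_lt h1
    have h2 : Continuous (fun v' : L => S.F lam v' u - lam / 2 * ‖v'‖ ^ 2) := by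
      have := S.continuous_F_right lam u
      fun_prop
    have h3 : ∀ᶠ v' in 𝓝[Q ∩ Metric.closedBall (0:L) 1] v,
        S.F lam v' u - lam / 2 * ‖v'‖ ^ 2 < y := by
      have h5 : Tendsto (fun v' : L => S.F lam v' u - lam / 2 * ‖v'‖ ^ 2)
          (𝓝[Q ∩ Metric.closedBall (0:L) 1] v) (𝓝 (S.F lam v u - lam / 2 * ‖v‖ ^ 2)) :=
        h2.continuousWithinAt
      exact h5.eventually_lt_const (by linarith)
    filter_upwards [h3, self_mem_nhdsWithin] with v' hv' hv'2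
    have h4 := S.m_le hlam.le (v := v') (by simpa using hv'2.2) u
    linarith
  obtain ⟨v₀, hv₀S, hv₀max⟩ := husc.exists_isMaxOn hSne hScomp
  have hv₀1 : ‖v₀‖ ≤ 1 := by simpa using hv₀S.2
  have hm0 : S.m lam 0 < l := by
    obtain ⟨u, hu⟩ := hD.low 0 (by simp)
    exact (S.m_le hlam.le (by simp) u).trans_lt hu
  -- `v₀` is small
  have hv₀small : ‖v₀‖ ≤ δ / 2 := by
    have h1 : S.m lam v₀ ≤ S.m lam 0 := by
      apply S.le_m
      intro u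
      have h2 := S.F_sum lam v₀ u
      have h3 := S.m_le hlam.le hv₀1 u
      have h4 := S.m_le hlam.le hv₀1 (-u)
      linarith
    have h2 : S.m lam 0 - lam * (k * R₁ * η) ≤ S.m lam s₀ := by
      apply S.le_m
      intro u
      have h0 : 0 ≤ lam * (k * R₁ * η) := by positivity
      by_cases hF : S.F lam s₀ u ≤ 0
      · have h3 := hco s₀ u hs₀1 hF
        have h4 := S.F_eq_add lam s₀ 0 u
        have h5 := S.m_le hlam.le (v := 0) (by simp) u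
        rw [sub_zero] at h4
        have h6 := (abs_le.1 (abs_real_inner_le_norm (S.ι u) s₀)).1
        have h7 : ‖S.ι u‖ * ‖s₀‖ ≤ k * R₁ * η := by
          have := S.norm_ι_le u
          calc _ ≤ (k * R₁) * η := by
                gcongr
                exact this.trans (by gcongr)
            _ = _ := rfl
        have h8 : -(k * R₁ * η) ≤ ⟪S.ι u, s₀⟫ := by linarith
        have := mul_le_mul_of_nonneg_left h8 hlam.le
        linarith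
      · push Not at hF
        have := hD.hl
        linarith
    have h3 := hv₀max (show s₀ ∈ Q ∩ Metric.closedBall (0:L) 1 from
      ⟨hTQ hs₀T, by simpa using hs₀1⟩)
    change S.m lam s₀ - lam / 2 * ‖s₀‖ ^ 2 ≤ S.m lam v₀ - lam / 2 * ‖v₀‖ ^ 2 at h3
    have h4 : ‖s₀‖ ^ 2 ≤ η ^ 2 := by gcongr
    have h5 : lam * ‖v₀‖ ^ 2 ≤ lam * (2 * k * R₁ * η + η ^ 2) := by nlinarith
    have h6 : ‖v₀‖ ^ 2 ≤ 2 * k * R₁ * η + η ^ 2 := le_of_mul_le_mul_left h5 hlam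
    have h7 : η ^ 2 ≤ η := by nlinarith
    have h8 : ‖v₀‖ ^ 2 ≤ (δ / 2) ^ 2 := by nlinarith
    exact le_of_sq_le_sq h8 (by positivity)
  refine ⟨v₀, hQC hv₀S.1, hv₀1, ?_⟩
  by_contra hcon
  push Not at hcon
  obtain ⟨u₀, hu₀⟩ := hD.exists_min hv₀1
  have huniq : ∀ x, (∀ w, S.F lam v₀ x ≤ S.F lam v₀ w) → x = u₀ := by
    intro x hx
    by_contra hne
    obtain ⟨w, hw⟩ := hcon x u₀ hne hx
    exact absurd (hu₀ w) (not_le.2 hw)
  have hFlt : ∀ (v : L) (x : H), ‖v‖ ≤ 1 → (∀ w, S.F lam v x ≤ S.F lam v w) →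
      S.F lam v x < l := by
    intro v x hv hx
    obtain ⟨u, hu⟩ := hD.low v hv
    exact (hx u).trans_lt hu
  have hmin_eq : ∀ (v : L) (x : H), ‖v‖ ≤ 1 → (∀ w, S.F lam v x ≤ S.F lam v w) →
      S.m lam v = S.F lam v x := fun v x hv hx =>
    le_antisymm (S.m_le hlam.le hv x) (S.le_m hx)
  have hnorm : ∀ (v : L) (x : H), ‖v‖ ≤ 1 → (∀ w, S.F lam v x ≤ S.F lam v w) → ‖x‖ ≤ R₁ :=
    fun v x hv hx => hco v x hv (by linarith [hFlt v x hv hx, hD.hl])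
  -- Danskin's inequality
  have hdanskin : ∀ v ∈ Q, ⟪S.ι u₀ - v₀, v - v₀⟫ ≤ 0 := by
    intro v hv
    set d : L := v - v₀ with hd
    have hcont : Continuous (fun t : ℝ => ‖v₀ + t • d‖) := by fun_prop
    have hev : ∀ᶠ t in 𝓝 (0:ℝ), ‖v₀ + t • d‖ < 1 := by
      have h5 := hcont.tendsto 0
      simp only [zero_smul, add_zero] at h5
      exact h5.eventually_lt_const (by linarith)
    obtain ⟨ρ, hρ0, hρ⟩ := Metric.eventually_nhds_iff.1 hev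
    set σ : ℝ := min (ρ / 2) 1 with hσ
    have hσ0 : 0 < σ := by positivity
    set t : ℕ → ℝ := fun n => σ * (1 / ((n : ℝ) + 1)) with ht
    have ht0 : ∀ n, 0 < t n := fun n => by positivity
    have htσ : ∀ n, t n ≤ σ := fun n => by
      have : 1 / ((n : ℝ) + 1) ≤ 1 := by
        rw [div_le_one (by positivity)]; linarith [Nat.cast_nonneg (α := ℝ) n]
      calc t n ≤ σ * 1 := by simp only [ht]; gcongr
        _ = σ := mul_one _
    have htt : Tendsto t atTop (𝓝 0) := by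
      have := (tendsto_one_div_add_atTop_nhds_zero_nat (𝕜 := ℝ)).const_mul σ
      rw [mul_zero] at this
      exact this
    set vn : ℕ → L := fun n => v₀ + t n • d with hvn
    have hvnQ : ∀ n, vn n ∈ Q := by
      intro n
      have h1 : t n ≤ 1 := (htσ n).trans (min_le_right _ _)
      have h2 := hQconv hv₀S.1 hv (a := 1 - t n) (b := t n) (by linarith) (ht0 n).le (by ring)
      have h3 : vn n = (1 - t n) • v₀ + t n • v := by
        simp only [hvn, hd, smul_sub, sub_smul, one_smul]; abel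
      rw [h3]; exact h2
    have hvn1 : ∀ n, ‖vn n‖ ≤ 1 := by
      intro n
      have h1 : dist (t n) 0 < ρ := by
        rw [Real.dist_eq, sub_zero, abs_of_pos (ht0 n)]
        have := (htσ n).trans (min_le_left _ _)
        linarith
      exact (hρ h1).le
    choose un hun using fun n => hD.exists_min (hvn1 n)
    have hunR : ∀ n, ‖un n‖ ≤ R₁ := fun n => hnorm _ _ (hvn1 n) (hun n)
    have hnsq : ∀ n, ‖vn n‖ ^ 2 = ‖v₀‖ ^ 2 + 2 * (t n * ⟪v₀, d⟫) + (t n) ^ 2 * ‖d‖ ^ 2 := by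
      intro n
      have := norm_add_sq_real v₀ (t n • d)
      rw [real_inner_smul_right, norm_smul, Real.norm_eq_abs, mul_pow, sq_abs] at this
      exact this
    have hgmax : ∀ n, S.F lam (vn n) (un n) - lam / 2 * ‖vn n‖ ^ 2 ≤
        S.m lam v₀ - lam / 2 * ‖v₀‖ ^ 2 := by
      intro n
      have := hv₀max (show vn n ∈ Q ∩ Metric.closedBall (0:L) 1 from
        ⟨hvnQ n, by simpa using hvn1 n⟩)
      change S.m lam (vn n) - lam / 2 * ‖vn n‖ ^ 2 ≤ S.m lam v₀ - lam / 2 * ‖v₀‖ ^ 2 at this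
      rw [hmin_eq _ _ (hvn1 n) (hun n)] at this
      exact this
    have hFF : ∀ n, S.F lam (vn n) (un n) = S.F lam v₀ (un n) + lam * (t n * ⟪S.ι (un n), d⟫) := by
      intro n
      rw [S.F_eq_add lam (vn n) v₀ (un n)]
      have : vn n - v₀ = t n • d := by simp [hvn]
      rw [this, real_inner_smul_right]
    have hineq : ∀ n, ⟪S.ι (un n) - v₀, d⟫ ≤ t n / 2 * ‖d‖ ^ 2 := by
      intro n
      have h1 := hgmax n
      have h2 := S.m_le hlam.le hv₀1 (un n)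
      rw [hFF n, hnsq n] at h1
      rw [inner_sub_left]
      have h3 : lam * t n * (⟪S.ι (un n), d⟫ - ⟪v₀, d⟫) ≤ lam * t n * (t n / 2 * ‖d‖ ^ 2) := by
        nlinarith
      exact le_of_mul_le_mul_left h3 (by have := ht0 n; positivity)
    have hin : ∀ n, |⟪S.ι (un n), d⟫| ≤ k * R₁ * ‖d‖ := by
      intro n
      refine (abs_real_inner_le_norm _ _).trans ?_
      gcongr
      exact (S.norm_ι_le _).trans (by gcongr; exact hunR n)
    have hminim : Tendsto (fun n => S.F lam v₀ (un n)) atTop (𝓝 (S.m lam v₀)) := by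
      have h3 : Tendsto (fun n => S.m lam v₀ + lam / 2 * (2 * (t n * ⟪v₀, d⟫) + (t n) ^ 2 * ‖d‖ ^ 2)
          + lam * (t n * (k * R₁ * ‖d‖))) atTop (𝓝 (S.m lam v₀ +
            lam / 2 * (2 * (0 * ⟪v₀, d⟫) + (0:ℝ) ^ 2 * ‖d‖ ^ 2) + lam * (0 * (k * R₁ * ‖d‖)))) := by
        apply Tendsto.add
        · apply Tendsto.add tendsto_const_nhds
          apply Tendsto.const_mul
          exact ((htt.mul_const _).const_mul 2).add ((htt.pow 2).mul_const _)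
        · exact (htt.mul_const _).const_mul lam
      have h4 : S.m lam v₀ + lam / 2 * (2 * (0 * ⟪v₀, d⟫) + (0:ℝ) ^ 2 * ‖d‖ ^ 2)
          + lam * (0 * (k * R₁ * ‖d‖)) = S.m lam v₀ := by ring
      rw [h4] at h3
      refine tendsto_of_tendsto_of_tendsto_of_le_of_le tendsto_const_nhds h3
        (fun n => S.m_le hlam.le hv₀1 _) (fun n => ?_)
      have h5 := hgmax n
      rw [hFF n, hnsq n] at h5
      have h6 := (abs_le.1 (hin n)).1
      have h7 : t n * (-(k * R₁ * ‖d‖)) ≤ t n * ⟪S.ι (un n), d⟫ :=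
        mul_le_mul_of_nonneg_left h6 (ht0 n).le
      have h8 := mul_le_mul_of_nonneg_left h7 hlam.le
      show S.F lam v₀ (un n) ≤ _
      linarith
    obtain ⟨x, φ, hφ, hx, hxmin⟩ := hD.minseq hv₀1 un hminim
    have hxu : x = u₀ := huniq x hxmin
    have hl1 : Tendsto (fun n => ⟪S.ι (un (φ n)) - v₀, d⟫) atTop (𝓝 ⟪S.ι x - v₀, d⟫) := by
      have : Continuous (fun y : H => ⟪S.ι y - v₀, d⟫) := by fun_prop
      exact (this.tendsto x).comp hx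
    have hl2 : Tendsto (fun n => t (φ n) / 2 * ‖d‖ ^ 2) atTop (𝓝 0) := by
      have := ((htt.comp hφ.tendsto_atTop).div_const 2).mul_const (‖d‖ ^ 2)
      simpa using this
    rw [← hxu]
    exact le_of_tendsto_of_tendsto' hl1 hl2 (fun n => hineq (φ n))
  -- conclusion
  obtain ⟨f, hfT, hf⟩ := hnet u₀ (hnorm v₀ u₀ hv₀1 hu₀)
  have h1 := hdanskin f (hTQ hfT)
  have h2 : ‖S.ι u₀ - v₀‖ ^ 2 = ⟪S.ι u₀ - v₀, S.ι u₀ - f⟫ + ⟪S.ι u₀ - v₀, f - v₀⟫ := by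
    rw [← inner_add_right, sub_add_sub_cancel, real_inner_self_eq_norm_sq]
  have h3 := real_inner_le_norm (S.ι u₀ - v₀) (S.ι u₀ - f)
  have h4 : ‖S.ι u₀ - v₀‖ * ‖S.ι u₀ - f‖ ≤ ‖S.ι u₀ - v₀‖ * η := by gcongr
  have h5 : ‖S.ι u₀ - v₀‖ ≤ η := by
    by_contra h6
    push Not at h6
    nlinarith [norm_nonneg (S.ι u₀ - v₀)]
  have h6 : ‖S.ι u₀‖ ≤ δ := by
    have := norm_add_le (S.ι u₀ - v₀) v₀
    rw [sub_add_cancel] at this
    linarith
  have h7 := hD.big v₀ u₀ hv₀1 (hFlt v₀ u₀ hv₀1 hu₀)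
  have h8 : lam / 2 * ‖S.ι u₀‖ ^ 2 ≤ lam / 2 * δ ^ 2 := by gcongr
  have h9 : lam * ‖S.ι u₀‖ ≤ lam * δ := by gcongr
  nlinarith

variable (S)

/-- Global minimizers are critical. -/
lemma G_eq_zero_of_min {lam : ℝ} (hlam : 0 ≤ lam) {v : L} {u : H}
    (hu : ∀ w, S.F lam v u ≤ S.F lam v w) : S.G lam v u = 0 := by
  obtain ⟨τ₀, hτ₀, hstep⟩ := S.step hlam v ‖u‖
  have h1 := hstep τ₀ hτ₀.le le_rfl u le_rfl
  have h2 := hu (u - τ₀ • S.G lam v u)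
  have h3 : τ₀ / 2 * ‖S.G lam v u‖ ^ 2 ≤ 0 := by linarith
  have h4 : ‖S.G lam v u‖ ^ 2 ≤ 0 := by
    by_contra h5
    push Not at h5
    have : 0 < τ₀ / 2 * ‖S.G lam v u‖ ^ 2 := by positivity
    linarith
  have h5 : ‖S.G lam v u‖ = 0 := by
    have := sq_nonneg ‖S.G lam v u‖
    exact pow_eq_zero_iff (two_ne_zero) |>.1 (le_antisymm h4 this)
  exact norm_eq_zero.1 h5

variable {S}

/-- Existence of a third critical point. -/
lemma Deep.third {lam l R₀ : ℝ} (hD : S.Deep lam l R₀) {v : L} (hv : ‖v‖ ≤ 1) {u₁ u₂ : H}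
    (hne : u₁ ≠ u₂) (hu₁ : ∀ w, S.F lam v u₁ ≤ S.F lam v w)
    (hu₂ : ∀ w, S.F lam v u₂ ≤ S.F lam v w) :
    ∃ u₃, u₃ ≠ u₁ ∧ u₃ ≠ u₂ ∧ S.G lam v u₃ = 0 := by
  have hlam := hD.hlam
  by_cases hthird : ∃ u₃, u₃ ≠ u₁ ∧ u₃ ≠ u₂ ∧ ∀ w, S.F lam v u₃ ≤ S.F lam v w
  · obtain ⟨u₃, h1, h2, h3⟩ := hthird
    exact ⟨u₃, h1, h2, S.G_eq_zero_of_min hlam.le h3⟩
  push Not at hthird
  obtain ⟨R₁, hR₁, hco⟩ := S.coercive hlam.le
  have hm1 : S.m lam v = S.F lam v u₁ := le_antisymm (S.m_le hlam.le hv u₁) (S.le_m hu₁)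
  have hm2 : S.m lam v = S.F lam v u₂ := le_antisymm (S.m_le hlam.le hv u₂) (S.le_m hu₂)
  set μ := S.m lam v with hμ
  set r : ℝ := ‖u₂ - u₁‖ / 2 with hr
  have hr0 : 0 < r := by
    have : 0 < ‖u₂ - u₁‖ := norm_pos_iff.2 (sub_ne_zero.2 hne.symm)
    positivity
  -- the barrier
  have hbar : ∃ β, μ < β ∧ ∀ x, ‖x - u₁‖ = r → β ≤ S.F lam v x := by
    by_contra hcon
    push Not at hcon
    have h1 : ∀ n : ℕ, ∃ x, ‖x - u₁‖ = r ∧ S.F lam v x < μ + 1 / ((n : ℝ) + 1) := fun n =>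
      hcon _ (lt_add_of_pos_right _ (by positivity))
    choose x hxr hxF using h1
    have h2 : Tendsto (fun n => S.F lam v (x n)) atTop (𝓝 μ) := by
      have h3 : Tendsto (fun n : ℕ => μ + 1 / ((n : ℝ) + 1)) atTop (𝓝 (μ + 0)) :=
        tendsto_const_nhds.add tendsto_one_div_add_atTop_nhds_zero_nat
      rw [add_zero] at h3
      exact tendsto_of_tendsto_of_tendsto_of_le_of_le tendsto_const_nhds h3
        (fun n => S.m_le hlam.le hv _) (fun n => (hxF n).le)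
    obtain ⟨y, φ, -, hy, hymin⟩ := hD.minseq hv x h2
    have h3 : ‖y - u₁‖ = r := by
      have h4 : Tendsto (fun n => ‖x (φ n) - u₁‖) atTop (𝓝 ‖y - u₁‖) := (hy.sub_const u₁).norm
      have h5 : (fun n => ‖x (φ n) - u₁‖) = fun _ => r := by
        funext n; exact hxr _
      rw [h5] at h4
      exact tendsto_nhds_unique h4 tendsto_const_nhds
    have h4 : y ≠ u₁ := by
      rintro rfl
      rw [sub_self, norm_zero] at h3
      linarith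
    have h5 : y ≠ u₂ := by
      rintro rfl
      linarith
    obtain ⟨w, hw⟩ := hthird y h4 h5
    exact absurd (hymin w) (not_le.2 hw)
  obtain ⟨β, hβ, hbar⟩ := hbar
  set 𝒜 : Set ℝ := {α | ∃ A : Set H, IsPreconnected A ∧ u₁ ∈ A ∧ u₂ ∈ A ∧
    ∀ x ∈ A, S.F lam v x < α} with h𝒜
  have hlA : l - 1 ∈ 𝒜 := hD.conn v u₁ u₂ hv hu₁ hu₂
  have hlow : ∀ α ∈ 𝒜, β ≤ α := by
    rintro α ⟨A, hA, h1, h2, hlt⟩
    have hc : ContinuousOn (fun x => ‖x - u₁‖) A := by fun_prop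
    have h3 := hA.intermediate_value h1 h2 hc
    have h4 : r ∈ Icc ‖u₁ - u₁‖ ‖u₂ - u₁‖ := by
      rw [sub_self, norm_zero]
      exact ⟨hr0.le, by linarith⟩
    obtain ⟨x, hxA, hx⟩ := h3 h4
    exact (hbar x hx).trans (hlt x hxA).le
  have hbdd : BddBelow 𝒜 := ⟨β, hlow⟩
  have hne𝒜 : 𝒜.Nonempty := ⟨_, hlA⟩
  set c := sInf 𝒜 with hc
  have hcβ : β ≤ c := le_csInf hne𝒜 hlow
  have hcl : c ≤ l - 1 := csInf_le hbdd hlA
  have hμc : μ < c := lt_of_lt_of_le hβ hcβ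
  have hPS : ∀ ε : ℝ, 0 < ε → ∃ x, |S.F lam v x - c| ≤ ε ∧ ‖S.G lam v x‖ ≤ ε := by
    intro ε hε
    by_contra hcon
    push Not at hcon
    obtain ⟨τ₀, hτ₀, hstep⟩ := S.step hlam.le v R₁
    set ε₀ : ℝ := min ε (min (c - μ) 1) with hε₀
    have hε₀0 : 0 < ε₀ := by
      have : 0 < c - μ := by linarith
      positivity
    have hε₀1 : ε₀ ≤ ε := min_le_left _ _
    have hε₀2 : ε₀ ≤ c - μ := (min_le_right _ _).trans (min_le_left _ _)
    have hε₀3 : ε₀ ≤ 1 := (min_le_right _ _).trans (min_le_right _ _)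
    set ε₁ : ℝ := min (ε₀ / 2) (τ₀ * ε₀ ^ 2 / 4) with hε₁
    have hε₁0 : 0 < ε₁ := by positivity
    have hε₁1 : ε₁ ≤ ε₀ / 2 := min_le_left _ _
    have hε₁2 : ε₁ ≤ τ₀ * ε₀ ^ 2 / 4 := min_le_right _ _
    obtain ⟨α, ⟨A, hA, hA1, hA2, hAlt⟩, hα⟩ := exists_lt_of_csInf_lt hne𝒜
      (show sInf 𝒜 < c + ε₁ by rw [← hc]; linarith)
    set τ : H → ℝ := fun x => τ₀ * max 0 (min 1 ((S.F lam v x - c + ε₀) * (2 / ε₀))) with hτ
    set T : H → H := fun x => x - τ x • S.G lam v x with hT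
    have hTc : Continuous T := by
      have h1 := S.continuous_F lam v
      have h2 := S.continuous_G lam v
      simp only [hT, hτ]
      fun_prop
    have hτ0 : ∀ x, 0 ≤ τ x := fun x => by
      simp only [hτ]; positivity
    have hττ : ∀ x, τ x ≤ τ₀ := fun x => by
      simp only [hτ]
      have : max 0 (min 1 ((S.F lam v x - c + ε₀) * (2 / ε₀))) ≤ 1 :=
        max_le zero_le_one (min_le_left _ _)
      nlinarith
    have hτfix : ∀ x, S.F lam v x = μ → T x = x := by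
      intro x hx
      have h1 : (S.F lam v x - c + ε₀) * (2 / ε₀) ≤ 0 := by
        apply mul_nonpos_of_nonpos_of_nonneg
        · rw [hx]; linarith
        · positivity
      have h2 : τ x = 0 := by
        simp only [hτ]
        rw [max_eq_left ((min_le_right _ _).trans h1), mul_zero]
      simp only [hT, h2, zero_smul, sub_zero]
    have hcA : c - ε₁ ∈ 𝒜 := by
      refine ⟨T '' A, hA.image T hTc.continuousOn, ⟨u₁, hA1, hτfix u₁ hm1.symm⟩,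
        ⟨u₂, hA2, hτfix u₂ hm2.symm⟩, ?_⟩
      rintro _ ⟨x, hx, rfl⟩
      have h1 : S.F lam v x < c + ε₁ := (hAlt x hx).trans hα
      have h2 : ‖x‖ ≤ R₁ := hco v x hv (by linarith [hD.hl])
      have h3 := hstep (τ x) (hτ0 x) (hττ x) x h2
      have h4 : S.F lam v (T x) ≤ S.F lam v x - τ x / 2 * ‖S.G lam v x‖ ^ 2 := h3
      by_cases h5 : c - ε₀ / 2 ≤ S.F lam v x
      · have h6 : τ x = τ₀ := by
          simp only [hτ]
          have h7 : 1 ≤ (S.F lam v x - c + ε₀) * (2 / ε₀) := by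
            have : (ε₀ / 2) * (2 / ε₀) = 1 := by field_simp
            rw [← this]
            gcongr
            linarith
          rw [min_eq_left h7, max_eq_right zero_le_one, mul_one]
        have h7 : |S.F lam v x - c| ≤ ε := by
          rw [abs_le]; constructor <;> linarith
        have h8 := hcon x h7
        have h9 : ε₀ ^ 2 ≤ ‖S.G lam v x‖ ^ 2 := by
          gcongr; linarith
        rw [h6] at h4
        have h10 : τ₀ / 2 * ε₀ ^ 2 ≤ τ₀ / 2 * ‖S.G lam v x‖ ^ 2 := by gcongr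
        linarith
      · push Not at h5
        have h6 : 0 ≤ τ x / 2 * ‖S.G lam v x‖ ^ 2 := by
          have := hτ0 x
          positivity
        linarith
    have := csInf_le hbdd hcA
    rw [← hc] at this
    linarith
  have h1 : ∀ n : ℕ, ∃ x, |S.F lam v x - c| ≤ 1 / ((n : ℝ) + 1) ∧
      ‖S.G lam v x‖ ≤ 1 / ((n : ℝ) + 1) := fun n => hPS _ (by positivity)
  choose x hxF hxG using h1
  have h2 : Tendsto (fun n => S.F lam v (x n)) atTop (𝓝 c) := by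
    rw [tendsto_iff_norm_sub_tendsto_zero]
    exact squeeze_zero (fun n => norm_nonneg _) (fun n => hxF n)
      tendsto_one_div_add_atTop_nhds_zero_nat
  have h3 : Tendsto (fun n => S.G lam v (x n)) atTop (𝓝 0) := by
    rw [tendsto_zero_iff_norm_tendsto_zero]
    exact squeeze_zero (fun n => norm_nonneg _) (fun n => hxG n)
      tendsto_one_div_add_atTop_nhds_zero_nat
  obtain ⟨y, φ, hφ, hy⟩ := hD.psdeep hv x (by linarith) h2 h3
  have h4 : S.F lam v y = c :=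
    tendsto_nhds_unique (((S.continuous_F lam v).tendsto y).comp hy) (h2.comp hφ.tendsto_atTop)
  have h5 : S.G lam v y = 0 :=
    tendsto_nhds_unique (((S.continuous_G lam v).tendsto y).comp hy) (h3.comp hφ.tendsto_atTop)
  refine ⟨y, ?_, ?_, h5⟩
  · rintro rfl; linarith
  · rintro rfl; linarith

variable (S)

end Setup

end Pool.Agent.Helper45.Kirchhoff
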