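import Pool.Agent.Helper45.KirchhoffHilbert

open MeasureTheory Filter Topology Set
open scoped ContDiff Gradient RealInnerProductSpace ENNReal NNReal

namespace Pool.Agent.Helper45.Kirchhoff

/-- The functional `g ↦ ∫ |f|^{q-2} f g` on `L^q`. -/
noncomputable def dN {α : Type*} [MeasurableSpace α] {μ : Measure α} {q : ℝ}
    [Fact (1 ≤ ENNReal.ofReal q)] (hq : 2 < q) (f : Lp ℝ (ENNReal.ofReal q) μ) :
    Lp ℝ (ENNReal.ofReal q) μ →L[ℝ] ℝ :=
  LinearMap.mkContinuous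
    { toFun := fun g => ∫ x, Power.psi q (f x) * g x ∂μ
      map_add' := by
        intro g h
        rw [← integral_add (Power.integrable_psi_mul hq f g) (Power.integrable_psi_mul hq f h)]
        apply integral_congr_ae
        filter_upwards [Lp.coeFn_add g h] with x hx
        rw [hx, Pi.add_apply]
        ring
      map_smul' := by
        intro c g
        rw [RingHom.id_apply, smul_eq_mul, ← integral_const_mul]
        apply integral_congr_ae
        filter_upwards [Lp.coeFn_smul c g] with x hx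
        rw [hx, Pi.smul_apply, smul_eq_mul]
        ring }
    (‖f‖ ^ (q - 2) * ‖f‖)
    (fun g => by
      rw [Real.norm_eq_abs]
      exact Power.abs_integral_psi_le hq f g)

lemma dN_apply {α : Type*} [MeasurableSpace α] {μ : Measure α} {q : ℝ}
    [Fact (1 ≤ ENNReal.ofReal q)] (hq : 2 < q) (f g : Lp ℝ (ENNReal.ofReal q) μ) :
    dN hq f g = ∫ x, Power.psi q (f x) * g x ∂μ := rfl

lemma dN_lip {α : Type*} [MeasurableSpace α] {μ : Measure α} {q : ℝ}
    [Fact (1 ≤ ENNReal.ofReal q)] (hq : 2 < q) (f g : Lp ℝ (ENNReal.ofReal q) μ) :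
    ‖dN hq f - dN hq g‖ ≤ (q - 1) * (‖f‖ ^ (q - 2) + ‖g‖ ^ (q - 2)) * ‖f - g‖ := by
  have hq1 : 0 ≤ q - 1 := by linarith
  apply ContinuousLinearMap.opNorm_le_bound _ (by positivity)
  intro w
  rw [sub_apply, dN_apply, dN_apply, Real.norm_eq_abs]
  exact Power.integral_psi_lip hq f g w

lemma inner_real (x y : ℝ) : ⟪x, y⟫ = x * y := by
  simp [mul_comm]

lemma norm_toDual_symm_sub {X : Type*} [NormedAddCommGroup X] [InnerProductSpace ℝ X]
    [CompleteSpace X] (A B : StrongDual ℝ X) :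
    ‖(InnerProductSpace.toDual ℝ X).symm A - (InnerProductSpace.toDual ℝ X).symm B‖ = ‖A - B‖ := by
  rw [← dist_eq_norm, ← dist_eq_norm]
  exact (InnerProductSpace.toDual ℝ X).symm.isometry.dist_eq A B

variable {N : ℕ} {Ω : Set (EuclideanSpace ℝ (Fin N))}

lemma memLp_iota (hN : 2 < N) (hΩb : Bornology.IsBounded Ω) (h : HH Ω) :
    MemLp (iota hN hΩb h) (ENNReal.ofReal (critExp N)) (volume.restrict Ω) := by
  obtain ⟨C, hC0, hC⟩ := sobolev (Ω := Ω) hN
  exact ⟨Lp.aestronglyMeasurable _, (hC _ (lift hN hΩb h).2).trans_lt ENNReal.ofReal_lt_top⟩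

lemma fact_critExp (hN : 2 < N) : Fact (1 ≤ ENNReal.ofReal (critExp N)) := by
  constructor
  rw [← ENNReal.ofReal_one]
  exact ENNReal.ofReal_le_ofReal (by linarith [critExp_gt hN])

/-- The Sobolev embedding. -/
lemma exists_embedding (hN : 2 < N) (hΩb : Bornology.IsBounded Ω)
    [Fact (1 ≤ ENNReal.ofReal (critExp N))] :
    ∃ T : HH Ω →L[ℝ] Lp ℝ (ENNReal.ofReal (critExp N)) (volume.restrict Ω),
      ∀ h, T h =ᵐ[volume.restrict Ω] iota hN hΩb h := by
  obtain ⟨C, hC0, hC⟩ := sobolev (Ω := Ω) hN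
  refine ⟨LinearMap.mkContinuous
    { toFun := fun h => (memLp_iota hN hΩb h).toLp
      map_add' := ?_
      map_smul' := ?_ } C ?_, ?_⟩
  · intro g h
    apply Lp.ext
    refine (MemLp.coeFn_toLp _).trans ?_
    refine EventuallyEq.trans ?_ (Lp.coeFn_add _ _).symm
    rw [map_add]
    refine (Lp.coeFn_add _ _).trans ?_
    exact (MemLp.coeFn_toLp (memLp_iota hN hΩb g)).symm.add
      (MemLp.coeFn_toLp (memLp_iota hN hΩb h)).symm
  · intro c h
    apply Lp.ext
    refine (MemLp.coeFn_toLp _).trans ?_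
    refine EventuallyEq.trans ?_ (Lp.coeFn_smul _ _).symm
    rw [map_smul]
    refine (Lp.coeFn_smul _ _).trans ?_
    exact (MemLp.coeFn_toLp (memLp_iota hN hΩb h)).symm.const_smul c
  · intro h
    show ‖(memLp_iota hN hΩb h).toLp‖ ≤ C * ‖h‖
    rw [Lp.norm_toLp]
    apply ENNReal.toReal_le_of_le_ofReal (by positivity)
    have h1 := hC _ (lift hN hΩb h).2
    rw [lift_snd] at h1
    exact h1
  · intro h
    exact MemLp.coeFn_toLp (memLp_iota hN hΩb h)

/-- Two test functions with disjoint supports. -/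
lemma exists_two (hN : 2 < N) (hΩ : IsOpen Ω) (hΩb : Bornology.IsBounded Ω) (hne : Ω.Nonempty) :
    ∃ ψ₁ ψ₂ : HH Ω, iota hN hΩb ψ₁ ≠ 0 ∧ iota hN hΩb ψ₂ ≠ 0 ∧
      ⟪iota hN hΩb ψ₁, iota hN hΩb ψ₂⟫ = 0 := by
  obtain ⟨x₀, hx₀⟩ := hne
  obtain ⟨r, hr, hball⟩ := Metric.isOpen_iff.1 hΩ x₀ hx₀
  have hN0 : 0 < N := by omega
  set e : EuclideanSpace ℝ (Fin N) := EuclideanSpace.single ⟨0, hN0⟩ 1 with he
  have hen : ‖e‖ = 1 := by simp [he]
  -- centers
  set x₁ := x₀ + (r / 2) • e with hx₁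
  have hd : dist x₀ x₁ = r / 2 := by
    rw [hx₁, dist_self_add_right, norm_smul, hen, mul_one, Real.norm_eq_abs, abs_of_pos (by positivity)]
  let f₁ : ContDiffBump x₀ := ⟨r / 16, r / 8, by positivity, by linarith⟩
  let f₂ : ContDiffBump x₁ := ⟨r / 16, r / 8, by positivity, by linarith⟩
  have s₁ : tsupport f₁ = Metric.closedBall x₀ (r / 8) := f₁.tsupport_eq
  have s₂ : tsupport f₂ = Metric.closedBall x₁ (r / 8) := f₂.tsupport_eq
  have t₁ : tsupport f₁ ⊆ Ω := by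
    rw [s₁]
    refine (Metric.closedBall_subset_ball (by linarith)).trans hball
  have t₂ : tsupport f₂ ⊆ Ω := by
    rw [s₂]
    refine Subset.trans ?_ hball
    intro y hy
    have h1 := Metric.mem_closedBall.1 hy
    rw [Metric.mem_ball]
    have h2 := dist_triangle y x₁ x₀
    rw [dist_comm x₁ x₀, hd] at h2
    linarith
  obtain ⟨p₁, hp₁, a₁, b₁⟩ := exists_pair f₁.contDiff f₁.hasCompactSupport t₁
  obtain ⟨p₂, hp₂, a₂, b₂⟩ := exists_pair f₂.contDiff f₂.hasCompactSupport t₂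
  obtain ⟨h₁, hh₁⟩ := lift_surj hN hΩb (subset_closure hp₁ : p₁ ∈ HS Ω)
  obtain ⟨h₂, hh₂⟩ := lift_surj hN hΩb (subset_closure hp₂ : p₂ ∈ HS Ω)
  have i₁ : iota hN hΩb h₁ = p₁.1 := by rw [iota_apply, hh₁]
  have i₂ : iota hN hΩb h₂ = p₂.1 := by rw [iota_apply, hh₂]
  have hnz : ∀ (c : EuclideanSpace ℝ (Fin N)) (f : ContDiffBump c) (g : L2 Ω),
      tsupport f ⊆ Ω → g =ᵐ[volume.restrict Ω] f → g ≠ 0 := by
    intro c f g ht hg h0
    have h1 : (f : EuclideanSpace ℝ (Fin N) → ℝ) =ᵐ[volume.restrict Ω] 0 := by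
      refine hg.symm.trans ?_
      rw [h0]
      exact Lp.coeFn_zero _ _ _
    have h2 : ∀ᵐ x ∂volume, x ∈ Ω → f x = 0 :=
      (ae_restrict_iff' hΩ.measurableSet).1 h1
    have h3 : ∀ᵐ x ∂volume, f x = 0 := by
      filter_upwards [h2] with x hx
      by_cases hxΩ : x ∈ Ω
      · exact hx hxΩ
      · by_contra h
        exact hxΩ (ht (subset_tsupport f h))
    have h4 : (f : EuclideanSpace ℝ (Fin N) → ℝ) = 0 :=
      Continuous.ae_eq_iff_eq volume f.continuous continuous_zero |>.1 h3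
    have h5 : f c = 1 := f.one_of_mem_closedBall (by simpa using f.rIn_pos.le)
    rw [h4] at h5
    simp at h5
  refine ⟨h₁, h₂, ?_, ?_, ?_⟩
  · rw [i₁]; exact hnz x₀ f₁ p₁.1 t₁ a₁
  · rw [i₂]; exact hnz x₁ f₂ p₂.1 t₂ a₂
  · rw [i₁, i₂, L2.inner_def]
    have : (fun x => ⟪p₁.1 x, p₂.1 x⟫) =ᵐ[volume.restrict Ω] fun _ => (0:ℝ) := by
      filter_upwards [a₁, a₂] with x hx hx'
      rw [hx, hx']
      by_cases h1 : f₁ x = 0
      · rw [h1]; simp
      · by_cases h2 : f₂ x = 0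
        · rw [h2]; simp
        · exfalso
          have k1 : x ∈ tsupport f₁ := subset_tsupport f₁ h1
          have k2 : x ∈ tsupport f₂ := subset_tsupport f₂ h2
          rw [s₁, Metric.mem_closedBall] at k1
          rw [s₂, Metric.mem_closedBall] at k2
          have k3 := dist_triangle x₀ x x₁
          rw [hd, dist_comm x₀ x] at k3
          linarith
    rw [integral_congr_ae this]
    simp

/-- The full statement on `Ω`. -/
theorem multiplicity_omega (hN : 4 < N) (hΩ : IsOpen Ω) (hne : Ω.Nonempty)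
    (hΩb : Bornology.IsBounded Ω) {a b : ℝ} (ha : 0 ≤ a) (hb : 0 < b) :
    MultiplicityProperty Ω a b := by
  have hN2 : 2 < N := by omega
  have hF : Fact (1 ≤ ENNReal.ofReal (critExp N)) := fact_critExp hN2
  have hcomp : CompleteSpace (HH Ω) := completeSpace_HH hN2 hΩb
  obtain ⟨T, hT⟩ := exists_embedding (Ω := Ω) hN2 hΩb
  obtain ⟨ψ₁, ψ₂, k1, k2, k3⟩ := exists_two hN2 hΩ hΩb hne
  set q := critExp N with hqdef
  have hq : 2 < q := critExp_gt hN2
  set CT : ℝ := ‖T‖ + 1 with hCT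
  have hCT0 : 0 < CT := by positivity
  have hTle : ∀ h, ‖T h‖ ≤ CT * ‖h‖ := fun h =>
    (T.le_opNorm h).trans (by gcongr; linarith)
  have hTq : ∀ h, ‖T h‖ ^ q ≤ CT ^ q * ‖h‖ ^ q := by
    intro h
    rw [← Real.mul_rpow hCT0.le (norm_nonneg _)]
    exact Real.rpow_le_rpow (norm_nonneg _) (hTle h) (by linarith)
  have hTq2 : ∀ h, ‖T h‖ ^ (q - 2) ≤ CT ^ (q - 2) * ‖h‖ ^ (q - 2) := by
    intro h
    rw [← Real.mul_rpow hCT0.le (norm_nonneg _)]
    exact Real.rpow_le_rpow (norm_nonneg _) (hTle h) (by linarith)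
  let S : Setup (HH Ω) (L2 Ω) :=
    { ι := iota hN2 hΩb
      Φ := fun h => ‖T h‖ ^ q / q
      D := fun h => (InnerProductSpace.toDual ℝ (HH Ω)).symm ((dN hq (T h)).comp T)
      p := q
      c := (q - 1) * CT ^ q
      a := a
      b := b
      hp2 := hq
      hp4 := critExp_lt hN
      hc := by
        have : 0 ≤ q - 1 := by linarith
        positivity
      ha := ha
      hb := hb
      Φ_nonneg := fun h => by
        have : 0 < q := by linarith
        positivity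
      Φ_le := fun h => by
        have h0 : 0 < q := by linarith
        have h1 := hTq h
        have h2 : 0 ≤ CT ^ q * ‖h‖ ^ q := by positivity
        calc ‖T h‖ ^ q / q ≤ CT ^ q * ‖h‖ ^ q / q := by gcongr
          _ ≤ (q - 1) * CT ^ q * ‖h‖ ^ q := by
              rw [div_le_iff₀ h0]
              have h3 : 1 ≤ (q - 1) * q := by nlinarith
              calc CT ^ q * ‖h‖ ^ q = 1 * (CT ^ q * ‖h‖ ^ q) := (one_mul _).symm
                _ ≤ ((q - 1) * q) * (CT ^ q * ‖h‖ ^ q) := by gcongr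
                _ = _ := by ring
      Φ_even := fun h => by rw [map_neg, norm_neg]
      Φ_convex := fun u h => by
        rw [InnerProductSpace.toDual_symm_apply, map_add]
        exact Power.integral_convex hq (T u) (T h)
      D_lip := fun u w => by
        have hq1 : 0 ≤ q - 1 := by linarith
        rw [norm_toDual_symm_sub, ← ContinuousLinearMap.sub_comp]
        have h1 := dN_lip hq (T u) (T w)
        have h2 := ContinuousLinearMap.opNorm_comp_le (dN hq (T u) - dN hq (T w)) T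
        have h3 : ‖T u - T w‖ ≤ CT * ‖u - w‖ := by rw [← map_sub]; exact hTle _
        have h4 : ‖T‖ ≤ CT := by linarith
        have h5 : CT ^ q = CT ^ (q - 2) * CT * CT := by
          rw [mul_assoc, ← sq, ← Real.rpow_two, ← Real.rpow_add hCT0]
          ring_nf
        calc _ ≤ _ := h2
          _ ≤ ((q - 1) * (‖T u‖ ^ (q - 2) + ‖T w‖ ^ (q - 2)) * ‖T u - T w‖) * CT := by gcongr
          _ ≤ ((q - 1) * (CT ^ (q - 2) * ‖u‖ ^ (q - 2) + CT ^ (q - 2) * ‖w‖ ^ (q - 2)) *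
                (CT * ‖u - w‖)) * CT := by
              gcongr
              · exact hTq2 u
              · exact hTq2 w
          _ = _ := by rw [h5]; ring
      compact' := iota_compact hN2 hΩ hΩb
      ψ₁ := ψ₁
      ψ₂ := ψ₂
      hψ₁ := k1
      hψ₂ := k2
      hψ := k3 }
  -- dictionary
  have hkey : ∀ h : HH Ω, ‖T h‖ ^ q = ∫ x in Ω, |iota hN2 hΩb h x| ^ q := by
    intro h
    rw [← (Power.integral_abs_rpow hq (T h)).1]
    apply integral_congr_ae
    filter_upwards [hT h] with x hx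
    rw [hx]
  have hnorm : ∀ h : HH Ω, ‖(lift hN2 hΩb h : L2 Ω × L2v Ω).2‖ = ‖h‖ := by
    intro h; rw [lift_snd]; rfl
  have henergy : ∀ (lam : ℝ) (v : L2 Ω) (h : HH Ω),
      energy a b lam v (lift hN2 hΩb h : L2 Ω × L2v Ω) = S.F lam v h - lam / 2 * ‖v‖ ^ 2 := by
    intro lam v h
    unfold energy Setup.F
    rw [hnorm]
    show _ = a / 2 * ‖h‖ ^ 2 + b / 4 * ‖h‖ ^ 4 - ‖T h‖ ^ q / q - lam / 2 * ‖iota hN2 hΩb h‖ ^ 2
      + lam * ⟪iota hN2 hΩb h, v⟫ - lam / 2 * ‖v‖ ^ 2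
    rw [hkey, norm_sub_sq_real, ← iota_apply, show critExp N = q from rfl]
    ring
  have hmin : ∀ (lam : ℝ) (v : L2 Ω) (h : HH Ω), (∀ w, S.F lam v h ≤ S.F lam v w) →
      IsGlobalMinimizer a b lam v (lift hN2 hΩb h : L2 Ω × L2v Ω) := by
    intro lam v h hh
    refine ⟨(lift hN2 hΩb h).2, fun w hw => ?_⟩
    obtain ⟨g, rfl⟩ := lift_surj hN2 hΩb (mem_HS.2 hw)
    rw [henergy, henergy]
    linarith [hh g]
  have hweak : ∀ (lam : ℝ) (v : L2 Ω) (h : HH Ω), S.G lam v h = 0 →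
      IsWeakSolution a b lam v (lift hN2 hΩb h : L2 Ω × L2v Ω) := by
    intro lam v h hh
    refine ⟨(lift hN2 hΩb h).2, fun w hw => ?_⟩
    obtain ⟨g, rfl⟩ := lift_surj hN2 hΩb (mem_HS.2 hw)
    have h1 := S.inner_G lam v h g
    rw [hh, inner_zero_left] at h1
    have h2 : ⟪S.D h, g⟫ = ∫ x in Ω, |iota hN2 hΩb h x| ^ (q - 2) * iota hN2 hΩb h x *
        iota hN2 hΩb g x := by
      show ⟪(InnerProductSpace.toDual ℝ (HH Ω)).symm ((dN hq (T h)).comp T), g⟫ = _
      rw [InnerProductSpace.toDual_symm_apply]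
      show dN hq (T h) (T g) = _
      rw [dN_apply]
      apply integral_congr_ae
      filter_upwards [hT h, hT g] with x hx hx'
      rw [hx, hx']
      rfl
    have h3 : ⟪h, g⟫ = ∫ x in Ω, ⟪(lift hN2 hΩb h : L2 Ω × L2v Ω).2 x,
        (lift hN2 hΩb g : L2 Ω × L2v Ω).2 x⟫ := by
      rw [lift_snd, lift_snd]
      show ⟪(h : L2v Ω), (g : L2v Ω)⟫ = _
      rw [L2.inner_def]
    have h4 : ⟪iota hN2 hΩb h - v, iota hN2 hΩb g⟫ =
        ∫ x in Ω, (iota hN2 hΩb h x - v x) * iota hN2 hΩb g x := by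
      rw [L2.inner_def]
      apply integral_congr_ae
      filter_upwards [Lp.coeFn_sub (iota hN2 hΩb h) v] with x hx
      rw [hx, Pi.sub_apply, inner_real]
    rw [hnorm, ← h3]
    have h5 : 0 = (a + b * ‖h‖ ^ 2) * ⟪h, g⟫ - ⟪S.D h, g⟫ -
        lam * ⟪iota hN2 hΩb h - v, iota hN2 hΩb g⟫ := h1
    rw [h2, h4] at h5
    have h6 : (∫ x in Ω, |(lift hN2 hΩb h : L2 Ω × L2v Ω).1 x| ^ (critExp N - 2) *
        (lift hN2 hΩb h : L2 Ω × L2v Ω).1 x * (lift hN2 hΩb g : L2 Ω × L2v Ω).1 x) =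
        ∫ x in Ω, |iota hN2 hΩb h x| ^ (q - 2) * iota hN2 hΩb h x * iota hN2 hΩb g x := rfl
    have h7 : (∫ x in Ω, ((lift hN2 hΩb h : L2 Ω × L2v Ω).1 x - v x) *
        (lift hN2 hΩb g : L2 Ω × L2v Ω).1 x) =
        ∫ x in Ω, (iota hN2 hΩb h x - v x) * iota hN2 hΩb g x := rfl
    rw [h6, h7]
    linarith
  obtain ⟨Λ, hΛ⟩ := S.multiplicity
  refine ⟨max Λ 1, by positivity, fun lam hlam C hC hdense => ?_⟩
  obtain ⟨v, hvC, u₁, u₂, u₃, n1, n2, n3, m1, m2, g1, g2, g3⟩ :=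
    hΛ lam ((le_max_left _ _).trans hlam.le) C hC
    (fun u => hdense _ (lift hN2 hΩb u).2)
  have hinj := iota_injective hN2 hΩ hΩb
  refine ⟨v, hvC, lift hN2 hΩb u₁, lift hN2 hΩb u₂, lift hN2 hΩb u₃, hmin _ _ _ m1, hmin _ _ _ m2,
    hweak _ _ _ g1, hweak _ _ _ g2, hweak _ _ _ g3, ?_, ?_, ?_⟩
  · exact fun h => n1 (hinj h)
  · exact fun h => n2 (hinj h).symm
  · exact fun h => n3 (hinj h).symm

end Pool.Agent.Helper45.Kirchhoff
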