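import Pool.Agent.Helper45.KirchhoffStatement
import Pool.Agent.Helper45.KirchhoffFinal

open MeasureTheory Filter Topology Set
open scoped ContDiff Gradient RealInnerProductSpace ENNReal NNReal

namespace Pool.Agent.Helper45.KirchhoffBridge

open Pool.Agent.Helper45 KirchhoffStatement

variable {N : ℕ} {Ω : Set (EuclideanSpace ℝ (Fin N))}

lemma norm_sq_real (f : Kirchhoff.L2 Ω) : ‖f‖ ^ 2 = ∫ x in Ω, (f x) ^ 2 := by
  rw [← real_inner_self_eq_norm_sq, L2.inner_def]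
  apply integral_congr_ae
  refine Eventually.of_forall fun x => ?_
  show ⟪f x, f x⟫ = f x ^ 2
  rw [real_inner_self_eq_norm_sq, Real.norm_eq_abs, sq_abs]

lemma norm_sq_vec (F : Kirchhoff.L2v Ω) : ‖F‖ ^ 2 = ∫ x in Ω, ‖F x‖ ^ 2 := by
  rw [← real_inner_self_eq_norm_sq, L2.inner_def]
  apply integral_congr_ae
  refine Eventually.of_forall fun x => ?_
  show ⟪F x, F x⟫ = ‖F x‖ ^ 2
  rw [real_inner_self_eq_norm_sq]

lemma sqNorm_eq {F : Kirchhoff.L2v Ω} {G : RN N → RN N} (h : F =ᵐ[volume.restrict Ω] G) :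
    sqNorm Ω G = ‖F‖ ^ 2 := by
  rw [norm_sq_vec]
  unfold sqNorm integ
  apply integral_congr_ae
  filter_upwards [h] with x hx
  rw [hx]

lemma sqDist_eq {f g : Kirchhoff.L2 Ω} {u v : RN N → ℝ} (hf : f =ᵐ[volume.restrict Ω] u)
    (hg : g =ᵐ[volume.restrict Ω] v) : sqDist Ω u v = ‖f - g‖ ^ 2 := by
  rw [norm_sq_real]
  unfold sqDist integ
  apply integral_congr_ae
  filter_upwards [hf, hg, Lp.coeFn_sub f g] with x hx hx' hx''
  rw [hx'', Pi.sub_apply, hx, hx']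

lemma exists_of_isH10 {u : RN N → ℝ} {G : RN N → RN N} (h : IsH10 Ω u G) :
    ∃ p ∈ Kirchhoff.H10 Ω, p.1 =ᵐ[volume.restrict Ω] u ∧ p.2 =ᵐ[volume.restrict Ω] G := by
  obtain ⟨hu, hG, happ⟩ := h
  have hu' : MemLp u 2 (volume.restrict Ω) := hu
  have hG' : MemLp G 2 (volume.restrict Ω) := hG
  refine ⟨(hu'.toLp, hG'.toLp), ?_, hu'.coeFn_toLp, hG'.coeFn_toLp⟩
  unfold Kirchhoff.H10
  rw [Metric.mem_closure_iff]
  intro ε hε
  obtain ⟨φ, ⟨h1, h2, h3⟩, h4, h5⟩ := happ (ε ^ 2) (by positivity)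
  obtain ⟨q, hq, hq1, hq2⟩ := Kirchhoff.exists_pair h1 h2 h3
  refine ⟨q, hq, ?_⟩
  have e1 : ‖q.1 - hu'.toLp‖ ^ 2 < ε ^ 2 := by
    rw [← sqDist_eq hq1 hu'.coeFn_toLp]; exact h4
  have e2 : ‖q.2 - hG'.toLp‖ ^ 2 < ε ^ 2 := by
    have h6 : (q.2 - hG'.toLp : Kirchhoff.L2v Ω) =ᵐ[volume.restrict Ω] fun x => ∇ φ x - G x := by
      filter_upwards [Lp.coeFn_sub q.2 hG'.toLp, hq2, hG'.coeFn_toLp] with x hx hx' hx''
      rw [hx, Pi.sub_apply, hx', hx'']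
    rw [← sqNorm_eq h6]; exact h5
  have e1' : ‖q.1 - hu'.toLp‖ < ε := lt_of_pow_lt_pow_left₀ 2 hε.le e1
  have e2' : ‖q.2 - hG'.toLp‖ < ε := lt_of_pow_lt_pow_left₀ 2 hε.le e2
  rw [Prod.dist_eq]
  apply max_lt
  · rw [dist_comm, dist_eq_norm]; exact e1'
  · rw [dist_comm, dist_eq_norm]; exact e2'

lemma isH10_of_mem {p : Kirchhoff.L2 Ω × Kirchhoff.L2v Ω} (hp : p ∈ Kirchhoff.H10 Ω) :
    IsH10 Ω p.1 p.2 := by
  refine ⟨Lp.memLp p.1, Lp.memLp p.2, fun ε hε => ?_⟩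
  obtain ⟨q, ⟨φ, h1, h2, h3, h4, h5⟩, hdist⟩ := Metric.mem_closure_iff.1 hp (Real.sqrt ε)
    (Real.sqrt_pos.2 hε)
  have e1 : ‖q.1 - p.1‖ < Real.sqrt ε := by
    rw [← dist_eq_norm, dist_comm]
    exact lt_of_le_of_lt (le_max_left _ _) hdist
  have e2 : ‖q.2 - p.2‖ < Real.sqrt ε := by
    rw [← dist_eq_norm, dist_comm]
    exact lt_of_le_of_lt (le_max_right _ _) hdist
  refine ⟨φ, ⟨h1, h2, h3⟩, ?_, ?_⟩
  · rw [sqDist_eq h4 (EventuallyEq.refl _ _)]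
    calc ‖q.1 - p.1‖ ^ 2 < Real.sqrt ε ^ 2 := by gcongr
      _ = ε := Real.sq_sqrt hε.le
  · have h6 : (q.2 - p.2 : Kirchhoff.L2v Ω) =ᵐ[volume.restrict Ω] fun x => ∇ φ x - p.2 x := by
      filter_upwards [Lp.coeFn_sub q.2 p.2, h5] with x hx hx'
      rw [hx, Pi.sub_apply, hx']
    rw [sqNorm_eq h6]
    calc ‖q.2 - p.2‖ ^ 2 < Real.sqrt ε ^ 2 := by gcongr
      _ = ε := Real.sq_sqrt hε.le

lemma energy_eq {a b lam : ℝ} {p : Kirchhoff.L2 Ω × Kirchhoff.L2v Ω} {w : Kirchhoff.L2 Ω}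
    {u v : RN N → ℝ} {G : RN N → RN N} (h1 : p.1 =ᵐ[volume.restrict Ω] u)
    (h2 : p.2 =ᵐ[volume.restrict Ω] G) (h3 : w =ᵐ[volume.restrict Ω] v) :
    energy Ω a b lam v u G = Kirchhoff.energy a b lam w p := by
  unfold energy Kirchhoff.energy
  rw [sqNorm_eq h2, sqDist_eq h1 h3]
  have : integ Ω (fun x => |u x| ^ critExp N) = ∫ x in Ω, |p.1 x| ^ Kirchhoff.critExp N := by
    unfold integ
    apply integral_congr_ae
    filter_upwards [h1] with x hx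
    rw [hx]
    rfl
  rw [this]
  have h4 : (‖p.2‖ ^ 2) ^ 2 = ‖p.2‖ ^ 4 := by ring
  rw [h4]
  rfl

lemma isGlobalMinimizer_of {a b lam : ℝ} {p : Kirchhoff.L2 Ω × Kirchhoff.L2v Ω}
    {w : Kirchhoff.L2 Ω} {v : RN N → ℝ} (h3 : w =ᵐ[volume.restrict Ω] v)
    (h : Kirchhoff.IsGlobalMinimizer a b lam w p) :
    IsGlobalMinimizer Ω a b lam v p.1 p.2 := by
  refine ⟨isH10_of_mem h.1, fun u' G' h' => ?_⟩
  obtain ⟨q, hq, hq1, hq2⟩ := exists_of_isH10 h'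
  rw [energy_eq (EventuallyEq.refl _ _) (EventuallyEq.refl _ _) h3, energy_eq hq1 hq2 h3]
  exact h.2 q hq

lemma isWeakSolution_of {a b lam : ℝ} {p : Kirchhoff.L2 Ω × Kirchhoff.L2v Ω}
    {w : Kirchhoff.L2 Ω} {v : RN N → ℝ} (h3 : w =ᵐ[volume.restrict Ω] v)
    (h : Kirchhoff.IsWeakSolution a b lam w p) :
    IsWeakSolution Ω a b lam v p.1 p.2 := by
  refine ⟨isH10_of_mem h.1, fun u' G' h' => ?_⟩
  obtain ⟨q, hq, hq1, hq2⟩ := exists_of_isH10 h'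
  have key := h.2 q hq
  rw [sqNorm_eq (EventuallyEq.refl _ _)]
  have e1 : integ Ω (fun x => inner ℝ (p.2 x) (G' x)) = ∫ x in Ω, ⟪p.2 x, q.2 x⟫ := by
    unfold integ
    apply integral_congr_ae
    filter_upwards [hq2] with x hx
    rw [hx]
  have e2 : integ Ω (fun x => |p.1 x| ^ (critExp N - 2) * p.1 x * u' x) =
      ∫ x in Ω, |p.1 x| ^ (Kirchhoff.critExp N - 2) * p.1 x * q.1 x := by
    unfold integ
    apply integral_congr_ae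
    filter_upwards [hq1] with x hx
    rw [hx]
    rfl
  have e3 : integ Ω (fun x => (p.1 x - v x) * u' x) = ∫ x in Ω, (p.1 x - w x) * q.1 x := by
    unfold integ
    apply integral_congr_ae
    filter_upwards [hq1, h3] with x hx hx'
    rw [hx, hx']
  rw [e1, e2, e3]
  exact key

lemma sqDist_pos {f g : Kirchhoff.L2 Ω} (h : f ≠ g) : 0 < sqDist Ω f g := by
  rw [sqDist_eq (EventuallyEq.refl _ _) (EventuallyEq.refl _ _)]
  have : 0 < ‖f - g‖ := norm_pos_iff.2 (sub_ne_zero.2 h)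
  positivity

theorem multiplicity (hN : 4 < N) (hΩ : IsOpen Ω) (hne : Ω.Nonempty)
    (hΩb : Bornology.IsBounded Ω) {a b : ℝ} (ha : 0 ≤ a) (hb : 0 < b) :
    MultiplicityProperty Ω a b := by
  obtain ⟨Λ, hΛ0, hΛ⟩ := Kirchhoff.multiplicity_omega hN hΩ hne hΩb ha hb
  refine ⟨Λ, hΛ0, fun lam hlam C hCmem hCconv hCdense => ?_⟩
  set C' : Set (Kirchhoff.L2 Ω) := {f | ∃ v ∈ C, f =ᵐ[volume.restrict Ω] v} with hC'
  have hconv : Convex ℝ C' := by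
    rintro f ⟨v, hv, hfv⟩ g ⟨w, hw, hgw⟩ s t hs ht hst
    refine ⟨s • v + t • w, hCconv hv hw hs ht hst, ?_⟩
    filter_upwards [Lp.coeFn_add (s • f) (t • g), Lp.coeFn_smul s f, Lp.coeFn_smul t g, hfv, hgw]
      with x h1 h2 h3 h4 h5
    rw [h1, Pi.add_apply, h2, h3, Pi.smul_apply, Pi.smul_apply, h4, h5]
    rfl
  have hdense : ∀ u ∈ Kirchhoff.H10 Ω, u.1 ∈ closure C' := by
    intro u hu
    rw [Metric.mem_closure_iff]
    intro ε hε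
    obtain ⟨v, hv, hv2⟩ := hCdense u.1 u.2 (isH10_of_mem hu) (ε ^ 2) (by positivity)
    have hvm : MemLp v 2 (volume.restrict Ω) := hCmem v hv
    refine ⟨hvm.toLp, ⟨v, hv, hvm.coeFn_toLp⟩, ?_⟩
    rw [sqDist_eq (EventuallyEq.refl _ _) hvm.coeFn_toLp] at hv2
    rw [dist_eq_norm]
    exact lt_of_pow_lt_pow_left₀ 2 hε.le hv2
  obtain ⟨v', ⟨v, hv, hvv⟩, u₁, u₂, u₃, m1, m2, w1, w2, w3, n1, n2, n3⟩ := hΛ lam hlam C' hconv hdense
  exact ⟨v, hv, u₁.1, u₂.1, u₃.1, u₁.2, u₂.2, u₃.2, isGlobalMinimizer_of hvv m1,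
    isGlobalMinimizer_of hvv m2, isWeakSolution_of hvv w1, isWeakSolution_of hvv w2,
    isWeakSolution_of hvv w3, sqDist_pos n1, sqDist_pos n2, sqDist_pos n3⟩

end Pool.Agent.Helper45.KirchhoffBridge
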