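import Pool.Agent.Helper45.KirchhoffAbs

open Filter Topology Set
open scoped RealInnerProductSpace

namespace Pool.Agent.Helper45.Kirchhoff

variable {H L : Type*} [NormedAddCommGroup H] [InnerProductSpace ℝ H] [CompleteSpace H]
    [NormedAddCommGroup L] [InnerProductSpace ℝ L] [CompleteSpace L]

namespace Setup

variable (S : Setup H L)

/-- The limiting functional. -/
noncomputable def J (w : H) : ℝ := S.b / 4 * ‖w‖ ^ 4 - 1 / 2 * ‖S.ι w‖ ^ 2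

lemma F_upper {s : ℝ} (hs : 0 ≤ s) {v : L} (hv : ‖v‖ ≤ 1) (w : H) :
    S.F (s ^ 2) v (s • w) ≤ s ^ 4 * S.J w + S.a / 2 * s ^ 2 * ‖w‖ ^ 2 + s ^ 3 * (‖S.ι‖ * ‖w‖) := by
  unfold F J
  have h1 := S.Φ_nonneg (s • w)
  rw [map_smul, norm_smul, norm_smul, real_inner_smul_left, Real.norm_eq_abs, abs_of_nonneg hs]
  have h2 := (abs_le.1 (abs_real_inner_le_norm (S.ι w) v)).2
  have h3 : ‖S.ι w‖ * ‖v‖ ≤ ‖S.ι w‖ := mul_le_of_le_one_right (norm_nonneg _) hv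
  have h4 := S.norm_ι_le w
  have h5 : s ^ 3 * ⟪S.ι w, v⟫ ≤ s ^ 3 * (‖S.ι‖ * ‖w‖) := by
    gcongr; linarith
  nlinarith

lemma F_lower {s : ℝ} (hs : 0 ≤ s) {v : L} (hv : ‖v‖ ≤ 1) (w : H) :
    s ^ 4 * S.J w - S.c * (s ^ S.p * ‖w‖ ^ S.p) - s ^ 3 * (‖S.ι‖ * ‖w‖) ≤
      S.F (s ^ 2) v (s • w) := by
  unfold F J
  have h1 := S.Φ_le (s • w)
  rw [map_smul, norm_smul, real_inner_smul_left]
  rw [norm_smul, Real.norm_eq_abs, abs_of_nonneg hs] at h1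
  rw [norm_smul, Real.norm_eq_abs, abs_of_nonneg hs]
  rw [Real.mul_rpow hs (norm_nonneg _)] at h1
  have h2 := (abs_le.1 (abs_real_inner_le_norm (S.ι w) v)).1
  have h3 : ‖S.ι w‖ * ‖v‖ ≤ ‖S.ι w‖ := mul_le_of_le_one_right (norm_nonneg _) hv
  have h4 := S.norm_ι_le w
  have h5 : s ^ 3 * -(‖S.ι‖ * ‖w‖) ≤ s ^ 3 * ⟪S.ι w, v⟫ := by
    gcongr; linarith
  have h6 : 0 ≤ S.a / 2 * (s * ‖w‖) ^ 2 := by
    have := S.ha
    positivity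
  nlinarith

lemma J_smul_le {t : ℝ} (ht0 : 0 ≤ t) (ht1 : t ≤ 1) (w : H) : S.J (t • w) ≤ t ^ 2 * S.J w := by
  unfold J
  rw [map_smul, norm_smul, norm_smul, Real.norm_eq_abs, abs_of_nonneg ht0]
  have h1 : t ^ 4 ≤ t ^ 2 := by
    have h2 : t ^ 2 ≤ 1 := by nlinarith
    nlinarith [sq_nonneg t]
  have h2 : 0 ≤ S.b / 4 * ‖w‖ ^ 4 := by
    have := S.hb
    positivity
  have h3 : t ^ 4 * (S.b / 4 * ‖w‖ ^ 4) ≤ t ^ 2 * (S.b / 4 * ‖w‖ ^ 4) := by gcongr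
  nlinarith

/-- The region used for the paths. -/
def P (δ R : ℝ) : Set H := {z | S.J z ≤ -δ ∧ ‖z‖ ≤ R}

lemma segment_P {y R τ : ℝ} (hR : 0 < R) (hτ0 : 0 < τ) (hτ1 : τ ≤ 1)
    (hτ : τ ^ 2 * (2 * S.b * R ^ 4) ≤ y) {z z' : H} (hz : ‖z‖ ≤ R) (hz' : ‖z'‖ ≤ R)
    (hyz : y ≤ ‖S.ι z‖ ^ 2) (hyz' : y ≤ ‖S.ι z'‖ ^ 2) (hzz : 0 ≤ ⟪S.ι z, S.ι z'⟫) :
    segment ℝ (τ • z) (τ • z') ⊆ S.P (τ ^ 2 * y / 8) R := by
  rintro x ⟨α, β, hα, hβ, hαβ, rfl⟩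
  have hb := S.hb
  set q : H := α • z + β • z' with hq
  have hx : α • τ • z + β • τ • z' = τ • q := by
    rw [hq, smul_add, smul_comm τ α, smul_comm τ β]
  rw [hx]
  have hqR : ‖q‖ ≤ R := by
    calc ‖q‖ ≤ ‖α • z‖ + ‖β • z'‖ := norm_add_le _ _
      _ = α * ‖z‖ + β * ‖z'‖ := by
          rw [norm_smul, norm_smul, Real.norm_eq_abs, Real.norm_eq_abs, abs_of_nonneg hα,
            abs_of_nonneg hβ]
      _ ≤ α * R + β * R := by gcongr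
      _ = R := by rw [← add_mul, hαβ, one_mul]
  have hqy : y / 2 ≤ ‖S.ι q‖ ^ 2 := by
    have h1 : ‖S.ι q‖ ^ 2 = α ^ 2 * ‖S.ι z‖ ^ 2 + 2 * (α * β * ⟪S.ι z, S.ι z'⟫)
        + β ^ 2 * ‖S.ι z'‖ ^ 2 := by
      rw [hq, map_add, map_smul, map_smul, norm_add_sq_real, real_inner_smul_left,
        real_inner_smul_right, norm_smul, norm_smul, Real.norm_eq_abs, Real.norm_eq_abs, mul_pow,
        mul_pow, sq_abs, sq_abs]
      ring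
    have hy0 : 0 ≤ y := le_trans (by positivity) hτ
    have h2 : 0 ≤ α * β * ⟪S.ι z, S.ι z'⟫ := by positivity
    have h3 : α ^ 2 * y ≤ α ^ 2 * ‖S.ι z‖ ^ 2 := by gcongr
    have h4 : β ^ 2 * y ≤ β ^ 2 * ‖S.ι z'‖ ^ 2 := by gcongr
    have h5 : 1 / 2 ≤ α ^ 2 + β ^ 2 := by nlinarith [sq_nonneg (α - β)]
    have h6 : 1 / 2 * y ≤ (α ^ 2 + β ^ 2) * y := by gcongr
    linarith
  refine ⟨?_, ?_⟩
  · unfold J
    rw [map_smul, norm_smul, norm_smul, Real.norm_eq_abs, abs_of_pos hτ0]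
    have h1 : ‖q‖ ^ 4 ≤ R ^ 4 := by gcongr
    have h2 : S.b / 4 * (τ * ‖q‖) ^ 4 ≤ τ ^ 2 * (y / 8) := by
      calc S.b / 4 * (τ * ‖q‖) ^ 4 = τ ^ 2 * (S.b / 4 * (τ ^ 2 * ‖q‖ ^ 4)) := by ring
        _ ≤ τ ^ 2 * (S.b / 4 * (τ ^ 2 * R ^ 4)) := by gcongr
        _ = τ ^ 2 * ((τ ^ 2 * (2 * S.b * R ^ 4)) / 8) := by ring
        _ ≤ τ ^ 2 * (y / 8) := by gcongr
    have h3 : 1 / 2 * (τ * ‖S.ι q‖) ^ 2 ≥ τ ^ 2 * (y / 4) := by
      have : 1 / 2 * (τ * ‖S.ι q‖) ^ 2 = τ ^ 2 * (‖S.ι q‖ ^ 2 / 2) := by ring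
      rw [this]
      have : y / 4 ≤ ‖S.ι q‖ ^ 2 / 2 := by linarith
      gcongr
    nlinarith
  · rw [norm_smul, Real.norm_eq_abs, abs_of_pos hτ0]
    nlinarith [norm_nonneg q]

/-- Deep points are joined inside the deep region, which stays away from the origin. -/
lemma joined_P : ∀ δ R' : ℝ, 0 < δ → 0 < R' → ∃ δ₂ R : ℝ, 0 < δ₂ ∧ δ₂ ≤ δ ∧ 0 < R ∧
    ∀ w₁ w₂ : H, S.J w₁ ≤ - δ → S.J w₂ ≤ - δ → ‖w₁‖ ≤ R' → ‖w₂‖ ≤ R' →
      JoinedIn (S.P δ₂ R) w₁ w₂ := by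
  intro δ R' hδ hR'
  have hb := S.hb
  have hn1 : 0 < ‖S.ι S.ψ₁‖ ^ 2 := by
    have := norm_pos_iff.2 S.hψ₁
    positivity
  have hn2 : 0 < ‖S.ι S.ψ₂‖ ^ 2 := by
    have := norm_pos_iff.2 S.hψ₂
    positivity
  set y : ℝ := min δ (min (‖S.ι S.ψ₁‖ ^ 2) (‖S.ι S.ψ₂‖ ^ 2)) with hy
  have hy0 : 0 < y := by positivity
  have hyδ : y ≤ δ := min_le_left _ _
  have hy1 : y ≤ ‖S.ι S.ψ₁‖ ^ 2 := (min_le_right _ _).trans (min_le_left _ _)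
  have hy2 : y ≤ ‖S.ι S.ψ₂‖ ^ 2 := (min_le_right _ _).trans (min_le_right _ _)
  set R : ℝ := max R' (max ‖S.ψ₁‖ ‖S.ψ₂‖) with hR
  have hR0 : 0 < R := lt_of_lt_of_le hR' (le_max_left _ _)
  have hR1 : R' ≤ R := le_max_left _ _
  have hR2 : ‖S.ψ₁‖ ≤ R := (le_max_left _ _).trans (le_max_right _ _)
  have hR3 : ‖S.ψ₂‖ ≤ R := (le_max_right _ _).trans (le_max_right _ _)
  set τ : ℝ := min 1 (y / (2 * S.b * R ^ 4)) with hτ
  have hτ0 : 0 < τ := by positivity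
  have hτ1 : τ ≤ 1 := min_le_left _ _
  have hτ2 : τ ^ 2 * (2 * S.b * R ^ 4) ≤ y := by
    have h1 : τ ≤ y / (2 * S.b * R ^ 4) := min_le_right _ _
    rw [le_div_iff₀ (by positivity)] at h1
    have h2 : τ ^ 2 ≤ τ := by nlinarith
    have h3 : τ ^ 2 * (2 * S.b * R ^ 4) ≤ τ * (2 * S.b * R ^ 4) := by gcongr
    linarith
  have hiota : ∀ w, S.J w ≤ -δ → y ≤ ‖S.ι w‖ ^ 2 := by
    intro w hw
    unfold J at hw
    have : 0 ≤ S.b / 4 * ‖w‖ ^ 4 := by positivity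
    nlinarith
  have hδ2 : τ ^ 2 * y / 8 ≤ τ ^ 2 * δ := by nlinarith [sq_nonneg τ, sq_pos_of_pos hτ0]
  have hτsq : τ ^ 2 ≤ 1 := by nlinarith
  -- each deep point is joined to `τ • ψ₂`
  have hseg12 : JoinedIn (S.P (τ ^ 2 * y / 8) R) (τ • S.ψ₁) (τ • S.ψ₂) := by
    apply JoinedIn.of_segment_subset
    exact S.segment_P hR0 hτ0 hτ1 hτ2 hR2 hR3 hy1 hy2 S.hψ.ge
  have hseg12' : JoinedIn (S.P (τ ^ 2 * y / 8) R) (τ • (-S.ψ₁)) (τ • S.ψ₂) := by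
    apply JoinedIn.of_segment_subset
    refine S.segment_P hR0 hτ0 hτ1 hτ2 (by rwa [norm_neg]) hR3 (by rwa [map_neg, norm_neg]) hy2 ?_
    rw [map_neg, inner_neg_left, S.hψ, neg_zero]
  have hmain : ∀ w, S.J w ≤ -δ → ‖w‖ ≤ R' →
      JoinedIn (S.P (τ ^ 2 * y / 8) R) w (τ • S.ψ₂) := by
    intro w hw hwR
    have h1 : JoinedIn (S.P (τ ^ 2 * y / 8) R) w (τ • w) := by
      apply JoinedIn.of_segment_subset
      rintro x ⟨α, β, hα, hβ, hαβ, rfl⟩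
      have hx : α • w + β • τ • w = (α + β * τ) • w := by rw [add_smul, mul_smul]
      rw [hx]
      have ht0 : τ ≤ α + β * τ := by nlinarith
      have ht1 : α + β * τ ≤ 1 := by nlinarith
      have ht : 0 ≤ α + β * τ := by linarith
      refine ⟨?_, ?_⟩
      · have h2 := S.J_smul_le ht ht1 w
        have h3 : τ ^ 2 ≤ (α + β * τ) ^ 2 := by gcongr
        have h4 : (α + β * τ) ^ 2 * S.J w ≤ τ ^ 2 * (-δ) := by nlinarith [sq_nonneg τ]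
        linarith
      · rw [norm_smul, Real.norm_eq_abs, abs_of_nonneg ht]
        nlinarith [norm_nonneg w]
    have h2 : JoinedIn (S.P (τ ^ 2 * y / 8) R) (τ • w) (τ • S.ψ₂) := by
      rcases le_total 0 ⟪S.ι w, S.ι S.ψ₁⟫ with h | h
      · refine JoinedIn.trans ?_ hseg12
        apply JoinedIn.of_segment_subset
        exact S.segment_P hR0 hτ0 hτ1 hτ2 (hwR.trans hR1) hR2 (hiota w hw) hy1 h
      · refine JoinedIn.trans ?_ hseg12'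
        apply JoinedIn.of_segment_subset
        refine S.segment_P hR0 hτ0 hτ1 hτ2 (hwR.trans hR1) (by rwa [norm_neg]) (hiota w hw)
          (by rwa [map_neg, norm_neg]) ?_
        rw [map_neg, inner_neg_right]
        linarith
    exact h1.trans h2
  refine ⟨τ ^ 2 * y / 8, R, by positivity, by nlinarith, hR0, ?_⟩
  intro w₁ w₂ h1 h2 h3 h4
  exact (hmain w₁ h1 h3).trans (hmain w₂ h2 h4).symm

lemma aux1 {s d : ℝ} (hs : 1 ≤ s) (hd : 0 ≤ d) : s * d ≤ d * s ^ 4 := by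
  have h1 : s ≤ s ^ 4 := le_self_pow₀ hs (by norm_num)
  have := mul_le_mul_of_nonneg_left h1 hd
  linarith

lemma aux2 {s d : ℝ} (hs : 1 ≤ s) (hd : 0 ≤ d) : s ^ 2 * (s * d) ≤ d * s ^ 4 := by
  have h1 : s ^ 3 ≤ s ^ 4 := pow_le_pow_right₀ hs (by norm_num)
  have := mul_le_mul_of_nonneg_left h1 hd
  calc s ^ 2 * (s * d) = d * s ^ 3 := by ring
    _ ≤ _ := this

lemma aux3 {x k M b : ℝ} (hx : 1 ≤ x) (hb : 0 < b)
    (h3 : 8 * (M + k ^ 2 / 2 + k) < x * b) :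
    (M + k ^ 2 / 2 + k) * x ^ 2 < b / 8 * x ^ 4 := by
  have hx2 : 0 < x ^ 2 := by positivity
  have h4 : x * x ^ 2 ≤ x ^ 4 := by
    calc x * x ^ 2 = x ^ 3 := by ring
      _ ≤ x ^ 4 := pow_le_pow_right₀ hx (by norm_num)
  calc (M + k ^ 2 / 2 + k) * x ^ 2 < (x * b / 8) * x ^ 2 := by
        apply mul_lt_mul_of_pos_right _ hx2
        linarith
    _ = b / 8 * (x * x ^ 2) := by ring
    _ ≤ b / 8 * x ^ 4 := by gcongr

/-- For large `lam` the deep regime holds. -/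
theorem exists_deep : ∃ Λ : ℝ, ∀ lam : ℝ, Λ ≤ lam → ∃ l R₀ : ℝ, S.Deep lam l R₀ := by
  have hb := S.hb
  have ha := S.ha
  have hc := S.hc
  obtain ⟨R₀, hR₀1, hR₀⟩ := S.exists_R₀
  obtain ⟨M, hM0, hM⟩ := S.exists_M
  set k := ‖S.ι‖ with hk
  have hk0 : 0 ≤ k := norm_nonneg _
  have hψpos : 0 < ‖S.ι S.ψ₁‖ := norm_pos_iff.2 S.hψ₁
  have hψpos' : 0 < ‖S.ψ₁‖ := by
    apply norm_pos_iff.2
    intro h
    apply S.hψ₁
    rw [h, map_zero]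
  -- the deep point
  set t : ℝ := ‖S.ι S.ψ₁‖ / (Real.sqrt S.b * ‖S.ψ₁‖ ^ 2) with ht
  have hsb : 0 < Real.sqrt S.b := Real.sqrt_pos.2 hb
  have ht0 : 0 < t := by positivity
  set w₀ : H := t • S.ψ₁ with hw₀
  set δ : ℝ := t ^ 2 * ‖S.ι S.ψ₁‖ ^ 2 / 8 with hδ
  have hδ0 : 0 < δ := by positivity
  have hJw₀ : S.J w₀ = -(2 * δ) := by
    unfold J
    rw [hw₀, map_smul, norm_smul, norm_smul, Real.norm_eq_abs, abs_of_pos ht0]
    have h1 : S.b * t ^ 2 * ‖S.ψ₁‖ ^ 4 = ‖S.ι S.ψ₁‖ ^ 2 := by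
      rw [ht, div_pow, mul_pow, Real.sq_sqrt hb.le]
      field_simp
    have h2 : S.b / 4 * (t * ‖S.ψ₁‖) ^ 4 = t ^ 2 / 4 * (S.b * t ^ 2 * ‖S.ψ₁‖ ^ 4) := by ring
    rw [h2, h1, hδ]
    ring
  set X := ‖w₀‖ with hX
  have hX0 : 0 ≤ X := norm_nonneg _
  -- bound for the rescaled minimizers
  set R' : ℝ := 1 + 8 * (M + k ^ 2 / 2 + k) / S.b with hR'
  have hR'0 : 0 < R' := by positivity
  obtain ⟨δ₂, R, hδ₂0, hδ₂δ, hR0, hjoin⟩ := S.joined_P (δ / 2) R' (by positivity) hR'0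
  -- large parameter conditions
  have E1 : ∀ᶠ s : ℝ in atTop, 1 ≤ s := eventually_ge_atTop 1
  have E2 : ∀ᶠ s : ℝ in atTop, (S.a / 2 * X ^ 2 + k * X) / δ ≤ s := eventually_ge_atTop _
  have E3 : ∀ᶠ s : ℝ in atTop, S.c * R' ^ S.p * s ^ (-(4 - S.p)) < δ / 4 := by
    have h1 := (tendsto_rpow_neg_atTop (y := 4 - S.p) (by linarith [S.hp4])).const_mul
      (S.c * R' ^ S.p)
    rw [mul_zero] at h1
    exact h1.eventually_lt_const (by positivity)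
  have E4 : ∀ᶠ s : ℝ in atTop, (k * R') / (δ / 4) ≤ s := eventually_ge_atTop _
  have E5 : ∀ᶠ s : ℝ in atTop, (S.a / 2 * R ^ 2 + k * R) / (δ₂ / 2) ≤ s := eventually_ge_atTop _
  have E6 : ∀ᶠ s : ℝ in atTop, 1 / (δ₂ / 4) < s := eventually_gt_atTop _
  have E7 : ∀ᶠ s : ℝ in atTop, (S.c * R₀ ^ S.p + k ^ 2 * R₀ ^ 2 / 2 + k * R₀) / (δ₂ / 4) < s :=
    eventually_gt_atTop _
  have E8 : ∀ᶠ s : ℝ in atTop, (M + 1) / (δ₂ / 4) ≤ s := eventually_ge_atTop _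
  obtain ⟨s₀, hs₀⟩ := (E1.and (E2.and (E3.and (E4.and (E5.and (E6.and (E7.and E8))))))
    ).exists_forall_of_atTop
  refine ⟨s₀ ^ 2, fun lam hlam => ?_⟩
  have hs₀1 : 1 ≤ s₀ := (hs₀ s₀ le_rfl).1
  have hlam0 : 0 < lam := lt_of_lt_of_le (by positivity) hlam
  set s := Real.sqrt lam with hs
  have hslam : lam = s ^ 2 := (Real.sq_sqrt hlam0.le).symm
  have hss₀ : s₀ ≤ s := by
    rw [hs]
    exact Real.le_sqrt_of_sq_le hlam
  obtain ⟨e1, e2, e3, e4, e5, e6, e7, e8⟩ := hs₀ s hss₀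
  rw [div_le_iff₀ (by positivity)] at e2 e4 e5 e8
  rw [div_lt_iff₀ (by positivity)] at e6 e7
  have hs0 : 0 < s := by linarith
  have hs2 : s ≤ s ^ 2 := le_self_pow₀ e1 (by norm_num)
  have hs3 : s ^ 2 ≤ s ^ 3 := pow_le_pow_right₀ e1 (by norm_num)
  have hs4 : s ^ 3 ≤ s ^ 4 := pow_le_pow_right₀ e1 (by norm_num)
  have hlowF : ∀ v : L, ‖v‖ ≤ 1 → S.F lam v (s • w₀) ≤ - δ * s ^ 4 := by
    intro v hv
    have h1 := S.F_upper hs0.le hv w₀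
    rw [hJw₀] at h1
    rw [hslam]
    have h2 : S.a / 2 * s ^ 2 * X ^ 2 ≤ s ^ 3 * (S.a / 2 * X ^ 2) := by
      calc S.a / 2 * s ^ 2 * X ^ 2 = s ^ 2 * (S.a / 2 * X ^ 2) := by ring
        _ ≤ _ := by gcongr
    have h3 : s ^ 3 * (S.a / 2 * X ^ 2 + k * X) ≤ s ^ 3 * (s * δ) := by gcongr
    have h4 : s ^ 3 * (s * δ) = s ^ 4 * δ := by ring
    rw [h4] at h3
    linarith
  have hlneg : -(δ₂ / 4 * s ^ 4) < 0 := by
    have : 0 < δ₂ / 4 * s ^ 4 := by positivity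
    linarith
  have hδδ : - δ * s ^ 4 < -(δ₂ / 4 * s ^ 4) := by
    have : 0 < s ^ 4 := by positivity
    nlinarith
  refine ⟨-(δ₂ / 4 * s ^ 4), R₀, hR₀, hlam0, hlneg, ?_, ?_, ?_, ?_⟩
  · -- inner
    intro v u hv hu
    have hF : S.F lam v u ≥ -(S.c * R₀ ^ S.p) - lam / 2 * (k * R₀) ^ 2 - lam * (k * R₀) := by
      unfold F
      have h1 := S.Φ_le u
      have h2 : S.c * ‖u‖ ^ S.p ≤ S.c * R₀ ^ S.p := by
        gcongr
        linarith [S.hp2]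
      have h3 := S.norm_ι_le u
      have h4 : ‖S.ι u‖ ≤ k * R₀ := h3.trans (by gcongr)
      have h5 : lam / 2 * ‖S.ι u‖ ^ 2 ≤ lam / 2 * (k * R₀) ^ 2 := by gcongr
      have h6 := (abs_le.1 (abs_real_inner_le_norm (S.ι u) v)).1
      have h7 : ‖S.ι u‖ * ‖v‖ ≤ k * R₀ := by
        calc ‖S.ι u‖ * ‖v‖ ≤ (k * R₀) * 1 := by gcongr
          _ = _ := mul_one _
      have h8 : lam * (-(k * R₀)) ≤ lam * ⟪S.ι u, v⟫ := by
        gcongr; linarith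
      have h9 : 0 ≤ S.a / 2 * ‖u‖ ^ 2 := by positivity
      have h10 : 0 ≤ S.b / 4 * ‖u‖ ^ 4 := by positivity
      linarith
    rw [hslam] at hF
    have h1 : 0 ≤ S.c * R₀ ^ S.p := by
      have : 0 ≤ R₀ := by linarith
      positivity
    have h2 : S.c * R₀ ^ S.p ≤ s ^ 2 * (S.c * R₀ ^ S.p) :=
      le_mul_of_one_le_left h1 (by linarith)
    have h3 : s ^ 2 * (S.c * R₀ ^ S.p + k ^ 2 * R₀ ^ 2 / 2 + k * R₀) < s ^ 2 * (s * (δ₂ / 4)) := by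
      gcongr
    have h4 : s ^ 2 * (s * (δ₂ / 4)) ≤ δ₂ / 4 * s ^ 4 := aux2 e1 (by positivity)
    rw [← hslam] at hF
    have h5 : lam / 2 * (k * R₀) ^ 2 = s ^ 2 * (k ^ 2 * R₀ ^ 2 / 2) := by rw [hslam]; ring
    have h6 : lam * (k * R₀) = s ^ 2 * (k * R₀) := by rw [hslam]
    linarith
  · -- low
    intro v hv
    exact ⟨s • w₀, (hlowF v hv).trans_lt hδδ⟩
  · -- big
    intro v u hv hF
    have h1 := hM lam v u hlam0.le hv
    have h2 : 0 ≤ S.b / 8 * ‖u‖ ^ 4 := by positivity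
    have h3 : M + 1 ≤ δ₂ / 4 * s ^ 4 := by
      have : s * (δ₂ / 4) ≤ δ₂ / 4 * s ^ 4 := aux1 e1 (by positivity)
      linarith
    linarith
  · -- conn
    intro v u₁ u₂ hv hu₁ hu₂
    have hscale : ∀ u : H, (∀ w, S.F lam v u ≤ S.F lam v w) →
        S.J (s⁻¹ • u) ≤ -(δ / 2) ∧ ‖s⁻¹ • u‖ ≤ R' := by
      intro u hu
      obtain ⟨w, hw⟩ : ∃ w : H, w = s⁻¹ • u := ⟨_, rfl⟩
      rw [← hw]
      have huw : u = s • w := by rw [hw, smul_smul, mul_inv_cancel₀ hs0.ne', one_smul]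
      have hFu : S.F lam v u ≤ -δ * s ^ 4 := (hu (s • w₀)).trans (hlowF v hv)
      obtain ⟨x, hx⟩ : ∃ x : ℝ, x = ‖w‖ := ⟨_, rfl⟩
      rw [← hx]
      have hx0 : 0 ≤ x := by rw [hx]; exact norm_nonneg _
      have hxR : x ≤ R' := by
        by_contra hcon
        push Not at hcon
        have h1 := hM lam v u hlam0.le hv
        rw [huw, map_smul, norm_smul, norm_smul, Real.norm_eq_abs, abs_of_pos hs0, ← hx] at h1
        rw [← huw] at h1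
        have h2 := S.norm_ι_le w
        rw [← hx, ← hk] at h2
        have hT : 0 ≤ 8 * (M + k ^ 2 / 2 + k) / S.b := by positivity
        have hx1 : 1 ≤ x := by linarith
        have h3 : 8 * (M + k ^ 2 / 2 + k) / S.b < x := by linarith
        rw [div_lt_iff₀ hb] at h3
        have h4 : lam / 2 * (s * ‖S.ι w‖) ^ 2 ≤ s ^ 4 * (k ^ 2 / 2 * x ^ 2) := by
          calc lam / 2 * (s * ‖S.ι w‖) ^ 2 ≤ lam / 2 * (s * (k * x)) ^ 2 := by gcongr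
            _ = s ^ 4 * (k ^ 2 / 2 * x ^ 2) := by rw [hslam]; ring
        have hxx : x ≤ x ^ 2 := le_self_pow₀ hx1 (by norm_num)
        have h5 : lam * (s * ‖S.ι w‖) ≤ s ^ 4 * (k * x ^ 2) := by
          calc lam * (s * ‖S.ι w‖) ≤ lam * (s * (k * x)) := by gcongr
            _ = s ^ 3 * (k * x) := by rw [hslam]; ring
            _ ≤ s ^ 4 * (k * x ^ 2) := by gcongr
        have h6 : M ≤ s ^ 4 * (M * x ^ 2) := by
          have h7 : 1 ≤ s ^ 4 := by linarith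
          have h8 : 1 ≤ x ^ 2 := by linarith
          have h9 : 1 ≤ s ^ 4 * x ^ 2 := one_le_mul_of_one_le_of_one_le h7 h8
          calc M = M * 1 := (mul_one M).symm
            _ ≤ M * (s ^ 4 * x ^ 2) := by gcongr
            _ = _ := by ring
        have h7 : S.b / 8 * (s * x) ^ 4 ≤ s ^ 4 * ((M + k ^ 2 / 2 + k) * x ^ 2) := by
          have : 0 ≤ δ * s ^ 4 := by positivity
          linarith
        have h8 : S.b / 8 * (s * x) ^ 4 = s ^ 4 * (S.b / 8 * x ^ 4) := by ring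
        rw [h8] at h7
        have h9 : S.b / 8 * x ^ 4 ≤ (M + k ^ 2 / 2 + k) * x ^ 2 :=
          le_of_mul_le_mul_left h7 (by positivity)
        exact absurd (aux3 hx1 hb h3) (not_lt.2 h9)
      refine ⟨?_, hxR⟩
      have h1 := S.F_lower hs0.le hv w
      rw [← hslam, ← huw, ← hx, ← hk] at h1
      have h2 : S.c * (s ^ S.p * x ^ S.p) ≤ s ^ 4 * (δ / 4) := by
        have h3 : s ^ S.p = s ^ 4 * s ^ (-(4 - S.p)) := by
          have h4 : s ^ 4 = s ^ (4:ℝ) := by norm_cast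
          rw [h4, ← Real.rpow_add hs0]
          congr 1; ring
        rw [h3]
        have h5 : x ^ S.p ≤ R' ^ S.p := Real.rpow_le_rpow hx0 hxR (by linarith [S.hp2])
        calc S.c * (s ^ 4 * s ^ (-(4 - S.p)) * x ^ S.p)
            ≤ S.c * (s ^ 4 * s ^ (-(4 - S.p)) * R' ^ S.p) := by gcongr
          _ = s ^ 4 * (S.c * R' ^ S.p * s ^ (-(4 - S.p))) := by ring
          _ ≤ s ^ 4 * (δ / 4) := by gcongr
      have h3 : s ^ 3 * (k * x) ≤ s ^ 4 * (δ / 4) := by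
        calc s ^ 3 * (k * x) ≤ s ^ 3 * (k * R') := by gcongr
          _ ≤ s ^ 3 * (s * (δ / 4)) := by gcongr
          _ = s ^ 4 * (δ / 4) := by ring
      have h4 : s ^ 4 * S.J w ≤ s ^ 4 * (-(δ / 2)) := by linarith
      exact le_of_mul_le_mul_left h4 (by positivity)
    obtain ⟨a1, a2⟩ := hscale u₁ hu₁
    obtain ⟨b1, b2⟩ := hscale u₂ hu₂
    obtain ⟨γ, hγ⟩ := hjoin _ _ a1 b1 a2 b2
    refine ⟨range (fun x => s • γ x), isPreconnected_range (by fun_prop), ⟨0, ?_⟩, ⟨1, ?_⟩, ?_⟩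
    · simp only [γ.source]
      rw [smul_smul, mul_inv_cancel₀ hs0.ne', one_smul]
    · simp only [γ.target]
      rw [smul_smul, mul_inv_cancel₀ hs0.ne', one_smul]
    · rintro _ ⟨x, rfl⟩
      obtain ⟨h1, h2⟩ := hγ x
      have h3 := S.F_upper hs0.le hv (γ x)
      rw [← hslam] at h3
      have h4 : s ^ 4 * S.J (γ x) ≤ s ^ 4 * (-δ₂) := by gcongr
      have h5 : S.a / 2 * s ^ 2 * ‖γ x‖ ^ 2 ≤ s ^ 3 * (S.a / 2 * R ^ 2) := by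
        calc S.a / 2 * s ^ 2 * ‖γ x‖ ^ 2 ≤ S.a / 2 * s ^ 3 * R ^ 2 := by gcongr
          _ = _ := by ring
      have h6 : s ^ 3 * (k * ‖γ x‖) ≤ s ^ 3 * (k * R) := by gcongr
      have h7 : s ^ 3 * (S.a / 2 * R ^ 2 + k * R) ≤ s ^ 3 * (s * (δ₂ / 2)) := by gcongr
      have h8 : s * (δ₂ / 4) ≤ δ₂ / 4 * s ^ 4 := aux1 e1 (by positivity)
      have h9 : s ^ 3 * (s * (δ₂ / 2)) = s ^ 4 * δ₂ / 2 := by ring
      rw [h9] at h7
      show S.F lam v (s • γ x) < -(δ₂ / 4 * s ^ 4) - 1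
      rw [← hslam] at h5
      linarith

/-- The abstract multiplicity theorem. -/
theorem multiplicity : ∃ Λ : ℝ, ∀ lam : ℝ, Λ ≤ lam → ∀ C : Set L, Convex ℝ C →
    (∀ u, S.ι u ∈ closure C) →
    ∃ v ∈ C, ∃ u₁ u₂ u₃ : H, u₁ ≠ u₂ ∧ u₃ ≠ u₁ ∧ u₃ ≠ u₂ ∧
      (∀ w, S.F lam v u₁ ≤ S.F lam v w) ∧ (∀ w, S.F lam v u₂ ≤ S.F lam v w) ∧
      S.G lam v u₁ = 0 ∧ S.G lam v u₂ = 0 ∧ S.G lam v u₃ = 0 := by
  obtain ⟨Λ, hΛ⟩ := S.exists_deep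
  refine ⟨Λ, fun lam hlam C hC hdense => ?_⟩
  obtain ⟨l, R₀, hD⟩ := hΛ lam hlam
  obtain ⟨v, hvC, hv, u₁, u₂, hne, h1, h2⟩ := hD.two_minimizers C hC hdense
  obtain ⟨u₃, h3, h4, h5⟩ := hD.third hv hne h1 h2
  exact ⟨v, hvC, u₁, u₂, u₃, hne, h3, h4, h1, h2, S.G_eq_zero_of_min hD.hlam.le h1,
    S.G_eq_zero_of_min hD.hlam.le h2, h5⟩

end Setup

end Pool.Agent.Helper45.Kirchhoff
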