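import Mathlib

open MeasureTheory
open scoped ContDiff Gradient RealInnerProductSpace

namespace Pool.Agent.Helper45.Kirchhoff

/-- The Hilbert space `L²(Ω)`. -/
noncomputable abbrev L2 {N : ℕ} (Ω : Set (EuclideanSpace ℝ (Fin N))) :=
  Lp ℝ 2 (volume.restrict Ω)

/-- The Hilbert space `L²(Ω; ℝ^N)` of square integrable vector fields. -/
noncomputable abbrev L2v {N : ℕ} (Ω : Set (EuclideanSpace ℝ (Fin N))) :=
  Lp (EuclideanSpace ℝ (Fin N)) 2 (volume.restrict Ω)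

/-- The pairs `(φ, ∇φ)` with `φ` a smooth function with compact support in `Ω`. -/
def testPairs {N : ℕ} (Ω : Set (EuclideanSpace ℝ (Fin N))) : Set (L2 Ω × L2v Ω) :=
  {p | ∃ φ : EuclideanSpace ℝ (Fin N) → ℝ, ContDiff ℝ ∞ φ ∧ HasCompactSupport φ ∧
    tsupport φ ⊆ Ω ∧ p.1 =ᵐ[volume.restrict Ω] φ ∧ p.2 =ᵐ[volume.restrict Ω] ∇ φ}

/-- The Sobolev space `H¹₀(Ω)`: the closure of the test functions in `H¹(Ω)`. An element is the
pair `u = (u.1, u.2)` of the function `u.1` and its weak gradient `u.2`. -/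
def H10 {N : ℕ} (Ω : Set (EuclideanSpace ℝ (Fin N))) : Set (L2 Ω × L2v Ω) :=
  closure (testPairs Ω)

/-- The critical Sobolev exponent `2N/(N-2)`. -/
noncomputable def critExp (N : ℕ) : ℝ := 2 * N / (N - 2)

/-- The energy functional; `‖u.2‖` is the gradient norm of `u`. -/
noncomputable def energy {N : ℕ} {Ω : Set (EuclideanSpace ℝ (Fin N))} (a b lam : ℝ) (v : L2 Ω)
    (u : L2 Ω × L2v Ω) : ℝ :=
  a / 2 * ‖u.2‖ ^ 2 + b / 4 * ‖u.2‖ ^ 4 - 1 / critExp N * (∫ x in Ω, |u.1 x| ^ critExp N)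
    - lam / 2 * ‖u.1 - v‖ ^ 2

/-- Weak solutions of `-(a + b‖∇u‖²) Δu = |u|^{2*-2} u + lam (u - v)` in `Ω`, `u = 0` on the
boundary. -/
def IsWeakSolution {N : ℕ} {Ω : Set (EuclideanSpace ℝ (Fin N))} (a b lam : ℝ) (v : L2 Ω)
    (u : L2 Ω × L2v Ω) : Prop :=
  u ∈ H10 Ω ∧ ∀ w ∈ H10 Ω,
    (a + b * ‖u.2‖ ^ 2) * (∫ x in Ω, ⟪u.2 x, w.2 x⟫) =
      (∫ x in Ω, |u.1 x| ^ (critExp N - 2) * u.1 x * w.1 x) +
        lam * (∫ x in Ω, (u.1 x - v x) * w.1 x)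

/-- `u` is a global minimizer of the energy on `H¹₀(Ω)`. -/
def IsGlobalMinimizer {N : ℕ} {Ω : Set (EuclideanSpace ℝ (Fin N))} (a b lam : ℝ) (v : L2 Ω)
    (u : L2 Ω × L2v Ω) : Prop :=
  u ∈ H10 Ω ∧ ∀ w ∈ H10 Ω, energy a b lam v u ≤ energy a b lam v w

/-- The multiplicity property of `(a, b)` on `Ω`: for every large `lam` and every convex `C` in
`L²(Ω)` whose closure contains `H¹₀(Ω)`, some `v` in `C` makes the energy have at least two global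
minimizers and the problem have at least three weak solutions, two of them global minimizers. -/
def MultiplicityProperty {N : ℕ} (Ω : Set (EuclideanSpace ℝ (Fin N))) (a b : ℝ) : Prop :=
  ∃ Λ : ℝ, 0 < Λ ∧ ∀ lam : ℝ, Λ < lam → ∀ C : Set (L2 Ω), Convex ℝ C →
    (∀ u ∈ H10 Ω, u.1 ∈ closure C) →
    ∃ v ∈ C, ∃ u₁ u₂ u₃ : L2 Ω × L2v Ω,
      IsGlobalMinimizer a b lam v u₁ ∧ IsGlobalMinimizer a b lam v u₂ ∧
      IsWeakSolution a b lam v u₁ ∧ IsWeakSolution a b lam v u₂ ∧ IsWeakSolution a b lam v u₃ ∧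
      u₁.1 ≠ u₂.1 ∧ u₁.1 ≠ u₃.1 ∧ u₂.1 ≠ u₃.1

end Pool.Agent.Helper45.Kirchhoff
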