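import Pool.Agent.Helper45.KirchhoffSpace
import Pool.Agent.Helper45.KirchhoffDeep

open MeasureTheory Filter Topology Set
open scoped ContDiff Gradient RealInnerProductSpace ENNReal NNReal

namespace Pool.Agent.Helper45.Kirchhoff

variable {N : ℕ} {Ω : Set (EuclideanSpace ℝ (Fin N))}

/-- Integration by parts identity on `H¹₀(Ω)`. -/
lemma ibp {ζ : EuclideanSpace ℝ (Fin N) → ℝ} (z1 : ContDiff ℝ ∞ ζ) (z2 : HasCompactSupport ζ)
    (z3 : tsupport ζ ⊆ Ω) (e : EuclideanSpace ℝ (Fin N)) {u : L2 Ω × L2v Ω} (hu : u ∈ HS Ω) :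
    ∫ x in Ω, ζ x * ⟪u.2 x, e⟫ = - ∫ x in Ω, u.1 x * fderiv ℝ ζ x e := by
  have zc : Continuous ζ := z1.continuous
  have zf : Continuous (fun x => fderiv ℝ ζ x e) := by
    have := z1.continuous_fderiv (by simp)
    fun_prop
  have zfc : HasCompactSupport (fun x => fderiv ℝ ζ x e) :=
    (z2.fderiv ℝ).comp_left (g := fun A : EuclideanSpace ℝ (Fin N) →L[ℝ] ℝ => A e) (by simp)
  have m1 : MemLp (fun x => fderiv ℝ ζ x e) 2 (volume.restrict Ω) := memLp_test zf zfc 2
  have m2 : MemLp (fun x => ζ x • e) 2 (volume.restrict Ω) :=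
    ((by fun_prop : Continuous (fun x => ζ x • e)).memLp_of_hasCompactSupport
      z2.smul_right).restrict Ω
  -- rewrite both sides as inner products
  have i1 : ∀ p : L2 Ω × L2v Ω, ⟪p.2, m2.toLp⟫ = ∫ x in Ω, ζ x * ⟪p.2 x, e⟫ := by
    intro p
    rw [L2.inner_def]
    apply integral_congr_ae
    filter_upwards [m2.coeFn_toLp] with x hx
    rw [hx, real_inner_smul_right]
  have i2 : ∀ p : L2 Ω × L2v Ω, ⟪p.1, m1.toLp⟫ = ∫ x in Ω, p.1 x * fderiv ℝ ζ x e := by
    intro p
    rw [L2.inner_def]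
    apply integral_congr_ae
    filter_upwards [m1.coeFn_toLp] with x hx
    rw [hx]
    simp [mul_comm]
  rw [← i1, ← i2]
  have hcl : IsClosed {p : L2 Ω × L2v Ω | ⟪p.2, m2.toLp⟫ = - ⟪p.1, m1.toLp⟫} :=
    isClosed_eq (by fun_prop) (by fun_prop)
  refine closure_minimal ?_ hcl hu
  rintro p ⟨φ, h1, h2, h3, h4, h5⟩
  show ⟪p.2, m2.toLp⟫ = - ⟪p.1, m1.toLp⟫
  rw [i1, i2]
  have φ1 : ContDiff ℝ 1 φ := h1.of_le (by simp)
  have ζ1 : ContDiff ℝ 1 ζ := z1.of_le (by simp)
  have hz0 : ∀ x ∉ Ω, ζ x = 0 := by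
    intro x hx
    by_contra h
    exact hx (z3 (subset_tsupport ζ h))
  have hzf0 : ∀ x ∉ Ω, fderiv ℝ ζ x e = 0 := by
    intro x hx
    have : x ∉ tsupport (fderiv ℝ ζ) := fun h => hx (z3 (tsupport_fderiv_subset ℝ h))
    rw [image_eq_zero_of_notMem_tsupport this]
    simp
  have e1 : ∫ x in Ω, ζ x * ⟪p.2 x, e⟫ = ∫ x, fderiv ℝ φ x e * ζ x := by
    have : ∫ x in Ω, ζ x * ⟪p.2 x, e⟫ = ∫ x in Ω, fderiv ℝ φ x e * ζ x := by
      apply integral_congr_ae
      filter_upwards [h5] with x hx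
      rw [hx, inner_gradient_left, mul_comm]
    rw [this]
    apply setIntegral_eq_integral_of_forall_compl_eq_zero
    intro x hx
    rw [hz0 x hx, mul_zero]
  have e2 : ∫ x in Ω, p.1 x * fderiv ℝ ζ x e = ∫ x, φ x * fderiv ℝ ζ x e := by
    have : ∫ x in Ω, p.1 x * fderiv ℝ ζ x e = ∫ x in Ω, φ x * fderiv ℝ ζ x e := by
      apply integral_congr_ae
      filter_upwards [h4] with x hx
      rw [hx]
    rw [this]
    apply setIntegral_eq_integral_of_forall_compl_eq_zero
    intro x hx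
    rw [hzf0 x hx, mul_zero]
  have φf : Continuous (fun x => fderiv ℝ φ x e) := by
    have := φ1.continuous_fderiv one_ne_zero
    fun_prop
  have φc : Continuous φ := φ1.continuous
  rw [e1, e2, integral_mul_fderiv_eq_neg_fderiv_mul_of_integrable, neg_neg]
  · exact Continuous.integrable_of_hasCompactSupport (by fun_prop) z2.mul_left
  · exact Continuous.integrable_of_hasCompactSupport (by fun_prop) zfc.mul_left
  · exact Continuous.integrable_of_hasCompactSupport (by fun_prop) z2.mul_left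
  · exact fun x _ => φ1.differentiable one_ne_zero x
  · exact fun x _ => ζ1.differentiable one_ne_zero x

/-- The weak gradient is determined by the function. -/
lemma snd_eq_zero (hΩ : IsOpen Ω) (hΩb : Bornology.IsBounded Ω) {u : L2 Ω × L2v Ω}
    (hu : u ∈ HS Ω) (h0 : u.1 = 0) : u.2 = 0 := by
  have hfin : IsFiniteMeasure (volume.restrict Ω) :=
    ⟨by rw [Measure.restrict_apply_univ]; exact hΩb.measure_lt_top⟩
  rw [Lp.eq_zero_iff_ae_eq_zero]
  have key : ∀ i : Fin N, ∀ᵐ x ∂(volume.restrict Ω), u.2 x i = 0 := by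
    intro i
    set e : EuclideanSpace ℝ (Fin N) := EuclideanSpace.single i 1 with he
    have hint : Integrable (fun x => ⟪u.2 x, e⟫) (volume.restrict Ω) := by
      have m : MemLp (fun x => u.2 x) 2 (volume.restrict Ω) := Lp.memLp u.2
      exact (m.inner_const e).integrable (by norm_num)
    have h1 : ∀ᵐ x ∂volume, x ∈ Ω → ⟪u.2 x, e⟫ = 0 := by
      apply hΩ.ae_eq_zero_of_integral_contDiff_smul_eq_zero
      · exact IntegrableOn.locallyIntegrableOn hint
      · intro ζ z1 z2 z3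
        have h2 := ibp z1 z2 z3 e hu
        have h3 : ∫ x in Ω, u.1 x * fderiv ℝ ζ x e = 0 := by
          rw [h0]
          have : ∫ x in Ω, (0 : L2 Ω) x * fderiv ℝ ζ x e = ∫ x in Ω, (0:ℝ) := by
            apply integral_congr_ae
            filter_upwards [Lp.coeFn_zero ℝ 2 (volume.restrict Ω)] with x hx
            rw [hx]; simp
          rw [this]; simp
        rw [h3, neg_zero] at h2
        rw [← h2]
        symm
        apply setIntegral_eq_integral_of_forall_compl_eq_zero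
        intro x hx
        have : ζ x = 0 := by
          by_contra h
          exact hx (z3 (subset_tsupport ζ h))
        rw [this, zero_mul]
    rw [← ae_restrict_iff' hΩ.measurableSet] at h1
    filter_upwards [h1] with x hx
    rw [he, EuclideanSpace.inner_single_right] at hx
    simpa using hx
  have key2 : ∀ᵐ x ∂(volume.restrict Ω), ∀ i, u.2 x i = 0 := ae_all_iff.2 key
  filter_upwards [key2] with x hx
  ext i
  simpa using hx i

/-- The projection on the gradient component. -/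
noncomputable def grad (Ω : Set (EuclideanSpace ℝ (Fin N))) : HS Ω →L[ℝ] L2v Ω :=
  (ContinuousLinearMap.snd ℝ (L2 Ω) (L2v Ω)).comp (HS Ω).subtypeL

lemma grad_apply (u : HS Ω) : grad Ω u = (u : L2 Ω × L2v Ω).2 := rfl

instance : CompleteSpace (HS Ω) :=
  (Submodule.isClosed_topologicalClosure (testSub Ω)).completeSpace_coe

lemma grad_antilipschitz (hN : 2 < N) (hΩb : Bornology.IsBounded Ω) :
    ∃ K : ℝ≥0, AntilipschitzWith K (grad Ω) := by
  obtain ⟨C, hC0, hC⟩ := poincare hN hΩb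
  refine ⟨⟨C + 1, by positivity⟩, ?_⟩
  apply ContinuousLinearMap.antilipschitz_of_bound
  intro u
  have h1 := hC u u.2
  have h2 : ‖u‖ = max ‖(u : L2 Ω × L2v Ω).1‖ ‖(u : L2 Ω × L2v Ω).2‖ := rfl
  rw [h2, grad_apply]
  show _ ≤ (C + 1) * _
  apply max_le
  · nlinarith [norm_nonneg (u : L2 Ω × L2v Ω).2]
  · nlinarith [norm_nonneg (u : L2 Ω × L2v Ω).2, hC0.le]

lemma grad_injective (hN : 2 < N) (hΩb : Bornology.IsBounded Ω) :
    Function.Injective (grad Ω) := by
  obtain ⟨K, hK⟩ := grad_antilipschitz hN hΩb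
  exact hK.injective

lemma grad_closed (hN : 2 < N) (hΩb : Bornology.IsBounded Ω) : IsClosed (range (grad Ω)) := by
  obtain ⟨K, hK⟩ := grad_antilipschitz hN hΩb
  exact hK.isClosed_range (grad Ω).uniformContinuous

/-- The Hilbert space of gradients. -/
noncomputable abbrev HH (Ω : Set (EuclideanSpace ℝ (Fin N))) : Submodule ℝ (L2v Ω) :=
  (grad Ω).range

lemma completeSpace_HH (hN : 2 < N) (hΩb : Bornology.IsBounded Ω) : CompleteSpace (HH Ω) :=
  (grad_closed hN hΩb).completeSpace_coe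

/-- The inverse of the gradient map. -/
noncomputable def lift (hN : 2 < N) (hΩb : Bornology.IsBounded Ω) : HH Ω →L[ℝ] HS Ω :=
  ((grad Ω).equivRange (grad_injective hN hΩb) (grad_closed hN hΩb)).symm

lemma lift_snd (hN : 2 < N) (hΩb : Bornology.IsBounded Ω) (h : HH Ω) :
    (lift hN hΩb h : L2 Ω × L2v Ω).2 = h := by
  have h1 := ((grad Ω).equivRange (grad_injective hN hΩb) (grad_closed hN hΩb)).apply_symm_apply h
  exact congrArg Subtype.val h1

lemma lift_surj (hN : 2 < N) (hΩb : Bornology.IsBounded Ω) {u : L2 Ω × L2v Ω} (hu : u ∈ HS Ω) :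
    ∃ h : HH Ω, (lift hN hΩb h : L2 Ω × L2v Ω) = u := by
  refine ⟨(grad Ω).equivRange (grad_injective hN hΩb) (grad_closed hN hΩb) ⟨u, hu⟩, ?_⟩
  have h1 := ((grad Ω).equivRange (grad_injective hN hΩb) (grad_closed hN hΩb)).symm_apply_apply
    ⟨u, hu⟩
  exact congrArg Subtype.val h1

/-- The embedding into `L²(Ω)`. -/
noncomputable def iota (hN : 2 < N) (hΩb : Bornology.IsBounded Ω) : HH Ω →L[ℝ] L2 Ω :=
  ((ContinuousLinearMap.fst ℝ (L2 Ω) (L2v Ω)).comp (HS Ω).subtypeL).comp (lift hN hΩb)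

lemma iota_apply (hN : 2 < N) (hΩb : Bornology.IsBounded Ω) (h : HH Ω) :
    iota hN hΩb h = (lift hN hΩb h : L2 Ω × L2v Ω).1 := rfl

lemma iota_injective (hN : 2 < N) (hΩ : IsOpen Ω) (hΩb : Bornology.IsBounded Ω) :
    Function.Injective (iota hN hΩb) := by
  rw [injective_iff_map_eq_zero]
  intro h hh
  have h1 := snd_eq_zero hΩ hΩb (lift hN hΩb h).2 hh
  rw [lift_snd] at h1
  exact Subtype.ext h1

/-- Compactness of the embedding. -/
lemma iota_compact (hN : 2 < N) (hΩ : IsOpen Ω) (hΩb : Bornology.IsBounded Ω) (R : ℝ) :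
    IsCompact (closure (iota hN hΩb '' Metric.closedBall 0 R)) := by
  have htb := Rellich.totallyBounded_test (E := EuclideanSpace ℝ (Fin N))
    (by simpa using hN) hΩb hΩ.measurableSet (R + 1).toNNReal
  have hsub : iota hN hΩb '' Metric.closedBall 0 R ⊆ closure {f : Lp ℝ 2 (volume.restrict Ω) |
      ∃ φ : EuclideanSpace ℝ (Fin N) → ℝ, ContDiff ℝ 1 φ ∧
      HasCompactSupport φ ∧ Function.support φ ⊆ Ω ∧ f =ᵐ[volume.restrict Ω] φ ∧
      eLpNorm (fderiv ℝ φ) 2 volume ≤ (R + 1).toNNReal} := by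
    rintro _ ⟨h, hh, rfl⟩
    have hnorm : ‖h‖ ≤ R := by simpa using hh
    rw [Metric.mem_closure_iff]
    intro ε hε
    have hcl : (lift hN hΩb h : L2 Ω × L2v Ω) ∈ closure (testPairs Ω) := (lift hN hΩb h).2
    obtain ⟨p, hp, hdist⟩ := Metric.mem_closure_iff.1 hcl (min ε 1) (by positivity)
    refine ⟨p.1, ?_, ?_⟩
    · obtain ⟨φ, h1, h2, h3, h4, h5⟩ := hp
      refine ⟨φ, h1.of_le (by simp), h2, (subset_tsupport φ).trans h3, h4, ?_⟩
      rw [← norm_snd_test h3 h5]
      apply ENNReal.ofReal_le_ofReal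
      have e1 : dist (lift hN hΩb h : L2 Ω × L2v Ω).2 p.2 < 1 :=
        lt_of_le_of_lt (le_max_right _ _) (hdist.trans_le (min_le_right _ _))
      rw [lift_snd, dist_eq_norm] at e1
      have e2 : ‖p.2‖ ≤ ‖(h : L2v Ω)‖ + ‖(h : L2v Ω) - p.2‖ := by
        have := norm_sub_le (h : L2v Ω) ((h : L2v Ω) - p.2)
        simpa using this
      have e3 : ‖(h : L2v Ω)‖ = ‖h‖ := rfl
      linarith
    · exact lt_of_le_of_lt (le_max_left _ _) (hdist.trans_le (min_le_left _ _))
  exact TotallyBounded.isCompact_of_isClosed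
    ((htb.closure.subset hsub).closure) isClosed_closure

end Pool.Agent.Helper45.Kirchhoff
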