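import Mathlib

open Filter Topology Set MeasureTheory
open scoped ENNReal NNReal

namespace Pool.Agent.Helper45.Power

/-- The nonlinearity. -/
noncomputable def psi (q t : ℝ) : ℝ := |t| ^ (q - 2) * t

lemma psi_neg (q t : ℝ) : psi q (-t) = - psi q t := by simp [psi]

lemma abs_psi {q : ℝ} (hq : 2 < q) (t : ℝ) : |psi q t| = |t| ^ (q - 1) := by
  unfold psi
  rw [abs_mul, abs_of_nonneg (by positivity)]
  rcases eq_or_ne t 0 with rfl | ht
  · rw [abs_zero, mul_zero, Real.zero_rpow (by linarith)]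
  · have h : 0 < |t| := abs_pos.2 ht
    nth_rewrite 2 [← Real.rpow_one |t|]
    rw [← Real.rpow_add h]
    ring_nf

lemma psi_mul_self {q : ℝ} (hq : 2 < q) (t : ℝ) : psi q t * t = |t| ^ q := by
  unfold psi
  rw [mul_assoc, ← abs_mul_abs_self t]
  rcases eq_or_ne t 0 with rfl | ht
  · rw [abs_zero, mul_zero, mul_zero, Real.zero_rpow (by linarith)]
  · have h : 0 < |t| := abs_pos.2 ht
    have : |t| * |t| = |t| ^ (2:ℝ) := by
      rw [Real.rpow_two, sq]
    rw [this, ← Real.rpow_add h]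
    ring_nf

lemma psi_of_nonneg {q : ℝ} (hq : 2 < q) {t : ℝ} (ht : 0 ≤ t) : psi q t = t ^ (q - 1) := by
  have h1 := abs_psi hq t
  rw [abs_of_nonneg ht] at h1
  rw [← h1, abs_of_nonneg]
  unfold psi
  positivity

/-- Convexity inequality. -/
lemma convex_ineq {q : ℝ} (hq : 2 < q) (s h : ℝ) :
    |s| ^ q / q + psi q s * h ≤ |s + h| ^ q / q := by
  have hpq : (q / (q - 1)).HolderConjugate q :=
    (Real.HolderConjugate.conjExponent (by linarith : 1 < q)).symm
  have h1 := Real.young_inequality (psi q s) (s + h) hpq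
  rw [abs_psi hq, ← Real.rpow_mul (abs_nonneg s)] at h1
  have h2 : (q - 1) * (q / (q - 1)) = q := by
    have : q - 1 ≠ 0 := by linarith
    field_simp
  rw [h2, mul_add, psi_mul_self hq] at h1
  have h3 : |s| ^ q / (q / (q - 1)) = |s| ^ q - |s| ^ q / q := by
    have : q - 1 ≠ 0 := by linarith
    field_simp
  rw [h3] at h1
  linarith

lemma rpow_sub_le {r : ℝ} (hr : 1 ≤ r) {s t : ℝ} (ht : 0 ≤ t) (hts : t ≤ s) :
    s ^ r - t ^ r ≤ r * s ^ (r - 1) * (s - t) := by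
  have h1 : ∀ x ∈ Icc t s, HasDerivWithinAt (fun x : ℝ => x ^ r) (r * x ^ (r - 1)) (Icc t s) x :=
    fun x _ => (Real.hasDerivAt_rpow_const (Or.inr hr)).hasDerivWithinAt
  have h2 : ∀ x ∈ Icc t s, ‖r * x ^ (r - 1)‖ ≤ r * s ^ (r - 1) := by
    intro x hx
    have hx0 : 0 ≤ x := ht.trans hx.1
    rw [Real.norm_eq_abs, abs_of_nonneg (by positivity)]
    have := Real.rpow_le_rpow hx0 hx.2 (by linarith : 0 ≤ r - 1)
    gcongr
  have h3 := (convex_Icc t s).norm_image_sub_le_of_norm_hasDerivWithin_le h1 h2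
    (left_mem_Icc.2 hts) (right_mem_Icc.2 hts)
  rw [Real.norm_eq_abs, Real.norm_eq_abs, abs_of_nonneg (sub_nonneg.2 hts)] at h3
  exact (le_abs_self _).trans h3

lemma psi_lip_nonneg {q : ℝ} (hq : 2 < q) {s t : ℝ} (hs : 0 ≤ s) (ht : 0 ≤ t) :
    |psi q s - psi q t| ≤ (q - 1) * (|s| ^ (q - 2) + |t| ^ (q - 2)) * |s - t| := by
  rw [psi_of_nonneg hq hs, psi_of_nonneg hq ht, abs_of_nonneg hs, abs_of_nonneg ht]
  have key : ∀ a b : ℝ, 0 ≤ a → a ≤ b → |b ^ (q - 1) - a ^ (q - 1)| ≤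
      (q - 1) * (b ^ (q - 2) + a ^ (q - 2)) * |b - a| := by
    intro a b ha hab
    have h1 := rpow_sub_le (r := q - 1) (by linarith) ha hab
    have h2 : q - 1 - 1 = q - 2 := by ring
    rw [h2] at h1
    have h3 : a ^ (q - 1) ≤ b ^ (q - 1) := Real.rpow_le_rpow ha hab (by linarith)
    rw [abs_of_nonneg (sub_nonneg.2 h3), abs_of_nonneg (sub_nonneg.2 hab)]
    refine h1.trans ?_
    have h4 : 0 ≤ a ^ (q - 2) := by positivity
    have h5 : 0 ≤ b - a := by linarith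
    have h6 : 0 ≤ q - 1 := by linarith
    gcongr
    linarith
  rcases le_total t s with h | h
  · exact key t s ht h
  · rw [abs_sub_comm, abs_sub_comm s t, add_comm (s ^ (q - 2))]
    exact key s t hs h

lemma psi_lip_opp {q : ℝ} (hq : 2 < q) {s t : ℝ} (hs : 0 ≤ s) (ht : t ≤ 0) :
    |psi q s - psi q t| ≤ (q - 1) * (|s| ^ (q - 2) + |t| ^ (q - 2)) * |s - t| := by
  have h1 : |psi q s - psi q t| ≤ |psi q s| + |psi q t| := abs_sub _ _
  have h2 : |s - t| = |s| + |t| := by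
    rw [abs_of_nonneg hs, abs_of_nonpos ht, abs_of_nonneg (by linarith)]; ring
  have h3 : |psi q s| = |s| ^ (q - 2) * |s| := by
    unfold psi; rw [abs_mul, abs_of_nonneg (by positivity)]
  have h4 : |psi q t| = |t| ^ (q - 2) * |t| := by
    unfold psi; rw [abs_mul, abs_of_nonneg (by positivity)]
  rw [h3, h4] at h1
  refine h1.trans ?_
  rw [h2]
  have e1 : 0 ≤ |s| ^ (q - 2) := by positivity
  have e2 : 0 ≤ |t| ^ (q - 2) := by positivity
  have e3 : 0 ≤ |s| := abs_nonneg s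
  have e4 : 0 ≤ |t| := abs_nonneg t
  have e5 : |s| ^ (q - 2) * |s| + |t| ^ (q - 2) * |t| ≤
      (|s| ^ (q - 2) + |t| ^ (q - 2)) * (|s| + |t|) := by nlinarith [mul_nonneg e1 e4, mul_nonneg e2 e3]
  have e6 : 0 ≤ (|s| ^ (q - 2) + |t| ^ (q - 2)) * (|s| + |t|) := by positivity
  rw [mul_assoc]
  nlinarith

lemma psi_lip {q : ℝ} (hq : 2 < q) (s t : ℝ) :
    |psi q s - psi q t| ≤ (q - 1) * (|s| ^ (q - 2) + |t| ^ (q - 2)) * |s - t| := by
  rcases le_total 0 s with hs | hs <;> rcases le_total 0 t with ht | ht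
  · exact psi_lip_nonneg hq hs ht
  · exact psi_lip_opp hq hs ht
  · have := psi_lip_opp hq ht hs
    rw [abs_sub_comm, abs_sub_comm s t, add_comm (|s| ^ (q - 2))]
    exact this
  · have := psi_lip_nonneg hq (neg_nonneg.2 hs) (neg_nonneg.2 ht)
    rw [psi_neg, psi_neg, abs_neg, abs_neg] at this
    have e1 : -psi q s - -psi q t = -(psi q s - psi q t) := by ring
    have e2 : -s - -t = -(s - t) := by ring
    rw [e1, e2, abs_neg, abs_neg] at this
    exact this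

lemma continuous_psi {q : ℝ} (hq : 2 < q) : Continuous (psi q) := by
  unfold psi
  have : Continuous (fun t : ℝ => |t| ^ (q - 2)) :=
    continuous_abs.rpow_const (fun t => Or.inr (by linarith))
  fun_prop

variable {α : Type*} [MeasurableSpace α] {μ : Measure α}

/-- Three function Hölder inequality. -/
lemma lintegral_three {q : ℝ} (hq : 2 < q) {f g w : α → ℝ}
    (hf : AEStronglyMeasurable f μ) (hg : AEStronglyMeasurable g μ)
    (hw : AEStronglyMeasurable w μ) :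
    ∫⁻ x, ‖f x‖ₑ ^ (q - 2) * ‖g x‖ₑ * ‖w x‖ₑ ∂μ ≤
      eLpNorm f (ENNReal.ofReal q) μ ^ (q - 2) * eLpNorm g (ENNReal.ofReal q) μ *
        eLpNorm w (ENNReal.ofReal q) μ := by
  have hq0 : 0 < q := by linarith
  have h1 := ENNReal.lintegral_prod_norm_pow_le (μ := μ) (Finset.univ : Finset (Fin 3))
    (f := ![fun x => ‖f x‖ₑ ^ q, fun x => ‖g x‖ₑ ^ q, fun x => ‖w x‖ₑ ^ q])
    (by
      intro i _
      fin_cases i
      · exact hf.enorm.pow_const _
      · exact hg.enorm.pow_const _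
      · exact hw.enorm.pow_const _)
    (p := ![(q - 2) / q, 1 / q, 1 / q])
    (by
      rw [Fin.sum_univ_three]
      simp only [Matrix.cons_val_zero, Matrix.cons_val_one, Matrix.cons_val_two]
      simp
      field_simp
      ring)
    (by
      intro i _
      fin_cases i
      · show 0 ≤ (q - 2) / q
        have : 0 ≤ q - 2 := by linarith
        positivity
      · show 0 ≤ 1 / q
        positivity
      · show 0 ≤ 1 / q
        positivity)
  simp only [Fin.prod_univ_three] at h1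
  have e1 : ∀ x : ℝ≥0∞, (x ^ q) ^ ((q - 2) / q) = x ^ (q - 2) := by
    intro x
    rw [← ENNReal.rpow_mul]
    congr 1
    field_simp
  have e2 : ∀ x : ℝ≥0∞, (x ^ q) ^ (1 / q) = x := by
    intro x
    rw [← ENNReal.rpow_mul]
    rw [mul_one_div_cancel hq0.ne', ENNReal.rpow_one]
  have e3 : ∀ F : α → ℝ, eLpNorm F (ENNReal.ofReal q) μ = (∫⁻ x, ‖F x‖ₑ ^ q ∂μ) ^ (1 / q) := by
    intro F
    rw [eLpNorm_eq_lintegral_rpow_enorm_toReal (by simpa using hq0) (by simp),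
      ENNReal.toReal_ofReal hq0.le]
  have e4 : eLpNorm f (ENNReal.ofReal q) μ ^ (q - 2) = (∫⁻ x, ‖f x‖ₑ ^ q ∂μ) ^ ((q - 2) / q) := by
    rw [e3, ← ENNReal.rpow_mul]
    congr 1
    field_simp
  rw [e4, e3, e3]
  refine le_trans (le_of_eq ?_) h1
  refine lintegral_congr fun x => ?_
  simp only [Matrix.cons_val_zero, Matrix.cons_val_one, Matrix.cons_val_two]
  show _ = (‖f x‖ₑ ^ q) ^ ((q - 2) / q) * (‖g x‖ₑ ^ q) ^ (1 / q) * (‖w x‖ₑ ^ q) ^ (1 / q)
  rw [e1, e2, e2]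

lemma three_finite {q : ℝ} [Fact (1 ≤ ENNReal.ofReal q)] (hq : 2 < q) (f g w : Lp ℝ (ENNReal.ofReal q) μ) :
    ∫⁻ x, ‖f x‖ₑ ^ (q - 2) * ‖g x‖ₑ * ‖w x‖ₑ ∂μ ≤
      ENNReal.ofReal (‖f‖ ^ (q - 2) * ‖g‖ * ‖w‖) := by
  refine (lintegral_three hq (Lp.aestronglyMeasurable f) (Lp.aestronglyMeasurable g)
    (Lp.aestronglyMeasurable w)).trans (le_of_eq ?_)
  have e : ∀ F : Lp ℝ (ENNReal.ofReal q) μ, eLpNorm F (ENNReal.ofReal q) μ = ENNReal.ofReal ‖F‖ := by
    intro F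
    rw [Lp.norm_def, ENNReal.ofReal_toReal (Lp.eLpNorm_ne_top F)]
  rw [e, e, e, ENNReal.ofReal_mul (by positivity), ENNReal.ofReal_mul (by positivity),
    ENNReal.ofReal_rpow_of_nonneg (norm_nonneg _) (by linarith)]

lemma integrable_psi_mul {q : ℝ} [Fact (1 ≤ ENNReal.ofReal q)] (hq : 2 < q) (f g : Lp ℝ (ENNReal.ofReal q) μ) :
    Integrable (fun x => psi q (f x) * g x) μ := by
  have hm : AEStronglyMeasurable (fun x => psi q (f x) * g x) μ :=
    ((continuous_psi hq).comp_aestronglyMeasurable (Lp.aestronglyMeasurable f)).mul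
      (Lp.aestronglyMeasurable g)
  refine ⟨hm, ?_⟩
  have h1 := three_finite hq f f g
  refine lt_of_le_of_lt ?_ (h1.trans_lt ENNReal.ofReal_lt_top)
  refine lintegral_mono fun x => ?_
  rw [enorm_mul]
  unfold psi
  rw [enorm_mul, Real.enorm_of_nonneg (by positivity : 0 ≤ |f x| ^ (q - 2)),
    ← ENNReal.ofReal_rpow_of_nonneg (abs_nonneg _) (by linarith), ← Real.norm_eq_abs,
    ofReal_norm]

lemma abs_integral_three {q : ℝ} [Fact (1 ≤ ENNReal.ofReal q)] (hq : 2 < q) (f g w : Lp ℝ (ENNReal.ofReal q) μ) :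
    ∫ x, |f x| ^ (q - 2) * |g x| * |w x| ∂μ ≤ ‖f‖ ^ (q - 2) * ‖g‖ * ‖w‖ ∧
    Integrable (fun x => |f x| ^ (q - 2) * |g x| * |w x|) μ := by
  have hc : Continuous (fun t : ℝ => |t| ^ (q - 2)) :=
    continuous_abs.rpow_const (fun t => Or.inr (by linarith))
  have hm : AEStronglyMeasurable (fun x => |f x| ^ (q - 2) * |g x| * |w x|) μ :=
    ((hc.comp_aestronglyMeasurable (Lp.aestronglyMeasurable f)).mul
      (continuous_abs.comp_aestronglyMeasurable (Lp.aestronglyMeasurable g))).mul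
      (continuous_abs.comp_aestronglyMeasurable (Lp.aestronglyMeasurable w))
  have h1 := three_finite hq f g w
  have h2 : ∀ x, ‖|f x| ^ (q - 2) * |g x| * |w x|‖ₑ = ‖f x‖ₑ ^ (q - 2) * ‖g x‖ₑ * ‖w x‖ₑ := by
    intro x
    rw [enorm_mul, enorm_mul, Real.enorm_of_nonneg (by positivity : 0 ≤ |f x| ^ (q - 2)),
      ← ENNReal.ofReal_rpow_of_nonneg (abs_nonneg _) (by linarith), ← Real.norm_eq_abs,
      ofReal_norm]
    simp
  have hint : Integrable (fun x => |f x| ^ (q - 2) * |g x| * |w x|) μ := by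
    refine ⟨hm, ?_⟩
    refine lt_of_le_of_lt ?_ (h1.trans_lt ENNReal.ofReal_lt_top)
    exact lintegral_mono fun x => (h2 x).le
  refine ⟨?_, hint⟩
  rw [integral_eq_lintegral_of_nonneg_ae (Eventually.of_forall fun x => by positivity) hm]
  apply ENNReal.toReal_le_of_le_ofReal (by positivity)
  refine le_trans (le_of_eq (lintegral_congr fun x => ?_)) h1
  rw [← h2, Real.enorm_of_nonneg (by positivity)]

lemma integral_abs_rpow {q : ℝ} [Fact (1 ≤ ENNReal.ofReal q)] (hq : 2 < q) (f : Lp ℝ (ENNReal.ofReal q) μ) :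
    ∫ x, |f x| ^ q ∂μ = ‖f‖ ^ q ∧ Integrable (fun x => |f x| ^ q) μ := by
  have hq0 : 0 < q := by linarith
  have hc : Continuous (fun t : ℝ => |t| ^ q) :=
    continuous_abs.rpow_const (fun t => Or.inr (by linarith))
  have hm : AEStronglyMeasurable (fun x => |f x| ^ q) μ :=
    hc.comp_aestronglyMeasurable (Lp.aestronglyMeasurable f)
  have h2 : ∀ x, ‖|f x| ^ q‖ₑ = ‖f x‖ₑ ^ q := by
    intro x
    rw [Real.enorm_of_nonneg (by positivity : 0 ≤ |f x| ^ q),
      ← ENNReal.ofReal_rpow_of_nonneg (abs_nonneg _) (by linarith), ← Real.norm_eq_abs,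
      ofReal_norm]
  have h3 : ∫⁻ x, ‖f x‖ₑ ^ q ∂μ = eLpNorm f (ENNReal.ofReal q) μ ^ q := by
    rw [eLpNorm_eq_lintegral_rpow_enorm_toReal (by simpa using hq0) (by simp),
      ENNReal.toReal_ofReal hq0.le, ← ENNReal.rpow_mul, one_div_mul_cancel hq0.ne',
      ENNReal.rpow_one]
  constructor
  · rw [integral_eq_lintegral_of_nonneg_ae (Eventually.of_forall fun x => by positivity) hm,
      Lp.norm_def, ENNReal.toReal_rpow, ← h3]
    congr 1
    refine lintegral_congr fun x => ?_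
    rw [← h2, Real.enorm_of_nonneg (by positivity)]
  · refine ⟨hm, ?_⟩
    unfold HasFiniteIntegral
    simp_rw [h2]
    rw [h3]
    exact ENNReal.rpow_lt_top_of_nonneg hq0.le (Lp.eLpNorm_ne_top f)

lemma integral_psi_lip {q : ℝ} [Fact (1 ≤ ENNReal.ofReal q)] (hq : 2 < q) (f g w : Lp ℝ (ENNReal.ofReal q) μ) :
    |∫ x, psi q (f x) * w x ∂μ - ∫ x, psi q (g x) * w x ∂μ| ≤
      (q - 1) * (‖f‖ ^ (q - 2) + ‖g‖ ^ (q - 2)) * ‖f - g‖ * ‖w‖ := by
  rw [← integral_sub (integrable_psi_mul hq f w) (integrable_psi_mul hq g w)]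
  obtain ⟨h1, h1'⟩ := abs_integral_three hq f (f - g) w
  obtain ⟨h2, h2'⟩ := abs_integral_three hq g (f - g) w
  rw [← Real.norm_eq_abs]
  have hint := ((h1'.add h2').const_mul (q - 1))
  refine (norm_integral_le_of_norm_le hint ?_).trans ?_
  · filter_upwards [Lp.coeFn_sub f g] with x hx
    rw [← sub_mul, norm_mul, Real.norm_eq_abs, Real.norm_eq_abs]
    simp only [Pi.add_apply]
    rw [hx, Pi.sub_apply]
    have := psi_lip hq (f x) (g x)
    calc |psi q (f x) - psi q (g x)| * |w x|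
        ≤ ((q - 1) * (|f x| ^ (q - 2) + |g x| ^ (q - 2)) * |f x - g x|) * |w x| := by gcongr
      _ = _ := by ring
  · rw [integral_const_mul]
    simp only [Pi.add_apply]
    rw [integral_add h1' h2']
    have hq1 : 0 ≤ q - 1 := by linarith
    calc (q - 1) * (∫ x, |f x| ^ (q - 2) * |(f - g : Lp ℝ (ENNReal.ofReal q) μ) x| * |w x| ∂μ
          + ∫ x, |g x| ^ (q - 2) * |(f - g : Lp ℝ (ENNReal.ofReal q) μ) x| * |w x| ∂μ)
        ≤ (q - 1) * (‖f‖ ^ (q - 2) * ‖f - g‖ * ‖w‖ + ‖g‖ ^ (q - 2) * ‖f - g‖ * ‖w‖) := by gcongr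
      _ = _ := by ring

lemma abs_integral_psi_le {q : ℝ} [Fact (1 ≤ ENNReal.ofReal q)] (hq : 2 < q) (f w : Lp ℝ (ENNReal.ofReal q) μ) :
    |∫ x, psi q (f x) * w x ∂μ| ≤ ‖f‖ ^ (q - 2) * ‖f‖ * ‖w‖ := by
  obtain ⟨h1, h1'⟩ := abs_integral_three hq f f w
  rw [← Real.norm_eq_abs]
  refine (norm_integral_le_of_norm_le h1' (Eventually.of_forall fun x => ?_)).trans h1
  unfold psi
  rw [norm_mul, norm_mul, Real.norm_eq_abs, Real.norm_eq_abs, Real.norm_eq_abs,
    abs_of_nonneg (by positivity : 0 ≤ |f x| ^ (q - 2))]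

lemma integral_convex {q : ℝ} [Fact (1 ≤ ENNReal.ofReal q)] (hq : 2 < q) (f h : Lp ℝ (ENNReal.ofReal q) μ) :
    ‖f‖ ^ q / q + ∫ x, psi q (f x) * h x ∂μ ≤ ‖f + h‖ ^ q / q := by
  obtain ⟨h1, h1'⟩ := integral_abs_rpow hq f
  obtain ⟨h2, h2'⟩ := integral_abs_rpow hq (f + h)
  rw [← h1, ← h2, ← integral_div, ← integral_div,
    ← integral_add (h1'.div_const q) (integrable_psi_mul hq f h)]
  apply integral_mono_ae ((h1'.div_const q).add (integrable_psi_mul hq f h)) (h2'.div_const q)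
  filter_upwards [Lp.coeFn_add f h] with x hx
  rw [hx]
  exact convex_ineq hq (f x) (h x)

end Pool.Agent.Helper45.Power
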