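import Mathlib

open Filter Topology Set MeasureTheory
open scoped ENNReal NNReal

namespace Pool.Agent.Helper45.Rellich

variable {E : Type*} [NormedAddCommGroup E] [InnerProductSpace ℝ E] [FiniteDimensional ℝ E]
  [MeasurableSpace E] [BorelSpace E]

/-- Jensen's inequality for the square. -/
lemma lintegral_sq_le {α : Type*} [MeasurableSpace α] (ν : Measure α) [IsProbabilityMeasure ν]
    {g : α → ℝ≥0∞} (hg : AEMeasurable g ν) : (∫⁻ t, g t ∂ν) ^ 2 ≤ ∫⁻ t, g t ^ 2 ∂ν := by
  have h := ENNReal.lintegral_mul_le_Lp_mul_Lq ν Real.HolderConjugate.two_two hg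
    (aemeasurable_const (b := (1:ℝ≥0∞)))
  simp only [Pi.mul_apply, mul_one, ENNReal.one_rpow, lintegral_one, measure_univ] at h
  calc (∫⁻ t, g t ∂ν) ^ 2 ≤ ((∫⁻ t, g t ^ (2:ℝ) ∂ν) ^ (1 / (2:ℝ))) ^ 2 := by gcongr
    _ = ∫⁻ t, g t ^ (2:ℝ) ∂ν := by
        rw [← ENNReal.rpow_natCast, ← ENNReal.rpow_mul]; simp
    _ = _ := by simp

/-- Translation estimate. -/
lemma lintegral_translate_sub_le {φ : E → ℝ} (hφ : ContDiff ℝ 1 φ) (z : E) :
    ∫⁻ x, ‖φ (x + z) - φ x‖ₑ ^ 2 ≤ ‖z‖ₑ ^ 2 * ∫⁻ x, ‖fderiv ℝ φ x‖ₑ ^ 2 := by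
  have hcont : Continuous (fderiv ℝ φ) := hφ.continuous_fderiv one_ne_zero
  have h1 : ∀ x, ‖φ (x + z) - φ x‖ₑ ≤
      ∫⁻ t in Ioc (0:ℝ) 1, ‖fderiv ℝ φ (x + t • z)‖ₑ * ‖z‖ₑ := by
    intro x
    have h2 : φ (x + z) - φ x = ∫ t in (0:ℝ)..1, fderiv ℝ φ (x + t • z) z := by
      have h3 : ∀ t ∈ uIcc (0:ℝ) 1, HasDerivAt (fun t : ℝ => φ (x + t • z))
          (fderiv ℝ φ (x + t • z) z) t := by
        intro t _
        have h4 : HasFDerivAt φ (fderiv ℝ φ (x + t • z)) (x + t • z) :=
          (hφ.differentiable one_ne_zero _).hasFDerivAt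
        have h5 : HasDerivAt (fun t : ℝ => x + t • z) z t := by
          simpa using ((hasDerivAt_id t).smul_const z).const_add x
        exact h4.comp_hasDerivAt t h5
      rw [intervalIntegral.integral_eq_sub_of_hasDerivAt h3]
      · simp
      · apply Continuous.intervalIntegrable
        fun_prop
    rw [h2, intervalIntegral.integral_of_le zero_le_one]
    refine (enorm_integral_le_lintegral_enorm _).trans ?_
    refine lintegral_mono fun t => ?_
    exact ContinuousLinearMap.le_opENorm _ _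
  have : IsProbabilityMeasure (volume.restrict (Ioc (0:ℝ) 1)) := ⟨by simp⟩
  calc ∫⁻ x, ‖φ (x + z) - φ x‖ₑ ^ 2
      ≤ ∫⁻ x, ∫⁻ t in Ioc (0:ℝ) 1, (‖fderiv ℝ φ (x + t • z)‖ₑ * ‖z‖ₑ) ^ 2 := by
        refine lintegral_mono fun x => ?_
        calc ‖φ (x + z) - φ x‖ₑ ^ 2
            ≤ (∫⁻ t in Ioc (0:ℝ) 1, ‖fderiv ℝ φ (x + t • z)‖ₑ * ‖z‖ₑ) ^ 2 := by
              gcongr; exact h1 x
          _ ≤ _ := by
              apply lintegral_sq_le
              have : Continuous (fun t : ℝ => ‖fderiv ℝ φ (x + t • z)‖ₑ) := by fun_prop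
              exact (this.measurable.mul_const _).aemeasurable
    _ = ∫⁻ t in Ioc (0:ℝ) 1, ∫⁻ x, (‖fderiv ℝ φ (x + t • z)‖ₑ * ‖z‖ₑ) ^ 2 := by
        apply lintegral_lintegral_swap
        have : Continuous (fun p : E × ℝ => ‖fderiv ℝ φ (p.1 + p.2 • z)‖ₑ) := by fun_prop
        exact ((this.measurable.mul_const _).pow_const 2).aemeasurable
    _ = ∫⁻ t in Ioc (0:ℝ) 1, ‖z‖ₑ ^ 2 * ∫⁻ x, ‖fderiv ℝ φ x‖ₑ ^ 2 := by
        refine lintegral_congr fun t => ?_
        rw [lintegral_add_right_eq_self (fun x => (‖fderiv ℝ φ x‖ₑ * ‖z‖ₑ) ^ 2) (t • z)]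
        simp_rw [mul_pow]
        rw [lintegral_mul_const, mul_comm]
        exact hcont.enorm.measurable.pow_const 2
    _ = _ := by simp

/-- Total boundedness from finitely many real observations. -/
lemma totallyBounded_of_info {X Y : Type*} [PseudoMetricSpace X] {S : Set X}
    (H : ∀ ε > (0:ℝ), ∃ (t : Finset Y) (T : X → (t → ℝ)) (B δ : ℝ), 0 < δ ∧ (∀ x ∈ S, ‖T x‖ ≤ B) ∧
      ∀ x ∈ S, ∀ y ∈ S, dist (T x) (T y) < δ → dist x y < ε) : TotallyBounded S := by
  rw [Metric.totallyBounded_iff]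
  intro ε hε
  obtain ⟨t, T, B, δ, hδ, hB, hT⟩ := H ε hε
  have h1 : TotallyBounded (T '' S) := by
    apply (isCompact_closedBall (0 : t → ℝ) B).totallyBounded.subset
    rintro _ ⟨x, hx, rfl⟩
    simpa using hB x hx
  obtain ⟨t, htS, htfin, ht⟩ := Metric.finite_approx_of_totallyBounded h1 δ hδ
  have h2 : ∀ y ∈ t, ∃ x ∈ S, T x = y := fun y hy => htS hy
  rcases S.eq_empty_or_nonempty with hemp | ⟨x₀, hx₀⟩
  · exact ⟨∅, Set.finite_empty, by simp [hemp]⟩
  have : Nonempty X := ⟨x₀⟩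
  choose! g hg using h2
  refine ⟨g '' t, htfin.image g, fun x hx => ?_⟩
  obtain ⟨y, hy, hxy⟩ := mem_iUnion₂.1 (ht ⟨x, hx, rfl⟩)
  refine mem_iUnion₂.2 ⟨g y, ⟨y, hy, rfl⟩, ?_⟩
  apply hT x hx (g y) (hg y hy).1
  rw [(hg y hy).2]
  exact hxy

/-- The averaging operator with kernel `k`. -/
noncomputable def avg (k φ : E → ℝ) (x : E) : ℝ := ∫ z, k z * φ (x + z)

lemma avg_eq (k φ : E → ℝ) (x : E) : avg k φ x = ∫ y, k (y - x) * φ y := by
  unfold avg
  rw [← integral_add_left_eq_self (fun y => k (y - x) * φ y) x]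
  simp

/-- The averages are close in `L²`. -/
lemma lintegral_sub_avg_le {φ k : E → ℝ} (hφ : ContDiff ℝ 1 φ)
    (hk : Continuous k) (hkc : HasCompactSupport k) (hk0 : ∀ z, 0 ≤ k z) (hk1 : ∫ z, k z = 1)
    {h : ℝ} (hh : ∀ z, k z ≠ 0 → ‖z‖ ≤ h) :
    ∫⁻ x, ‖φ x - avg k φ x‖ₑ ^ 2 ≤ ENNReal.ofReal h ^ 2 * ∫⁻ x, ‖fderiv ℝ φ x‖ₑ ^ 2 := by
  have hφcont : Continuous φ := hφ.continuous
  have hkint : Integrable k := hk.integrable_of_hasCompactSupport hkc
  set ν : Measure E := volume.withDensity (fun z => ENNReal.ofReal (k z)) with hν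
  have hν1 : IsProbabilityMeasure ν := by
    constructor
    rw [hν, withDensity_apply _ MeasurableSet.univ, Measure.restrict_univ,
      ← ofReal_integral_eq_lintegral_ofReal hkint (Eventually.of_forall hk0), hk1]
    simp
  have hkm : Measurable (fun z => ENNReal.ofReal (k z)) := hk.measurable.ennreal_ofReal
  have h1 : ∀ x, ‖φ x - avg k φ x‖ₑ ≤ ∫⁻ z, ‖φ (x + z) - φ x‖ₑ ∂ν := by
    intro x
    have h2 : φ x - avg k φ x = ∫ z, k z * (φ x - φ (x + z)) := by
      have i1 : Integrable (fun z => k z * φ x) := hkint.mul_const _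
      have i2 : Integrable (fun z => k z * φ (x + z)) := by
        apply Continuous.integrable_of_hasCompactSupport (by fun_prop)
        exact hkc.mul_right
      have : (fun z => k z * (φ x - φ (x + z))) = fun z => k z * φ x - k z * φ (x + z) := by
        funext z; ring
      rw [this, integral_sub i1 i2, integral_mul_const, hk1, one_mul]
      rfl
    have hm : Measurable (fun z => ‖φ (x + z) - φ x‖ₑ) :=
      (by fun_prop : Continuous (fun z => ‖φ (x + z) - φ x‖ₑ)).measurable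
    rw [h2, hν, lintegral_withDensity_eq_lintegral_mul _ hkm hm]
    refine (enorm_integral_le_lintegral_enorm _).trans ?_
    refine lintegral_mono fun z => ?_
    rw [Pi.mul_apply, enorm_mul, Real.enorm_of_nonneg (hk0 z), enorm_sub_rev]
  calc ∫⁻ x, ‖φ x - avg k φ x‖ₑ ^ 2
      ≤ ∫⁻ x, ∫⁻ z, ‖φ (x + z) - φ x‖ₑ ^ 2 ∂ν := by
        refine lintegral_mono fun x => ?_
        calc ‖φ x - avg k φ x‖ₑ ^ 2 ≤ (∫⁻ z, ‖φ (x + z) - φ x‖ₑ ∂ν) ^ 2 := by
              gcongr; exact h1 x
          _ ≤ _ := lintegral_sq_le ν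
              (by fun_prop : Continuous (fun z => ‖φ (x + z) - φ x‖ₑ)).measurable.aemeasurable
    _ = ∫⁻ z, (∫⁻ x, ‖φ (x + z) - φ x‖ₑ ^ 2) ∂ν := by
        apply lintegral_lintegral_swap
        have : Continuous (fun p : E × E => ‖φ (p.1 + p.2) - φ p.1‖ₑ) := by fun_prop
        exact (this.measurable.pow_const 2).aemeasurable
    _ ≤ ∫⁻ z, (‖z‖ₑ ^ 2 * ∫⁻ x, ‖fderiv ℝ φ x‖ₑ ^ 2) ∂ν :=
        lintegral_mono fun z => lintegral_translate_sub_le hφ z
    _ ≤ ∫⁻ _, (ENNReal.ofReal h ^ 2 * ∫⁻ x, ‖fderiv ℝ φ x‖ₑ ^ 2) ∂ν := by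
        apply lintegral_mono_ae
        have h3 : ∀ᵐ z ∂ν, k z ≠ 0 := by
          rw [hν, ae_withDensity_iff hkm]
          refine Eventually.of_forall fun z hz hz2 => ?_
          rw [hz2] at hz
          simp at hz
        filter_upwards [h3] with z hz
        have h4 : ‖z‖ₑ ≤ ENNReal.ofReal h := by
          rw [← ofReal_norm]
          exact ENNReal.ofReal_le_ofReal (hh z hz)
        gcongr
    _ = _ := by rw [lintegral_const, measure_univ, mul_one]

lemma eLpNorm_two_sq {α F : Type*} [MeasurableSpace α] [NormedAddCommGroup F] (μ : Measure α)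
    (f : α → F) : eLpNorm f 2 μ ^ 2 = ∫⁻ x, ‖f x‖ₑ ^ 2 ∂μ := by
  rw [eLpNorm_eq_lintegral_rpow_enorm_toReal (by norm_num) (by norm_num)]
  rw [← ENNReal.rpow_natCast, ← ENNReal.rpow_mul]
  simp

lemma eLpNorm_sub_avg_le {φ k : E → ℝ} (hφ : ContDiff ℝ 1 φ)
    (hk : Continuous k) (hkc : HasCompactSupport k) (hk0 : ∀ z, 0 ≤ k z) (hk1 : ∫ z, k z = 1)
    {h : ℝ} (hh : ∀ z, k z ≠ 0 → ‖z‖ ≤ h) :
    eLpNorm (fun x => φ x - avg k φ x) 2 volume ≤
      ENNReal.ofReal h * eLpNorm (fderiv ℝ φ) 2 volume := by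
  have h1 := lintegral_sub_avg_le hφ hk hkc hk0 hk1 hh
  rw [← eLpNorm_two_sq volume (fderiv ℝ φ), ← eLpNorm_two_sq volume, ← mul_pow] at h1
  exact (ENNReal.pow_le_pow_left_iff (by norm_num)).1 h1

lemma stronglyMeasurable_avg {φ k : E → ℝ} (hφ : Continuous φ) (hk : Continuous k) :
    StronglyMeasurable (avg k φ) := by
  unfold avg
  apply StronglyMeasurable.integral_prod_right
  apply Continuous.stronglyMeasurable
  unfold Function.uncurry
  fun_prop

/-- Rellich's compactness theorem for test functions. -/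
theorem totallyBounded_test (hn : 2 < Module.finrank ℝ E) {Ω : Set E}
    (hΩb : Bornology.IsBounded Ω) (hΩm : MeasurableSet Ω) (R : ℝ≥0) :
    TotallyBounded {f : Lp ℝ 2 (volume.restrict Ω) | ∃ φ : E → ℝ, ContDiff ℝ 1 φ ∧
      HasCompactSupport φ ∧ Function.support φ ⊆ Ω ∧ f =ᵐ[volume.restrict Ω] φ ∧
      eLpNorm (fderiv ℝ φ) 2 volume ≤ R} := by
  obtain ⟨CP, hCP⟩ : ∃ C : ℝ≥0, ∀ φ : E → ℝ, ContDiff ℝ 1 φ → Function.support φ ⊆ Ω →
      eLpNorm φ 2 volume ≤ C * eLpNorm (fderiv ℝ φ) 2 volume := by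
    refine ⟨_, fun φ h1 h2 => eLpNorm_le_eLpNorm_fderiv_of_le (F := ℝ) volume h1 h2 (p := 2) (q := 2)
      (by norm_num) (by exact_mod_cast hn) ?_ hΩb⟩
    simp
  have hV : volume Ω ≠ ∞ := hΩb.measure_lt_top.ne
  set V : ℝ≥0 := (volume Ω).toNNReal with hVdef
  have hVe : volume Ω = V := (ENNReal.coe_toNNReal hV).symm
  set Vh : ℝ≥0 := V ^ (1 / 2 : ℝ) with hVh
  -- L¹ bound
  have hL1 : ∀ φ : E → ℝ, ContDiff ℝ 1 φ → HasCompactSupport φ → Function.support φ ⊆ Ω →
      ∀ R' : ℝ≥0, eLpNorm (fderiv ℝ φ) 2 volume ≤ R' → ∫ x, ‖φ x‖ ≤ Vh * CP * R' := by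
    intro φ h1 h2 h3 R' h4
    have h5 : eLpNorm φ 1 volume ≤ Vh * (CP * R') := by
      calc eLpNorm φ 1 volume = eLpNorm φ 1 (volume.restrict Ω) :=
            (eLpNorm_restrict_eq_of_support_subset h3).symm
        _ ≤ eLpNorm φ 2 (volume.restrict Ω) * (volume.restrict Ω) univ ^
              (1 / (1:ℝ≥0∞).toReal - 1 / (2:ℝ≥0∞).toReal) :=
            eLpNorm_le_eLpNorm_mul_rpow_measure_univ (by norm_num)
              h1.continuous.aestronglyMeasurable
        _ ≤ (CP * R') * Vh := by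
            gcongr
            · rw [eLpNorm_restrict_eq_of_support_subset h3]
              exact (hCP φ h1 h3).trans (by gcongr)
            · rw [Measure.restrict_apply_univ, hVe, hVh]
              rw [ENNReal.coe_rpow_of_nonneg _ (by norm_num)]
              norm_num
        _ = _ := mul_comm _ _
    have h6 : ∫ x, ‖φ x‖ = (eLpNorm φ 1 volume).toReal := by
      rw [eLpNorm_one_eq_lintegral_enorm, integral_norm_eq_lintegral_enorm
        h1.continuous.aestronglyMeasurable]
    rw [h6]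
    calc (eLpNorm φ 1 volume).toReal ≤ ((Vh : ℝ≥0∞) * (CP * R')).toReal :=
          ENNReal.toReal_mono (by finiteness) h5
      _ = Vh * CP * R' := by simp [mul_assoc]
  apply totallyBounded_of_info (Y := E)
  intro ε hε
  -- parameters
  set h : ℝ := ε / (4 * (R + 1)) with hh
  have hh0 : 0 < h := by positivity
  set B : ℝ := Vh * CP * (2 * R) with hB
  have hB0 : 0 ≤ B := by positivity
  set δ : ℝ := ε / (8 * (Vh + 1) * (B + 1)) with hδ
  have hδ0 : 0 < δ := by positivity
  let bump : ContDiffBump (0 : E) := ⟨h / 2, h, by positivity, by linarith⟩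
  set k : E → ℝ := bump.normed volume with hk
  have hkcont : Continuous k := bump.continuous_normed
  have hkc : HasCompactSupport k := bump.hasCompactSupport_normed
  have hk0 : ∀ z, 0 ≤ k z := bump.nonneg_normed
  have hk1 : ∫ z, k z = 1 := bump.integral_normed
  have hksupp : ∀ z, k z ≠ 0 → ‖z‖ ≤ h := by
    intro z hz
    have h1 : z ∈ Function.support (bump.normed volume) := hz
    rw [bump.support_normed_eq] at h1
    have : bump.rOut = h := rfl
    rw [this] at h1
    simpa using (Metric.mem_ball.1 h1).le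
  obtain ⟨K₀, hK₀⟩ := hkc.exists_bound_of_continuous hkcont
  have hK₀0 : 0 ≤ K₀ := (norm_nonneg _).trans (hK₀ 0)
  obtain ⟨ρ, hρ0, hρ⟩ := Metric.uniformContinuous_iff.1
    (hkc.uniformContinuous_of_continuous hkcont) δ hδ0
  obtain ⟨t, -, htfin, ht⟩ := Metric.finite_approx_of_totallyBounded
    (hΩb.isCompact_closure.totallyBounded.subset subset_closure) ρ hρ0
  -- basic estimates on averages
  have hint : ∀ φ : E → ℝ, Continuous φ → HasCompactSupport φ → ∀ x,
      Integrable (fun y => k (y - x) * φ y) := by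
    intro φ h1 h2 x
    apply Continuous.integrable_of_hasCompactSupport (by fun_prop)
    exact h2.mul_left
  have hosc : ∀ φ : E → ℝ, Continuous φ → HasCompactSupport φ → ∀ x x', dist x x' < ρ →
      |avg k φ x - avg k φ x'| ≤ δ * ∫ y, ‖φ y‖ := by
    intro φ h1 h2 x x' hxx
    rw [avg_eq, avg_eq, ← integral_sub (hint φ h1 h2 x) (hint φ h1 h2 x'), ← Real.norm_eq_abs,
      ← integral_const_mul]
    refine norm_integral_le_of_norm_le
      ((h1.integrable_of_hasCompactSupport h2).norm.const_mul δ) (Eventually.of_forall fun y => ?_)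
    rw [← sub_mul, norm_mul]
    gcongr
    have h3 : dist (y - x) (y - x') < ρ := by rw [dist_sub_left]; exact hxx
    have := hρ h3
    rw [dist_eq_norm] at this
    exact this.le
  have hbd : ∀ φ : E → ℝ, Continuous φ → HasCompactSupport φ → ∀ x,
      |avg k φ x| ≤ K₀ * ∫ y, ‖φ y‖ := by
    intro φ h1 h2 x
    rw [avg_eq, ← Real.norm_eq_abs, ← integral_const_mul]
    refine norm_integral_le_of_norm_le
      ((h1.integrable_of_hasCompactSupport h2).norm.const_mul K₀) (Eventually.of_forall fun y => ?_)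
    rw [norm_mul]
    gcongr
    exact hK₀ _
  have havgT : ∀ (f : Lp ℝ 2 (volume.restrict Ω)) (φ : E → ℝ), Function.support φ ⊆ Ω →
      f =ᵐ[volume.restrict Ω] φ → ∀ x, ∫ y in Ω, k (y - x) * f y = avg k φ x := by
    intro f φ h1 h2 x
    rw [avg_eq]
    have h3 : ∫ y in Ω, k (y - x) * f y = ∫ y in Ω, k (y - x) * φ y := by
      apply integral_congr_ae
      filter_upwards [h2] with y hy
      rw [hy]
    rw [h3]
    apply setIntegral_eq_integral_of_forall_compl_eq_zero
    intro y hy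
    have : φ y = 0 := by
      by_contra h4
      exact hy (h1 h4)
    rw [this, mul_zero]
  refine ⟨htfin.toFinset, fun f j => ∫ y in Ω, k (y - (j : E)) * f y, K₀ * (Vh * CP * R), δ, hδ0,
    ?_, ?_⟩
  · rintro f ⟨φ, h1, h2, h3, h4, h5⟩
    rw [pi_norm_le_iff_of_nonneg (by positivity)]
    intro j
    change ‖∫ y in Ω, k (y - (j : E)) * f y‖ ≤ _
    rw [havgT f φ h3 h4, Real.norm_eq_abs]
    refine (hbd φ h1.continuous h2 j).trans ?_
    gcongr
    exact hL1 φ h1 h2 h3 R h5
  · rintro f ⟨φ, h1, h2, h3, h4, h5⟩ g ⟨ψ, g1, g2, g3, g4, g5⟩ hdist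
    set θ : E → ℝ := fun x => φ x - ψ x with hθ
    have t1 : ContDiff ℝ 1 θ := h1.sub g1
    have t2 : HasCompactSupport θ := h2.sub g2
    have t3 : Function.support θ ⊆ Ω := by
      intro x hx
      by_contra hcon
      apply hx
      have e1 : φ x = 0 := by
        by_contra h; exact hcon (h3 h)
      have e2 : ψ x = 0 := by
        by_contra h; exact hcon (g3 h)
      simp [hθ, e1, e2]
    have t4 : (fun x => f x - g x) =ᵐ[volume.restrict Ω] θ := by
      filter_upwards [h4, g4] with x hx hx'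
      rw [hx, hx']
    have t5 : eLpNorm (fderiv ℝ θ) 2 volume ≤ ((2 * R : ℝ≥0) : ℝ≥0∞) := by
      have e1 : fderiv ℝ θ = fun x => fderiv ℝ φ x - fderiv ℝ ψ x := by
        funext x
        exact fderiv_fun_sub (h1.differentiable one_ne_zero x) (g1.differentiable one_ne_zero x)
      rw [e1]
      have m1 : AEStronglyMeasurable (fderiv ℝ φ) (volume : Measure E) :=
        (h1.continuous_fderiv one_ne_zero).aestronglyMeasurable
      have m2 : AEStronglyMeasurable (fderiv ℝ ψ) (volume : Measure E) :=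
        (g1.continuous_fderiv one_ne_zero).aestronglyMeasurable
      refine (eLpNorm_sub_le m1 m2 (by norm_num)).trans ?_
      push_cast
      rw [two_mul]
      gcongr
    have t6 : ∫ x, ‖θ x‖ ≤ B := by
      have := hL1 θ t1 t2 t3 (2 * R) t5
      push_cast at this
      exact this
    -- sup bound of the average on Ω
    have t7 : ∀ x ∈ Ω, |avg k θ x| ≤ δ * B + δ := by
      intro x hx
      obtain ⟨j, hj, hxj⟩ := mem_iUnion₂.1 (ht hx)
      have e1 := hosc θ t1.continuous t2 x j hxj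
      have e2 : |avg k θ j| ≤ δ := by
        have e3 : avg k θ j = avg k φ j - avg k ψ j := by
          rw [avg_eq, avg_eq, avg_eq, ← integral_sub (hint φ h1.continuous h2 j)
            (hint ψ g1.continuous g2 j)]
          congr 1
          funext y
          simp only [hθ]; ring
        have e4 := (dist_pi_lt_iff hδ0).1 hdist ⟨j, htfin.mem_toFinset.2 hj⟩
        simp only at e4
        rw [havgT f φ h3 h4, havgT g ψ g3 g4, Real.dist_eq] at e4
        rw [e3]
        exact e4.le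
      have e5 : δ * ∫ y, ‖θ y‖ ≤ δ * B := by gcongr
      have e6 : |avg k θ x| ≤ |avg k θ x - avg k θ j| + |avg k θ j| := by
        have := abs_add_le (avg k θ x - avg k θ j) (avg k θ j)
        simpa using this
      linarith
    -- conclusion
    have t8 : eLpNorm (fun x => f x - g x) 2 (volume.restrict Ω) ≤
        ENNReal.ofReal (h * (2 * R) + Vh * (δ * B + δ)) := by
      have e1 : eLpNorm (fun x => θ x - avg k θ x) 2 (volume.restrict Ω) ≤
          ENNReal.ofReal (h * (2 * R)) := by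
        calc _ ≤ eLpNorm (fun x => θ x - avg k θ x) 2 volume :=
              eLpNorm_mono_measure _ Measure.restrict_le_self
          _ ≤ ENNReal.ofReal h * eLpNorm (fderiv ℝ θ) 2 volume :=
              eLpNorm_sub_avg_le t1 hkcont hkc hk0 hk1 hksupp
          _ ≤ ENNReal.ofReal h * ((2 * R : ℝ≥0) : ℝ≥0∞) := by gcongr
          _ = ENNReal.ofReal (h * (2 * R)) := by
              rw [ENNReal.ofReal_mul hh0.le, ← ENNReal.ofReal_coe_nnreal]
              push_cast
              rfl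
      have e2 : eLpNorm (avg k θ) 2 (volume.restrict Ω) ≤
          ENNReal.ofReal (Vh * (δ * B + δ)) := by
        have e3 : ∀ᵐ x ∂(volume.restrict Ω), ‖avg k θ x‖ ≤ δ * B + δ := by
          rw [ae_restrict_iff' hΩm]
          exact Eventually.of_forall fun x hx => t7 x hx
        refine (eLpNorm_le_of_ae_bound e3).trans ?_
        rw [Measure.restrict_apply_univ, hVe, ENNReal.ofReal_mul (by positivity),
          ENNReal.ofReal_coe_nnreal, hVh, ENNReal.coe_rpow_of_nonneg _ (by norm_num)]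
        norm_num
      have e4 : eLpNorm (fun x => f x - g x) 2 (volume.restrict Ω) =
          eLpNorm ((fun x => θ x - avg k θ x) + avg k θ) 2 (volume.restrict Ω) := by
        apply eLpNorm_congr_ae
        filter_upwards [t4] with x hx
        simp [hx]
      rw [e4]
      have m1 := (stronglyMeasurable_avg t1.continuous hkcont).aestronglyMeasurable
        (μ := volume.restrict Ω)
      refine (eLpNorm_add_le (t1.continuous.aestronglyMeasurable.sub m1) m1
        (by norm_num)).trans ?_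
      rw [ENNReal.ofReal_add (by positivity) (by positivity)]
      exact add_le_add e1 e2
    rw [dist_eq_norm, Lp.norm_def]
    have t9 : eLpNorm (⇑(f - g)) 2 (volume.restrict Ω) =
        eLpNorm (fun x => f x - g x) 2 (volume.restrict Ω) :=
      eLpNorm_congr_ae (Lp.coeFn_sub f g)
    rw [t9]
    have t10 : h * (2 * R) + Vh * (δ * B + δ) < ε := by
      have e1 : h * (2 * R) ≤ ε / 2 := by
        rw [hh, div_mul_eq_mul_div, div_le_iff₀ (by positivity)]
        have : 0 ≤ (R:ℝ) := R.2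
        nlinarith
      have e2 : Vh * (δ * B + δ) ≤ ε / 8 := by
        have e3 : (Vh:ℝ) * (δ * B + δ) = ((Vh : ℝ) * (B + 1)) * δ := by ring
        rw [e3, hδ, mul_div_assoc', div_le_iff₀ (by positivity)]
        have : 0 ≤ (Vh:ℝ) := Vh.2
        have h5 : (Vh : ℝ) * (B + 1) ≤ (Vh + 1) * (B + 1) := by gcongr; linarith
        nlinarith
      linarith
    calc (eLpNorm (fun x => f x - g x) 2 (volume.restrict Ω)).toReal
        ≤ (ENNReal.ofReal (h * (2 * R) + Vh * (δ * B + δ))).toReal :=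
          ENNReal.toReal_mono ENNReal.ofReal_ne_top t8
      _ = h * (2 * R) + Vh * (δ * B + δ) := ENNReal.toReal_ofReal (by positivity)
      _ < ε := t10

end Pool.Agent.Helper45.Rellich
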