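import Pool.Agent.Helper45.KirchhoffDefs
import Pool.Agent.Helper45.Rellich
import Pool.Agent.Helper45.PowerFunctional

open MeasureTheory Filter Topology Set
open scoped ContDiff Gradient RealInnerProductSpace ENNReal NNReal

namespace Pool.Agent.Helper45.Kirchhoff

variable {N : ℕ} {Ω : Set (EuclideanSpace ℝ (Fin N))}

lemma norm_gradient (φ : EuclideanSpace ℝ (Fin N) → ℝ) (x : EuclideanSpace ℝ (Fin N)) :
    ‖∇ φ x‖ = ‖fderiv ℝ φ x‖ := by
  unfold gradient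
  rw [LinearIsometryEquiv.norm_map]

lemma continuous_gradient {φ : EuclideanSpace ℝ (Fin N) → ℝ} (hφ : ContDiff ℝ 1 φ) :
    Continuous (∇ φ) := by
  have : ∇ φ = fun x => (InnerProductSpace.toDual ℝ (EuclideanSpace ℝ (Fin N))).symm
      (fderiv ℝ φ x) := rfl
  rw [this]
  exact (LinearIsometryEquiv.continuous _).comp (hφ.continuous_fderiv one_ne_zero)

lemma gradient_add' {φ ψ : EuclideanSpace ℝ (Fin N) → ℝ} (hφ : ContDiff ℝ 1 φ)
    (hψ : ContDiff ℝ 1 ψ) (x : EuclideanSpace ℝ (Fin N)) :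
    ∇ (φ + ψ) x = ∇ φ x + ∇ ψ x := by
  unfold gradient
  rw [fderiv_add (hφ.differentiable one_ne_zero x) (hψ.differentiable one_ne_zero x), map_add]

lemma gradient_smul' {φ : EuclideanSpace ℝ (Fin N) → ℝ} (hφ : ContDiff ℝ 1 φ) (c : ℝ)
    (x : EuclideanSpace ℝ (Fin N)) : ∇ (c • φ) x = c • ∇ φ x := by
  unfold gradient
  rw [fderiv_const_smul (hφ.differentiable one_ne_zero x)]
  simp

lemma hasCompactSupport_gradient {φ : EuclideanSpace ℝ (Fin N) → ℝ} (hφ : HasCompactSupport φ) :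
    HasCompactSupport (∇ φ) := by
  have h1 : HasCompactSupport (fderiv ℝ φ) := hφ.fderiv ℝ
  exact h1.comp_left (g := (InnerProductSpace.toDual ℝ (EuclideanSpace ℝ (Fin N))).symm)
    (map_zero _)

lemma memLp_test {φ : EuclideanSpace ℝ (Fin N) → ℝ} (hφ : Continuous φ)
    (hc : HasCompactSupport φ) (p : ℝ≥0∞) : MemLp φ p (volume.restrict Ω) :=
  (hφ.memLp_of_hasCompactSupport hc).restrict Ω

lemma memLp_gradient {φ : EuclideanSpace ℝ (Fin N) → ℝ} (hφ : ContDiff ℝ 1 φ)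
    (hc : HasCompactSupport φ) (p : ℝ≥0∞) : MemLp (∇ φ) p (volume.restrict Ω) :=
  ((continuous_gradient hφ).memLp_of_hasCompactSupport (hasCompactSupport_gradient hc)).restrict Ω

/-- The test pairs form a subspace. -/
noncomputable def testSub (Ω : Set (EuclideanSpace ℝ (Fin N))) : Submodule ℝ (L2 Ω × L2v Ω) where
  carrier := testPairs Ω
  zero_mem' := by
    refine ⟨0, contDiff_const, HasCompactSupport.zero, by simp [tsupport], ?_, ?_⟩
    · exact Lp.coeFn_zero _ _ _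
    · have : ∇ (0 : EuclideanSpace ℝ (Fin N) → ℝ) = 0 := by
        funext x
        unfold gradient
        simp
      rw [this]
      exact Lp.coeFn_zero _ _ _
  add_mem' := by
    rintro p q ⟨φ, h1, h2, h3, h4, h5⟩ ⟨ψ, g1, g2, g3, g4, g5⟩
    refine ⟨φ + ψ, h1.add g1, h2.add g2, ?_, ?_, ?_⟩
    · exact (tsupport_add φ ψ).trans (union_subset h3 g3)
    · exact (Lp.coeFn_add p.1 q.1).trans (h4.add g4)
    · refine (Lp.coeFn_add p.2 q.2).trans ?_
      filter_upwards [h5, g5] with x hx hx'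
      rw [Pi.add_apply, hx, hx', gradient_add' (h1.of_le (by simp)) (g1.of_le (by simp))]
  smul_mem' := by
    rintro c p ⟨φ, h1, h2, h3, h4, h5⟩
    refine ⟨c • φ, contDiff_const.smul h1, ?_, ?_, ?_, ?_⟩
    · exact h2.smul_left
    · refine (closure_mono ?_).trans h3
      exact Function.support_const_smul_subset c φ
    · exact (Lp.coeFn_smul c p.1).trans (h4.const_smul c)
    · refine (Lp.coeFn_smul c p.2).trans ?_
      filter_upwards [h5] with x hx
      rw [Pi.smul_apply, hx, gradient_smul' (h1.of_le (by simp))]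

/-- `H¹₀(Ω)` as a closed subspace. -/
noncomputable def HS (Ω : Set (EuclideanSpace ℝ (Fin N))) : Submodule ℝ (L2 Ω × L2v Ω) :=
  (testSub Ω).topologicalClosure

lemma mem_HS {u : L2 Ω × L2v Ω} : u ∈ HS Ω ↔ u ∈ H10 Ω := Iff.rfl

/-- The pair attached to a test function. -/
lemma exists_pair {φ : EuclideanSpace ℝ (Fin N) → ℝ} (h1 : ContDiff ℝ ∞ φ)
    (h2 : HasCompactSupport φ) (h3 : tsupport φ ⊆ Ω) :
    ∃ p ∈ testPairs Ω, p.1 =ᵐ[volume.restrict Ω] φ ∧ p.2 =ᵐ[volume.restrict Ω] ∇ φ := by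
  have m1 := memLp_test (Ω := Ω) h1.continuous h2 2
  have m2 := memLp_gradient (Ω := Ω) (h1.of_le (by simp)) h2 2
  refine ⟨(m1.toLp, m2.toLp), ⟨φ, h1, h2, h3, m1.coeFn_toLp, m2.coeFn_toLp⟩, m1.coeFn_toLp,
    m2.coeFn_toLp⟩

lemma eLpNorm_gradient_restrict {φ : EuclideanSpace ℝ (Fin N) → ℝ} (h3 : tsupport φ ⊆ Ω)
    (q : ℝ≥0∞) :
    eLpNorm (∇ φ) q (volume.restrict Ω) = eLpNorm (fderiv ℝ φ) q volume := by
  have h4 : Function.support (∇ φ) ⊆ Ω := by
    intro x hx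
    apply h3
    apply tsupport_fderiv_subset ℝ
    apply subset_tsupport
    intro h
    apply hx
    unfold gradient
    rw [h, map_zero]
  rw [eLpNorm_restrict_eq_of_support_subset h4]
  exact eLpNorm_congr_norm_ae (Eventually.of_forall fun x => norm_gradient φ x)

/-- Norm of the second component of a test pair. -/
lemma norm_snd_test {p : L2 Ω × L2v Ω} {φ : EuclideanSpace ℝ (Fin N) → ℝ} (h3 : tsupport φ ⊆ Ω)
    (h5 : p.2 =ᵐ[volume.restrict Ω] ∇ φ) :
    ENNReal.ofReal ‖p.2‖ = eLpNorm (fderiv ℝ φ) 2 volume := by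
  rw [Lp.norm_def, ENNReal.ofReal_toReal (Lp.eLpNorm_ne_top _), eLpNorm_congr_ae h5,
    eLpNorm_gradient_restrict h3]

/-- Poincaré's inequality. -/
lemma poincare (hN : 2 < N) (hΩb : Bornology.IsBounded Ω) :
    ∃ C : ℝ, 0 < C ∧ ∀ u ∈ HS Ω, ‖u.1‖ ≤ C * ‖u.2‖ := by
  obtain ⟨CP, hCP⟩ : ∃ C : ℝ≥0, ∀ φ : EuclideanSpace ℝ (Fin N) → ℝ, ContDiff ℝ 1 φ →
      Function.support φ ⊆ Ω →
      eLpNorm φ 2 volume ≤ C * eLpNorm (fderiv ℝ φ) 2 volume := by
    refine ⟨_, fun φ h1 h2 => eLpNorm_le_eLpNorm_fderiv_of_le (F := ℝ) volume h1 h2 (p := 2) (q := 2)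
      (by norm_num) ?_ ?_ hΩb⟩
    · simpa using (by exact_mod_cast hN : (2:ℝ≥0) < N)
    · simp
  refine ⟨CP + 1, by positivity, fun u hu => ?_⟩
  have hcl : IsClosed {u : L2 Ω × L2v Ω | ‖u.1‖ ≤ (CP + 1) * ‖u.2‖} :=
    isClosed_le (by fun_prop) (by fun_prop)
  have hsub : testPairs Ω ⊆ {u : L2 Ω × L2v Ω | ‖u.1‖ ≤ (CP + 1) * ‖u.2‖} := by
    rintro p ⟨φ, h1, h2, h3, h4, h5⟩
    have e1 : ENNReal.ofReal ‖p.1‖ ≤ ENNReal.ofReal (CP * ‖p.2‖) := by
      rw [Lp.norm_def, ENNReal.ofReal_toReal (Lp.eLpNorm_ne_top _), eLpNorm_congr_ae h4,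
        ENNReal.ofReal_mul (by positivity), norm_snd_test h3 h5, ENNReal.ofReal_coe_nnreal]
      calc eLpNorm φ 2 (volume.restrict Ω) ≤ eLpNorm φ 2 volume :=
            eLpNorm_mono_measure _ Measure.restrict_le_self
        _ ≤ _ := hCP φ (h1.of_le (by simp)) ((subset_tsupport φ).trans h3)
    rw [ENNReal.ofReal_le_ofReal_iff (by positivity)] at e1
    show ‖p.1‖ ≤ (CP + 1) * ‖p.2‖
    nlinarith [norm_nonneg p.2]
  exact closure_minimal hsub hcl hu

/-- The critical exponent as an `ℝ≥0∞`. -/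
lemma critExp_gt (hN : 2 < N) : 2 < critExp N := by
  unfold critExp
  have : (2:ℝ) < N := by exact_mod_cast hN
  rw [lt_div_iff₀ (by linarith)]
  linarith

lemma critExp_lt (hN : 4 < N) : critExp N < 4 := by
  unfold critExp
  have : (4:ℝ) < N := by exact_mod_cast hN
  rw [div_lt_iff₀ (by linarith)]
  linarith

/-- Sobolev's inequality. -/
lemma sobolev (hN : 2 < N) :
    ∃ C : ℝ, 0 < C ∧ ∀ u ∈ HS Ω,
      eLpNorm u.1 (ENNReal.ofReal (critExp N)) (volume.restrict Ω) ≤ ENNReal.ofReal (C * ‖u.2‖) := by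
  have hq := critExp_gt hN
  set q : ℝ≥0 := ⟨critExp N, by linarith⟩ with hqdef
  have hqe : ENNReal.ofReal (critExp N) = q := by
    rw [hqdef]; exact ENNReal.ofReal_eq_coe_nnreal _
  have hNr : (2:ℝ) < N := by exact_mod_cast hN
  obtain ⟨CS, hCS⟩ : ∃ C : ℝ≥0, ∀ φ : EuclideanSpace ℝ (Fin N) → ℝ, ContDiff ℝ 1 φ →
      HasCompactSupport φ → eLpNorm φ q volume ≤ C * eLpNorm (fderiv ℝ φ) 2 volume := by
    refine ⟨_, fun φ h1 h2 => eLpNorm_le_eLpNorm_fderiv_of_eq_inner (p := 2) (p' := q) volume h1 h2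
      (by norm_num) ?_ ?_⟩
    · simp; omega
    · have hqr : (q : ℝ) = critExp N := rfl
      have h2' : (((2 : ℝ≥0)⁻¹ : ℝ≥0) : ℝ) = 2⁻¹ := by push_cast; rfl
      rw [hqr, h2', finrank_euclideanSpace, Fintype.card_fin]
      unfold critExp
      have h1 : (N:ℝ) - 2 ≠ 0 := by linarith
      have h2 : (N:ℝ) ≠ 0 := by linarith
      field_simp
  refine ⟨CS + 1, by positivity, fun u hu => ?_⟩
  have hu' : u ∈ closure (testPairs Ω) := hu
  obtain ⟨p, hp, hpu⟩ := mem_closure_iff_seq_limit.1 hu'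
  -- a.e. convergent subsequence of the first components
  have h1 : Tendsto (fun n => (p n).1) atTop (𝓝 u.1) := (continuous_fst.tendsto u).comp hpu
  have h2 : Tendsto (fun n => ‖(p n).2‖) atTop (𝓝 ‖u.2‖) :=
    ((continuous_snd.tendsto u).comp hpu).norm
  obtain ⟨ns, hns, hae⟩ := (tendstoInMeasure_of_tendsto_Lp h1).exists_seq_tendsto_ae
  rw [hqe]
  have h3 := Lp.eLpNorm_lim_le_liminf_eLpNorm (p := (q : ℝ≥0∞))
    (fun n => Lp.aestronglyMeasurable (p (ns n)).1) (u.1) hae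
  refine h3.trans ?_
  have h4 : ∀ n, eLpNorm (p n).1 q (volume.restrict Ω) ≤ ENNReal.ofReal ((CS + 1) * ‖(p n).2‖) := by
    intro n
    obtain ⟨φ, k1, k2, k3, k4, k5⟩ := hp n
    rw [eLpNorm_congr_ae k4, ENNReal.ofReal_mul (by positivity), norm_snd_test k3 k5]
    calc eLpNorm φ q (volume.restrict Ω) ≤ eLpNorm φ q volume :=
          eLpNorm_mono_measure _ Measure.restrict_le_self
      _ ≤ CS * eLpNorm (fderiv ℝ φ) 2 volume := hCS φ (k1.of_le (by simp)) k2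
      _ ≤ _ := by
          gcongr
          rw [← ENNReal.ofReal_coe_nnreal]
          exact ENNReal.ofReal_le_ofReal (by linarith)
  have h5 : Tendsto (fun n => ENNReal.ofReal ((CS + 1) * ‖(p (ns n)).2‖)) atTop
      (𝓝 (ENNReal.ofReal ((CS + 1) * ‖u.2‖))) :=
    ENNReal.tendsto_ofReal ((h2.comp hns.tendsto_atTop).const_mul _)
  rw [← h5.liminf_eq]
  exact liminf_le_liminf (Eventually.of_forall fun n => h4 (ns n))

end Pool.Agent.Helper45.Kirchhoff
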