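import Mathlib

open MeasureTheory
open scoped ContDiff Gradient

namespace Pool.Agent.Helper45.KirchhoffStatement

/-- Euclidean space `ℝ^N`. -/
abbrev RN (N : ℕ) : Type := EuclideanSpace ℝ (Fin N)

/-- The integral of `f` over `Ω` (Lebesgue measure). -/
noncomputable def integ {N : ℕ} (Ω : Set (RN N)) (f : RN N → ℝ) : ℝ := ∫ x in Ω, f x

/-- `f ∈ L²(Ω)`. -/
def MemL2 {N : ℕ} (Ω : Set (RN N)) (f : RN N → ℝ) : Prop := MemLp f 2 (volume.restrict Ω)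

/-- `F ∈ L²(Ω; ℝ^N)`. -/
def MemL2v {N : ℕ} (Ω : Set (RN N)) (F : RN N → RN N) : Prop := MemLp F 2 (volume.restrict Ω)

/-- `φ ∈ C_c^∞(Ω)`. -/
def IsTest {N : ℕ} (Ω : Set (RN N)) (φ : RN N → ℝ) : Prop :=
  ContDiff ℝ ∞ φ ∧ HasCompactSupport φ ∧ tsupport φ ⊆ Ω

/-- The squared norm `∫_Ω |F|²` of a vector field. -/
noncomputable def sqNorm {N : ℕ} (Ω : Set (RN N)) (F : RN N → RN N) : ℝ :=
  integ Ω (fun x => ‖F x‖ ^ 2)

/-- The squared `L²` distance `∫_Ω (f - g)²`. -/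
noncomputable def sqDist {N : ℕ} (Ω : Set (RN N)) (f g : RN N → ℝ) : ℝ :=
  integ Ω (fun x => (f x - g x) ^ 2)

/-- `u ∈ H¹₀(Ω)` with weak gradient `G`: the pair `(u, G)` is in the closure in `L²(Ω) × L²(Ω; ℝ^N)`
of the pairs `(φ, ∇φ)`, `φ ∈ C_c^∞(Ω)`. -/
def IsH10 {N : ℕ} (Ω : Set (RN N)) (u : RN N → ℝ) (G : RN N → RN N) : Prop :=
  MemL2 Ω u ∧ MemL2v Ω G ∧ ∀ ε : ℝ, 0 < ε → ∃ φ : RN N → ℝ, IsTest Ω φ ∧
    sqDist Ω φ u < ε ∧ sqNorm Ω (fun x => ∇ φ x - G x) < ε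

/-- The critical Sobolev exponent `2N/(N-2)`. -/
noncomputable def critExp (N : ℕ) : ℝ := 2 * N / (N - 2)

/-- The energy `a/2 ‖∇u‖² + b/4 ‖∇u‖⁴ - 1/2* ∫|u|^{2*} - lam/2 ∫(u-v)²` of `u` with gradient `G`. -/
noncomputable def energy {N : ℕ} (Ω : Set (RN N)) (a b lam : ℝ) (v : RN N → ℝ)
    (u : RN N → ℝ) (G : RN N → RN N) : ℝ :=
  a / 2 * sqNorm Ω G + b / 4 * sqNorm Ω G ^ 2
    - 1 / critExp N * integ Ω (fun x => |u x| ^ critExp N) - lam / 2 * sqDist Ω u v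

/-- `u`, with gradient `G`, is a global minimizer of the energy on `H¹₀(Ω)`. -/
def IsGlobalMinimizer {N : ℕ} (Ω : Set (RN N)) (a b lam : ℝ) (v : RN N → ℝ)
    (u : RN N → ℝ) (G : RN N → RN N) : Prop :=
  IsH10 Ω u G ∧ ∀ (w : RN N → ℝ) (W : RN N → RN N), IsH10 Ω w W →
    energy Ω a b lam v u G ≤ energy Ω a b lam v w W

/-- `u`, with gradient `G`, is a weak solution in `H¹₀(Ω)` of
`-(a + b‖∇u‖²) Δu = |u|^{2*-2} u + lam (u - v)` in `Ω`, `u = 0` on the boundary. -/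
def IsWeakSolution {N : ℕ} (Ω : Set (RN N)) (a b lam : ℝ) (v : RN N → ℝ)
    (u : RN N → ℝ) (G : RN N → RN N) : Prop :=
  IsH10 Ω u G ∧ ∀ (w : RN N → ℝ) (W : RN N → RN N), IsH10 Ω w W →
    (a + b * sqNorm Ω G) * integ Ω (fun x => inner ℝ (G x) (W x)) =
      integ Ω (fun x => |u x| ^ (critExp N - 2) * u x * w x) +
        lam * integ Ω (fun x => (u x - v x) * w x)

/-- The multiplicity property of `(a, b)` on `Ω`: for all large `lam` and every convex set `C` of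
functions in `L²(Ω)` which is `L²`-dense around `H¹₀(Ω)`, some `v ∈ C` makes the energy have at
least two global minimizers and the problem have at least three weak solutions, two of them global
minimizers. -/
def MultiplicityProperty {N : ℕ} (Ω : Set (RN N)) (a b : ℝ) : Prop :=
  ∃ Λ : ℝ, 0 < Λ ∧ ∀ lam : ℝ, Λ < lam → ∀ C : Set (RN N → ℝ), (∀ v ∈ C, MemL2 Ω v) →
    Convex ℝ C →
    (∀ (u : RN N → ℝ) (G : RN N → RN N), IsH10 Ω u G → ∀ ε : ℝ, 0 < ε → ∃ v ∈ C,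
      sqDist Ω u v < ε) →
    ∃ v ∈ C, ∃ (u₁ u₂ u₃ : RN N → ℝ) (G₁ G₂ G₃ : RN N → RN N),
      IsGlobalMinimizer Ω a b lam v u₁ G₁ ∧ IsGlobalMinimizer Ω a b lam v u₂ G₂ ∧
      IsWeakSolution Ω a b lam v u₁ G₁ ∧ IsWeakSolution Ω a b lam v u₂ G₂ ∧
      IsWeakSolution Ω a b lam v u₃ G₃ ∧
      0 < sqDist Ω u₁ u₂ ∧ 0 < sqDist Ω u₁ u₃ ∧ 0 < sqDist Ω u₂ u₃

end Pool.Agent.Helper45.KirchhoffStatement
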